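import Pool.Agent.RSF.Stmts4
import Pool.Agent.Lib_helper13.Expand

/-!
# Characters of `GL_n(q)` and split semisimple elements: statements of the modules

MP_5b5212_al, genus `0`. Part A: for every irreducible character `X` of `GL_n(q)` with `X(1) ≠ 1` and
every split semisimple `x` with at most `m` eigenvalues, of multiplicities `n_1, …, n_m`,
`|X(x)| ≤ q ^ ((∑ n_i ^ 2 - n ^ 2 / m) / 2) * X(1) ^ (1 / m + ε)`, `n ≥ r(ε)`, all `q` (`S_FL`); the
sum of the `X(1) ^ (-s)` over the nonlinear `X` is at most `(q - 1) q ^ (- c n)` (`S_ZET`); and the number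
of tuples in given classes with a given scalar product (`S_FRO`).

`S_X` is the statement of module `X`, `M_X` the implication that the module proves (`M_X := S_X` if
absent). Module `X` is the file `Pool/Agent/FLC/X.lean`, with the theorem `FLC.t_X : M_X` (or `S_X`).
Positions `i : Fin n` are `0, …, n - 1`. `q = Nat.card F`.
-/

namespace FLC

open Pool.Agent.Lib_helper13 RSF

noncomputable section

/-! ## Definitions -/

open Classical in
/-- the multiplicity of the linear character `θ` of `H` in the restriction of `X` to `H` -/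
def mlt {G : Type} [Group G] [Fintype G] (H : Subgroup G) (θ X : G → ℂ) : ℂ :=
  (∑ g : G, if g ∈ H then X g * (θ g)⁻¹ else 0) / Nat.card H

/-- `θ` restricts to a linear character of `H` -/
def LC {G : Type} [Group G] (H : Subgroup G) (θ : G → ℂ) : Prop :=
  θ 1 = 1 ∧ ∀ g ∈ H, ∀ h ∈ H, θ (g * h) = θ g * θ h

open Classical in
/-- the unitriangular matrices `u` with `u i j = 0` for `i < j` with `d i = d j` -/
def US (n : ℕ) (F : Type) [Field F] [Fintype F] (d : ℕ → ℕ) : Finset (Matrix (Fin n) (Fin n) F) :=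
  Finset.univ.filter fun u => (∀ i, u i i = 1) ∧ (∀ i j, j < i → u i j = 0) ∧
    ∀ i j : Fin n, i < j → d i = d j → u i j = 0

/-- the sum of the entries `(j - 1, j)`, `j ∈ S` -/
def sd {n : ℕ} {F : Type} [Field F] (S : Finset ℕ) (u : Matrix (Fin n) (Fin n) F) : F :=
  ∑ i : Fin n, ∑ j : Fin n, if i.val + 1 = j.val ∧ j.val ∈ S then u i j else 0

/-- the average of `Y` times the conjugate of the character `u ↦ ψ (sd S u)` over `US n F d` -/
def av {n : ℕ} {F : Type} [Field F] [Fintype F] (ψ : AddChar F ℂ) (d : ℕ → ℕ) (S : Finset ℕ)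
    (Y : Matrix (Fin n) (Fin n) F → ℂ) : ℂ :=
  (∑ u ∈ US n F d, Y u * ψ (-(sd S u))) / ((US n F d).card : ℂ)

/-- the same over the group of all unitriangular matrices -/
def mS {n : ℕ} {F : Type} [Field F] [Fintype F] (ψ : AddChar F ℂ) (S : Finset ℕ)
    (Y : Matrix (Fin n) (Fin n) F → ℂ) : ℂ :=
  av ψ (fun i => i) S Y

/-- `Y` is invariant under conjugation by the matrices with last row `(0, …, 0, 1)` -/
def Pinv {n : ℕ} {F : Type} [Field F] (Y : Matrix (Fin n) (Fin n) F → ℂ) : Prop :=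
  ∀ h : GL (Fin n) F,
    (∀ i j : Fin n, i.val + 1 = n → (h : Matrix (Fin n) (Fin n) F) i j = if i = j then 1 else 0) →
    ∀ A, Y ((h : Matrix (Fin n) (Fin n) F) * A * ((h⁻¹ : GL (Fin n) F) : Matrix (Fin n) (Fin n) F)) =
      Y A

/-- `Y` is invariant under conjugation -/
def Cls {n : ℕ} {F : Type} [Field F] (Y : Matrix (Fin n) (Fin n) F → ℂ) : Prop :=
  ∀ (h : GL (Fin n) F) (A : Matrix (Fin n) (Fin n) F),
    Y ((h : Matrix (Fin n) (Fin n) F) * A * ((h⁻¹ : GL (Fin n) F) : Matrix (Fin n) (Fin n) F)) =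
      Y A

open Classical in
/-- extension by `0` to all matrices -/
def xm {n : ℕ} {F : Type} [Field F] (X : GL (Fin n) F → ℂ) : Matrix (Fin n) (Fin n) F → ℂ :=
  fun A => if h : IsUnit A then X h.unit else 0

/-- the number of `r < i` in the block of `i` -/
def w (d : ℕ → ℕ) (i : ℕ) : ℕ := ((Finset.range i).filter fun r => d r = d i).card

/-- number of pairs in the same block -/
def bb (d : ℕ → ℕ) (n : ℕ) : ℕ :=
  ((Finset.range n ×ˢ Finset.range n).filter fun p => d p.1 = d p.2).card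

/-- the number of consecutive elements of `S` that end at `i` -/
def ht (S : Finset ℕ) : ℕ → ℕ
  | 0 => 0
  | i + 1 => if i + 1 ∈ S then ht S i + 1 else 0

/-- the number of positions of height `t` (the number of parts larger than `t`) -/
def cc (S : Finset ℕ) (n t : ℕ) : ℕ := ((Finset.range n).filter fun i => ht S i = t).card

/-- `∑ t, (number of parts larger than t) ^ 2` -/
def Q (S : Finset ℕ) (n : ℕ) : ℕ := ∑ t ∈ Finset.range n, cc S n t ^ 2

/-- The positions that are not the start of a part, for the composition `μ`. -/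
def sS : List ℕ → Finset ℕ
  | [] => ∅
  | a :: l => Finset.Ioo 0 a ∪ (sS l).image fun i => a + i

/-- reflection of the part of `S` between `p` and `p + c` -/
def rf (p c : ℕ) (S : Finset ℕ) : Finset ℕ :=
  (S.filter fun i => i ≤ p ∨ p + c ≤ i) ∪
    (S.filter fun i => p < i ∧ i < p + c).image fun i => 2 * p + c - i

/-- the matrices whose first `K` columns are those of the identity matrix -/
def HK (n : ℕ) (F : Type) [Field F] (K : ℕ) : Subgroup (GL (Fin n) F) where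
  carrier := {g | ∀ j : Fin n, j.val < K →
    (g : Matrix (Fin n) (Fin n) F).mulVec (Pi.single j 1) = Pi.single j 1}
  one_mem' := by
    intro j _
    change (1 : Matrix (Fin n) (Fin n) F).mulVec (Pi.single j 1) = Pi.single j 1
    rw [Matrix.one_mulVec]
  mul_mem' := by
    intro a b ha hb j hj
    have h1 := ha j hj
    have h2 := hb j hj
    simp only [Matrix.GeneralLinearGroup.coe_mul]
    rw [← Matrix.mulVec_mulVec, h2, h1]
  inv_mem' := by
    intro a ha j hj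
    have h1 := ha j hj
    have h2 : ((a⁻¹ : GL (Fin n) F) : Matrix (Fin n) (Fin n) F) * (a : Matrix (Fin n) (Fin n) F) = 1 := by
      rw [← Matrix.GeneralLinearGroup.coe_mul, inv_mul_cancel]
      rfl
    change ((a⁻¹ : GL (Fin n) F) : Matrix (Fin n) (Fin n) F).mulVec (Pi.single j 1) = Pi.single j 1
    conv_lhs => rw [← h1]
    rw [Matrix.mulVec_mulVec, h2, Matrix.one_mulVec]

/-- the linear character `g ↦ l (det g)` -/
def ld {n : ℕ} {F : Type} [Field F] (l : Fˣ →* ℂˣ) : GL (Fin n) F → ℂ :=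
  fun g => (l (Matrix.GeneralLinearGroup.det g) : ℂ)

/-- the dimension of the eigenspace -/
def ev {n : ℕ} {F : Type} [Field F] (A : Matrix (Fin n) (Fin n) F) (z : F) : ℕ :=
  Module.finrank F (LinearMap.ker (Matrix.toLin' A - z • LinearMap.id))

/-- the sum of the squares of the dimensions of the eigenspaces -/
def sq {n : ℕ} {F : Type} [Field F] [Fintype F] (A : Matrix (Fin n) (Fin n) F) : ℕ :=
  ∑ z : F, ev A z ^ 2

/-- `sq x - n ^ 2 / m` -/
def dl {n : ℕ} {F : Type} [Field F] [Fintype F] (m : ℕ) (A : Matrix (Fin n) (Fin n) F) : ℝ :=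
  (sq A : ℝ) - (n : ℝ) ^ 2 / m

/-! ## 1. Finite groups -/

/-- **MN**. Multiplicities are natural numbers. `mlt H θ X` is `ip` (on the group `H`) of the
restriction of `X` and of `θ`, which is a character of `H` (`IsChr.comp`, `IsChr.exists_ip`;
`(θ h)⁻¹ = θ h⁻¹`). For the linear character: the representation on `Fin 1 → ℂ` by scalars. The last claim:
norms of character values (`‖X g‖ ≤ X 1`, sums of roots of unity), and `= ` for central `z` and
irreducible `X` (`X (z g)` is `X g` times a root of unity; Schur). -/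
def S_MN : Prop :=
  ∀ (G : Type) [Group G] [Fintype G] (X : G → ℂ), IsChr X →
    (∀ (H : Subgroup G) (θ : G → ℂ), LC H θ → ∃ k : ℕ, mlt H θ X = k) ∧
    (∃ k : ℕ, X 1 = k) ∧ (∀ g, ‖X g‖ ≤ ‖X 1‖) ∧
    (IsIrr X → ∀ z : G, (∀ g, z * g = g * z) → ‖X z‖ = ‖X 1‖)

/-- **DC**. The double coset bound. By `class_fn_expand` (second orthogonality)
`∑ X, X a * X b⁻¹` is `0` if `a`, `b` are not conjugate and the order of the centraliser otherwise, i.e.
the number of `g` with `g * b * g⁻¹ = a` (expand the class function number of `g` with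
`g * x * g⁻¹ = a`): `ip f X = (∑ g, X (g⁻¹ a⁻¹ g)) / |G| = X a⁻¹`). So (`(ψ k)⁻¹` conjugated, the multiplicities
are real) `∑ X, mlt H θ X * mlt K ψ X = (1/|H||K|) ∑ over the (g, h, k), h = g k g⁻¹, of θ(h)⁻¹ ψ(k)`, of
absolute value at most `(1/|H||K|) ∑ g, |H ∩ g K g⁻¹| = ∑ g, 1 / |H g K|`, the number of double cosets, at
most `R.card`. (`|H g K| |H ∩ g K g⁻¹| = |H| |K|`; `|θ h| = 1`.) -/
def S_DC : Prop :=
  ∀ (G : Type) [Group G] [Fintype G] (H K : Subgroup G) (θ ψ : G → ℂ) (R : Finset G),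
    LC H θ → LC K ψ → (∀ g : G, ∃ h ∈ H, ∃ k ∈ K, h * g * k ∈ R) →
    ∑ X ∈ irrF G, (mlt H θ X).re * (mlt K ψ X).re ≤ R.card

def M_DC : Prop := S_MN → S_DC

/-- **IRC**. The irreducible characters are linearly independent class functions
(`class_fn_expand`, `ip_self`, `ip_ne`), so at most the number of classes. -/
def S_IRC : Prop :=
  ∀ (G : Type) [Group G] [Fintype G], (irrF G).card ≤ Nat.card (ConjClasses G)

/-- **FRB**, Frobenius' formula. For irreducible `X` and a class function `f` the element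
`∑ x, f x • ρ x` acts as the scalar `(∑ x, f x X x) / X 1` (Lib_helper13.Central, `exists_scalar`), so for
`N_g = number of t with t j ~ y j and product g`: `(∑ g, N_g X g) / X 1 = ∏ j, |cl (y j)| X (y j) / X 1`; then
`class_fn_expand` for the class function `g ↦ N_g` (`ip N X⁻ ..`: use `∑ g, N_g X' g⁻¹` with
`X' = X ∘ inv`, also irreducible, or expand `g ↦ N_{g⁻¹}`). Another way: induction on the number of
classes with `∑ x ∈ cl y, X (x g) = |cl y| X y X g / X 1`. -/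
def S_FRB : Prop :=
  ∀ (G : Type) [Group G] [Fintype G] (k : ℕ) (y : Fin k → G) (g : G),
    (Nat.card {t : Fin k → G // (∀ j, IsConj (y j) (t j)) ∧ (List.ofFn t).prod = g} : ℂ) *
        Nat.card G =
      (∏ j, (Nat.card {t : G // IsConj (y j) t} : ℂ)) *
        ∑ X ∈ irrF G, (∏ j, X (y j) / X 1) * X g⁻¹ * X 1

/-- **NRU**. Let `V` be the representation, `e = (1/|U|) ∑ u, ρ u`, a projection on the fixed space `V^U`;
`ρ x` commutes with `e`, and `X x = (1/|U|) ∑ u, X (x u) = trace (ρ x e)` is the trace of `ρ x` on `V^U`,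
`x` has finite order, so its norm is at most `dim V^U = trace e = mlt U 1 X`. (`V^U` is a
representation of the group generated by `x`; `S_MN`, third claim.) -/
def S_NRU : Prop :=
  ∀ (G : Type) [Group G] [Fintype G] (X : G → ℂ) (U : Subgroup G) (x : G), IsChr X →
    (∀ u ∈ U, x * u * x⁻¹ ∈ U) → (∀ u ∈ U, X (x * u) = X x) →
    ‖X x‖ ≤ (mlt U (fun _ => 1) X).re

def M_NRU : Prop := S_MN → S_NRU

/-! ## 2. Unitriangular matrices -/

/-- **DIM**, the mirabolic chain. Induction on `n` (for all `Y`, `S0`). Let `Y` be on matrices of size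
`n + 1`, `q = |F|`. A matrix in `US (n+1) F d` is `[u v; 0 1]`, `u ∈ US n F d`, `v ∈ F^n`, `v r = 0` if
`d r = d n`. For `ε ∈ {0, 1}` put `Y_ε g = q^(-n) ∑_{v ∈ F^n} Y [g v; 0 1] ψ(-ε v_{n-1})`; it is `Pinv`:
for `h` with last row `(0..0 1)`, `[h g h⁻¹, v; 0 1] = diag(h,1) [g, h⁻¹ v; 0 1] diag(h,1)⁻¹` and
`(h⁻¹ v)_{n-1} = v_{n-1}`. By definition `mS ψ T Y = mS ψ T Y_ε`, `ε = 1` iff `n ∈ T` (`n ≥ 1`).
(a) `w d n = 0`: `v` is arbitrary, `av ψ d S0 Y = av ψ d S0 Y_ε`, `ε = 1` iff `n ∈ S0`.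
(b) `w d n = k > 0`: then `n ∉ S0`; the rows `r` with `d r = d n` are the last `k` ones (`Monotone`),
`p = n - k`. Fourier analysis on `F^n / F^p`: the average of `f v` over the `v` supported on the first
`p` rows is the sum over the `y ∈ F^n` supported on the last `k` rows of `q^(-n) ∑_v f v ψ(-y·v)`.
`y = 0` gives `av ψ d S0 Y_0`. For `y ≠ 0` let `g = diag(1_p, g')` be invertible with last row `y`; conjugate
`[u v; 0 1]` by `diag(g,1)` (allowed by `Pinv`): `[g u g⁻¹, g v; 0 1]`, `y·v = (g v)_{n-1}`; `u ↦ g u g⁻¹` is a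
bijection of `US n F d` and does not change `sd S0 u` (`d i ≠ d n`, so `i < p`, for `i ∈ S0`, `i < n`). So
every `y ≠ 0` gives `av ψ d S0 Y_1`, and `av ψ d S0 Y = av ψ d S0 Y_0 + (q^k - 1) av ψ d S0 Y_1`. -/
def S_DIM : Prop :=
  ∀ (F : Type) [Field F] [Fintype F] (ψ : AddChar F ℂ), ψ ≠ 1 → ∀ (d : ℕ → ℕ), Monotone d →
    ∀ (n : ℕ) (S0 : Finset ℕ), (∀ i ∈ S0, ∀ j, j ≠ i → d j ≠ d i) →
    ∀ Y : Matrix (Fin n) (Fin n) F → ℂ, Pinv Y →
      av ψ d S0 Y = ∑ S ∈ ((Finset.range n).filter fun i => 0 < w d i).powerset,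
        (∏ i ∈ S, ((Nat.card F : ℂ) ^ w d i - 1)) * mS ψ (S0 ∪ S) Y

/-- **REF**, reflection. Let `T u` be `u` with the middle block (rows and columns `p, …, p+c-1`)
replaced by its reflection in the antidiagonal, `(T u) i j = u (σ j) (σ i)`, `σ i = 2 p + c - 1 - i`, for
`i`, `j` in the middle. `T` is an involution of `US n F id`, and `sd S (T u) = sd (rf p c S) u` (as `p`, `p + c`
are not in `S`). Let `N` be the group of the unitriangular `ν` with `ν i j = 0` for `i ≠ j` unless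
`i < p ≤ j` or `i < p + c ≤ j`; `Z u = |N|⁻¹ ∑_{ν ∈ N} Y (u ν)`. `sd S (u ν) = sd S u`, so
`mS ψ S Y = mS ψ S Z` (and for `rf p c S`). Every matrix is conjugate to its transpose
(`Pool.Agent.GTD`, `TRSP.lean`, `thm_TRSP`), hence (permutation matrix) to its reflection in the
antidiagonal: the middle block of `T u` is `g M g⁻¹`, `M` the middle block of `u`, and with
`h = diag(1,g,1)`, `T u ∈ h u h⁻¹ N`, `h N h⁻¹ = N`, so `Z (T u) = Z u`. Substitute `u = T u'`. -/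
def S_REF : Prop :=
  ∀ (F : Type) [Field F] [Fintype F] (ψ : AddChar F ℂ) (n p c : ℕ) (S : Finset ℕ), p + c ≤ n →
    p ∉ S → p + c ∉ S → ∀ Y : Matrix (Fin n) (Fin n) F → ℂ, Cls Y → mS ψ S Y = mS ψ (rf p c S) Y

/-- **PER**. `sS (l ++ [b, a] ++ r) = rf l.sum (a + b) (sS (l ++ [a, b] ++ r))`, and `l.sum`, `l.sum + a + b`
are not in it. Prove for `μ`, `ν` with `μ.Perm ν`: for all `l`, `mS (sS (l ++ μ)) = mS (sS (l ++ ν))`, by
induction on `List.Perm`. -/
def S_PER : Prop :=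
  ∀ (F : Type) [Field F] [Fintype F] (ψ : AddChar F ℂ) (n : ℕ) (μ ν : List ℕ), μ.Perm ν →
    (∀ a ∈ μ, 1 ≤ a) → μ.sum = n → ∀ Y : Matrix (Fin n) (Fin n) F → ℂ, Cls Y →
    mS ψ (sS μ) Y = mS ψ (sS ν) Y

def M_PER : Prop := S_REF → S_PER

/-- **LST**, combinatorics of compositions. First: existence of the composition. Second: number of
positions of height `t`. Third: `∑ i ∈ sS μ, i` for nondecreasing `μ`: the pairs `(i', i)`, `i' < i`, of
positions of the same height `t` inject into the pairs `(i', i₀)`, `i' < i₀`, `i₀ ∉ S`, by `i₀ = i - t`; this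
is a bijection if the lengths of the parts are nondecreasing. So
`∑_{i<n, i ∉ S} i = ∑_t cc t (cc t - 1) / 2 = (Q - n) / 2`, and `∑_{i<n} i = n (n-1) / 2`. Fourth: the
number of elements. -/
def S_LST : Prop :=
  (∀ (n : ℕ) (S : Finset ℕ), S ⊆ Finset.Ioo 0 n →
    ∃ μ : List ℕ, (∀ a ∈ μ, 1 ≤ a) ∧ μ.sum = n ∧ sS μ = S) ∧
  (∀ μ : List ℕ, (∀ a ∈ μ, 1 ≤ a) → ∀ t, cc (sS μ) μ.sum t = (μ.filter (fun a => t < a)).length) ∧
  (∀ μ : List ℕ, (∀ a ∈ μ, 1 ≤ a) → μ.Pairwise (· ≤ ·) →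
    2 * ∑ i ∈ sS μ, i + Q (sS μ) μ.sum = μ.sum ^ 2) ∧
  (∀ μ : List ℕ, (∀ a ∈ μ, 1 ≤ a) → (sS μ).card + μ.length = μ.sum ∧ sS μ ⊆ Finset.Ioo 0 μ.sum)

/-- **INJ**. First claim: `cc^s t` the number of positions of height `t` in the block `s`. The pairs
`(i', i)`, `i' < i`, with the same height `t` and the same block inject into the pairs `(i', i₀)`,
`i' < i₀`, the same block, `i₀ ∉ S`, by `i₀ = i - t` (`i₀ + 1, …, i` are in `S`, so not starts of blocks, so
`d i₀ = d i`; `i' < i₀` as otherwise `i'` would have a smaller height than `i`). So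
`∑_{i ∈ S} w i = ∑_i w i - ∑_{i ∉ S} w i ≤ (bb - n)/2 - (∑_{s,t} (cc^s t)^2 - n)/2`, and
`(cc t)^2 ≤ m ∑_s (cc^s t)^2` by Cauchy-Schwarz. Second claim: `cc t ≤ cc 0 = n - |S|`, `∑ cc t = n`. -/
def S_INJ : Prop :=
  (∀ (n m : ℕ) (d : ℕ → ℕ) (S : Finset ℕ), Monotone d → ((Finset.range n).image d).card ≤ m →
    (S ⊆ (Finset.range n).filter fun i => 0 < w d i) →
    m * (2 * ∑ i ∈ S, w d i) + Q S n ≤ m * bb d n) ∧
  ∀ (n : ℕ) (S : Finset ℕ), S ⊆ Finset.Ioo 0 n → Q S n + n * S.card ≤ n ^ 2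

/-- **SRT**. First: `S` belongs to a composition `μ` (`S_LST`); sort it (`List.mergeSort`,
`Multiset.sort`), `S_PER`; `Q` does not change because `cc` does not (`S_LST`, second). Second: sort in
decreasing order, `K` the sum of the parts `≥ 2`; `|S| = ∑ (a - 1) ≥ K / 2`. -/
def S_SRT : Prop :=
  ∀ (F : Type) [Field F] [Fintype F] (ψ : AddChar F ℂ) (n : ℕ) (S : Finset ℕ),
    S ⊆ Finset.Ioo 0 n →
    (∃ S' : Finset ℕ, S' ⊆ Finset.Ioo 0 n ∧ 2 * ∑ i ∈ S', i + Q S n = n ^ 2 ∧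
      ∀ Y : Matrix (Fin n) (Fin n) F → ℂ, Cls Y → mS ψ S' Y = mS ψ S Y) ∧
    ∃ (K : ℕ) (S' : Finset ℕ), K ≤ n ∧ K ≤ 2 * S.card ∧ S' ⊆ Finset.Ioo 0 K ∧ S'.card = S.card ∧
      ∀ Y : Matrix (Fin n) (Fin n) F → ℂ, Cls Y → mS ψ S' Y = mS ψ S Y

def M_SRT : Prop := S_PER → S_LST → S_SRT

/-- **BRG**. `US n F d` is a group of invertible matrices for `Monotone d` (`i < k < j`, `d i = d j` imply
`d i = d k`); `sd S` is additive on unitriangular matrices; the sums are the same up to the names. -/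
def S_BRG : Prop :=
  ∀ (n : ℕ) (F : Type) [Field F] [Fintype F] [DecidableEq F] (ψ : AddChar F ℂ) (d : ℕ → ℕ)
    (S : Finset ℕ), Monotone d →
    ∃ H : Subgroup (GL (Fin n) F), (∀ g, g ∈ H ↔ (g : Matrix (Fin n) (Fin n) F) ∈ US n F d) ∧
      LC H (fun g => ψ (sd S (g : Matrix (Fin n) (Fin n) F))) ∧
      ∀ X : GL (Fin n) F → ℂ,
        av ψ d S (xm X) = mlt H (fun g => ψ (sd S (g : Matrix (Fin n) (Fin n) F))) X

/-- **XMC**: for a character `X` the function `xm X` is `Cls` and `Pinv`, `xm X 1 = X 1`, and the averages are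
natural numbers. -/
def S_XMC : Prop :=
  ∀ (n : ℕ) (F : Type) [Field F] [Fintype F] [DecidableEq F] (X : GL (Fin n) F → ℂ), IsChr X →
    Cls (xm X) ∧ Pinv (xm X) ∧ xm X 1 = X 1 ∧
    (∀ g : GL (Fin n) F, xm X (g : Matrix (Fin n) (Fin n) F) = X g) ∧
    ∀ (ψ : AddChar F ℂ) (d : ℕ → ℕ) (S : Finset ℕ), Monotone d → ∃ k : ℕ, av ψ d S (xm X) = k

def M_XMC : Prop := S_MN → S_BRG → S_XMC

/-- **LOW**. `S'` from `S_SRT` (first); `S_DIM` with `d = 0`, `S0 = ∅` (`w 0 i = i`, `av = X 1`): all terms are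
`≥ 0`, the term of `S'` is `mS ψ S X * ∏_{i ∈ S'} (q^i - 1) ≥ mS ψ S X * q^(∑ S') * ∏_{i ≥ 1} (1 - q^(-i))`, and
the last product is `≥ 1/4` (`RSF.S_PI`). -/
def S_LOW : Prop :=
  ∀ (n : ℕ) (F : Type) [Field F] [Fintype F] [DecidableEq F] (ψ : AddChar F ℂ), ψ ≠ 1 →
    ∀ (X : GL (Fin n) F → ℂ), IsChr X → ∀ S : Finset ℕ, S ⊆ Finset.Ioo 0 n →
    (mS ψ S (xm X)).re * (Nat.card F : ℝ) ^ (((n : ℝ) ^ 2 - Q S n) / 2) ≤ 4 * (X 1).re

def M_LOW : Prop := S_DIM → S_SRT → S_XMC → RSF.S_PI → S_LOW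

/-! ## 3. Semisimple elements -/

/-- **SEM**. `X^m - 1` splits into different linear factors, so `F^n` is the direct sum of the
eigenspaces of `x`; order a basis of eigenvectors by the eigenvalues. -/
def S_SEM : Prop :=
  ∀ (n m : ℕ) (F : Type) [Field F] [Fintype F] [DecidableEq F] (x : GL (Fin n) F), 1 ≤ m →
    m ∣ Nat.card F - 1 → x ^ m = 1 →
    ∃ (d : ℕ → ℕ) (ζ : ℕ → F) (y : GL (Fin n) F), Monotone d ∧
      (∀ i j, d i ≠ d j → ζ (d i) ≠ ζ (d j)) ∧ ((Finset.range n).image d).card ≤ m ∧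
      bb d n = sq (x : Matrix (Fin n) (Fin n) F) ∧ IsConj x y ∧
      (y : Matrix (Fin n) (Fin n) F) = Matrix.diagonal fun i : Fin n => ζ (d i)

/-- **CHB**. Let `U` be the group of `S_BRG`. For `u ∈ U` the matrix `y u` is conjugate to `y` (by an element of
`U`; e.g. the map `u ↦ u⁻¹ (y u y⁻¹) ..` is injective: `v y v⁻¹ = y (y⁻¹ v y) v⁻¹`, and
`v ↦ (y⁻¹ v y) v⁻¹` is an injective map of the finite group `U` to itself because no element of `U`
except `1` commutes with `y`). `S_NRU`. -/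
def S_CHB : Prop :=
  ∀ (n : ℕ) (F : Type) [Field F] [Fintype F] [DecidableEq F] (ψ : AddChar F ℂ)
    (X : GL (Fin n) F → ℂ) (d : ℕ → ℕ) (ζ : ℕ → F) (y : GL (Fin n) F), IsChr X → Monotone d →
    (∀ i j, d i ≠ d j → ζ (d i) ≠ ζ (d j)) →
    (y : Matrix (Fin n) (Fin n) F) = (Matrix.diagonal fun i : Fin n => ζ (d i)) →
    ‖X y‖ ≤ (av ψ d ∅ (xm X)).re

def M_CHB : Prop := S_NRU → S_BRG → S_XMC → S_CHB

/-! ## 4. Multiplicities -/

/-- **HV**. Let `V` be the representation. By `S_SRT` (second) we may assume `S ⊆ Ioo 0 K`, `K ≤ 2 |S|`. Let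
`d i = min i K`; the group `N` of `S_BRG` for `d` is that of the `[u B; 0 1]`, `u` unitriangular of size `K`;
`V₁` the space of the `v` with `ρ(x) v = ψ (sd S x) v` for all `x ∈ N`, of dimension `av ψ d S (xm X)`. It is
invariant under `GL_(n-K)` (embedded as `diag(1, g)`: it normalizes `N` and does not change `sd S`). By
`S_DIM` (`S0 = S`) the dimension is the sum over `S₁ ⊆ {K+1, …, n-1}` of
`∏ (q^(i-K) - 1) * mS ψ (S ∪ S₁) (xm X)`, and only `S₁ = ∅` gives something. So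
`dim V₁ = mS ψ S (xm X) ≠ 0`, which is the dimension of the space of the `v ∈ V` with `ρ(x) v = ψ (sd S x) v` for
all unitriangular `x`, a subspace of `V₁`. So the unitriangular matrices of size `n - K` act
trivially on `V₁`, also their conjugates in `GL_(n-K)`, hence all transvections, hence (transvections
generate `SL`, `Matrix.Pivot` / `Matrix.SpecialLinearGroup`) `SL_(n-K)`. So `GL_(n-K)` acts on `V₁` through
the determinant, by commuting operators of finite order: there is `v ≠ 0` in `V₁` and `l` with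
`ρ(diag(1,g)) v = l (det g) v`. Then `ρ(h) v = l (det h) v` for `h ∈ HK n F K` (`h = [1 B; 0 g]`), so the
multiplicity is not `0`. -/
def S_HV : Prop :=
  ∀ (n : ℕ) (F : Type) [Field F] [Fintype F] [DecidableEq F] (ψ : AddChar F ℂ), ψ ≠ 1 →
    ∀ (X : GL (Fin n) F → ℂ), IsChr X → ∀ S : Finset ℕ, S ⊆ Finset.Ioo 0 n →
    mS ψ S (xm X) ≠ 0 →
    (∀ T : Finset ℕ, T ⊆ Finset.Ioo 0 n → S.card < T.card → mS ψ T (xm X) = 0) →
    ∃ K : ℕ, K ≤ n ∧ K ≤ 2 * S.card ∧ ∃ l : Fˣ →* ℂˣ, mlt (HK n F K) (ld l) X ≠ 0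

def M_HV : Prop := S_DIM → S_SRT → S_BRG → S_XMC → S_HV

/-- **BR1**, Bruhat decomposition: every invertible `g` is `u` times a monomial matrix times `v`, `u`, `v` upper
unitriangular. Induction on the size: take the last nonzero entry of the first column, clear the
entries above it by row operations (adding a lower row to a higher one) and the entries to the right
of it in its row by column operations (adding the first column to the others); delete this row and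
column. There are `n! (q-1)^n` monomial matrices. -/
def S_BR1 : Prop :=
  ∀ (n : ℕ) (F : Type) [Field F] [Fintype F] [DecidableEq F],
    ∃ R : Finset (GL (Fin n) F), R.card ≤ n.factorial * (Nat.card F - 1) ^ n ∧
      ∀ g : GL (Fin n) F, ∃ h k : GL (Fin n) F,
        (h : Matrix (Fin n) (Fin n) F) ∈ US n F (fun i => i) ∧
        (k : Matrix (Fin n) (Fin n) F) ∈ US n F (fun i => i) ∧ h * g * k ∈ R

/-- **BR2**. The coset `g HK` is determined by the first `K` columns of `g` (an `n × K` matrix `M`). If row `i` of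
`M` is in the span of the rows below, it can be cleared by an upper unitriangular matrix; at most `K` rows
are not (rank). So every orbit contains a matrix with nonzero rows only at the places of a set of `K`
places: at most `n^K q^(K^2)` such matrices (functions `Fin K → Fin n` for the places). -/
def S_BR2 : Prop :=
  ∀ (n K : ℕ) (F : Type) [Field F] [Fintype F] [DecidableEq F], K ≤ n →
    ∃ R : Finset (GL (Fin n) F), R.card ≤ n ^ K * Nat.card F ^ (K ^ 2) ∧
      ∀ g : GL (Fin n) F, ∃ h k : GL (Fin n) F,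
        (h : Matrix (Fin n) (Fin n) F) ∈ US n F (fun i => i) ∧ k ∈ HK n F K ∧ h * g * k ∈ R

/-- **BR3**. The double coset of `g` is determined by the upper `K × K` block `M₁` of the first `K` columns and
the row space of the lower block `M₂` (a subspace of `F^K`, at most `q^(K^2)` subspaces): if
`M₂' = D M₂` with `D` invertible then `diag(1, D) g` and `g'` have the same first `K` columns. -/
def S_BR3 : Prop :=
  ∀ (n K : ℕ) (F : Type) [Field F] [Fintype F] [DecidableEq F], K ≤ n →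
    ∃ R : Finset (GL (Fin n) F), R.card ≤ Nat.card F ^ (2 * K ^ 2) ∧
      ∀ g : GL (Fin n) F, ∃ h ∈ HK n F K, ∃ k ∈ HK n F K, h * g * k ∈ R

/-- **MB**. (1) `S_DC` with `H = K` the unitriangular group (`S_BRG`, `d = id`) and `S_BR1`: the term of `X` in the
sum is `(mS ψ S (xm X)) ^ 2`, the others are `≥ 0`. (2) `S_DC` with the unitriangular group and `HK n F K`,
`S_BR2`; the multiplicity in `HK` is a natural number `≠ 0`. (3) `S_DC` with `H = K = HK n F K` and `S_BR3`: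
all terms with nonzero multiplicity are at least `1`. -/
def S_MB : Prop :=
  ∀ (n : ℕ) (F : Type) [Field F] [Fintype F] [DecidableEq F] (ψ : AddChar F ℂ),
    (∀ (X : GL (Fin n) F → ℂ), IsIrr X → ∀ S : Finset ℕ,
      (mS ψ S (xm X)).re ^ 2 ≤ (n.factorial : ℝ) * (Nat.card F : ℝ) ^ n ∧
      ∀ (K : ℕ) (l : Fˣ →* ℂˣ), K ≤ n → mlt (HK n F K) (ld l) X ≠ 0 →
        (mS ψ S (xm X)).re ≤ (n : ℝ) ^ K * (Nat.card F : ℝ) ^ (K ^ 2)) ∧
    ∀ (K : ℕ) (l : Fˣ →* ℂˣ), K ≤ n →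
      ∀ A : Finset (GL (Fin n) F → ℂ), (∀ X ∈ A, IsIrr X ∧ mlt (HK n F K) (ld l) X ≠ 0) →
        A.card ≤ Nat.card F ^ (2 * K ^ 2)

def M_MB : Prop := S_MN → S_DC → S_BRG → S_XMC → S_BR1 → S_BR2 → S_BR3 → S_MB

/-- **STR**, the level `j` of `X`: the largest `|S|` with `mS ψ S (xm X) ≠ 0` (exists: `S_DIM` with `d = 0`: `X 1`
is the sum of multiples of the `mS ψ S (xm X)`; `ψ` any nontrivial additive character,
`AddChar.exists_ne_one` or the like). (1) `S_LOW` for this `S` and `S_INJ` (second):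
`(n^2 - Q)/2 ≥ n j / 2`, and `mS ≥ 1`. (2) `S_HV`. (3) `S_MB`, `S_HV`. (5) if `j = 0` then `K = 0`, `HK n F 0` is
the whole group and `X = ld l` (orthogonality). Conversely `ld l` has degree `1`. -/
def S_STR : Prop :=
  ∀ (n : ℕ) (F : Type) [Field F] [Fintype F] [DecidableEq F],
    ∃ (ψ : AddChar F ℂ) (j : (GL (Fin n) F → ℂ) → ℕ), ψ ≠ 1 ∧ ∀ X : GL (Fin n) F → ℂ, IsIrr X →
      (Nat.card F : ℝ) ^ ((n : ℝ) * j X / 2) ≤ 4 * (X 1).re ∧
      (∃ K : ℕ, K ≤ n ∧ K ≤ 2 * j X ∧ ∃ l : Fˣ →* ℂˣ, mlt (HK n F K) (ld l) X ≠ 0) ∧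
      (∀ S : Finset ℕ, S ⊆ Finset.Ioo 0 n → mS ψ S (xm X) ≠ 0 → S.card ≤ j X) ∧
      (∀ S : Finset ℕ, S ⊆ Finset.Ioo 0 n →
        (mS ψ S (xm X)).re ^ 2 ≤ (n.factorial : ℝ) * (Nat.card F : ℝ) ^ n ∧
        (mS ψ S (xm X)).re ≤ (n : ℝ) ^ (2 * j X) * (Nat.card F : ℝ) ^ (4 * j X ^ 2)) ∧
      (j X = 0 → ∃ l : Fˣ →* ℂˣ, X = ld l)

def M_STR : Prop := S_DIM → S_XMC → S_LOW → S_INJ → S_HV → S_MB → S_STR

/-! ## 5. The character bound, the zeta sum, the count -/

/-- **FLN**, the numerical part of `S_FL`: `q ≥ 2`, `j ≥ 1`, `D = X(1)`, `B` a bound for the multiplicities.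
Take logarithms to the base `q`; `log_q n ≤ log_2 n`. `η = ε / 200`. `D ≥ q^(n j / 2) / 4`.
`n^j ≤ D^(ε/3)`: `j log_2 n ≤ (ε/3) (n j / 2 - 2)`. `4 ≤ D^(ε/3)`. `B ≤ D^(ε/3)`: if `j ≤ η n` then
`B ≤ n^(2j) q^(4 j^2) ≤ n^(2j) q^(4 η n j)`; if `j > η n` then `B ≤ (n! q^n)^(1/2) ≤ q^(n log_2 n + n)` and
`n j / 2 ≥ η n^2 / 2`. -/
def S_FLN : Prop :=
  ∀ ε : ℝ, 0 < ε → ∃ r : ℕ, ∀ n : ℕ, r ≤ n → ∀ (q j : ℕ) (D B : ℝ), 2 ≤ q → 1 ≤ j → 0 ≤ B →
    (q : ℝ) ^ ((n : ℝ) * j / 2) ≤ 4 * D → B ^ 2 ≤ (n.factorial : ℝ) * (q : ℝ) ^ n →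
    B ≤ (n : ℝ) ^ (2 * j) * (q : ℝ) ^ (4 * j ^ 2) →
    1 ≤ D ∧ (n : ℝ) ^ j * 4 * B ≤ D ^ ε

/-- **FL**, the character bound. `y`, `d` from `S_SEM`; `S_CHB` and `S_DIM` (`S0 = ∅`):
`‖X x‖ ≤ ∑_S q^(∑_{i∈S} w d i) mS ψ S X` over the `S` with `mS ≠ 0`, `|S| ≤ j`; there are at most `n^j` of them (`j ≥ 1`,
`n ≥ 2`). By `S_INJ` (first) `∑ w d i ≤ dl / 2 + (n^2 - Q) / (2 m)`, and with `a = mS ψ S X ≥ 1`, `S_LOW`:
`a q^((n^2-Q)/(2m)) ≤ (a q^((n^2-Q)/2))^(1/m) a ≤ (4 D)^(1/m) a`. So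
`‖X x‖ ≤ q^(dl/2) n^j 4 B D^(1/m)`, `B` the largest `mS`; `S_FLN`. If `j = 0` then `X 1 = 1`. -/
def S_FL : Prop :=
  ∀ ε : ℝ, 0 < ε → ∃ r : ℕ, ∀ n : ℕ, r ≤ n → ∀ (F : Type) [Field F] [Fintype F] [DecidableEq F]
    (X : GL (Fin n) F → ℂ), IsIrr X → X 1 ≠ 1 → ∀ (m : ℕ) (x : GL (Fin n) F), 1 ≤ m →
    m ∣ Nat.card F - 1 → x ^ m = 1 →
    ‖X x‖ ≤ (Nat.card F : ℝ) ^ (dl m (x : Matrix (Fin n) (Fin n) F) / 2) *
      (X 1).re ^ (1 / (m : ℝ) + ε)

def M_FL : Prop := S_SEM → S_CHB → S_DIM → S_INJ → S_LOW → S_XMC → S_STR → S_FLN → S_FL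

/-- **ZEN**, the numerical part of `S_ZET`: `η = s / 200`; the sum over `1 ≤ j ≤ η n` of
`(q-1) (2j+1) q^(8 j^2) (q^(n j/2) / 4)^(-s)` is at most `(q-1) q^(- s n / 8) / 2`, and
`4 q^n (q^(η n^2 / 2) / 4)^(-s)` too. -/
def S_ZEN : Prop :=
  ∀ s : ℝ, 0 < s → ∃ (c η : ℝ) (r : ℕ), 0 < c ∧ 0 < η ∧ ∀ n : ℕ, r ≤ n → ∀ q : ℕ, 2 ≤ q →
    (∑ j ∈ (Finset.Icc 1 n).filter (fun j : ℕ => (j : ℝ) ≤ η * n),
      ((q : ℝ) - 1) * (2 * j + 1) * (q : ℝ) ^ (8 * j ^ 2) *
        ((q : ℝ) ^ ((n : ℝ) * j / 2) / 4) ^ (-s)) +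
      4 * (q : ℝ) ^ n * ((q : ℝ) ^ (η * (n : ℝ) ^ 2 / 2) / 4) ^ (-s) ≤
    ((q : ℝ) - 1) * (q : ℝ) ^ (-(c * n))

/-- **ZET**, the zeta sum. Split the nonlinear `X` by the level `j ≥ 1` (`S_STR`); for `j ≤ η n` at most
`(q-1) (2j+1) q^(8 j^2)` characters have level `j` (`S_STR` (2), `K ≤ 2 j`, and `S_MB` (3), the number of `l` is
`q - 1`: the number of homomorphisms from a cyclic group of order `q - 1` to `ℂˣ` is at most `q - 1`), each with
`X 1 ≥ q^(n j/2) / 4`; for `j > η n` all characters: at most the number of classes (`S_IRC`), at most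
`4 q^n` (`RSF.S_KB`, `RSF.S_KC`). -/
def S_ZET : Prop :=
  ∀ s : ℝ, 0 < s → ∃ (c : ℝ) (r : ℕ), 0 < c ∧ ∀ n : ℕ, r ≤ n →
    ∀ (F : Type) [Field F] [Fintype F] [DecidableEq F],
    ∑ X ∈ (irrF (GL (Fin n) F)).filter (fun X => X 1 ≠ 1), (X 1).re ^ (-s) ≤
      ((Nat.card F : ℝ) - 1) * (Nat.card F : ℝ) ^ (-(c * n))

def M_ZET : Prop := S_STR → S_MB → S_IRC → RSF.S_KB → RSF.S_KC → S_ZEN → S_ZET

/-- **LIN**, the linear characters of `GL_n`, `n ≥ 5`: `X 1 = 1` implies level `0` (`q^(n j/2) ≤ 4`), so `X = ld l`;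
conversely every `ld l` is an irreducible character of degree `1`, and different `l` give different
characters (`det` is surjective). There are `q - 1` homomorphisms `l` (cyclic group; `ℂˣ` contains the roots
of unity; `card_monoidHom_of_hasEnoughRootsOfUnity` or the like). So for a class function the sum over
the `X` with `X 1 = 1` is over the `l`. -/
def S_LIN : Prop :=
  ∀ (n : ℕ), 5 ≤ n → ∀ (F : Type) [Field F] [Fintype F] [DecidableEq F]
    (f : (GL (Fin n) F → ℂ) → ℂ) (c : ℂ), (∀ l : Fˣ →* ℂˣ, f (ld l) = c) →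
    ∑ X ∈ (irrF (GL (Fin n) F)).filter (fun X => X 1 = 1), f X = ((Nat.card F : ℂ) - 1) * c

def M_LIN : Prop := S_STR → S_LIN

/-- **FRO**, the number of tuples in given classes with scalar product `z`. `S_FRB` in `GL_n` with `g = z`:
`N |GL| = ∏ |cl| (A + B)`, `A` the sum over the linear `X`: each term is
`∏ l (det y j) / l (z^n) = 1` (`S_LIN`: `A = q - 1`), `B` the sum over the others: by `S_FL` with
`ε = (σ - 2) / (2 d)` and `‖X z⁻¹‖ = X 1` (`S_MN`) each term is at most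
`q^(∑ dl / 2) X(1)^(∑ (1/m_j + ε) - d + 2) = q^(∑ dl / 2) X(1)^(-(σ - 2)/2)` in absolute value; `S_ZET`. Divide by
`q - 1` (`|GL| = (q - 1) |SL|`). -/
def S_FRO : Prop :=
  ∀ m : List ℕ, (∀ k ∈ m, 2 ≤ k) → 2 < sig m → ∃ (c : ℝ) (r : ℕ), 0 < c ∧ 1 ≤ r ∧ ∀ n, r ≤ n →
    ∀ (F : Type) [Field F] [Fintype F] [DecidableEq F], (∀ k ∈ m, k ∣ Nat.card F - 1) →
    ∀ (z : Fˣ) (y : Fin m.length → GL (Fin n) F), (∀ j, y j ^ m.get j = 1) →
      (∏ j, Matrix.GeneralLinearGroup.det (y j) = z ^ n) →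
      |(Nat.card {t : Fin m.length → GL (Fin n) F // (∀ j, IsConj (y j) (t j)) ∧
          (((List.ofFn t).prod : GL (Fin n) F) : Matrix (Fin n) (Fin n) F) =
            Matrix.scalar (Fin n) (z : F)} : ℝ) *
          Nat.card (Matrix.SpecialLinearGroup (Fin n) F) -
        ∏ j, (Nat.card {t : GL (Fin n) F // IsConj (y j) t} : ℝ)| ≤
      (∏ j, (Nat.card {t : GL (Fin n) F // IsConj (y j) t} : ℝ)) *
        (Nat.card F : ℝ) ^
          ((∑ j, dl (m.get j) (y j : Matrix (Fin n) (Fin n) F)) / 2 - c * n)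

def M_FRO : Prop := S_MN → S_FRB → S_FL → S_ZET → S_LIN → S_FRO

end

end FLC
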