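import Mathlib
import Pool.Agent.FLC.StA
import Pool.Agent.FL0.StG

/-! From `FLC.S_FRO` to `FL0.S_FRO`. -/

set_option autoImplicit false

namespace FLC

open RSF

theorem conv_sq {n : ℕ} {F : Type} [Field F] [Fintype F] (A : Matrix (Fin n) (Fin n) F) :
    FL0.sq (FL0.lm A) = sq A := by
  unfold FL0.sq sq
  rw [finsum_eq_sum_of_fintype]
  rfl

theorem conv_dl {n : ℕ} {F : Type} [Field F] [Fintype F] (k : ℕ) (A : Matrix (Fin n) (Fin n) F) :
    FL0.del k A = dl k A := by
  unfold FL0.del dl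
  rw [conv_sq]

theorem conv_prod {n d : ℕ} {F : Type} [Field F] (t : Fin d → GL (Fin n) F) :
    (((List.ofFn t).prod : GL (Fin n) F) : Matrix (Fin n) (Fin n) F) =
      (List.ofFn fun j => (t j).1).prod := by
  have h := map_list_prod (Units.coeHom (Matrix (Fin n) (Fin n) F)) (List.ofFn t)
  rw [List.map_ofFn] at h
  exact h

theorem conv_FRO (h : S_FRO) : FL0.S_FRO := by
  intro m hm hs
  obtain ⟨c, r, hc, _, h⟩ := h m hm hs
  refine ⟨c, r, hc, ?_⟩
  intro n hn F _ _ hk z hz y hy hdet
  classical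
  haveI : Fintype F := Fintype.ofFinite F
  have h1 := h n hn F hk (Units.mk0 z hz) y hy (by
    apply Units.ext
    rw [Units.coe_prod, Units.val_pow_eq_pow_val, Units.val_mk0, ← hdet]
    rfl)
  have h2 : ∀ j, FL0.del (m.get j) (y j).1 = dl (m.get j) (y j : Matrix (Fin n) (Fin n) F) :=
    fun j => conv_dl _ _
  simp only [h2]
  have h3 : Nat.card {t : Fin m.length → GL (Fin n) F // (∀ j, IsConj (y j) (t j)) ∧
      (List.ofFn fun j => (t j).1).prod = Matrix.scalar (Fin n) z} =
      Nat.card {t : Fin m.length → GL (Fin n) F // (∀ j, IsConj (y j) (t j)) ∧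
        (((List.ofFn t).prod : GL (Fin n) F) : Matrix (Fin n) (Fin n) F) =
          Matrix.scalar (Fin n) ((Units.mk0 z hz : Fˣ) : F)} := by
    apply Nat.card_congr
    apply Equiv.subtypeEquivRight
    intro t
    rw [conv_prod, Units.val_mk0]
  rw [h3]
  exact h1

end FLC
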