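import Mathlib
import Pool.Agent.FLC.StA

set_option autoImplicit false

/-!
# FLC, FRO: the number of tuples in given classes with a given scalar product
-/

namespace FLC

open Pool.Agent.Lib_helper13 RSF

noncomputable section

/-- `|GL| = (q - 1) |SL|` -/
theorem fro_card {F : Type} [Field F] [Finite F] (n : ℕ) (hn : 1 ≤ n) :
    Nat.card (GL (Fin n) F) = (Nat.card F - 1) * Nat.card (Matrix.SpecialLinearGroup (Fin n) F) := by
  classical
  have : Nonempty (Fin n) := ⟨⟨0, hn⟩⟩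
  let d : GL (Fin n) F →* Fˣ := Matrix.GeneralLinearGroup.det
  have h1 : Nat.card d.ker * d.ker.index = Nat.card (GL (Fin n) F) := Subgroup.card_mul_index _
  have h2 : d.ker.index = Nat.card d.range := Subgroup.index_ker d
  have h3 : d.range = ⊤ :=
    MonoidHom.range_eq_top.2 (Matrix.GeneralLinearGroup.det_surjective (n := Fin n) (R := F))
  have h4 : Nat.card Fˣ = Nat.card F - 1 := by
    have : Fintype F := Fintype.ofFinite F
    rw [Nat.card_eq_fintype_card, Nat.card_eq_fintype_card, Fintype.card_units]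
  have h5 : Nat.card d.ker = Nat.card (Matrix.SpecialLinearGroup (Fin n) F) := by
    have hdet : ∀ x : d.ker, (x.1 : Matrix (Fin n) (Fin n) F).det = 1 := by
      intro x
      have h := x.2
      rw [MonoidHom.mem_ker] at h
      have h' := congrArg (fun u : Fˣ => (u : F)) h
      simpa [d] using h'
    refine Nat.card_congr (Equiv.ofBijective
      (fun x : d.ker => (⟨(x.1 : Matrix (Fin n) (Fin n) F), hdet x⟩ :
        Matrix.SpecialLinearGroup (Fin n) F)) ⟨?_, ?_⟩)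
    · intro x y hxy
      have h : (x.1 : Matrix (Fin n) (Fin n) F) = (y.1 : Matrix (Fin n) (Fin n) F) :=
        congrArg Subtype.val hxy
      exact Subtype.ext (Units.ext h)
    · intro A
      refine ⟨⟨(A : GL (Fin n) F), ?_⟩, ?_⟩
      · rw [MonoidHom.mem_ker]
        ext
        simp [d]
      · apply Subtype.ext
        rfl
  rw [← h1, h2, h3, h5, ← h4, mul_comm]
  congr 1
  exact Nat.card_congr Subgroup.topEquiv.toEquiv

/-- the exponents -/
theorem fro_sig (m : List ℕ) (ε : ℝ) :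
    ∑ j : Fin m.length, (1 / ((m.get j : ℕ) : ℝ) + ε - 1) = -sig m + m.length * ε := by
  have h1 : sig m = ∑ j : Fin m.length, (1 - 1 / ((m.get j : ℕ) : ℝ)) := by
    unfold sig
    exact (Fin.sum_univ_fun_getElem m (fun k : ℕ => 1 - 1 / (k : ℝ))).symm
  rw [h1]
  have h2 : ∀ j : Fin m.length, (1 / ((m.get j : ℕ) : ℝ) + ε - 1) =
      -(1 - 1 / ((m.get j : ℕ) : ℝ)) + ε := fun j => by ring
  rw [Finset.sum_congr rfl fun j _ => h2 j, Finset.sum_add_distrib, Finset.sum_neg_distrib,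
    Finset.sum_const, Finset.card_univ, Fintype.card_fin, nsmul_eq_mul]

/-- the degree is at least one -/
theorem fro_deg (hMN : S_MN) {G : Type} [Group G] [Fintype G] {X : G → ℂ} (hX : IsIrr X) :
    1 ≤ (X 1).re ∧ ‖X 1‖ = (X 1).re := by
  obtain ⟨-, ⟨k, hk⟩, h3, -⟩ := hMN G X hX.isChr
  have hk0 : k ≠ 0 := by
    rintro rfl
    have h4 : ∀ g, X g = 0 := by
      intro g
      have h5 := h3 g
      rw [hk] at h5
      simpa using h5
    have h6 := hX.sum_self
    simp only [h4, mul_zero, Finset.sum_const_zero] at h6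
    exact natCard_ne_zero h6.symm
  rw [hk]
  refine ⟨?_, ?_⟩
  · rw [Complex.natCast_re]
    exact_mod_cast Nat.one_le_iff_ne_zero.mpr hk0
  · rw [Complex.natCast_re, Complex.norm_natCast]

/-- one term of the sum -/
theorem fro_term (hMN : S_MN) {n : ℕ} {F : Type} [Field F] [Fintype F] [DecidableEq F]
    (m : List ℕ) (ε : ℝ) {X : GL (Fin n) F → ℂ} (hX : IsIrr X)
    (y : Fin m.length → GL (Fin n) F)
    (hy : ∀ j, ‖X (y j)‖ ≤ (Nat.card F : ℝ) ^ (dl (m.get j) (y j : Matrix (Fin n) (Fin n) F) / 2) *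
      (X 1).re ^ (1 / ((m.get j : ℕ) : ℝ) + ε)) (z : GL (Fin n) F) (hz : ∀ g, z * g = g * z) :
    ‖(∏ j, X (y j) / X 1) * X z * X 1‖ ≤
      (Nat.card F : ℝ) ^ ((∑ j, dl (m.get j) (y j : Matrix (Fin n) (Fin n) F)) / 2) *
        (X 1).re ^ (-(sig m - m.length * ε - 2)) := by
  obtain ⟨hD1, hDn⟩ := fro_deg hMN hX
  obtain ⟨-, -, -, h4⟩ := hMN _ X hX.isChr
  have hD0 : 0 < (X 1).re := lt_of_lt_of_le one_pos hD1
  have hq : (0 : ℝ) < Nat.card F := by exact_mod_cast Nat.card_pos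
  rw [norm_mul, norm_mul, norm_prod, h4 hX z hz, hDn]
  have h5 : ∏ j, ‖X (y j) / X 1‖ ≤ ∏ j : Fin m.length,
      ((Nat.card F : ℝ) ^ (dl (m.get j) (y j : Matrix (Fin n) (Fin n) F) / 2) *
        (X 1).re ^ (1 / ((m.get j : ℕ) : ℝ) + ε - 1)) := by
    refine Finset.prod_le_prod (fun j _ => norm_nonneg _) fun j _ => ?_
    rw [norm_div, hDn, div_le_iff₀ hD0, mul_assoc, ← Real.rpow_add_one hD0.ne']
    have h6 : 1 / ((m.get j : ℕ) : ℝ) + ε - 1 + 1 = 1 / ((m.get j : ℕ) : ℝ) + ε := by ring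
    rw [h6]
    exact hy j
  rw [Finset.prod_mul_distrib, ← Real.rpow_sum_of_pos hq, ← Real.rpow_sum_of_pos hD0, fro_sig,
    ← Finset.sum_div] at h5
  have h7 : (X 1).re ^ (-(sig m - m.length * ε - 2)) =
      (X 1).re ^ (-sig m + m.length * ε) * (X 1).re * (X 1).re := by
    rw [← Real.rpow_add_one hD0.ne', ← Real.rpow_add_one hD0.ne']
    congr 1
    ring
  rw [h7, ← mul_assoc, ← mul_assoc]
  exact mul_le_mul_of_nonneg_right (mul_le_mul_of_nonneg_right h5 hD0.le) hD0.le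

theorem t_FRO : M_FRO := by
  classical
  intro hMN hFRB hFL hZET hLIN m hm hsig
  have hlen : 0 < m.length := by
    rcases Nat.eq_zero_or_pos m.length with h | h
    · have h1 : m = [] := List.eq_nil_of_length_eq_zero h
      rw [h1] at hsig
      norm_num [sig] at hsig
    · exact h
  have hlenR : (0 : ℝ) < m.length := by exact_mod_cast hlen
  obtain ⟨ε, hε⟩ : ∃ ε : ℝ, ε = (sig m - 2) / (2 * m.length) := ⟨_, rfl⟩
  have hε0 : 0 < ε := by
    rw [hε]
    exact div_pos (by linarith) (by linarith)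
  have hlε : m.length * ε = (sig m - 2) / 2 := by
    rw [hε]
    field_simp
  obtain ⟨s, hs⟩ : ∃ s : ℝ, s = sig m - m.length * ε - 2 := ⟨_, rfl⟩
  have hs0 : 0 < s := by
    rw [hs, hlε]
    linarith
  obtain ⟨r1, hr1⟩ := hFL ε hε0
  obtain ⟨c, r2, hc, hr2⟩ := hZET s hs0
  refine ⟨c, r1 + r2 + 5, hc, by omega, ?_⟩
  intro n hn F _ _ _ hdiv z y hy hdet
  have hq1 : 1 < Nat.card F := Finite.one_lt_card
  have hqR : (1 : ℝ) < Nat.card F := by exact_mod_cast hq1
  have hq0 : (0 : ℝ) < Nat.card F := by linarith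
  obtain ⟨Z, hZ⟩ : ∃ Z : GL (Fin n) F, Z = Matrix.GeneralLinearGroup.scalar (Fin n) z := ⟨_, rfl⟩
  have hZc : ∀ g, Z⁻¹ * g = g * Z⁻¹ := by
    intro g
    have h1 : Z * g = g * Z := by
      rw [hZ]
      exact Matrix.GeneralLinearGroup.scalar_commute z g
    exact (Commute.inv_left (show Commute Z g from h1))
  have hZdet : Matrix.GeneralLinearGroup.det Z = z ^ n := by
    rw [hZ, Matrix.GeneralLinearGroup.det_scalar, Fintype.card_fin]
  -- the number of tuples
  obtain ⟨N, hN⟩ : ∃ N : ℕ, N = Nat.card {t : Fin m.length → GL (Fin n) F //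
      (∀ j, IsConj (y j) (t j)) ∧ (((List.ofFn t).prod : GL (Fin n) F) :
        Matrix (Fin n) (Fin n) F) = Matrix.scalar (Fin n) (z : F)} := ⟨_, rfl⟩
  have hN' : N = Nat.card {t : Fin m.length → GL (Fin n) F //
      (∀ j, IsConj (y j) (t j)) ∧ (List.ofFn t).prod = Z} := by
    rw [hN]
    refine Nat.card_congr (Equiv.subtypeEquivRight fun t => and_congr_right fun _ => ?_)
    rw [hZ]
    constructor
    · intro h
      exact Units.ext h
    · intro h
      rw [h]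
      rfl
  obtain ⟨P, hP⟩ : ∃ P : ℝ, P = ∏ j, (Nat.card {t : GL (Fin n) F // IsConj (y j) t} : ℝ) :=
    ⟨_, rfl⟩
  have hP0 : 0 ≤ P := by
    rw [hP]
    exact Finset.prod_nonneg fun j _ => Nat.cast_nonneg _
  obtain ⟨E, hE⟩ : ∃ E : ℝ, E = (∑ j, dl (m.get j) (y j : Matrix (Fin n) (Fin n) F)) / 2 :=
    ⟨_, rfl⟩
  rw [← hN, ← hP, ← hE]
  have hfrb := hFRB (GL (Fin n) F) m.length y Z
  rw [← hN'] at hfrb
  -- the linear characters
  obtain ⟨f, hf⟩ : ∃ f : (GL (Fin n) F → ℂ) → ℂ,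
      f = fun X => (∏ j, X (y j) / X 1) * X Z⁻¹ * X 1 := ⟨_, rfl⟩
  have hA : ∑ X ∈ (irrF (GL (Fin n) F)).filter (fun X => X 1 = 1), f X =
      ((Nat.card F : ℂ) - 1) * 1 := by
    refine hLIN n (by omega) F f 1 fun l => ?_
    rw [hf]
    have h1 : ld l (1 : GL (Fin n) F) = 1 := by
      simp [ld]
    have h2 : (∏ j, ld l (y j)) = ((l (z ^ n) : ℂˣ) : ℂ) := by
      rw [← hdet, map_prod, Units.coe_prod]
      rfl
    have h3 : ld l Z⁻¹ = (((l (z ^ n))⁻¹ : ℂˣ) : ℂ) := by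
      simp only [ld]
      rw [map_inv, hZdet, map_inv]
    show (∏ j, ld l (y j) / ld l 1) * ld l Z⁻¹ * ld l 1 = 1
    rw [h1]
    simp only [div_one, mul_one]
    rw [h2, h3, ← Units.val_mul, mul_inv_cancel, Units.val_one]
  -- the others
  have hB : ‖∑ X ∈ (irrF (GL (Fin n) F)).filter (fun X => X 1 ≠ 1), f X‖ ≤
      (Nat.card F : ℝ) ^ E * (((Nat.card F : ℝ) - 1) * (Nat.card F : ℝ) ^ (-(c * n))) := by
    refine (norm_sum_le _ _).trans ?_
    have h1 : ∀ X ∈ (irrF (GL (Fin n) F)).filter (fun X => X 1 ≠ 1),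
        ‖f X‖ ≤ (Nat.card F : ℝ) ^ E * (X 1).re ^ (-s) := by
      intro X hX
      rw [Finset.mem_filter] at hX
      have hXi := mem_irrF.1 hX.1
      rw [hf, hE, hs]
      refine fro_term hMN m ε hXi y (fun j => ?_) Z⁻¹ hZc
      have h2 : m.get j ∈ m := m.get_mem j
      exact hr1 n (by omega) F X hXi hX.2 (m.get j) (y j) (by have := hm _ h2; omega)
        (hdiv _ h2) (hy j)
    refine (Finset.sum_le_sum h1).trans ?_
    rw [← Finset.mul_sum]
    exact mul_le_mul_of_nonneg_left (hr2 n (by omega) F) (Real.rpow_nonneg hq0.le _)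
  obtain ⟨B, hBe⟩ : ∃ B : ℂ, B = ∑ X ∈ (irrF (GL (Fin n) F)).filter (fun X => X 1 ≠ 1), f X :=
    ⟨_, rfl⟩
  rw [← hBe] at hB
  have hsum : ∑ X ∈ irrF (GL (Fin n) F), (∏ j, X (y j) / X 1) * X Z⁻¹ * X 1 =
      ((Nat.card F : ℂ) - 1) + B := by
    have h1 := Finset.sum_filter_add_sum_filter_not (irrF (GL (Fin n) F)) (fun X => X 1 = 1) f
    rw [hA, mul_one] at h1
    rw [hBe, h1, hf]
  rw [hsum, fro_card n (by omega)] at hfrb
  have hPc : (∏ j, (Nat.card {t : GL (Fin n) F // IsConj (y j) t} : ℂ)) = (P : ℂ) := by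
    rw [hP]
    push_cast
    rfl
  rw [hPc] at hfrb
  have hkey : (((Nat.card F : ℝ) - 1 : ℝ) : ℂ) *
      (((N : ℝ) * Nat.card (Matrix.SpecialLinearGroup (Fin n) F) - P : ℝ) : ℂ) = (P : ℂ) * B := by
    have h1 : ((((Nat.card F - 1) * Nat.card (Matrix.SpecialLinearGroup (Fin n) F) : ℕ)) : ℂ) =
        ((Nat.card F : ℂ) - 1) * Nat.card (Matrix.SpecialLinearGroup (Fin n) F) := by
      push_cast [Nat.cast_sub hq1.le]
      ring
    rw [h1] at hfrb
    push_cast
    linear_combination hfrb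
  have hnorm := congrArg norm hkey
  rw [norm_mul, norm_mul, Complex.norm_real, Complex.norm_real, Complex.norm_real,
    Real.norm_of_nonneg (by linarith : (0 : ℝ) ≤ (Nat.card F : ℝ) - 1),
    Real.norm_of_nonneg hP0, Real.norm_eq_abs] at hnorm
  have hq10 : (0 : ℝ) < (Nat.card F : ℝ) - 1 := by linarith
  have h1 : ((Nat.card F : ℝ) - 1) *
      |(N : ℝ) * Nat.card (Matrix.SpecialLinearGroup (Fin n) F) - P| ≤
      ((Nat.card F : ℝ) - 1) * (P * (Nat.card F : ℝ) ^ (E - c * n)) := by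
    rw [hnorm]
    have h2 : (Nat.card F : ℝ) ^ (E - c * n) =
        (Nat.card F : ℝ) ^ E * (Nat.card F : ℝ) ^ (-(c * n)) := by
      rw [← Real.rpow_add hq0]
      congr 1
    rw [h2]
    calc P * ‖B‖ ≤ P * ((Nat.card F : ℝ) ^ E *
          (((Nat.card F : ℝ) - 1) * (Nat.card F : ℝ) ^ (-(c * n)))) :=
          mul_le_mul_of_nonneg_left hB hP0
      _ = _ := by ring
  exact le_of_mul_le_mul_left h1 hq10

end

end FLC
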