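import Pool.Agent.FLC.StA

/-! Module LIN: the linear characters of `GL_n`. -/

namespace FLC

open Pool.Agent.Lib_helper13 RSF

noncomputable section

theorem lin_isChr {Y : Type*} [Group Y] (χ : Y →* ℂˣ) :
    IsChr (fun y : Y => ((χ y : ℂˣ) : ℂ)) := by
  refine ⟨1, (((algebraMap ℂ (Module.End ℂ (Fin 1 → ℂ))) : ℂ →* Module.End ℂ (Fin 1 → ℂ)).comp
    ((Units.coeHom ℂ).comp χ) : Y →* Module.End ℂ (Fin 1 → ℂ)), ?_⟩
  ext y
  change LinearMap.trace ℂ (Fin 1 → ℂ) (algebraMap ℂ (Module.End ℂ (Fin 1 → ℂ)) (χ y)) = _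
  rw [Algebra.algebraMap_eq_smul_one, map_smul, LinearMap.trace_one]
  simp

theorem lin_isIrr {Y : Type*} [Group Y] [Fintype Y] (χ : Y →* ℂˣ) :
    IsIrr (fun y : Y => ((χ y : ℂˣ) : ℂ)) := by
  refine (lin_isChr χ).isIrr ?_
  have h : ∀ g : Y, ((χ g : ℂˣ) : ℂ) * ((χ g⁻¹ : ℂˣ) : ℂ) = 1 := by
    intro g
    rw [← Units.val_mul, ← map_mul, mul_inv_cancel, map_one, Units.val_one]
  simp only [h]
  simp

theorem ld_isIrr {n : ℕ} {F : Type} [Field F] [Fintype F] [DecidableEq F] (l : Fˣ →* ℂˣ) :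
    IsIrr (ld (n := n) l) :=
  lin_isIrr (l.comp Matrix.GeneralLinearGroup.det)

theorem ld_inj {n : ℕ} (hn : 1 ≤ n) {F : Type} [Field F] :
    Function.Injective (ld (n := n) (F := F)) := by
  classical
  intro l l' h
  ext a
  have h1 := congrFun h (Matrix.GeneralLinearGroup.mkOfDetNeZero
    (Matrix.diagonal (fun i : Fin n => if i.val = 0 then (a : F) else 1)) (by
      rw [Matrix.det_diagonal]
      refine Finset.prod_ne_zero_iff.mpr fun i _ => ?_
      split
      · exact a.ne_zero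
      · exact one_ne_zero))
  have h2 : ∀ (hd : (Matrix.diagonal (fun i : Fin n => if i.val = 0 then (a : F) else 1)).det ≠ 0),
      Matrix.GeneralLinearGroup.det (Matrix.GeneralLinearGroup.mkOfDetNeZero
      (Matrix.diagonal (fun i : Fin n => if i.val = 0 then (a : F) else 1)) hd) = a := by
    intro hd
    ext
    change (Matrix.diagonal (fun i : Fin n => if i.val = 0 then (a : F) else 1)).det = a
    rw [Matrix.det_diagonal, Finset.prod_eq_single (⟨0, hn⟩ : Fin n)]
    · simp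
    · intro b _ hb
      rw [if_neg]
      intro h0
      exact hb (Fin.ext h0)
    · simp
  unfold ld at h1
  rw [h2] at h1
  exact h1

theorem card_lin (F : Type) [Field F] [Fintype F] :
    Nat.card (Fˣ →* ℂˣ) = Nat.card F - 1 := by
  classical
  have : NeZero (Monoid.exponent Fˣ) := ⟨Monoid.exponent_ne_zero_of_finite⟩
  have : NeZero ((Monoid.exponent Fˣ : ℕ) : ℂ) := ⟨by
    exact_mod_cast (NeZero.ne (Monoid.exponent Fˣ))⟩
  rw [CommGroup.card_monoidHom_of_hasEnoughRootsOfUnity, Nat.card_eq_fintype_card,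
    Nat.card_eq_fintype_card, Fintype.card_units]

theorem t_LIN : M_LIN := by
  classical
  intro hS n hn F _ _ _ f c hf
  obtain ⟨ψ, j, hψ, hj⟩ := hS n F
  have hq : 2 ≤ Nat.card F := by
    rw [Nat.card_eq_fintype_card]
    exact Fintype.one_lt_card
  have hfin : Finite (Fˣ →* ℂˣ) := by
    refine Nat.finite_of_card_ne_zero ?_
    rw [card_lin]
    omega
  have hft : Fintype (Fˣ →* ℂˣ) := Fintype.ofFinite _
  have hset : (irrF (GL (Fin n) F)).filter (fun X => X 1 = 1) =
      (Finset.univ : Finset (Fˣ →* ℂˣ)).image (ld (n := n) (F := F)) := by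
    ext X
    rw [Finset.mem_filter, mem_irrF, Finset.mem_image]
    constructor
    · rintro ⟨hX, hX1⟩
      obtain ⟨h1, -, -, -, h5⟩ := hj X hX
      have hj0 : j X = 0 := by
        by_contra hne
        have hj1 : 1 ≤ j X := Nat.one_le_iff_ne_zero.mpr hne
        have hx : (X 1).re = 1 := by rw [hX1]; rfl
        rw [hx] at h1
        have hq' : (2 : ℝ) ≤ (Nat.card F : ℝ) := by exact_mod_cast hq
        have hn' : (5 : ℝ) ≤ n := by exact_mod_cast hn
        have hjr : (1 : ℝ) ≤ (j X : ℝ) := by exact_mod_cast hj1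
        have h2 : (2 : ℝ) ^ ((5 : ℝ) / 2) ≤ (Nat.card F : ℝ) ^ ((n : ℝ) * j X / 2) := by
          calc (2 : ℝ) ^ ((5 : ℝ) / 2) ≤ (Nat.card F : ℝ) ^ ((5 : ℝ) / 2) :=
                Real.rpow_le_rpow (by norm_num) hq' (by norm_num)
            _ ≤ (Nat.card F : ℝ) ^ ((n : ℝ) * j X / 2) := by
                apply Real.rpow_le_rpow_of_exponent_le (by linarith)
                nlinarith
        have h3 : (4 : ℝ) < (2 : ℝ) ^ ((5 : ℝ) / 2) := by
          have h4 : (4 : ℝ) = (2 : ℝ) ^ ((2 : ℝ)) := by norm_num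
          rw [h4]
          exact Real.rpow_lt_rpow_of_exponent_lt (by norm_num) (by norm_num)
        linarith
      obtain ⟨l, hl⟩ := h5 hj0
      exact ⟨l, Finset.mem_univ _, hl.symm⟩
    · rintro ⟨l, -, rfl⟩
      refine ⟨ld_isIrr l, ?_⟩
      simp [ld]
  rw [hset, Finset.sum_image (fun a _ b _ h => ld_inj (by omega) h)]
  simp only [hf]
  rw [Finset.sum_const, Finset.card_univ, ← Nat.card_eq_fintype_card, card_lin, nsmul_eq_mul,
    Nat.cast_sub (by omega), Nat.cast_one]

end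

end FLC
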