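import Pool.Agent.FLC.BRG

/-!
# FLC, module BR2: double cosets of the unitriangular group and `HK`
-/

namespace FLC

open Pool.Agent.Lib_helper13 RSF

noncomputable section

namespace BR2

section

variable {n : ℕ} {F : Type} [Field F]

theorem ind {K : ℕ} (T : Finset (Fin n)) (r : Fin n → Fin K → F)
    (hT : ∀ i ∈ T, r i ∉ Submodule.span F (r '' {j | i < j})) : T.card ≤ K := by
  classical
  have h1 : LinearIndependent F (fun i : T => r i) := by
    rw [Fintype.linearIndependent_iff]
    intro g hg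
    by_contra hne
    push Not at hne
    obtain ⟨i1, hi1⟩ := hne
    have hN : (Finset.univ.filter fun i : T => g i ≠ 0).Nonempty :=
      ⟨i1, Finset.mem_filter.2 ⟨Finset.mem_univ _, hi1⟩⟩
    obtain ⟨i, hi⟩ : ∃ i, i = (Finset.univ.filter fun i : T => g i ≠ 0).min' hN := ⟨_, rfl⟩
    have h2 : g i ≠ 0 := by
      have := (Finset.univ.filter fun i : T => g i ≠ 0).min'_mem hN
      rw [← hi] at this
      exact (Finset.mem_filter.1 this).2
    have h3 : ∀ j : T, j < i → g j = 0 := by
      intro j hj
      by_contra h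
      have := (Finset.univ.filter fun i : T => g i ≠ 0).min'_le j
        (Finset.mem_filter.2 ⟨Finset.mem_univ _, h⟩)
      rw [← hi] at this
      exact absurd this (not_le_of_gt hj)
    refine hT i i.2 ?_
    have h4 : g i • r i = -∑ j ∈ Finset.univ.erase i, g j • r j := by
      rw [eq_neg_iff_add_eq_zero, Finset.add_sum_erase _ (fun j : T => g j • r j)
        (Finset.mem_univ i)]
      exact hg
    have h5 : g i • r i ∈ Submodule.span F (r '' {j | (i : Fin n) < j}) := by
      rw [h4]
      refine Submodule.neg_mem _ (Submodule.sum_mem _ fun j hj => ?_)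
      rw [Finset.mem_erase] at hj
      rcases lt_or_gt_of_ne hj.1 with h | h
      · rw [h3 j h, zero_smul]
        exact Submodule.zero_mem _
      · exact Submodule.smul_mem _ _ (Submodule.subset_span ⟨j, h, rfl⟩)
    have h6 := Submodule.smul_mem _ (g i)⁻¹ h5
    rwa [smul_smul, inv_mul_cancel₀ h2, one_smul] at h6
  have h2 := h1.fintype_card_le_finrank
  rwa [Fintype.card_coe, Module.finrank_fin_fun] at h2

/-- The row operations. -/
theorem exists_row {K : ℕ} (r : Fin n → Fin K → F) (i : Fin n)
    (hi : r i ∈ Submodule.span F (r '' {j | i < j})) :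
    ∃ c : Fin n → F, (∀ j, ¬ i < j → c j = 0) ∧ r i = ∑ j, c j • r j := by
  rw [Finsupp.mem_span_image_iff_linearCombination] at hi
  obtain ⟨l, hl, hl2⟩ := hi
  refine ⟨l, fun j hj => ?_, ?_⟩
  · by_contra h
    exact hj (hl (Finsupp.mem_support_iff.2 h))
  · rw [← hl2, Finsupp.linearCombination_apply, Finsupp.sum_fintype]
    intro j
    rw [zero_smul]

end

section

variable {n : ℕ} {F : Type} [Field F] [Fintype F]

/-- The reduction of the first columns. -/
theorem reduce {K : ℕ} (hK : K ≤ n) (g : Matrix (Fin n) (Fin n) F) :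
    ∃ (h : Matrix (Fin n) (Fin n) F) (T : Finset (Fin n)), h ∈ US n F (fun i => i) ∧ T.card ≤ K ∧
      ∀ i ∉ T, ∀ j : Fin K, (h * g) i (Fin.castLE hK j) = 0 := by
  classical
  let r : Fin n → Fin K → F := fun i j => g i (Fin.castLE hK j)
  let T : Finset (Fin n) := Finset.univ.filter fun i => r i ∉ Submodule.span F (r '' {j | i < j})
  have hT : T.card ≤ K := ind T r fun i hi => (Finset.mem_filter.1 hi).2
  have h1 : ∀ i : Fin n, ∃ c : Fin n → F, i ∉ T → (∀ j, ¬ i < j → c j = 0) ∧
      r i = ∑ j, c j • r j := by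
    intro i
    by_cases hi : i ∈ T
    · exact ⟨0, fun h => absurd hi h⟩
    · have h2 : r i ∈ Submodule.span F (r '' {j | i < j}) := by
        by_contra h
        exact hi (Finset.mem_filter.2 ⟨Finset.mem_univ _, h⟩)
      obtain ⟨c, hc⟩ := exists_row r i h2
      exact ⟨c, fun _ => hc⟩
  choose c hc using h1
  refine ⟨Matrix.of fun i j => if i = j then 1 else if i ∈ T then 0 else -c i j, T, ?_, hT, ?_⟩
  · rw [BRG.mem_US]
    refine ⟨fun i => ?_, fun i j hij hP => ?_⟩
    · rw [Matrix.of_apply, if_pos rfl]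
    · rw [Matrix.of_apply, if_neg hij]
      split_ifs with h
      · rfl
      · rw [(hc i h).1 j, neg_zero]
        intro h'
        exact hP ⟨h', fun h'' => hij (Fin.ext h'')⟩
  · intro i hi j
    rw [Matrix.mul_apply]
    have h2 : ∀ k, (Matrix.of fun i j => if i = j then (1 : F) else if i ∈ T then 0 else -c i j) i k *
        g k (Fin.castLE hK j) = (if k = i then g i (Fin.castLE hK j) else 0) -
          c i k * g k (Fin.castLE hK j) := by
      intro k
      rw [Matrix.of_apply]
      by_cases hk : i = k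
      · subst hk
        rw [if_pos rfl, if_pos rfl, (hc i hi).1 i (lt_irrefl _)]
        ring
      · rw [if_neg hk, if_neg hi, if_neg fun h => hk h.symm]
        ring
    rw [Finset.sum_congr rfl fun k _ => h2 k, Finset.sum_sub_distrib,
      Finset.sum_ite_eq' Finset.univ i, if_pos (Finset.mem_univ i), sub_eq_zero]
    have h3 := congrFun (hc i hi).2 j
    rw [Finset.sum_apply] at h3
    exact h3

/-- Covering a small set by a function. -/
theorem cover {K : ℕ} (hK : K ≤ n) (T : Finset (Fin n)) (hT : T.card ≤ K) :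
    ∃ f : Fin K → Fin n, ∀ i ∈ T, ∃ l, f l = i := by
  classical
  by_cases hne : T.Nonempty
  · obtain ⟨t, ht⟩ := hne
    have : Nonempty T := ⟨⟨t, ht⟩⟩
    obtain ⟨e⟩ : Nonempty (T ↪ Fin K) := Function.Embedding.nonempty_of_card_le (by
      rw [Fintype.card_coe, Fintype.card_fin]
      exact hT)
    refine ⟨fun l => (Function.invFun e l : T), fun i hi => ⟨e ⟨i, hi⟩, ?_⟩⟩
    change ((Function.invFun e (e ⟨i, hi⟩) : T) : Fin n) = i
    rw [Function.leftInverse_invFun e.injective]
  · refine ⟨Fin.castLE hK, fun i hi => absurd ⟨i, hi⟩ hne⟩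

end

end BR2

open Classical in
/-- BR2. -/
theorem t_BR2 : S_BR2 := by
  intro n K F _ _ _ hK
  -- the matrix given by the places and the entries
  let M : (Fin K → Fin n) × (Fin K → Fin K → F) → Fin n → Fin K → F := fun p i j =>
    if h : ∃ l, p.1 l = i then p.2 h.choose j else 0
  let f : (Fin K → Fin n) × (Fin K → Fin K → F) → GL (Fin n) F := fun p =>
    if h : ∃ g : GL (Fin n) F, ∀ i j, (g : Matrix (Fin n) (Fin n) F) i (Fin.castLE hK j) = M p i j
    then h.choose else 1
  refine ⟨Finset.univ.image f, ?_, fun g => ?_⟩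
  · refine Finset.card_image_le.trans (le_of_eq ?_)
    rw [Finset.card_univ, Fintype.card_prod, Fintype.card_fun, Fintype.card_fun,
      Fintype.card_fun, Fintype.card_fin, Fintype.card_fin, Nat.card_eq_fintype_card, ← pow_mul,
      pow_two]
  · obtain ⟨h, T, hh, hT, h0⟩ := BR2.reduce hK (g : Matrix (Fin n) (Fin n) F)
    obtain ⟨pl, hpl⟩ := BR2.cover hK T hT
    obtain ⟨B, hB⟩ : ∃ B : GL (Fin n) F, B = (BRG.isUnit hh).unit * g := ⟨_, rfl⟩
    have hB' : (B : Matrix (Fin n) (Fin n) F) = h * (g : Matrix (Fin n) (Fin n) F) := by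
      rw [hB, Units.val_mul, IsUnit.unit_spec]
    let A : Fin K → Fin K → F := fun l j => (B : Matrix (Fin n) (Fin n) F) (pl l) (Fin.castLE hK j)
    have h1 : ∀ i j, (B : Matrix (Fin n) (Fin n) F) i (Fin.castLE hK j) = M (pl, A) i j := by
      intro i j
      change _ = if h : ∃ l, pl l = i then A h.choose j else 0
      split_ifs with h2
      · change _ = (B : Matrix (Fin n) (Fin n) F) (pl h2.choose) (Fin.castLE hK j)
        rw [h2.choose_spec]
      · rw [hB']
        exact h0 i (fun hi => h2 (hpl i hi)) j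
    have h2 : ∃ g : GL (Fin n) F, ∀ i j,
        (g : Matrix (Fin n) (Fin n) F) i (Fin.castLE hK j) = M (pl, A) i j := ⟨B, h1⟩
    obtain ⟨C, hC⟩ : ∃ C : GL (Fin n) F, C = f (pl, A) := ⟨_, rfl⟩
    have hC' : ∀ i j, (C : Matrix (Fin n) (Fin n) F) i (Fin.castLE hK j) = M (pl, A) i j := by
      have h3 : f (pl, A) = h2.choose := dif_pos h2
      rw [hC, h3]
      exact h2.choose_spec
    refine ⟨(BRG.isUnit hh).unit, B⁻¹ * C, hh, ?_, Finset.mem_image.2
      ⟨(pl, A), Finset.mem_univ _, ?_⟩⟩
    · intro j hj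
      have h4 : (C : Matrix (Fin n) (Fin n) F).mulVec (Pi.single j 1) =
          (B : Matrix (Fin n) (Fin n) F).mulVec (Pi.single j 1) := by
        rw [Matrix.mulVec_single_one, Matrix.mulVec_single_one]
        funext i
        have h5 : j = Fin.castLE hK ⟨j.val, hj⟩ := Fin.ext rfl
        change (C : Matrix (Fin n) (Fin n) F) i j = (B : Matrix (Fin n) (Fin n) F) i j
        rw [h5, hC', h1]
      rw [Units.val_mul, ← Matrix.mulVec_mulVec, h4, Matrix.mulVec_mulVec, ← Units.val_mul,
        inv_mul_cancel, Units.val_one, Matrix.one_mulVec]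
    · rw [← hC, ← hB, mul_inv_cancel_left]

end

end FLC
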