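import Pool.Agent.FLC.StA

/-!
# BR3: double cosets of the stabiliser of `K` vectors in `GL_n(F)`
-/

namespace FLC

open Pool.Agent.Lib_helper13 RSF

noncomputable section

namespace BR3

variable {F : Type} [Field F]

/-- Two linear maps with the same kernel differ by an automorphism. -/
theorem ext_ker {X V : Type} [AddCommGroup X] [Module F X] [AddCommGroup V] [Module F V]
    [FiniteDimensional F V] (A A' : X →ₗ[F] V) (h : LinearMap.ker A = LinearMap.ker A') :
    ∃ e : V ≃ₗ[F] V, ∀ x, e (A x) = A' x := by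
  let θ : LinearMap.range A ≃ₗ[F] LinearMap.range A' :=
    (A.quotKerEquivRange).symm ≪≫ₗ (Submodule.quotEquivOfEq _ _ h) ≪≫ₗ A'.quotKerEquivRange
  have hθ : ∀ x, (θ ⟨A x, LinearMap.mem_range_self A x⟩ : V) = A' x := by
    intro x
    have h1 : (⟨A x, LinearMap.mem_range_self A x⟩ : LinearMap.range A) =
        A.quotKerEquivRange (Submodule.Quotient.mk x) := rfl
    change ((A'.quotKerEquivRange ((Submodule.quotEquivOfEq _ _ h)
      ((A.quotKerEquivRange).symm ⟨A x, LinearMap.mem_range_self A x⟩)) : LinearMap.range A') : V)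
      = A' x
    rw [h1, LinearEquiv.symm_apply_apply]
    rfl
  obtain ⟨C, hC⟩ := Submodule.exists_isCompl (LinearMap.range A)
  obtain ⟨C', hC'⟩ := Submodule.exists_isCompl (LinearMap.range A')
  have hfr : Module.finrank F C = Module.finrank F C' := by
    have h1 := Submodule.finrank_add_eq_of_isCompl hC
    have h2 := Submodule.finrank_add_eq_of_isCompl hC'
    have h3 := θ.finrank_eq
    omega
  let ε : C ≃ₗ[F] C' := LinearEquiv.ofFinrankEq _ _ hfr
  refine ⟨(Submodule.prodEquivOfIsCompl _ _ hC).symm ≪≫ₗ (LinearEquiv.prodCongr θ ε) ≪≫ₗ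
    (Submodule.prodEquivOfIsCompl _ _ hC'), fun x => ?_⟩
  have h1 : (Submodule.prodEquivOfIsCompl _ _ hC).symm (A x) =
      (⟨A x, LinearMap.mem_range_self A x⟩, 0) :=
    Submodule.prodEquivOfIsCompl_symm_apply_left _ _ hC ⟨A x, LinearMap.mem_range_self A x⟩
  change Submodule.prodEquivOfIsCompl _ _ hC' ((LinearEquiv.prodCongr θ ε)
    ((Submodule.prodEquivOfIsCompl _ _ hC).symm (A x))) = A' x
  rw [h1]
  change ((θ ⟨A x, LinearMap.mem_range_self A x⟩ : V) + ((ε 0 : C') : V)) = A' x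
  rw [map_zero, Submodule.coe_zero, add_zero, hθ]

/-- The inclusion of the first `K` coordinates. -/
def inc (n K : ℕ) : (Fin K → F) →ₗ[F] (Fin n → F) where
  toFun y := fun i => if h : i.val < K then y ⟨i.val, h⟩ else 0
  map_add' x y := by
    funext i
    by_cases h : i.val < K
    · simp [h]
    · simp [h]
  map_smul' c x := by
    funext i
    by_cases h : i.val < K
    · simp [h]
    · simp [h]

/-- The restriction to the first `K` coordinates. -/
def res {n K : ℕ} (hK : K ≤ n) : (Fin n → F) →ₗ[F] (Fin K → F) where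
  toFun y := fun i => y (Fin.castLE hK i)
  map_add' _ _ := rfl
  map_smul' _ _ := rfl

theorem res_inc {n K : ℕ} (hK : K ≤ n) (y : Fin K → F) : res hK (inc n K y) = y := by
  funext i
  change (if h : (Fin.castLE hK i).val < K then y ⟨(Fin.castLE hK i).val, h⟩ else 0) = y i
  exact dif_pos (show (Fin.castLE hK i).val < K from i.2)

theorem inc_single {n K : ℕ} (j : Fin n) (hj : j.val < K) :
    inc n K (Pi.single (⟨j.val, hj⟩ : Fin K) (1 : F)) = Pi.single j 1 := by
  funext i
  change (if h : i.val < K then (Pi.single (⟨j.val, hj⟩ : Fin K) (1 : F) : Fin K → F) ⟨i.val, h⟩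
    else 0) = (Pi.single j (1 : F) : Fin n → F) i
  by_cases h : i = j
  · subst h
    rw [dif_pos hj, Pi.single_eq_same, Pi.single_eq_same]
  · rw [Pi.single_eq_of_ne h]
    by_cases h1 : i.val < K
    · rw [dif_pos h1, Pi.single_eq_of_ne]
      intro h2
      exact h (Fin.ext (Fin.mk.inj_iff.1 h2))
    · rw [dif_neg h1]

/-- The combined map. -/
def cm (n K : ℕ) (g : Matrix (Fin n) (Fin n) F) : (Fin K → F) × (Fin K → F) →ₗ[F] (Fin n → F) :=
  LinearMap.coprod (inc n K) (g.mulVecLin ∘ₗ inc n K)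

theorem cm_apply (n K : ℕ) (g : Matrix (Fin n) (Fin n) F) (x y : Fin K → F) :
    cm n K g (x, y) = inc n K x + g.mulVec (inc n K y) := rfl

/-- The kernel of `cm` is given by two matrices of size `K`. -/
def Rel (n K : ℕ) (g : Matrix (Fin n) (Fin n) F)
    (c : ((Fin K → F) →ₗ[F] (Fin K → F)) × ((Fin K → F) →ₗ[F] (Fin K → F))) : Prop :=
  ∀ x y, cm n K g (x, y) = 0 ↔ (∃ z, y = c.1 z) ∧ x = c.2 y

theorem exists_rel {n K : ℕ} (hK : K ≤ n) (g : Matrix (Fin n) (Fin n) F) : ∃ c, Rel n K g c := by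
  let Y : Submodule F (Fin K → F) := (LinearMap.range (inc n K)).comap (g.mulVecLin ∘ₗ inc n K)
  obtain ⟨Y', hY⟩ := Submodule.exists_isCompl Y
  let P : (Fin K → F) →ₗ[F] (Fin K → F) := Y.subtype ∘ₗ Submodule.projectionOnto Y Y' hY
  have hP : ∀ y, (∃ z, y = P z) ↔ y ∈ Y := by
    intro y
    constructor
    · rintro ⟨z, rfl⟩
      exact (Submodule.projectionOnto Y Y' hY z).2
    · intro h
      refine ⟨y, ?_⟩
      change y = ((Submodule.projectionOnto Y Y' hY y : Y) : Fin K → F)
      exact congrArg Subtype.val (Submodule.projectionOnto_apply_left hY ⟨y, h⟩).symm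
  refine ⟨(P, - (res hK ∘ₗ g.mulVecLin ∘ₗ inc n K)), fun x y => ?_⟩
  rw [cm_apply]
  change _ ↔ (∃ z, y = P z) ∧ x = - (res hK (g.mulVec (inc n K y)))
  rw [hP]
  constructor
  · intro h
    have h1 : inc n K x = - g.mulVec (inc n K y) := eq_neg_of_add_eq_zero_left h
    refine ⟨⟨-x, ?_⟩, ?_⟩
    · rw [map_neg, h1, neg_neg]
      rfl
    · rw [← map_neg, ← h1, res_inc]
  · rintro ⟨⟨x', hx'⟩, hx⟩
    have h1 : inc n K x' = g.mulVec (inc n K y) := hx'
    rw [← h1, res_inc] at hx
    rw [hx, ← h1, map_neg, neg_add_cancel]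

/-- Matrices with the same kernel are in the same double coset. -/
theorem same {n K : ℕ} [DecidableEq F]
    {g g' : GL (Fin n) F} {c : ((Fin K → F) →ₗ[F] (Fin K → F)) × ((Fin K → F) →ₗ[F] (Fin K → F))}
    (h : Rel n K (g : Matrix (Fin n) (Fin n) F) c) (h' : Rel n K (g' : Matrix (Fin n) (Fin n) F) c) :
    ∃ a ∈ HK n F K, ∃ b ∈ HK n F K, a * g * b = g' := by
  have hker : LinearMap.ker (cm n K (g : Matrix (Fin n) (Fin n) F)) =
      LinearMap.ker (cm n K (g' : Matrix (Fin n) (Fin n) F)) := by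
    ext ⟨x, y⟩
    rw [LinearMap.mem_ker, LinearMap.mem_ker, h x y, h' x y]
  obtain ⟨e, he⟩ := ext_ker _ _ hker
  let a : GL (Fin n) F :=
    ⟨LinearMap.toMatrix' e.toLinearMap, LinearMap.toMatrix' e.symm.toLinearMap, by
      rw [← LinearMap.toMatrix'_comp]
      have : e.toLinearMap ∘ₗ e.symm.toLinearMap = LinearMap.id := by
        ext x : 1
        simp
      rw [this, LinearMap.toMatrix'_id], by
      rw [← LinearMap.toMatrix'_comp]
      have : e.symm.toLinearMap ∘ₗ e.toLinearMap = LinearMap.id := by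
        ext x : 1
        simp
      rw [this, LinearMap.toMatrix'_id]⟩
  have ha : ∀ v, (a : Matrix (Fin n) (Fin n) F).mulVec v = e v := fun v =>
    LinearMap.toMatrix'_mulVec e.toLinearMap v
  have ha1 : a ∈ HK n F K := by
    intro j hj
    rw [ha]
    have h1 := he (Pi.single (⟨j.val, hj⟩ : Fin K) 1, 0)
    rw [cm_apply, cm_apply, map_zero, Matrix.mulVec_zero, Matrix.mulVec_zero, add_zero,
      inc_single] at h1
    exact h1
  refine ⟨a, ha1, (a * g)⁻¹ * g', ?_, by rw [← mul_assoc, mul_inv_cancel, one_mul]⟩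
  intro j hj
  have h1 := he (0, Pi.single (⟨j.val, hj⟩ : Fin K) 1)
  rw [cm_apply, cm_apply, map_zero, zero_add, zero_add, inc_single, ← ha, Matrix.mulVec_mulVec]
    at h1
  have h2 : ((a * g : GL (Fin n) F) : Matrix (Fin n) (Fin n) F) =
      (a : Matrix (Fin n) (Fin n) F) * (g : Matrix (Fin n) (Fin n) F) := rfl
  rw [← h2] at h1
  have h3 : (((a * g)⁻¹ * g' : GL (Fin n) F) : Matrix (Fin n) (Fin n) F) =
      (((a * g)⁻¹ : GL (Fin n) F) : Matrix (Fin n) (Fin n) F) *
        (g' : Matrix (Fin n) (Fin n) F) := rfl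
  rw [h3, ← Matrix.mulVec_mulVec, ← h1, Matrix.mulVec_mulVec]
  have h4 : (((a * g)⁻¹ : GL (Fin n) F) : Matrix (Fin n) (Fin n) F) *
      ((a * g : GL (Fin n) F) : Matrix (Fin n) (Fin n) F) = 1 := by
    have h5 : (((a * g)⁻¹ * (a * g) : GL (Fin n) F) : Matrix (Fin n) (Fin n) F) = 1 := by
      rw [inv_mul_cancel]
      rfl
    exact h5
  rw [h4, Matrix.one_mulVec]

end BR3

open BR3 in
/-- BR3 -/
theorem t_BR3 : S_BR3 := by
  classical
  intro n K F _ _ _ hK
  let T := (Matrix (Fin K) (Fin K) F) × (Matrix (Fin K) (Fin K) F)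
  let Φ : T → ((Fin K → F) →ₗ[F] (Fin K → F)) × ((Fin K → F) →ₗ[F] (Fin K → F)) :=
    fun c => (Matrix.toLin' c.1, Matrix.toLin' c.2)
  let rep : T → GL (Fin n) F := fun c =>
    if h : ∃ g : GL (Fin n) F, Rel n K (g : Matrix (Fin n) (Fin n) F) (Φ c) then h.choose else 1
  refine ⟨Finset.univ.image rep, ?_, fun g => ?_⟩
  · refine le_trans Finset.card_image_le ?_
    rw [Finset.card_univ, Fintype.card_prod]
    have h1 : Fintype.card (Matrix (Fin K) (Fin K) F) = Nat.card F ^ (K ^ 2) := by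
      rw [Nat.card_eq_fintype_card]
      change Fintype.card (Fin K → Fin K → F) = _
      rw [Fintype.card_fun, Fintype.card_fun, Fintype.card_fin, ← pow_mul, pow_two]
    rw [h1, ← pow_add]
    exact le_of_eq (by ring_nf)
  · obtain ⟨c, hc⟩ := exists_rel hK (g : Matrix (Fin n) (Fin n) F)
    let c' : T := (LinearMap.toMatrix' c.1, LinearMap.toMatrix' c.2)
    have hc' : Φ c' = c := by
      apply Prod.ext
      · exact Matrix.toLin'_toMatrix' c.1
      · exact Matrix.toLin'_toMatrix' c.2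
    have hex : ∃ g : GL (Fin n) F, Rel n K (g : Matrix (Fin n) (Fin n) F) (Φ c') :=
      ⟨g, by rw [hc']; exact hc⟩
    have hrep : rep c' = hex.choose := dif_pos hex
    have h2 : Rel n K (rep c' : Matrix (Fin n) (Fin n) F) c := by
      have h3 : Rel n K (rep c' : Matrix (Fin n) (Fin n) F) (Φ c') := by
        rw [hrep]
        exact hex.choose_spec
      rw [hc'] at h3
      exact h3
    obtain ⟨a, ha, b, hb, hab⟩ := same hc h2
    exact ⟨a, ha, b, hb, by rw [hab]; exact Finset.mem_image_of_mem _ (Finset.mem_univ _)⟩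

end

end FLC
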