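import Pool.Agent.FLC.StA

/-!
# FLC, module BRG: the groups of unitriangular matrices
-/

namespace FLC

open Pool.Agent.Lib_helper13 RSF

noncomputable section

namespace BRG

section

variable {n : ℕ} {F : Type} [Field F] [Fintype F] {d : ℕ → ℕ}

open Classical in
theorem mem_US {u : Matrix (Fin n) (Fin n) F} :
    u ∈ US n F d ↔ (∀ i, u i i = 1) ∧
      ∀ i j : Fin n, i ≠ j → ¬ (i < j ∧ d i ≠ d j) → u i j = 0 := by
  unfold US
  rw [Finset.mem_filter]
  constructor
  · rintro ⟨-, h1, h2, h3⟩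
    refine ⟨h1, fun i j hij hP => ?_⟩
    rcases lt_or_gt_of_ne hij with h | h
    · refine h3 i j h ?_
      by_contra hd
      exact hP ⟨h, hd⟩
    · exact h2 i j h
  · rintro ⟨h1, h2⟩
    exact ⟨Finset.mem_univ _, h1, fun i j h => h2 i j h.ne' fun h' => lt_asymm h h'.1,
      fun i j h hd => h2 i j h.ne fun h' => h'.2 hd⟩

theorem one_mem : (1 : Matrix (Fin n) (Fin n) F) ∈ US n F d := by
  rw [mem_US]
  exact ⟨fun i => Matrix.one_apply_eq i, fun i j h _ => Matrix.one_apply_ne h⟩

theorem pat_trans (hd : Monotone d) {i k j : Fin n} (h1 : i < k ∧ d i ≠ d k)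
    (h2 : k < j ∧ d k ≠ d j) : i < j ∧ d i ≠ d j := by
  refine ⟨h1.1.trans h2.1, ?_⟩
  have h3 : d i ≤ d k := hd (Fin.lt_def.1 h1.1).le
  have h4 : d k ≤ d j := hd (Fin.lt_def.1 h2.1).le
  have h5 := lt_of_le_of_ne h3 h1.2
  exact (h5.trans_le h4).ne

/-- `u i k * v k j` vanishes unless the pattern allows it. -/
theorem mul_zero_of {u v : Matrix (Fin n) (Fin n) F} (hd : Monotone d)
    (hu : u ∈ US n F d) (hv : v ∈ US n F d) {i j k : Fin n} (hij : i ≠ j)
    (hP : ¬ (i < j ∧ d i ≠ d j)) : u i k * v k j = 0 := by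
  rw [mem_US] at hu hv
  by_cases h1 : i = k
  · subst h1
    rw [hv.2 i j hij hP, mul_zero]
  · by_cases h2 : k = j
    · subst h2
      rw [hu.2 i k hij hP, zero_mul]
    · by_cases h3 : i < k ∧ d i ≠ d k
      · by_cases h4 : k < j ∧ d k ≠ d j
        · exact absurd (pat_trans hd h3 h4) hP
        · rw [hv.2 k j h2 h4, mul_zero]
      · rw [hu.2 i k h1 h3, zero_mul]

theorem mul_mem (hd : Monotone d) {u v : Matrix (Fin n) (Fin n) F} (hu : u ∈ US n F d)
    (hv : v ∈ US n F d) : u * v ∈ US n F d := by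
  rw [mem_US]
  refine ⟨fun i => ?_, fun i j hij hP => ?_⟩
  · rw [mem_US] at hu hv
    rw [Matrix.mul_apply, Finset.sum_eq_single i, hu.1, hv.1, one_mul]
    · intro k _ hk
      by_cases h : i < k
      · rw [hv.2 k i hk fun h' => lt_asymm h h'.1, mul_zero]
      · rw [hu.2 i k hk.symm fun h' => h h'.1, zero_mul]
    · intro h
      exact absurd (Finset.mem_univ _) h
  · rw [Matrix.mul_apply]
    exact Finset.sum_eq_zero fun k _ => mul_zero_of hd hu hv hij hP

theorem det_eq {u : Matrix (Fin n) (Fin n) F} (hu : u ∈ US n F d) : u.det = 1 := by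
  rw [mem_US] at hu
  rw [Matrix.det_of_isUpperTriangular]
  · exact Finset.prod_eq_one fun i _ => hu.1 i
  · intro i j hij
    exact hu.2 i j (ne_of_gt hij) fun h' => lt_asymm hij h'.1

theorem isUnit {u : Matrix (Fin n) (Fin n) F} (hu : u ∈ US n F d) : IsUnit u := by
  rw [Matrix.isUnit_iff_isUnit_det, det_eq hu]
  exact isUnit_one

theorem lower {u : Matrix (Fin n) (Fin n) F} (hu : u ∈ US n F d) {i j : Fin n} (h : j < i) :
    u i j = 0 := by
  rw [mem_US] at hu
  exact hu.2 i j h.ne' fun h' => lt_asymm h h'.1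

theorem diag {u : Matrix (Fin n) (Fin n) F} (hu : u ∈ US n F d) (i : Fin n) : u i i = 1 := by
  rw [mem_US] at hu
  exact hu.1 i

theorem super {u v : Matrix (Fin n) (Fin n) F} (hu : u ∈ US n F d) (hv : v ∈ US n F d)
    {i j : Fin n} (hij : i.val + 1 = j.val) : (u * v) i j = u i j + v i j := by
  have hne : i ≠ j := by
    intro h
    rw [h] at hij
    omega
  rw [Matrix.mul_apply, Finset.sum_eq_add i j hne]
  · rw [diag hu, diag hv, one_mul, mul_one, add_comm]
  · rintro k - ⟨h1, h2⟩
    by_cases h : k < i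
    · rw [lower hu h, zero_mul]
    · have h3 : j < k := by
        rw [Fin.lt_def] at h ⊢
        have h4 : k.val ≠ i.val := fun h' => h1 (Fin.ext h')
        have h5 : k.val ≠ j.val := fun h' => h2 (Fin.ext h')
        omega
      rw [lower hv h3, mul_zero]
  · intro h
    exact absurd (Finset.mem_univ _) h
  · intro h
    exact absurd (Finset.mem_univ _) h

theorem sd_mul (S : Finset ℕ) {u v : Matrix (Fin n) (Fin n) F} (hu : u ∈ US n F d)
    (hv : v ∈ US n F d) : sd S (u * v) = sd S u + sd S v := by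
  unfold sd
  rw [← Finset.sum_add_distrib]
  refine Finset.sum_congr rfl fun i _ => ?_
  rw [← Finset.sum_add_distrib]
  refine Finset.sum_congr rfl fun j _ => ?_
  split_ifs with h
  · exact super hu hv h.1
  · rw [add_zero]

omit [Fintype F] in
theorem sd_one (S : Finset ℕ) : sd S (1 : Matrix (Fin n) (Fin n) F) = 0 := by
  unfold sd
  refine Finset.sum_eq_zero fun i _ => Finset.sum_eq_zero fun j _ => ?_
  split_ifs with h
  · refine Matrix.one_apply_ne ?_
    rintro rfl
    omega
  · rfl

variable (n F) in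
/-- The group. -/
def grp [DecidableEq F] (hd : Monotone d) : Subgroup (GL (Fin n) F) where
  carrier := {g | (g : Matrix (Fin n) (Fin n) F) ∈ US n F d}
  one_mem' := one_mem
  mul_mem' := fun {a b} ha hb => mul_mem hd ha hb
  inv_mem' := by
    intro g hg
    have h1 : ∀ k : ℕ, ((g ^ k : GL (Fin n) F) : Matrix (Fin n) (Fin n) F) ∈ US n F d := by
      intro k
      induction k with
      | zero => exact one_mem
      | succ k ih =>
        rw [pow_succ]
        exact mul_mem hd ih hg
    have h2 : g⁻¹ = g ^ (Fintype.card (GL (Fin n) F) - 1) := by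
      refine inv_eq_of_mul_eq_one_right ?_
      rw [← pow_succ', Nat.sub_add_cancel Fintype.card_pos, pow_card_eq_one]
    change ((g⁻¹ : GL (Fin n) F) : Matrix (Fin n) (Fin n) F) ∈ US n F d
    rw [h2]
    exact h1 _

theorem mem_grp [DecidableEq F] (hd : Monotone d) (g : GL (Fin n) F) :
    g ∈ grp n F hd ↔ (g : Matrix (Fin n) (Fin n) F) ∈ US n F d := Iff.rfl

end

end BRG

open Classical in
/-- BRG. -/
theorem t_BRG : S_BRG := by
  intro n F _ _ _ ψ d S hd
  refine ⟨BRG.grp n F hd, fun g => Iff.rfl, ⟨?_, ?_⟩, fun X => ?_⟩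
  · change ψ (sd S (1 : Matrix (Fin n) (Fin n) F)) = 1
    rw [BRG.sd_one, AddChar.map_zero_eq_one]
  · intro g hg h hh
    change ψ (sd S ((g : Matrix (Fin n) (Fin n) F) * (h : Matrix (Fin n) (Fin n) F))) = _
    rw [BRG.sd_mul S hg hh, AddChar.map_add_eq_mul]
  · unfold av mlt
    have hcard : (US n F d).card = Nat.card (BRG.grp n F hd) := by
      rw [Nat.card_eq_fintype_card, ← Finset.card_univ]
      symm
      refine Finset.card_bij
        (fun (g : BRG.grp n F hd) _ => ((g : GL (Fin n) F) : Matrix (Fin n) (Fin n) F))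
        ?_ ?_ ?_
      · intro g _
        exact g.2
      · intro g _ h _ hgh
        exact Subtype.ext (Units.ext hgh)
      · intro u hu
        exact ⟨⟨(BRG.isUnit hu).unit, hu⟩, Finset.mem_univ _, rfl⟩
    rw [hcard]
    congr 1
    rw [← Finset.sum_filter]
    symm
    refine Finset.sum_bij (fun g _ => (g : Matrix (Fin n) (Fin n) F)) ?_ ?_ ?_ ?_
    · intro g hg
      exact (Finset.mem_filter.1 hg).2
    · intro g _ h _ hgh
      exact Units.ext hgh
    · intro u hu
      exact ⟨(BRG.isUnit hu).unit, Finset.mem_filter.2 ⟨Finset.mem_univ _, hu⟩, rfl⟩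
    · intro g _
      have h1 : xm X (g : Matrix (Fin n) (Fin n) F) = X g := by
        unfold xm
        rw [dif_pos g.isUnit]
        congr 1
        exact Units.ext rfl
      rw [h1, AddChar.map_neg_eq_inv]

end

end FLC
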