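import Mathlib
import Pool.Agent.FLC.StA

/-!
# FLC, module CHB: a bound for the value of a character at a split semisimple element
-/

set_option autoImplicit false

namespace FLC

open Pool.Agent.Lib_helper13

/-- If `y` normalises the finite subgroup `H` and commutes only with the trivial element of it, the
elements `y * u`, `u ∈ H`, are conjugate to `y`. -/
theorem chb_conj {G : Type} [Group G] [Finite G] (H : Subgroup G) (y : G)
    (hn : ∀ u ∈ H, y * u * y⁻¹ ∈ H) (hc : ∀ u ∈ H, y * u = u * y → u = 1) :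
    ∀ u ∈ H, ∃ v : G, v * y * v⁻¹ = y * u := by
  intro u hu
  have hmem : ∀ v : H, (v : G) * (y * (v : G)⁻¹ * y⁻¹) ∈ H := fun v =>
    H.mul_mem v.2 (hn _ (H.inv_mem v.2))
  let f : H → H := fun v => ⟨(v : G) * (y * (v : G)⁻¹ * y⁻¹), hmem v⟩
  have hf : Function.Injective f := by
    intro v w h
    have h1 : (v : G) * (y * (v : G)⁻¹ * y⁻¹) = (w : G) * (y * (w : G)⁻¹ * y⁻¹) :=
      congrArg Subtype.val h
    have h2 : (v : G) * y * (v : G)⁻¹ = (w : G) * y * (w : G)⁻¹ := by
      have h3 := congrArg (fun z => z * y) h1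
      simpa [mul_assoc] using h3
    have h4 : y * ((w : G)⁻¹ * v) = ((w : G)⁻¹ * v) * y := by
      have h5 : (w : G)⁻¹ * ((v : G) * y * (v : G)⁻¹) * v =
          (w : G)⁻¹ * ((w : G) * y * (w : G)⁻¹) * v := by rw [h2]
      have h6 : (w : G)⁻¹ * ((v : G) * y * (v : G)⁻¹) * v = ((w : G)⁻¹ * v) * y := by group
      have h7 : (w : G)⁻¹ * ((w : G) * y * (w : G)⁻¹) * v = y * ((w : G)⁻¹ * v) := by group
      rw [← h6, ← h7, h5]
    have h8 := hc _ (H.mul_mem (H.inv_mem w.2) v.2) h4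
    apply Subtype.ext
    rw [inv_mul_eq_one] at h8
    exact h8.symm
  obtain ⟨v, hv⟩ := (Finite.injective_iff_surjective.1 hf) ⟨y * u * y⁻¹, hn u hu⟩
  refine ⟨v, ?_⟩
  have h1 : (v : G) * (y * (v : G)⁻¹ * y⁻¹) = y * u * y⁻¹ := congrArg Subtype.val hv
  have h2 := congrArg (fun z => z * y) h1
  simpa [mul_assoc] using h2

theorem chb_iff {n : ℕ} {F : Type} [Field F] [Fintype F] {d : ℕ → ℕ}
    {u : Matrix (Fin n) (Fin n) F} :
    u ∈ US n F d ↔ (∀ i, u i i = 1) ∧ (∀ i j, j < i → u i j = 0) ∧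
      ∀ i j : Fin n, i < j → d i = d j → u i j = 0 := by
  classical
  unfold US
  rw [Finset.mem_filter]
  exact ⟨fun h => h.2, fun h => ⟨Finset.mem_univ _, h⟩⟩

theorem chb_mem {n : ℕ} {F : Type} [Field F] [Fintype F] {d : ℕ → ℕ} {u w : Matrix (Fin n) (Fin n) F}
    (a : Fin n → F) (ha : ∀ i, a i ≠ 0) (h : ∀ i j, w i j * a j = a i * u i j)
    (hu : u ∈ US n F d) : w ∈ US n F d := by
  rw [chb_iff] at hu ⊢
  obtain ⟨h1, h2, h3⟩ := hu
  have hz : ∀ i j, u i j = 0 → w i j = 0 := by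
    intro i j hij
    have h4 := h i j
    rw [hij, mul_zero] at h4
    exact (mul_eq_zero.1 h4).resolve_right (ha j)
  refine ⟨fun i => ?_, fun i j hij => hz i j (h2 i j hij),
    fun i j hij hd => hz i j (h3 i j hij hd)⟩
  have h4 := h i i
  rw [h1 i, mul_one] at h4
  exact mul_right_cancel₀ (ha i) (by rw [h4, one_mul])

theorem t_CHB : M_CHB := by
  intro hNRU hBRG _ n F _ _ _ ψ X d ζ y hX hd hζ hy
  obtain ⟨H, hH, -, hav⟩ := hBRG n F ψ d ∅ hd
  have hψ : (fun g : GL (Fin n) F => ψ (sd ∅ (g : Matrix (Fin n) (Fin n) F))) = fun _ => 1 := by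
    funext g
    have : sd ∅ (g : Matrix (Fin n) (Fin n) F) = 0 := by
      unfold sd
      refine Finset.sum_eq_zero fun i _ => Finset.sum_eq_zero fun j _ => ?_
      rw [if_neg]
      rintro ⟨-, h⟩
      simp at h
    rw [this, AddChar.map_zero_eq_one]
  have ha : ∀ i : Fin n, ζ (d i) ≠ 0 := by
    intro i h0
    have h1 : (y : Matrix (Fin n) (Fin n) F) * ((y⁻¹ : GL (Fin n) F) : Matrix (Fin n) (Fin n) F) = 1 := by
      rw [← Matrix.GeneralLinearGroup.coe_mul, mul_inv_cancel]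
      rfl
    have h2 := congrFun (congrFun h1 i) i
    rw [hy, Matrix.diagonal_mul, Matrix.one_apply_eq, h0, zero_mul] at h2
    exact zero_ne_one h2
  have hn : ∀ u ∈ H, y * u * y⁻¹ ∈ H := by
    intro u hu
    rw [hH] at hu ⊢
    refine chb_mem (fun i => ζ (d i)) ha (fun i j => ?_) hu
    have h1 : ((y * u * y⁻¹ : GL (Fin n) F) : Matrix (Fin n) (Fin n) F) *
        (y : Matrix (Fin n) (Fin n) F) =
        (y : Matrix (Fin n) (Fin n) F) * (u : Matrix (Fin n) (Fin n) F) := by
      rw [← Matrix.GeneralLinearGroup.coe_mul, ← Matrix.GeneralLinearGroup.coe_mul]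
      congr 1
      group
    have h2 := congrFun (congrFun h1 i) j
    rw [hy, Matrix.mul_diagonal, Matrix.diagonal_mul] at h2
    exact h2
  have hc : ∀ u ∈ H, y * u = u * y → u = 1 := by
    intro u hu hyu
    rw [hH] at hu
    rw [chb_iff] at hu
    obtain ⟨h1, h2, h3⟩ := hu
    have h4 : (y : Matrix (Fin n) (Fin n) F) * (u : Matrix (Fin n) (Fin n) F) =
        (u : Matrix (Fin n) (Fin n) F) * (y : Matrix (Fin n) (Fin n) F) := by
      rw [← Matrix.GeneralLinearGroup.coe_mul, ← Matrix.GeneralLinearGroup.coe_mul, hyu]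
    apply Units.ext
    ext i j
    change (u : Matrix (Fin n) (Fin n) F) i j = (1 : Matrix (Fin n) (Fin n) F) i j
    rcases lt_trichotomy i j with hij | hij | hij
    · rw [Matrix.one_apply_ne hij.ne]
      by_cases hdd : d i = d j
      · exact h3 i j hij hdd
      · have h5 := congrFun (congrFun h4 i) j
        rw [hy, Matrix.mul_diagonal, Matrix.diagonal_mul] at h5
        have h6 : (ζ (d i) - ζ (d j)) * (u : Matrix (Fin n) (Fin n) F) i j = 0 := by
          rw [sub_mul, h5]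
          ring
        exact (mul_eq_zero.1 h6).resolve_left (sub_ne_zero.2 (hζ _ _ hdd))
    · subst hij
      rw [Matrix.one_apply_eq]
      exact h1 i
    · rw [Matrix.one_apply_ne hij.ne']
      exact h2 i j hij
  have key := hNRU (GL (Fin n) F) X H y hX hn (fun u hu => by
    obtain ⟨v, hv⟩ := chb_conj H y hn hc u hu
    rw [← hv, hX.conj_eq])
  rw [hav X, hψ]
  exact key

end FLC
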