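import Mathlib
import Pool.Agent.FLC.StA

/-!
# DC: the double coset bound
-/

set_option autoImplicit false

namespace FLC

open Pool.Agent.Lib_helper13 RSF

noncomputable section

theorem dc_pow {G : Type} [Group G] [Fintype G] {H : Subgroup G} {θ : G → ℂ} (h : LC H θ)
    {g : G} (hg : g ∈ H) (n : ℕ) : θ (g ^ n) = θ g ^ n := by
  induction n with
  | zero => rw [pow_zero, pow_zero, h.1]
  | succ n ih => rw [pow_succ, pow_succ, h.2 _ (H.pow_mem hg n) _ hg, ih]

theorem dc_norm {G : Type} [Group G] [Fintype G] {H : Subgroup G} {θ : G → ℂ} (h : LC H θ)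
    {g : G} (hg : g ∈ H) : ‖θ g‖ = 1 := by
  have h1 : θ g ^ Fintype.card G = 1 := by
    rw [← dc_pow h hg, pow_card_eq_one, h.1]
  exact Complex.norm_eq_one_of_pow_eq_one h1 Fintype.card_ne_zero

theorem dc_inv {G : Type} [Group G] [Fintype G] {H : Subgroup G} {θ : G → ℂ} (h : LC H θ)
    {g : G} (hg : g ∈ H) : (θ g⁻¹)⁻¹ = θ g := by
  have h1 := h.2 g⁻¹ (H.inv_mem hg) g hg
  rw [inv_mul_cancel, h.1] at h1
  exact inv_eq_of_mul_eq_one_right h1.symm

open Classical in
theorem dc_mlt {G : Type} [Group G] [Fintype G] {H : Subgroup G} {θ : G → ℂ} (h : LC H θ)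
    (X : G → ℂ) : mlt H θ X = (∑ g : G, if g ∈ H then X g⁻¹ * θ g else 0) / Nat.card H := by
  unfold mlt
  congr 1
  refine Fintype.sum_equiv (Equiv.inv G) _ _ fun g => ?_
  rw [Equiv.inv_apply, inv_inv]
  by_cases hg : g ∈ H
  · rw [if_pos hg, if_pos (H.inv_mem hg)]
    have h1 := dc_inv h (H.inv_mem hg)
    rw [inv_inv] at h1
    rw [h1]
  · rw [if_neg hg, if_neg fun h1 => hg (by simpa using H.inv_mem h1)]

open Classical in
/-- second orthogonality -/
theorem dc_orth {G : Type} [Group G] [Fintype G] (a x : G) :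
    ∑ X ∈ irrF G, X a⁻¹ * X x = ∑ g : G, if g * x * g⁻¹ = a then (1 : ℂ) else 0 := by
  obtain ⟨f, hf⟩ : ∃ f : G → ℂ, ∀ x, f x = ∑ g : G, if g * x * g⁻¹ = a then (1 : ℂ) else 0 :=
    ⟨_, fun _ => rfl⟩
  have hcl : ∀ y x, f (y * x * y⁻¹) = f x := by
    intro y x
    rw [hf, hf]
    refine Fintype.sum_equiv (Equiv.mulRight y) _ _ fun g => ?_
    have e : g * (y * x * y⁻¹) * g⁻¹ = Equiv.mulRight y g * x * (Equiv.mulRight y g)⁻¹ := by
      rw [Equiv.coe_mulRight]
      group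
    rw [e]
  have hip : ∀ X ∈ irrF G, ip f X = X a⁻¹ := by
    intro X hX
    have hX' := (mem_irrF.mp hX).isChr
    have h1 : ∑ x, f x * X x⁻¹ = Nat.card G * X a⁻¹ := by
      have h2 : ∀ x, f x * X x⁻¹ = ∑ g : G, if g * x * g⁻¹ = a then X x⁻¹ else 0 := by
        intro x
        rw [hf, Finset.sum_mul]
        refine Finset.sum_congr rfl fun g _ => ?_
        split_ifs <;> simp
      rw [Finset.sum_congr rfl fun x _ => h2 x, Finset.sum_comm]
      have h3 : ∀ g : G, (∑ x : G, if g * x * g⁻¹ = a then X x⁻¹ else 0) = X a⁻¹ := by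
        intro g
        rw [Finset.sum_eq_single (g⁻¹ * a * g)]
        · rw [if_pos (by group)]
          have h4 := hX'.conj_eq g⁻¹ a⁻¹
          rw [← h4]
          congr 1
          group
        · intro y _ hy
          rw [if_neg]
          intro h5
          apply hy
          rw [← h5]
          group
        · intro h5
          exact absurd (Finset.mem_univ _) h5
      rw [Finset.sum_congr rfl fun g _ => h3 g, Finset.sum_const, Finset.card_univ,
        nsmul_eq_mul, Nat.card_eq_fintype_card]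
    rw [ip, h1, mul_comm, mul_div_assoc, div_self natCard_ne_zero, mul_one]
  have h6 := congrFun (class_fn_expand f hcl) x
  rw [← hf, h6]
  exact Finset.sum_congr rfl fun X hX => by rw [hip X hX]

open Classical in
/-- the number of the pairs -/
theorem dc_card {G : Type} [Group G] [Fintype G] (H K : Subgroup G) (R : Finset G)
    (hR : ∀ g : G, ∃ h ∈ H, ∃ k ∈ K, h * g * k ∈ R) :
    (Finset.univ.filter fun p : G × G => p.2 ∈ K ∧ p.1 * p.2 * p.1⁻¹ ∈ H).card ≤
      R.card * (Nat.card H * Nat.card K) := by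
  choose h₀ hh k₀ hk hr using hR
  have e1 : ∀ L : Subgroup G, Nat.card L = (Finset.univ.filter fun g : G => g ∈ L).card := by
    intro L
    rw [Nat.card_eq_fintype_card]
    exact Fintype.card_subtype _
  rw [e1 H, e1 K, ← Finset.card_product, ← Finset.card_product]
  refine Finset.card_le_card_of_injOn
    (fun p => (h₀ p.1 * p.1 * k₀ p.1,
      ((p.1 * p.2 * p.1⁻¹)⁻¹ * (h₀ p.1)⁻¹, (k₀ p.1)⁻¹ * p.2))) ?_ ?_
  · intro p hp
    have hp' := (Finset.mem_filter.1 (Finset.mem_coe.1 hp)).2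
    rw [Finset.mem_coe, Finset.mem_product, Finset.mem_product, Finset.mem_filter,
      Finset.mem_filter]
    exact ⟨hr p.1, ⟨Finset.mem_univ _, H.mul_mem (H.inv_mem hp'.2) (H.inv_mem (hh _))⟩,
      Finset.mem_univ _, K.mul_mem (K.inv_mem (hk _)) hp'.1⟩
  · rintro ⟨g, k⟩ _ ⟨g', k'⟩ _ heq
    simp only [Prod.mk.injEq] at heq
    obtain ⟨h1, h2, h3⟩ := heq
    have e2 : ∀ g k : G, (g * k * g⁻¹)⁻¹ * (h₀ g)⁻¹ * (h₀ g * g * k₀ g) * ((k₀ g)⁻¹ * k) = g := by
      intro g k
      group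
    have h4 : g = g' := by
      rw [← e2 g k, ← e2 g' k', h1, h2, h3]
    subst h4
    rw [mul_right_inj] at h3
    rw [h3]

theorem t_DC : M_DC := by
  classical
  intro hMN G _ _ H K θ ψ R hθ hψ hR
  obtain ⟨P, hP⟩ : ∃ P : Finset (G × G),
      P = Finset.univ.filter fun p : G × G => p.2 ∈ K ∧ p.1 * p.2 * p.1⁻¹ ∈ H := ⟨_, rfl⟩
  have hcard : P.card ≤ R.card * (Nat.card H * Nat.card K) := hP ▸ dc_card H K R hR
  have hH : (0 : ℝ) < Nat.card H := by exact_mod_cast Nat.card_pos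
  have hK : (0 : ℝ) < Nat.card K := by exact_mod_cast Nat.card_pos
  -- the sum of the products
  have hsum : ∑ X ∈ irrF G, mlt H θ X * mlt K ψ X =
      (∑ p ∈ P, θ (p.1 * p.2 * p.1⁻¹) * (ψ p.2)⁻¹) / ((Nat.card H : ℂ) * Nat.card K) := by
    have h1 : ∀ X ∈ irrF G, mlt H θ X * mlt K ψ X =
        (∑ a : G, ∑ b : G, (if a ∈ H then θ a else 0) * (if b ∈ K then (ψ b)⁻¹ else 0) *
          (X a⁻¹ * X b)) / ((Nat.card H : ℂ) * Nat.card K) := by
      intro X _
      rw [dc_mlt hθ X, mlt, div_mul_div_comm, Finset.sum_mul_sum]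
      congr 1
      refine Finset.sum_congr rfl fun a _ => Finset.sum_congr rfl fun b _ => ?_
      split_ifs <;> ring
    rw [Finset.sum_congr rfl h1, ← Finset.sum_div]
    congr 1
    rw [Finset.sum_comm]
    have h2 : ∀ a : G, ∑ X ∈ irrF G, ∑ b : G, (if a ∈ H then θ a else 0) *
        (if b ∈ K then (ψ b)⁻¹ else 0) * (X a⁻¹ * X b) =
        ∑ b : G, ∑ g : G, if g * b * g⁻¹ = a then (if a ∈ H then θ a else 0) *
          (if b ∈ K then (ψ b)⁻¹ else 0) else 0 := by
      intro a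
      rw [Finset.sum_comm]
      refine Finset.sum_congr rfl fun b _ => ?_
      rw [← Finset.mul_sum, dc_orth, Finset.mul_sum]
      refine Finset.sum_congr rfl fun g _ => ?_
      split_ifs <;> simp
    rw [Finset.sum_congr rfl fun a _ => h2 a, Finset.sum_comm]
    have h3 : ∀ b : G, ∑ a : G, ∑ g : G, (if g * b * g⁻¹ = a then (if a ∈ H then θ a else 0) *
          (if b ∈ K then (ψ b)⁻¹ else 0) else 0) =
        ∑ g : G, (if g * b * g⁻¹ ∈ H then θ (g * b * g⁻¹) else 0) *
          (if b ∈ K then (ψ b)⁻¹ else 0) := by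
      intro b
      rw [Finset.sum_comm]
      refine Finset.sum_congr rfl fun g _ => ?_
      rw [Finset.sum_ite_eq, if_pos (Finset.mem_univ _)]
    rw [Finset.sum_congr rfl fun b _ => h3 b, Finset.sum_comm, hP, Finset.sum_filter,
      Fintype.sum_prod_type]
    refine Finset.sum_congr rfl fun g _ => Finset.sum_congr rfl fun b _ => ?_
    show _ = if b ∈ K ∧ g * b * g⁻¹ ∈ H then θ (g * b * g⁻¹) * (ψ b)⁻¹ else 0
    by_cases hb : b ∈ K
    · by_cases hg : g * b * g⁻¹ ∈ H
      · rw [if_pos hg, if_pos hb, if_pos ⟨hb, hg⟩]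
      · simp [hb, hg]
    · simp [hb]
  have hnorm : ‖∑ X ∈ irrF G, mlt H θ X * mlt K ψ X‖ ≤ R.card := by
    rw [hsum, norm_div, norm_mul, Complex.norm_natCast, Complex.norm_natCast,
      div_le_iff₀ (mul_pos hH hK)]
    have h4 : ‖∑ p ∈ P, θ (p.1 * p.2 * p.1⁻¹) * (ψ p.2)⁻¹‖ ≤ P.card := by
      refine (norm_sum_le _ _).trans ?_
      rw [Finset.card_eq_sum_ones, Nat.cast_sum]
      refine Finset.sum_le_sum fun p hp => ?_
      rw [hP] at hp
      have hp' := (Finset.mem_filter.1 hp).2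
      rw [norm_mul, norm_inv, dc_norm hθ hp'.2, dc_norm hψ hp'.1]
      norm_num
    refine h4.trans ?_
    exact_mod_cast hcard
  have hre : ∑ X ∈ irrF G, (mlt H θ X).re * (mlt K ψ X).re =
      (∑ X ∈ irrF G, mlt H θ X * mlt K ψ X).re := by
    rw [Complex.re_sum]
    refine Finset.sum_congr rfl fun X hX => ?_
    obtain ⟨a, ha⟩ := (hMN G X (mem_irrF.mp hX).isChr).1 H θ hθ
    obtain ⟨b, hb⟩ := (hMN G X (mem_irrF.mp hX).isChr).1 K ψ hψ
    rw [ha, hb, Complex.mul_re, Complex.natCast_im, Complex.natCast_im, mul_zero, sub_zero]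
  rw [hre]
  exact (Complex.re_le_norm _).trans hnorm

end

end FLC
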