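import Pool.Agent.FLC.StA

/-!
# FLC_DIM: the mirabolic chain
-/

namespace FLC

open Pool.Agent.Lib_helper13 RSF

noncomputable section

namespace DIM

section Ext

variable {F : Type} [Field F] {n : ℕ}

/-- The bordered matrix `[u v; 0 1]`. -/
def xt (u : Matrix (Fin n) (Fin n) F) (v : Fin n → F) : Matrix (Fin (n + 1)) (Fin (n + 1)) F :=
  fun i j => Fin.lastCases (motive := fun _ => F)
    (Fin.lastCases (motive := fun _ => F) 1 (fun _ => 0) j)
    (fun i' => Fin.lastCases (motive := fun _ => F) (v i') (fun j' => u i' j') j) i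

@[simp] theorem xt_cc (u : Matrix (Fin n) (Fin n) F) (v : Fin n → F) (i j : Fin n) :
    xt u v i.castSucc j.castSucc = u i j := by simp [xt]

@[simp] theorem xt_cl (u : Matrix (Fin n) (Fin n) F) (v : Fin n → F) (i : Fin n) :
    xt u v i.castSucc (Fin.last n) = v i := by simp [xt]

@[simp] theorem xt_lc (u : Matrix (Fin n) (Fin n) F) (v : Fin n → F) (j : Fin n) :
    xt u v (Fin.last n) j.castSucc = 0 := by simp [xt]

@[simp] theorem xt_ll (u : Matrix (Fin n) (Fin n) F) (v : Fin n → F) :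
    xt u v (Fin.last n) (Fin.last n) = 1 := by simp [xt]

omit [Field F] in
theorem xt_ext {A B : Matrix (Fin (n + 1)) (Fin (n + 1)) F}
    (h1 : ∀ i j : Fin n, A i.castSucc j.castSucc = B i.castSucc j.castSucc)
    (h2 : ∀ i : Fin n, A i.castSucc (Fin.last n) = B i.castSucc (Fin.last n))
    (h3 : ∀ j : Fin n, A (Fin.last n) j.castSucc = B (Fin.last n) j.castSucc)
    (h4 : A (Fin.last n) (Fin.last n) = B (Fin.last n) (Fin.last n)) : A = B := by
  ext i j
  refine Fin.lastCases ?_ (fun i => ?_) i <;> refine Fin.lastCases ?_ (fun j => ?_) j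
  · exact h4
  · exact h3 j
  · exact h2 i
  · exact h1 i j

theorem xt_mul (u u' : Matrix (Fin n) (Fin n) F) (v v' : Fin n → F) :
    xt u v * xt u' v' = xt (u * u') (u.mulVec v' + v) := by
  refine xt_ext (fun i j => ?_) (fun i => ?_) (fun j => ?_) ?_
  · rw [Matrix.mul_apply, Fin.sum_univ_castSucc]
    simp [Matrix.mul_apply]
  · rw [Matrix.mul_apply, Fin.sum_univ_castSucc]
    simp [Matrix.mulVec, dotProduct]
  · rw [Matrix.mul_apply, Fin.sum_univ_castSucc]
    simp
  · rw [Matrix.mul_apply, Fin.sum_univ_castSucc]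
    simp

theorem xt_one : xt (1 : Matrix (Fin n) (Fin n) F) 0 = 1 := by
  refine xt_ext (fun i j => ?_) (fun i => ?_) (fun j => ?_) ?_
  · simp [Matrix.one_apply]
  · simp [(Fin.castSucc_lt_last i).ne]
  · simp [(Fin.castSucc_lt_last j).ne']
  · simp

/-- The last entry. -/
def lv (v : Fin n → F) : F := ∑ i : Fin n, if i.val + 1 = n then v i else 0

theorem lv_zero : lv (0 : Fin n → F) = 0 := by
  unfold lv
  simp

theorem sd_xt (S : Finset ℕ) (u : Matrix (Fin n) (Fin n) F) (v : Fin n → F) :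
    sd S (xt u v) = sd S u + if n ∈ S then lv v else 0 := by
  unfold sd lv
  rw [Fin.sum_univ_castSucc]
  simp only [Fin.sum_univ_castSucc, xt_cc, xt_cl, xt_lc, xt_ll, Fin.val_castSucc, Fin.val_last]
  rw [Finset.sum_add_distrib, add_assoc]
  congr 1
  have h1 : ∀ j : Fin n, ¬ n + 1 = j.val := fun j => by omega
  have h2 : ¬ n + 1 = n := by omega
  simp only [h1, h2, false_and, if_false, Finset.sum_const_zero, add_zero]
  by_cases h : n ∈ S
  · simp [h]
  · simp [h]

end Ext

section Sum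

variable {F : Type} [Field F] [Fintype F] {n : ℕ}

theorem mem_US {d : ℕ → ℕ} {A : Matrix (Fin n) (Fin n) F} : A ∈ US n F d ↔
    (∀ i, A i i = 1) ∧ (∀ i j, j < i → A i j = 0) ∧ ∀ i j : Fin n, i < j → d i = d j → A i j = 0 := by
  classical
  unfold US
  rw [Finset.mem_filter]
  exact ⟨fun h => h.2, fun h => ⟨Finset.mem_univ _, h⟩⟩

open Classical in
/-- The last columns. -/
def VD (n : ℕ) (F : Type) [Field F] [Fintype F] (d : ℕ → ℕ) : Finset (Fin n → F) :=
  Fintype.piFinset fun r : Fin n => if d r = d n then {0} else Finset.univ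

open Classical in
/-- The dual vectors. -/
def WD (n : ℕ) (F : Type) [Field F] [Fintype F] (d : ℕ → ℕ) : Finset (Fin n → F) :=
  Fintype.piFinset fun r : Fin n => if d r = d n then Finset.univ else {0}

theorem mem_VD {d : ℕ → ℕ} {v : Fin n → F} : v ∈ VD n F d ↔ ∀ r : Fin n, d r = d n → v r = 0 := by
  classical
  unfold VD
  rw [Fintype.mem_piFinset]
  refine forall_congr' fun r => ?_
  by_cases h : d r = d n
  · simp [h]
  · simp [h]

theorem mem_WD {d : ℕ → ℕ} {v : Fin n → F} : v ∈ WD n F d ↔ ∀ r : Fin n, d r ≠ d n → v r = 0 := by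
  classical
  unfold WD
  rw [Fintype.mem_piFinset]
  refine forall_congr' fun r => ?_
  by_cases h : d r = d n
  · simp [h]
  · simp [h]

theorem card_VD_mul (d : ℕ → ℕ) :
    ((VD n F d).card : ℂ) * ((WD n F d).card : ℂ) = (Nat.card F : ℂ) ^ n := by
  classical
  unfold VD WD
  rw [Fintype.card_piFinset, Fintype.card_piFinset, ← Nat.cast_mul, ← Finset.prod_mul_distrib]
  have h1 : ∀ r : Fin n, (if d r = d n then ({0} : Finset F) else Finset.univ).card *
      (if d r = d n then (Finset.univ : Finset F) else {0}).card = Nat.card F := by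
    intro r
    by_cases h : d r = d n
    · simp [h]
    · simp [h]
  rw [Finset.prod_congr rfl fun r _ => h1 r]
  simp

theorem card_WD (d : ℕ → ℕ) : ((WD n F d).card : ℂ) = (Nat.card F : ℂ) ^ w d n := by
  classical
  unfold WD
  rw [Fintype.card_piFinset]
  have h1 : ∀ r : Fin n, (if d r = d n then (Finset.univ : Finset F) else {0}).card =
      if d r = d n then Nat.card F else 1 := by
    intro r
    by_cases h : d r = d n
    · simp [h]
    · simp [h]
  rw [Finset.prod_congr rfl fun r _ => h1 r]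
  have h2 : w d n = (Finset.univ.filter fun r : Fin n => d r = d n).card := by
    unfold w
    refine Finset.card_bij' (fun i hi => ⟨i, by simpa using (Finset.mem_filter.1 hi).1⟩)
      (fun i _ => i.val) ?_ ?_ ?_ ?_
    · intro i hi
      simpa using (Finset.mem_filter.1 hi).2
    · intro i hi
      simpa using (Finset.mem_filter.1 hi).2
    · intro i hi
      rfl
    · intro i hi
      rfl
  rw [h2, Finset.prod_ite, Finset.prod_const, Finset.prod_const_one, mul_one, Nat.cast_pow]

theorem xt_mem {d : ℕ → ℕ} {u : Matrix (Fin n) (Fin n) F} {v : Fin n → F} :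
    xt u v ∈ US (n + 1) F d ↔ u ∈ US n F d ∧ v ∈ VD n F d := by
  rw [mem_US, mem_US, mem_VD]
  constructor
  · rintro ⟨h1, h2, h3⟩
    refine ⟨⟨fun i => ?_, fun i j hij => ?_, fun i j hij hd => ?_⟩, fun r hr => ?_⟩
    · have := h1 i.castSucc
      rwa [xt_cc] at this
    · have := h2 i.castSucc j.castSucc (by simpa using hij)
      rwa [xt_cc] at this
    · have := h3 i.castSucc j.castSucc (by simpa using hij) (by simpa using hd)
      rwa [xt_cc] at this
    · have := h3 r.castSucc (Fin.last n) (Fin.castSucc_lt_last r) (by simpa using hr)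
      rwa [xt_cl] at this
  · rintro ⟨⟨h1, h2, h3⟩, h4⟩
    refine ⟨fun i => ?_, fun i j => ?_, fun i j => ?_⟩
    · refine Fin.lastCases ?_ (fun i => ?_) i
      · rw [xt_ll]
      · rw [xt_cc, h1]
    · refine Fin.lastCases ?_ (fun i => ?_) i <;> refine Fin.lastCases ?_ (fun j => ?_) j
      · exact fun h => absurd h (lt_irrefl _)
      · intro _
        rw [xt_lc]
      · exact fun h => absurd h (not_lt_of_gt (Fin.castSucc_lt_last i))
      · intro h
        rw [xt_cc]
        exact h2 i j (by simpa using h)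
    · refine Fin.lastCases ?_ (fun i => ?_) i <;> refine Fin.lastCases ?_ (fun j => ?_) j
      · exact fun h => absurd h (lt_irrefl _)
      · exact fun h => absurd h (not_lt_of_gt (Fin.castSucc_lt_last j))
      · intro _ hd
        rw [xt_cl]
        exact h4 i (by simpa using hd)
      · intro h hd
        rw [xt_cc]
        exact h3 i j (by simpa using h) (by simpa using hd)

theorem xt_surj {d : ℕ → ℕ} {A : Matrix (Fin (n + 1)) (Fin (n + 1)) F} (hA : A ∈ US (n + 1) F d) :
    xt (A.submatrix Fin.castSucc Fin.castSucc) (fun i => A i.castSucc (Fin.last n)) = A := by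
  rw [mem_US] at hA
  refine xt_ext (fun i j => ?_) (fun i => ?_) (fun j => ?_) ?_
  · exact xt_cc _ _ i j
  · exact xt_cl _ _ i
  · exact (xt_lc _ _ j).trans (hA.2.1 _ _ (Fin.castSucc_lt_last j)).symm
  · exact (xt_ll _ _).trans (hA.1 _).symm

theorem sum_US (d : ℕ → ℕ) (f : Matrix (Fin (n + 1)) (Fin (n + 1)) F → ℂ) :
    ∑ A ∈ US (n + 1) F d, f A = ∑ u ∈ US n F d, ∑ v ∈ VD n F d, f (xt u v) := by
  rw [← Finset.sum_product']
  symm
  refine Finset.sum_nbij' (fun p => xt p.1 p.2)
    (fun A => (A.submatrix Fin.castSucc Fin.castSucc, fun i => A i.castSucc (Fin.last n)))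
    ?_ ?_ ?_ ?_ ?_
  · intro p hp
    rw [Finset.mem_product] at hp
    exact xt_mem.2 hp
  · intro A hA
    rw [Finset.mem_product, ← xt_mem (d := d), xt_surj hA]
    exact hA
  · rintro ⟨u, v⟩ _
    refine Prod.ext ?_ ?_
    · funext i j
      exact xt_cc u v i j
    · funext i
      exact xt_cl u v i
  · intro A hA
    exact xt_surj hA
  · intro p _
    rfl

theorem card_US (d : ℕ → ℕ) :
    ((US (n + 1) F d).card : ℂ) = ((US n F d).card : ℂ) * ((VD n F d).card : ℂ) := by
  have h1 := sum_US (F := F) (n := n) d (fun _ => 1)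
  simpa using h1

end Sum

section Main

variable {F : Type} [Field F] [Fintype F] {n : ℕ}

/-- The average over the last column. -/
def Yt (ψ : AddChar F ℂ) (ε : F) (Y : Matrix (Fin (n + 1)) (Fin (n + 1)) F → ℂ)
    (g : Matrix (Fin n) (Fin n) F) : ℂ :=
  (∑ v : Fin n → F, Y (xt g v) * ψ (-(ε * lv v))) / (Nat.card F : ℂ) ^ n

omit [Fintype F] in
theorem gx_mul (h h' : Matrix (Fin n) (Fin n) F) (e : h * h' = 1) : xt h 0 * xt h' 0 = 1 := by
  rw [xt_mul, e, Matrix.mulVec_zero, add_zero, xt_one]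

/-- The matrix `diag(h, 1)`. -/
def gx (h : GL (Fin n) F) : GL (Fin (n + 1)) F where
  val := xt (h : Matrix (Fin n) (Fin n) F) 0
  inv := xt ((h⁻¹ : GL (Fin n) F) : Matrix (Fin n) (Fin n) F) 0
  val_inv := gx_mul _ _ (h.mul_inv)
  inv_val := gx_mul _ _ (h.inv_mul)

omit [Fintype F] in
theorem Y_conj {Y : Matrix (Fin (n + 1)) (Fin (n + 1)) F → ℂ} (hY : Pinv Y) (h : GL (Fin n) F)
    (g : Matrix (Fin n) (Fin n) F) (v : Fin n → F) :
    Y (xt ((h : Matrix (Fin n) (Fin n) F) * g * ((h⁻¹ : GL (Fin n) F) : Matrix (Fin n) (Fin n) F))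
      ((h : Matrix (Fin n) (Fin n) F).mulVec v)) = Y (xt g v) := by
  have h1 := hY (gx h) (fun i j hi => by
    have hi' : i = Fin.last n := Fin.ext (by rw [Fin.val_last]; omega)
    subst hi'
    change xt (h : Matrix (Fin n) (Fin n) F) 0 (Fin.last n) j = _
    refine Fin.lastCases ?_ (fun j => ?_) j
    · rw [xt_ll, if_pos rfl]
    · rw [xt_lc, if_neg (Fin.castSucc_lt_last j).ne']) (xt g v)
  have h2 : (gx h : Matrix (Fin (n + 1)) (Fin (n + 1)) F) * xt g v *
      ((gx h)⁻¹ : GL (Fin (n + 1)) F) =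
      xt ((h : Matrix (Fin n) (Fin n) F) * g * ((h⁻¹ : GL (Fin n) F) : Matrix (Fin n) (Fin n) F))
      ((h : Matrix (Fin n) (Fin n) F).mulVec v) := by
    change xt (h : Matrix (Fin n) (Fin n) F) 0 * xt g v *
      xt ((h⁻¹ : GL (Fin n) F) : Matrix (Fin n) (Fin n) F) 0 = _
    rw [xt_mul, xt_mul, Matrix.mulVec_zero, zero_add, add_zero]
  rw [← h2, h1]

/-- The bijection `v ↦ h v`. -/
def hE (h : GL (Fin n) F) : (Fin n → F) ≃ (Fin n → F) where
  toFun v := (h : Matrix (Fin n) (Fin n) F).mulVec v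
  invFun v := ((h⁻¹ : GL (Fin n) F) : Matrix (Fin n) (Fin n) F).mulVec v
  left_inv v := by
    change ((h⁻¹ : GL (Fin n) F) : Matrix (Fin n) (Fin n) F).mulVec
      ((h : Matrix (Fin n) (Fin n) F).mulVec v) = v
    rw [Matrix.mulVec_mulVec, h.inv_mul, Matrix.one_mulVec]
  right_inv v := by
    change (h : Matrix (Fin n) (Fin n) F).mulVec
      (((h⁻¹ : GL (Fin n) F) : Matrix (Fin n) (Fin n) F).mulVec v) = v
    rw [Matrix.mulVec_mulVec, h.mul_inv, Matrix.one_mulVec]

omit [Fintype F] in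
theorem lv_eq (l : Fin n) (hl : l.val + 1 = n) (v : Fin n → F) : lv v = v l := by
  unfold lv
  rw [Finset.sum_eq_single l]
  · rw [if_pos hl]
  · intro b _ hb
    rw [if_neg]
    intro h
    exact hb (Fin.ext (by omega))
  · intro h
    exact absurd (Finset.mem_univ _) h

omit [Fintype F] in
theorem lv_h (h : GL (Fin n) F)
    (hh : ∀ i j : Fin n, i.val + 1 = n → (h : Matrix (Fin n) (Fin n) F) i j = if i = j then 1 else 0)
    (v : Fin n → F) : lv ((h : Matrix (Fin n) (Fin n) F).mulVec v) = lv v := by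
  unfold lv
  refine Finset.sum_congr rfl fun i _ => ?_
  by_cases hi : i.val + 1 = n
  · rw [if_pos hi, if_pos hi]
    change ∑ j, (h : Matrix (Fin n) (Fin n) F) i j * v j = v i
    rw [Finset.sum_eq_single i]
    · rw [hh i i hi, if_pos rfl, one_mul]
    · intro b _ hb
      rw [hh i b hi, if_neg hb.symm, zero_mul]
    · intro h
      exact absurd (Finset.mem_univ _) h
  · rw [if_neg hi, if_neg hi]

theorem Pinv_Yt (ψ : AddChar F ℂ) (ε : F) {Y : Matrix (Fin (n + 1)) (Fin (n + 1)) F → ℂ}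
    (hY : Pinv Y) : Pinv (Yt ψ ε Y) := by
  intro h hh A
  unfold Yt
  congr 1
  refine (Fintype.sum_equiv (hE h) _ _ fun v => ?_).symm
  change Y (xt A v) * ψ (-(ε * lv v)) = Y (xt _ ((h : Matrix (Fin n) (Fin n) F).mulVec v)) *
    ψ (-(ε * lv ((h : Matrix (Fin n) (Fin n) F).mulVec v)))
  rw [Y_conj hY, lv_h h hh]

/-- `d` has a new value at `n`. -/
theorem av_a (ψ : AddChar F ℂ) (d : ℕ → ℕ) (hd : ∀ r, r < n → d r ≠ d n) (S : Finset ℕ)
    (Y : Matrix (Fin (n + 1)) (Fin (n + 1)) F → ℂ) :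
    av ψ d S Y = av ψ d S (Yt ψ (if n ∈ S then 1 else 0) Y) := by
  have hV : VD n F d = Finset.univ := by
    refine Finset.eq_univ_of_forall fun v => ?_
    rw [mem_VD]
    intro r hr
    exact absurd hr (hd r r.2)
  unfold av
  rw [sum_US, card_US, hV]
  have hc : ((Finset.univ : Finset (Fin n → F)).card : ℂ) = (Nat.card F : ℂ) ^ n := by
    rw [Finset.card_univ, Fintype.card_fun, Fintype.card_fin, Nat.card_eq_fintype_card]
    push_cast
    rfl
  rw [hc, mul_comm, ← div_div]
  congr 1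
  rw [Finset.sum_div]
  refine Finset.sum_congr rfl fun u _ => ?_
  unfold Yt
  rw [div_mul_eq_mul_div, Finset.sum_mul]
  congr 1
  refine Finset.sum_congr rfl fun v _ => ?_
  have h1 : (if n ∈ S then lv v else 0) = (if n ∈ S then (1 : F) else 0) * lv v := by
    split_ifs
    · rw [one_mul]
    · rw [zero_mul]
  rw [sd_xt, h1, neg_add, AddChar.map_add_eq_mul]
  ring

/-- The block of the last value of `d`. -/
def BK (d : ℕ → ℕ) (g : Matrix (Fin n) (Fin n) F) : Prop :=
  ∀ i j : Fin n, (d i ≠ d n ∨ d j ≠ d n) → g i j = if i = j then 1 else 0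

omit [Fintype F] in
theorem row_mul {A B : Matrix (Fin n) (Fin n) F} {i : Fin n}
    (h : ∀ j, A i j = if i = j then 1 else 0) (j : Fin n) : (A * B) i j = B i j := by
  rw [Matrix.mul_apply, Finset.sum_eq_single i]
  · rw [h, if_pos rfl, one_mul]
  · intro b _ hb
    rw [h, if_neg hb.symm, zero_mul]
  · intro h
    exact absurd (Finset.mem_univ _) h

omit [Fintype F] in
theorem col_mul {A B : Matrix (Fin n) (Fin n) F} {j : Fin n}
    (h : ∀ i, B i j = if i = j then 1 else 0) (i : Fin n) : (A * B) i j = A i j := by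
  rw [Matrix.mul_apply, Finset.sum_eq_single j]
  · rw [h, if_pos rfl, mul_one]
  · intro b _ hb
    rw [h, if_neg hb, mul_zero]
  · intro h
    exact absurd (Finset.mem_univ _) h

omit [Fintype F] in
theorem BK_inv {d : ℕ → ℕ} {g : GL (Fin n) F} (hg : BK d (g : Matrix (Fin n) (Fin n) F)) :
    BK d ((g⁻¹ : GL (Fin n) F) : Matrix (Fin n) (Fin n) F) := by
  rintro i j (h | h)
  · have h1 := row_mul (B := ((g⁻¹ : GL (Fin n) F) : Matrix (Fin n) (Fin n) F))
      (fun j => hg i j (Or.inl h)) j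
    rw [← h1, g.mul_inv]
    rfl
  · have h1 := col_mul (A := ((g⁻¹ : GL (Fin n) F) : Matrix (Fin n) (Fin n) F))
      (fun i => hg i j (Or.inr h)) i
    rw [← h1, g.inv_mul]
    rfl

omit [Fintype F] in
theorem conj_lo {d : ℕ → ℕ} {g : GL (Fin n) F} (hg : BK d (g : Matrix (Fin n) (Fin n) F))
    (u : Matrix (Fin n) (Fin n) F) {i j : Fin n} (hi : d i ≠ d n) (hj : d j ≠ d n) :
    ((g : Matrix (Fin n) (Fin n) F) * u * ((g⁻¹ : GL (Fin n) F) : Matrix (Fin n) (Fin n) F)) i j =
      u i j := by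
  rw [col_mul (fun i => BK_inv hg i j (Or.inr hj)), row_mul (fun j => hg i j (Or.inl hi))]

theorem row_last {d : ℕ → ℕ} (hd : Monotone d) {u : Matrix (Fin n) (Fin n) F} (hu : u ∈ US n F d)
    {i : Fin n} (hi : d i = d n) (j : Fin n) : u i j = if i = j then 1 else 0 := by
  rw [mem_US] at hu
  rcases lt_trichotomy i j with h | h | h
  · rw [if_neg h.ne]
    refine hu.2.2 i j h ?_
    have h1 : d i ≤ d j := hd (le_of_lt h)
    have h2 : d j ≤ d n := hd (le_of_lt j.2)
    omega
  · subst h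
    rw [if_pos rfl, hu.1]
  · rw [if_neg h.ne', hu.2.1 i j h]

theorem conj_hi {d : ℕ → ℕ} (hd : Monotone d) {g : GL (Fin n) F}
    (hg : BK d (g : Matrix (Fin n) (Fin n) F)) {u : Matrix (Fin n) (Fin n) F} (hu : u ∈ US n F d)
    {i : Fin n} (hi : d i = d n) (j : Fin n) :
    ((g : Matrix (Fin n) (Fin n) F) * u * ((g⁻¹ : GL (Fin n) F) : Matrix (Fin n) (Fin n) F)) i j =
      if i = j then 1 else 0 := by
  have h1 : ∀ k, ((g : Matrix (Fin n) (Fin n) F) * u) i k = (g : Matrix (Fin n) (Fin n) F) i k := by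
    intro k
    rw [Matrix.mul_apply, Finset.sum_eq_single k]
    · by_cases hk : d k = d n
      · rw [row_last hd hu hk, if_pos rfl, mul_one]
      · rw [hg i k (Or.inr hk)]
        have hik : i ≠ k := fun h => hk (by rw [← h]; exact hi)
        rw [if_neg hik, zero_mul]
    · intro b _ hb
      by_cases hk : d b = d n
      · rw [row_last hd hu hk, if_neg hb, mul_zero]
      · rw [hg i b (Or.inr hk)]
        have hik : i ≠ b := fun h => hk (by rw [← h]; exact hi)
        rw [if_neg hik, zero_mul]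
    · intro h
      exact absurd (Finset.mem_univ _) h
  rw [Matrix.mul_apply]
  rw [Finset.sum_congr rfl fun k _ => by rw [h1 k]]
  rw [← Matrix.mul_apply, g.mul_inv]
  rfl

theorem conj_mem {d : ℕ → ℕ} (hd : Monotone d) {g : GL (Fin n) F}
    (hg : BK d (g : Matrix (Fin n) (Fin n) F)) {u : Matrix (Fin n) (Fin n) F} (hu : u ∈ US n F d) :
    (g : Matrix (Fin n) (Fin n) F) * u * ((g⁻¹ : GL (Fin n) F) : Matrix (Fin n) (Fin n) F) ∈
      US n F d := by
  have hu' := mem_US.1 hu
  have hle : ∀ i : Fin n, d i ≤ d n := fun i => hd (le_of_lt i.2)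
  rw [mem_US]
  refine ⟨fun i => ?_, fun i j hij => ?_, fun i j hij he => ?_⟩
  · by_cases hi : d i = d n
    · rw [conj_hi hd hg hu hi, if_pos rfl]
    · rw [conj_lo hg u hi hi, hu'.1]
  · by_cases hi : d i = d n
    · rw [conj_hi hd hg hu hi, if_neg hij.ne']
    · have h1 : d j ≤ d i := hd (le_of_lt hij)
      have h2 := hle i
      have hj : d j ≠ d n := by omega
      rw [conj_lo hg u hi hj, hu'.2.1 i j hij]
  · by_cases hi : d i = d n
    · rw [conj_hi hd hg hu hi, if_neg hij.ne]
    · have hj : d j ≠ d n := by rw [← he]; exact hi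
      rw [conj_lo hg u hi hj, hu'.2.2 i j hij he]

omit [Fintype F] in
theorem conj_sd {d : ℕ → ℕ} (hd : Monotone d) {g : GL (Fin n) F}
    (hg : BK d (g : Matrix (Fin n) (Fin n) F)) (u : Matrix (Fin n) (Fin n) F)
    {S : Finset ℕ} (hS : ∀ i ∈ S, ∀ j, j ≠ i → d j ≠ d i) :
    sd S ((g : Matrix (Fin n) (Fin n) F) * u *
      ((g⁻¹ : GL (Fin n) F) : Matrix (Fin n) (Fin n) F)) = sd S u := by
  unfold sd
  refine Finset.sum_congr rfl fun i _ => Finset.sum_congr rfl fun j _ => ?_
  by_cases h : i.val + 1 = j.val ∧ j.val ∈ S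
  · rw [if_pos h, if_pos h]
    have hj : d j ≠ d n := (hS j h.2 n (by have := j.2; omega)).symm
    have hi : d i ≠ d n := by
      have h1 : d i ≤ d j := hd (by omega)
      have h2 : d j ≤ d n := hd (le_of_lt j.2)
      omega
    exact conj_lo hg u hi hj
  · rw [if_neg h, if_neg h]

omit [Fintype F] in
/-- An element of the group with given last row. -/
theorem exists_g {d : ℕ → ℕ} (hd : Monotone d) {y : Fin n → F} (hy : ∀ r : Fin n, d r ≠ d n → y r = 0)
    (h0 : y ≠ 0) : ∃ g : GL (Fin n) F, BK d (g : Matrix (Fin n) (Fin n) F) ∧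
      ∀ v, lv ((g : Matrix (Fin n) (Fin n) F).mulVec v) = ∑ r, y r * v r := by
  classical
  obtain ⟨r0, hr0⟩ := Function.ne_iff.1 h0
  have hr0' : y r0 ≠ 0 := hr0
  have hdr : d r0 = d n := by
    by_contra h
    exact hr0' (hy r0 h)
  have hn : n - 1 < n := by have := r0.2; omega
  obtain ⟨l, hl⟩ : ∃ l : Fin n, l.val + 1 = n := ⟨⟨n - 1, hn⟩, by simp only; omega⟩
  have hdl : d l = d n := by
    have h1 : d r0 ≤ d l := hd (by have := r0.2; omega)
    have h2 : d l ≤ d n := hd (le_of_lt l.2)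
    omega
  let σ : Equiv.Perm (Fin n) := Equiv.swap r0 l
  have hσ : ∀ j, σ (σ j) = j := fun j => Equiv.swap_apply_self r0 l j |> fun _ => by
    simp only [σ, Equiv.swap_apply_self]
  let E : Matrix (Fin n) (Fin n) F := fun i j => if i = l then y (σ j) else if i = j then 1 else 0
  have hE : E.det = y r0 := by
    rw [Matrix.det_of_isLowerTriangular E (fun i j hij => ?_), Finset.prod_eq_single l]
    · simp [E, σ]
    · intro b _ hb
      simp [E, hb]
    · intro h
      exact absurd (Finset.mem_univ _) h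
    · have h1 : i < j := hij
      have h2 : i ≠ l := fun h => by
        rw [h] at h1
        have h3 : l.val < j.val := h1
        have := j.2
        omega
      simp [E, h2, h1.ne]
  let P : Matrix (Fin n) (Fin n) F := fun i j => if σ i = j then 1 else 0
  have hP : P * P = 1 := by
    ext i j
    rw [Matrix.mul_apply, Finset.sum_eq_single (σ i)]
    · change (if σ i = σ i then (1 : F) else 0) * (if σ (σ i) = j then 1 else 0) = _
      rw [if_pos rfl, one_mul, hσ, Matrix.one_apply]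
    · intro b _ hb
      change (if σ i = b then (1 : F) else 0) * _ = 0
      rw [if_neg hb.symm, zero_mul]
    · intro h
      exact absurd (Finset.mem_univ _) h
  let gP : GL (Fin n) F := ⟨P, P, hP, hP⟩
  let gE : GL (Fin n) F := Matrix.GeneralLinearGroup.mkOfDetNeZero E (by rw [hE]; exact hr0')
  have hg : ∀ i j, ((gE * gP : GL (Fin n) F) : Matrix (Fin n) (Fin n) F) i j =
      if i = l then y j else if i = σ j then 1 else 0 := by
    intro i j
    change (E * P) i j = _
    rw [Matrix.mul_apply, Finset.sum_eq_single (σ j)]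
    · change (if i = l then y (σ (σ j)) else if i = σ j then 1 else 0) *
        (if σ (σ j) = j then (1 : F) else 0) = _
      rw [hσ, if_pos rfl, mul_one]
    · intro b _ hb
      change _ * (if σ b = j then (1 : F) else 0) = 0
      rw [if_neg, mul_zero]
      intro h
      apply hb
      rw [← h, hσ]
    · intro h
      exact absurd (Finset.mem_univ _) h
  refine ⟨gE * gP, ?_, ?_⟩
  · intro i j hij
    rw [hg]
    rcases hij with hi | hj
    · have h1 : i ≠ l := fun h => hi (by rw [h]; exact hdl)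
      have h2 : i ≠ r0 := fun h => hi (by rw [h]; exact hdr)
      rw [if_neg h1]
      have h3 : σ i = i := Equiv.swap_apply_of_ne_of_ne h2 h1
      have h4 : i = σ j ↔ i = j := by
        constructor
        · intro h
          rw [← hσ j, ← h, h3]
        · intro h
          rw [← h, h3]
      simp only [h4]
    · have h1 : j ≠ l := fun h => hj (by rw [h]; exact hdl)
      have h2 : j ≠ r0 := fun h => hj (by rw [h]; exact hdr)
      have h3 : σ j = j := Equiv.swap_apply_of_ne_of_ne h2 h1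
      rw [h3]
      by_cases hi : i = l
      · rw [if_pos hi, hy j hj, if_neg]
        rw [hi]
        exact h1.symm
      · rw [if_neg hi]
  · intro v
    rw [lv_eq l hl]
    change ∑ j, ((gE * gP : GL (Fin n) F) : Matrix (Fin n) (Fin n) F) l j * v j = _
    refine Finset.sum_congr rfl fun j _ => ?_
    rw [hg, if_pos rfl]

/-- The sum for the dual vector `y`. -/
def Ty (ψ : AddChar F ℂ) (d : ℕ → ℕ) (S : Finset ℕ) (Y : Matrix (Fin (n + 1)) (Fin (n + 1)) F → ℂ)
    (y : Fin n → F) : ℂ :=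
  ∑ u ∈ US n F d, (∑ v : Fin n → F, Y (xt u v) * ψ (-(∑ r, y r * v r))) * ψ (-(sd S u))

/-- The sum for the last coordinate. -/
def T1 (ψ : AddChar F ℂ) (ε : F) (d : ℕ → ℕ) (S : Finset ℕ)
    (Y : Matrix (Fin (n + 1)) (Fin (n + 1)) F → ℂ) : ℂ :=
  ∑ u ∈ US n F d, (∑ v : Fin n → F, Y (xt u v) * ψ (-(ε * lv v))) * ψ (-(sd S u))

theorem av_Yt (ψ : AddChar F ℂ) (ε : F) (d : ℕ → ℕ) (S : Finset ℕ)
    (Y : Matrix (Fin (n + 1)) (Fin (n + 1)) F → ℂ) :
    av ψ d S (Yt ψ ε Y) = T1 ψ ε d S Y / ((Nat.card F : ℂ) ^ n * ((US n F d).card : ℂ)) := by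
  unfold av T1
  rw [← div_div]
  congr 1
  rw [Finset.sum_div]
  refine Finset.sum_congr rfl fun u _ => ?_
  unfold Yt
  rw [div_mul_eq_mul_div]

theorem Ty_eq (ψ : AddChar F ℂ) {d : ℕ → ℕ} (hd : Monotone d) {S : Finset ℕ}
    (hS : ∀ i ∈ S, ∀ j, j ≠ i → d j ≠ d i) {Y : Matrix (Fin (n + 1)) (Fin (n + 1)) F → ℂ}
    (hY : Pinv Y) {y : Fin n → F} (hy : y ∈ WD n F d) (h0 : y ≠ 0) :
    Ty ψ d S Y y = T1 ψ 1 d S Y := by
  obtain ⟨g, hg, hl⟩ := exists_g hd (mem_WD.1 hy) h0
  have hg' := BK_inv hg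
  unfold Ty T1
  refine Finset.sum_nbij'
    (fun u => (g : Matrix (Fin n) (Fin n) F) * u * ((g⁻¹ : GL (Fin n) F) : Matrix (Fin n) (Fin n) F))
    (fun u => ((g⁻¹ : GL (Fin n) F) : Matrix (Fin n) (Fin n) F) * u * (g : Matrix (Fin n) (Fin n) F))
    ?_ ?_ ?_ ?_ ?_
  · intro u hu
    exact conj_mem hd hg hu
  · intro u hu
    have h1 := conj_mem hd hg' hu
    rwa [inv_inv] at h1
  · intro u _
    rw [mul_assoc, mul_assoc, mul_assoc, g.inv_mul, mul_one, ← mul_assoc, g.inv_mul, one_mul]
  · intro u _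
    rw [mul_assoc, mul_assoc, mul_assoc, g.mul_inv, mul_one, ← mul_assoc, g.mul_inv, one_mul]
  · intro u _
    rw [conj_sd hd hg u hS]
    congr 1
    refine Fintype.sum_equiv (hE g) _ _ fun v => ?_
    change Y (xt u v) * ψ (-(∑ r, y r * v r)) =
      Y (xt _ ((g : Matrix (Fin n) (Fin n) F).mulVec v)) *
        ψ (-(1 * lv ((g : Matrix (Fin n) (Fin n) F).mulVec v)))
    rw [Y_conj hY, hl, one_mul]

theorem sum_WD (ψ : AddChar F ℂ) (hψ : ψ ≠ 1) (d : ℕ → ℕ) (v : Fin n → F) :
    (v ∈ VD n F d → ∑ y ∈ WD n F d, ψ (-(∑ r, y r * v r)) = ((WD n F d).card : ℂ)) ∧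
      (v ∉ VD n F d → ∑ y ∈ WD n F d, ψ (-(∑ r, y r * v r)) = 0) := by
  classical
  have h1 : ∀ y : Fin n → F, ψ (-(∑ r, y r * v r)) = ∏ r, ψ (y r * (-v r)) := by
    intro y
    rw [← Finset.sum_neg_distrib]
    have h3 : ∀ s : Finset (Fin n), ψ (∑ r ∈ s, -(y r * v r)) = ∏ r ∈ s, ψ (y r * (-v r)) := by
      intro s
      induction s using Finset.induction_on with
      | empty => simp
      | insert a s ha ih =>
        rw [Finset.sum_insert ha, Finset.prod_insert ha, AddChar.map_add_eq_mul, ih, mul_neg]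
    exact h3 _
  have h2 : ∀ r : Fin n, ∑ a ∈ (if d r = d n then (Finset.univ : Finset F) else {0}), ψ (a * (-v r)) =
      if d r = d n → v r = 0 then ((if d r = d n then (Finset.univ : Finset F) else {0}).card : ℂ)
        else 0 := by
    intro r
    by_cases h : d r = d n
    · have h3 := AddChar.sum_mulShift (-v r) (AddChar.IsPrimitive.of_ne_one hψ)
      rw [if_pos h, h3]
      by_cases hv : v r = 0
      · simp [h, hv]
      · simp [h, hv]
    · simp [h]
  have h4 := Finset.prod_univ_sum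
    (fun r : Fin n => if d r = d n then (Finset.univ : Finset F) else {0})
    (fun r a => ψ (a * (-v r)))
  rw [Finset.prod_congr rfl fun r _ => h2 r] at h4
  unfold WD
  rw [Finset.sum_congr rfl fun y _ => h1 y, ← h4, Fintype.card_piFinset]
  refine ⟨fun hv => ?_, fun hv => ?_⟩
  · rw [mem_VD] at hv
    push_cast
    refine Finset.prod_congr rfl fun r _ => ?_
    rw [if_pos (hv r)]
  · rw [mem_VD] at hv
    push Not at hv
    obtain ⟨r, hr1, hr2⟩ := hv
    refine Finset.prod_eq_zero (Finset.mem_univ r) ?_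
    rw [if_neg]
    exact fun h => hr2 (h hr1)

/-- `d` has an old value at `n`. -/
theorem av_b (ψ : AddChar F ℂ) (hψ : ψ ≠ 1) {d : ℕ → ℕ} (hd : Monotone d) {S : Finset ℕ}
    (hS : ∀ i ∈ S, ∀ j, j ≠ i → d j ≠ d i) (hn : n ∉ S)
    {Y : Matrix (Fin (n + 1)) (Fin (n + 1)) F → ℂ} (hY : Pinv Y) :
    av ψ d S Y = av ψ d S (Yt ψ 0 Y) + ((Nat.card F : ℂ) ^ w d n - 1) * av ψ d S (Yt ψ 1 Y) := by
  classical
  have hWc := card_WD (F := F) (n := n) d
  have hq : (Nat.card F : ℂ) ≠ 0 := by
    rw [Nat.cast_ne_zero]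
    exact Nat.card_pos.ne'
  have hW0 : ((WD n F d).card : ℂ) ≠ 0 := by
    rw [hWc]
    exact pow_ne_zero _ hq
  have hsum : ∑ y ∈ WD n F d, Ty ψ d S Y y =
      T1 ψ 0 d S Y + ((Nat.card F : ℂ) ^ w d n - 1) * T1 ψ 1 d S Y := by
    have h0 : (0 : Fin n → F) ∈ WD n F d := mem_WD.2 fun r _ => rfl
    rw [← Finset.add_sum_erase _ _ h0]
    congr 1
    · unfold Ty T1
      refine Finset.sum_congr rfl fun u _ => ?_
      simp
    · rw [Finset.sum_congr rfl fun y hy => Ty_eq ψ hd hS hY (Finset.mem_of_mem_erase hy)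
        (Finset.ne_of_mem_erase hy), Finset.sum_const, nsmul_eq_mul, Finset.card_erase_of_mem h0,
        Nat.cast_sub (Finset.card_pos.2 ⟨0, h0⟩), hWc, Nat.cast_one]
  have hsum2 : ∑ y ∈ WD n F d, Ty ψ d S Y y =
      ((WD n F d).card : ℂ) * ∑ A ∈ US (n + 1) F d, Y A * ψ (-(sd S A)) := by
    unfold Ty
    rw [Finset.sum_comm, sum_US, Finset.mul_sum]
    refine Finset.sum_congr rfl fun u _ => ?_
    rw [← Finset.sum_mul, Finset.sum_comm]
    have h1 : ∀ v : Fin n → F, ∑ y ∈ WD n F d, Y (xt u v) * ψ (-(∑ r, y r * v r)) =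
        if v ∈ VD n F d then ((WD n F d).card : ℂ) * Y (xt u v) else 0 := by
      intro v
      rw [← Finset.mul_sum]
      split_ifs with hv
      · rw [(sum_WD ψ hψ d v).1 hv]
        ring
      · rw [(sum_WD ψ hψ d v).2 hv, mul_zero]
    rw [Finset.sum_congr rfl fun v _ => h1 v, Finset.sum_ite_mem, Finset.univ_inter,
      ← Finset.mul_sum, mul_assoc, Finset.sum_mul]
    congr 1
    refine Finset.sum_congr rfl fun v _ => ?_
    rw [sd_xt, if_neg hn, add_zero]
  rw [av_Yt, av_Yt]
  unfold av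
  rw [card_US, mul_div_assoc', ← add_div, ← hsum, hsum2, ← card_VD_mul (F := F) (n := n) d]
  have h3 : ((VD n F d).card : ℂ) * ((WD n F d).card : ℂ) * ((US n F d).card : ℂ) =
      ((WD n F d).card : ℂ) * (((US n F d).card : ℂ) * ((VD n F d).card : ℂ)) := by ring
  rw [h3, mul_div_mul_left _ _ hW0]

end Main

end DIM

open DIM in
theorem t_DIM : S_DIM := by
  classical
  intro F _ _ ψ hψ d hd n
  induction n with
  | zero =>
    intro S0 hS0 Y hY
    rw [Finset.range_zero, Finset.filter_empty, Finset.powerset_empty, Finset.sum_singleton,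
      Finset.prod_empty, one_mul, Finset.union_empty]
    unfold mS av
    have h1 : US 0 F d = US 0 F (fun i => i) := by
      ext A
      rw [mem_US, mem_US]
      constructor <;> intro _ <;> exact ⟨fun i => i.elim0, fun i => i.elim0, fun i => i.elim0⟩
    rw [h1]
  | succ n ih =>
    intro S0 hS0 Y hY
    have hm : ∀ T : Finset ℕ, mS ψ T Y = mS ψ T (Yt ψ (if n ∈ T then 1 else 0) Y) := fun T =>
      av_a ψ (fun i => i) (fun r hr => hr.ne) T Y
    rw [Finset.range_add_one, Finset.filter_insert]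
    by_cases hw : 0 < w d n
    · rw [if_pos hw]
      have hw' : ∃ r, r < n ∧ d r = d n := by
        unfold w at hw
        obtain ⟨r, hr⟩ := Finset.card_pos.1 hw
        rw [Finset.mem_filter, Finset.mem_range] at hr
        exact ⟨r, hr⟩
      obtain ⟨r, hr1, hr2⟩ := hw'
      have hn : n ∉ S0 := fun h => hS0 n h r hr1.ne hr2
      have hnf : n ∉ (Finset.range n).filter fun i => 0 < w d i := by
        intro h
        exact absurd (Finset.mem_range.1 (Finset.mem_filter.1 h).1) (lt_irrefl _)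
      rw [Finset.sum_powerset_insert hnf, av_b ψ hψ hd hS0 hn hY, ih S0 hS0 _ (Pinv_Yt ψ 0 hY),
        ih S0 hS0 _ (Pinv_Yt ψ 1 hY), Finset.mul_sum]
      congr 1
      · refine Finset.sum_congr rfl fun S hS => ?_
        have hnS : n ∉ S := fun h => hnf (Finset.mem_powerset.1 hS h)
        rw [hm, if_neg (by rw [Finset.mem_union]; exact fun h => h.elim hn hnS)]
      · refine Finset.sum_congr rfl fun S hS => ?_
        have hnS : n ∉ S := fun h => hnf (Finset.mem_powerset.1 hS h)
        rw [hm, if_pos (Finset.mem_union_right _ (Finset.mem_insert_self n S)),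
          Finset.prod_insert hnS, mul_assoc]
        congr 2
        unfold mS av
        congr 1
        refine Finset.sum_congr rfl fun u _ => ?_
        congr 3
        unfold sd
        refine Finset.sum_congr rfl fun i _ => Finset.sum_congr rfl fun j _ => ?_
        have hj : j.val ≠ n := j.2.ne
        have h2 : j.val ∈ S0 ∪ insert n S ↔ j.val ∈ S0 ∪ S := by
          simp [hj]
        simp only [h2]
    · rw [if_neg hw]
      have hd' : ∀ r, r < n → d r ≠ d n := by
        intro r hr h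
        apply hw
        unfold w
        exact Finset.card_pos.2 ⟨r, Finset.mem_filter.2 ⟨Finset.mem_range.2 hr, h⟩⟩
      rw [av_a ψ d hd' S0 Y, ih S0 hS0 _ (Pinv_Yt ψ _ hY)]
      refine Finset.sum_congr rfl fun S hS => ?_
      have hnS : n ∉ S := fun h =>
        absurd (Finset.mem_range.1 (Finset.mem_filter.1 (Finset.mem_powerset.1 hS h)).1)
          (lt_irrefl _)
      rw [hm]
      have h2 : n ∈ S0 ∪ S ↔ n ∈ S0 := by
        simp [hnS]
      simp only [h2]

end

end FLC
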