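import Mathlib
import Pool.Agent.FLC.StA

/-!
# FLC, module FL: the character bound
-/

set_option autoImplicit false

namespace FLC

open Pool.Agent.Lib_helper13 RSF

/-- subsets of `{1, …, n - 1}` with at most `j` elements -/
theorem fl_card {n : ℕ} (hn : 1 ≤ n) (j : ℕ) (P : Finset (Finset ℕ))
    (hP : ∀ S ∈ P, S ⊆ Finset.Ioo 0 n ∧ S.card ≤ j) : P.card ≤ n ^ j := by
  classical
  have hs : Set.SurjOn (fun f : Fin j → Fin n => (Finset.univ.image fun i => (f i).val).erase 0)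
      ((Finset.univ : Finset (Fin j → Fin n)) : Set (Fin j → Fin n)) (P : Set (Finset ℕ)) := by
    intro S hS
    obtain ⟨h1, h2⟩ := hP S hS
    have hlt : ∀ x : S, (x : ℕ) < n := fun x => (Finset.mem_Ioo.1 (h1 x.2)).2
    refine ⟨fun i => if h : i.val < S.card then ⟨(S.equivFin.symm ⟨i.val, h⟩ : ℕ), hlt _⟩ else
      ⟨0, hn⟩, Finset.mem_coe.2 (Finset.mem_univ _), ?_⟩
    ext a
    simp only [Finset.mem_erase, Finset.mem_image, Finset.mem_univ, true_and]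
    constructor
    · rintro ⟨ha, i, hi⟩
      by_cases h : i.val < S.card
      · rw [dif_pos h] at hi
        rw [← hi]
        exact (S.equivFin.symm ⟨i.val, h⟩).2
      · rw [dif_neg h] at hi
        exact absurd hi.symm ha
    · intro ha
      refine ⟨(Finset.mem_Ioo.1 (h1 ha)).1.ne', ?_⟩
      have h3 := (S.equivFin ⟨a, ha⟩).2
      refine ⟨⟨(S.equivFin ⟨a, ha⟩).val, h3.trans_le h2⟩, ?_⟩
      rw [dif_pos h3]
      have h4 : S.equivFin.symm ⟨(S.equivFin ⟨a, ha⟩).val, h3⟩ = ⟨a, ha⟩ := by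
        rw [Fin.eta, Equiv.symm_apply_apply]
      rw [h4]
  have h5 := Finset.card_le_card_of_surjOn _ hs
  rwa [Finset.card_univ, Fintype.card_fun, Fintype.card_fin, Fintype.card_fin] at h5

/-- the estimate for one term -/
theorem fl_term {q n m W Qn s : ℕ} (hq : 1 ≤ q) (hm : 1 ≤ m) {a D B : ℝ} (ha : 1 ≤ a)
    (haB : a ≤ B) (hD : 0 ≤ D) (hinj : m * (2 * W) + Qn ≤ m * s)
    (hlow : a * (q : ℝ) ^ (((n : ℝ) ^ 2 - Qn) / 2) ≤ 4 * D) :
    (q : ℝ) ^ W * a ≤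
      (q : ℝ) ^ (((s : ℝ) - (n : ℝ) ^ 2 / m) / 2) * (4 * B * D ^ (1 / (m : ℝ))) := by
  have hq1 : (1 : ℝ) ≤ (q : ℝ) := by exact_mod_cast hq
  have hq0 : (0 : ℝ) < (q : ℝ) := lt_of_lt_of_le one_pos hq1
  have hm1 : (1 : ℝ) ≤ (m : ℝ) := by exact_mod_cast hm
  have hm0 : (0 : ℝ) < (m : ℝ) := lt_of_lt_of_le one_pos hm1
  have hinj' : (m : ℝ) * (2 * W) + Qn ≤ m * s := by exact_mod_cast hinj
  -- the exponent
  have hW : (W : ℝ) ≤ ((s : ℝ) - (n : ℝ) ^ 2 / m) / 2 + ((n : ℝ) ^ 2 - Qn) / 2 * (1 / m) := by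
    have h1 : ((s : ℝ) - (n : ℝ) ^ 2 / m) / 2 + ((n : ℝ) ^ 2 - Qn) / 2 * (1 / m) =
        (m * s - Qn) / (2 * m) := by
      field_simp
      ring
    rw [h1, le_div_iff₀ (by positivity)]
    linarith
  have h2 : (q : ℝ) ^ W ≤ (q : ℝ) ^ (((s : ℝ) - (n : ℝ) ^ 2 / m) / 2) *
      ((q : ℝ) ^ (((n : ℝ) ^ 2 - Qn) / 2)) ^ (1 / (m : ℝ)) := by
    rw [← Real.rpow_mul hq0.le, ← Real.rpow_add hq0, ← Real.rpow_natCast]
    exact Real.rpow_le_rpow_of_exponent_le hq1 hW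
  have h3 : (q : ℝ) ^ (((n : ℝ) ^ 2 - Qn) / 2) ≤ 4 * D := by
    refine le_trans ?_ hlow
    have h4 : 0 ≤ (q : ℝ) ^ (((n : ℝ) ^ 2 - Qn) / 2) := Real.rpow_nonneg hq0.le _
    exact le_mul_of_one_le_left h4 ha
  have h5 : ((q : ℝ) ^ (((n : ℝ) ^ 2 - Qn) / 2)) ^ (1 / (m : ℝ)) ≤ 4 * D ^ (1 / (m : ℝ)) := by
    refine (Real.rpow_le_rpow (Real.rpow_nonneg hq0.le _) h3 (by positivity)).trans ?_
    rw [Real.mul_rpow (by norm_num) hD]
    refine mul_le_mul_of_nonneg_right ?_ (Real.rpow_nonneg hD _)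
    have h6 : (4 : ℝ) ^ (1 / (m : ℝ)) ≤ (4 : ℝ) ^ (1 : ℝ) := by
      refine Real.rpow_le_rpow_of_exponent_le (by norm_num) ?_
      rw [div_le_one hm0]
      exact hm1
    rwa [Real.rpow_one] at h6
  have hd0 : 0 ≤ (q : ℝ) ^ (((s : ℝ) - (n : ℝ) ^ 2 / m) / 2) := Real.rpow_nonneg hq0.le _
  have ha0 : 0 ≤ a := zero_le_one.trans ha
  have hD0 : 0 ≤ D ^ (1 / (m : ℝ)) := Real.rpow_nonneg hD _
  calc (q : ℝ) ^ W * a ≤ ((q : ℝ) ^ (((s : ℝ) - (n : ℝ) ^ 2 / m) / 2) *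
        ((q : ℝ) ^ (((n : ℝ) ^ 2 - Qn) / 2)) ^ (1 / (m : ℝ))) * a :=
        mul_le_mul_of_nonneg_right h2 ha0
    _ ≤ ((q : ℝ) ^ (((s : ℝ) - (n : ℝ) ^ 2 / m) / 2) * (4 * D ^ (1 / (m : ℝ)))) * a :=
        mul_le_mul_of_nonneg_right (mul_le_mul_of_nonneg_left h5 hd0) ha0
    _ ≤ ((q : ℝ) ^ (((s : ℝ) - (n : ℝ) ^ 2 / m) / 2) * (4 * D ^ (1 / (m : ℝ)))) * B :=
        mul_le_mul_of_nonneg_left haB (by positivity)
    _ = _ := by ring

theorem t_FL : M_FL := by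
  classical
  intro hSEM hCHB hDIM hINJ hLOW hXMC hSTR hFLN ε hε
  obtain ⟨r₀, hr₀⟩ := hFLN ε hε
  refine ⟨max r₀ 1, ?_⟩
  intro n hn F _ _ _ X hX hX1 m x hm hmq hx
  have hn1 : 1 ≤ n := (le_max_right _ _).trans hn
  obtain ⟨ψ, jj, hψ, hstr⟩ := hSTR n F
  obtain ⟨s1, -, s3, s4, s5⟩ := hstr X hX
  set j := jj X with hj
  have hXc : IsChr X := hX.isChr
  obtain ⟨hCls, hPinv, hone, hval, hnat⟩ := hXMC n F X hXc
  have hj1 : 1 ≤ j := by
    by_contra h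
    obtain ⟨l, hl⟩ := s5 (by omega)
    apply hX1
    rw [hl]
    simp [ld]
  set q := Nat.card F with hqdef
  have hq2 : 2 ≤ q := by
    rw [hqdef, Nat.card_eq_fintype_card]
    exact Fintype.one_lt_card
  have hq1 : (1 : ℝ) ≤ (q : ℝ) := by exact_mod_cast (by omega : 1 ≤ q)
  have hq0 : (0 : ℝ) < (q : ℝ) := lt_of_lt_of_le one_pos hq1
  obtain ⟨d, ζ, y, hmono, hζ, himage, hbb, hconj, hy⟩ := hSEM n m F x hm hmq hx
  have hXy : X x = X y := by
    obtain ⟨c, hc⟩ := isConj_iff.1 hconj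
    rw [← hc, hXc.conj_eq]
  have hchb := hCHB n F ψ X d ζ y hXc hmono hζ hy
  have hdim := hDIM F ψ hψ d hmono n ∅ (fun i hi => absurd hi (Finset.notMem_empty i)) (xm X) hPinv
  -- the multiplicities are natural numbers
  have hk : ∀ S : Finset ℕ, ∃ k : ℕ, mS ψ S (xm X) = k := fun S => hnat ψ (fun i => i) S
    monotone_id
  choose k hk using hk
  have hre : ∀ S, (mS ψ S (xm X)).re = k S := fun S => by rw [hk, Complex.natCast_re]
  set T := ((Finset.range n).filter fun i => 0 < w d i) with hT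
  have hTI : T ⊆ Finset.Ioo 0 n := by
    intro i hi
    rw [hT, Finset.mem_filter, Finset.mem_range] at hi
    rw [Finset.mem_Ioo]
    refine ⟨?_, hi.1⟩
    rcases Nat.eq_zero_or_pos i with h0 | h0
    · exfalso
      rw [h0] at hi
      have h1 : w d 0 = 0 := by
        unfold w
        simp
      omega
    · exact h0
  -- the largest multiplicity
  obtain ⟨S₀, hS₀, hmax⟩ := Finset.exists_max_image (Finset.Ioo 0 n).powerset k
    ⟨∅, Finset.empty_mem_powerset _⟩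
  rw [Finset.mem_powerset] at hS₀
  set B : ℝ := (k S₀ : ℝ) with hB
  have hB0 : 0 ≤ B := Nat.cast_nonneg _
  have hB4 := s4 S₀ hS₀
  rw [hre] at hB4
  obtain ⟨hD1, hfin⟩ := hr₀ n ((le_max_left _ _).trans hn) q j (X 1).re B hq2 hj1 hB0 s1 hB4.1 hB4.2
  set D := (X 1).re with hD
  have hD0 : 0 < D := lt_of_lt_of_le one_pos hD1
  -- the real form of the expansion
  have hav : (av ψ d ∅ (xm X)).re = ∑ S ∈ T.powerset, (∏ i ∈ S, ((q : ℝ) ^ w d i - 1)) * k S := by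
    rw [hdim, Complex.re_sum]
    refine Finset.sum_congr rfl fun S _ => ?_
    rw [Finset.empty_union, hk]
    have h1 : (∏ i ∈ S, ((q : ℂ) ^ w d i - 1)) * ((k S : ℕ) : ℂ) =
        (((∏ i ∈ S, ((q : ℝ) ^ w d i - 1)) * k S : ℝ) : ℂ) := by
      push_cast
      rfl
    rw [h1, Complex.ofReal_re]
  set P := T.powerset.filter fun S => k S ≠ 0 with hP
  set E : ℝ := (q : ℝ) ^ (dl m (x : Matrix (Fin n) (Fin n) F) / 2) *
    (4 * B * D ^ (1 / (m : ℝ))) with hE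
  have hE0 : 0 ≤ E := by
    have h1 : 0 ≤ D ^ (1 / (m : ℝ)) := Real.rpow_nonneg hD0.le _
    have h2 : 0 ≤ (q : ℝ) ^ (dl m (x : Matrix (Fin n) (Fin n) F) / 2) :=
      Real.rpow_nonneg hq0.le _
    rw [hE]
    positivity
  have hterm : ∀ S ∈ P, (∏ i ∈ S, ((q : ℝ) ^ w d i - 1)) * k S ≤ E := by
    intro S hS
    rw [hP, Finset.mem_filter, Finset.mem_powerset] at hS
    have hSI : S ⊆ Finset.Ioo 0 n := hS.1.trans hTI
    have hk1 : (1 : ℝ) ≤ (k S : ℝ) := by exact_mod_cast Nat.one_le_iff_ne_zero.2 hS.2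
    have hkB : (k S : ℝ) ≤ B := by
      rw [hB]
      exact_mod_cast hmax S (Finset.mem_powerset.2 hSI)
    have hprod : (∏ i ∈ S, ((q : ℝ) ^ w d i - 1)) ≤ (q : ℝ) ^ (∑ i ∈ S, w d i) := by
      rw [← Finset.prod_pow_eq_pow_sum]
      refine Finset.prod_le_prod (fun i _ => ?_) fun i _ => ?_
      · have := one_le_pow₀ hq1 (n := w d i)
        linarith
      · linarith
    have hinj := hINJ.1 n m d S hmono himage hS.1
    rw [hbb] at hinj
    have hlow := hLOW n F ψ hψ X hXc S hSI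
    rw [hre] at hlow
    have h2 := fl_term (q := q) (n := n) (by omega) hm hk1 hkB hD0.le hinj hlow
    have h3 : dl m (x : Matrix (Fin n) (Fin n) F) =
        (sq (x : Matrix (Fin n) (Fin n) F) : ℝ) - (n : ℝ) ^ 2 / m := rfl
    rw [hE, h3]
    exact (mul_le_mul_of_nonneg_right hprod (zero_le_one.trans hk1)).trans h2
  have hcard : (P.card : ℝ) ≤ (n : ℝ) ^ j := by
    have h1 : P.card ≤ n ^ j := by
      refine fl_card hn1 j P fun S hS => ?_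
      rw [hP, Finset.mem_filter, Finset.mem_powerset] at hS
      refine ⟨hS.1.trans hTI, s3 S (hS.1.trans hTI) ?_⟩
      rw [hk]
      exact_mod_cast hS.2
    exact_mod_cast h1
  have hsum : ∑ S ∈ T.powerset, (∏ i ∈ S, ((q : ℝ) ^ w d i - 1)) * (k S : ℝ) ≤ (n : ℝ) ^ j * E := by
    have h1 : ∑ S ∈ T.powerset, (∏ i ∈ S, ((q : ℝ) ^ w d i - 1)) * (k S : ℝ) =
        ∑ S ∈ P, (∏ i ∈ S, ((q : ℝ) ^ w d i - 1)) * (k S : ℝ) := by
      refine (Finset.sum_subset (Finset.filter_subset _ _) fun S hS hS' => ?_).symm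
      have h2 : k S = 0 := by
        by_contra h
        exact hS' (Finset.mem_filter.2 ⟨hS, h⟩)
      rw [h2, Nat.cast_zero, mul_zero]
    rw [h1]
    refine (Finset.sum_le_card_nsmul _ _ E hterm).trans ?_
    rw [nsmul_eq_mul]
    exact mul_le_mul_of_nonneg_right hcard hE0
  rw [hXy]
  refine (hchb.trans (hav.le.trans hsum)).trans ?_
  have h7 : 0 ≤ (q : ℝ) ^ (dl m (x : Matrix (Fin n) (Fin n) F) / 2) := Real.rpow_nonneg hq0.le _
  have h8 : 0 ≤ D ^ (1 / (m : ℝ)) := Real.rpow_nonneg hD0.le _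
  have h9 : D ^ (1 / (m : ℝ) + ε) = D ^ (1 / (m : ℝ)) * D ^ ε := Real.rpow_add hD0 _ _
  rw [h9, hE]
  calc (n : ℝ) ^ j * ((q : ℝ) ^ (dl m (x : Matrix (Fin n) (Fin n) F) / 2) *
        (4 * B * D ^ (1 / (m : ℝ)))) =
        (q : ℝ) ^ (dl m (x : Matrix (Fin n) (Fin n) F) / 2) *
          (D ^ (1 / (m : ℝ)) * ((n : ℝ) ^ j * 4 * B)) := by ring
    _ ≤ _ := mul_le_mul_of_nonneg_left (mul_le_mul_of_nonneg_left hfin h8) h7

end FLC
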