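import Mathlib
import Pool.Agent.FLC.StA

/-!
# FLN: the numerical part of the character bound
-/

set_option autoImplicit false

namespace FLC

theorem fln_main (ε L l n j b f : ℝ) (hε : 0 < ε) (hL : 1 / 2 ≤ L) (hl : 0 ≤ l) (hj : 1 ≤ j)
    (hn : 0 ≤ n) (hf : f ≤ 2 * L)
    (hb1 : 2 * b ≤ n * l + n * L) (hb2 : b ≤ 2 * j * l + 4 * j ^ 2 * L)
    (hC : (6 + 16 / ε) * l + (2 + 8 / ε + 2 * ε) ≤ ε / 4 * n) :
    j * l + f + b ≤ ε * (n * j / 2 * L - f) := by
  have hL0 : 0 < L := by linarith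
  have hj0 : 0 < j := by linarith
  have h1 : j * l ≤ 2 * (j * l) * L := by
    have : 0 ≤ j * l := mul_nonneg hj0.le hl
    nlinarith
  have h2 : f ≤ 2 * j * L := by nlinarith
  have h3 : j * L * (ε * (n / 2 - 2)) ≤ ε * (n * j / 2 * L - f) := by
    have : ε * f ≤ ε * (2 * j * L) := mul_le_mul_of_nonneg_left h2 hε.le
    nlinarith
  have hjL : 0 < j * L := mul_pos hj0 hL0
  have h8 : 0 ≤ 8 / ε := by positivity
  have h16 : 0 ≤ 16 / ε * l := by positivity
  refine le_trans ?_ h3
  rcases le_or_gt j (ε / 16 * n) with hc | hc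
  · have h4 : b ≤ j * L * (4 * l + ε / 4 * n) := by
      have h5 : 2 * j * l ≤ j * L * (4 * l) := by nlinarith
      have h6 : 4 * j ^ 2 * L ≤ j * L * (ε / 4 * n) := by
        have : j * L * (4 * j) ≤ j * L * (ε / 4 * n) :=
          mul_le_mul_of_nonneg_left (by linarith) hjL.le
        nlinarith
      have h7 : j * L * (4 * l + ε / 4 * n) = j * L * (4 * l) + j * L * (ε / 4 * n) := by ring
      linarith
    have h5 : j * L * (2 * l + 2 + (4 * l + ε / 4 * n)) ≤ j * L * (ε * (n / 2 - 2)) := by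
      refine mul_le_mul_of_nonneg_left ?_ hjL.le
      nlinarith
    nlinarith
  · have hnj : n ≤ 16 / ε * j := by
      rw [div_mul_eq_mul_div, le_div_iff₀ hε]
      linarith
    have h4 : b ≤ j * L * (16 / ε * l + 8 / ε) := by
      have h5 : n * l / 2 ≤ n * l * L := by
        have : 0 ≤ n * l := mul_nonneg hn hl
        nlinarith
      have h6 : n * l * L ≤ 16 / ε * j * l * L :=
        mul_le_mul_of_nonneg_right (mul_le_mul_of_nonneg_right hnj hl) hL0.le
      have h7 : n * L ≤ 16 / ε * j * L := mul_le_mul_of_nonneg_right hnj hL0.le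
      have h9 : j * L * (16 / ε * l + 8 / ε) = 16 / ε * j * l * L + 16 / ε * j * L / 2 := by
        ring
      linarith
    have h5 : j * L * (2 * l + 2 + (16 / ε * l + 8 / ε)) ≤ j * L * (ε * (n / 2 - 2)) := by
      refine mul_le_mul_of_nonneg_left ?_ hjL.le
      have : 0 ≤ ε * n := mul_nonneg hε.le hn
      nlinarith
    nlinarith

theorem fln_log (A B C : ℝ) (hA : 0 < A) (hC : 0 < C) :
    ∃ r : ℕ, ∀ n : ℕ, r ≤ n → A * Real.log n + B ≤ C * n := by
  have h1 : ∀ᶠ x : ℝ in Filter.atTop, ‖Real.log x‖ ≤ C / (2 * A) * ‖x‖ :=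
    Real.isLittleO_log_id_atTop.bound (by positivity)
  have h2 : ∀ᶠ x : ℝ in Filter.atTop, 2 * B / C ≤ x := Filter.eventually_ge_atTop _
  have h3 : ∀ᶠ x : ℝ in Filter.atTop, (0 : ℝ) ≤ x := Filter.eventually_ge_atTop _
  have h4 : ∀ᶠ x : ℝ in Filter.atTop, A * Real.log x + B ≤ C * x := by
    filter_upwards [h1, h2, h3] with x a1 a2 a3
    rw [Real.norm_eq_abs, Real.norm_eq_abs, abs_of_nonneg a3] at a1
    have a4 : Real.log x ≤ C / (2 * A) * x := (le_abs_self _).trans a1
    have a5 : A * Real.log x ≤ A * (C / (2 * A) * x) := mul_le_mul_of_nonneg_left a4 hA.le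
    have a6 : A * (C / (2 * A) * x) = C * x / 2 := by field_simp
    have a7 : B ≤ C * x / 2 := by
      rw [div_le_iff₀ hC] at a2
      linarith
    linarith
  have h5 := tendsto_natCast_atTop_atTop (R := ℝ) |>.eventually h4
  exact Filter.eventually_atTop.1 h5

theorem t_FLN : S_FLN := by
  intro ε hε
  obtain ⟨r, hr⟩ := fln_log (6 + 16 / ε) (2 + 8 / ε + 2 * ε) (ε / 4) (by positivity)
    (by positivity)
  refine ⟨max r 4, fun n hn q j D B hq hj hB hD hB2 hB3 => ?_⟩
  have hnr : r ≤ n := (le_max_left _ _).trans hn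
  have hn4 : 4 ≤ n := (le_max_right _ _).trans hn
  have hq0 : (0 : ℝ) < q := by
    have : 0 < q := by omega
    exact_mod_cast this
  have hq2 : (2 : ℝ) ≤ q := by exact_mod_cast hq
  have hn0 : (0 : ℝ) < n := by
    have : 0 < n := by omega
    exact_mod_cast this
  have hn1 : (1 : ℝ) ≤ n := by
    have : 1 ≤ n := by omega
    exact_mod_cast this
  have hj1 : (1 : ℝ) ≤ j := by exact_mod_cast hj
  have hn4' : (4 : ℝ) ≤ n := by exact_mod_cast hn4
  have hD1 : 1 ≤ D := by
    have h1 : (4 : ℝ) ≤ (q : ℝ) ^ ((n : ℝ) * j / 2) := by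
      have h2 : (q : ℝ) ^ (2 : ℝ) ≤ (q : ℝ) ^ ((n : ℝ) * j / 2) := by
        refine Real.rpow_le_rpow_of_exponent_le (by linarith) ?_
        nlinarith
      have h3 : (q : ℝ) ^ (2 : ℝ) = (q : ℝ) ^ 2 := by
        rw [← Real.rpow_natCast]
        norm_num
      have h4 : (4 : ℝ) ≤ (q : ℝ) ^ 2 := by nlinarith
      rw [h3] at h2
      exact h4.trans h2
    linarith
  have hD0 : 0 < D := by linarith
  refine ⟨hD1, ?_⟩
  rcases hB.eq_or_lt with hB0 | hB0
  · rw [← hB0, mul_zero]
    positivity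
  have hL : 1 / 2 ≤ Real.log q := by
    have h1 : Real.log 2 ≤ Real.log q := Real.log_le_log (by norm_num) hq2
    have h2 := Real.log_two_gt_d9
    linarith
  have hf : Real.log 4 ≤ 2 * Real.log q := by
    have h1 : Real.log 2 ≤ Real.log q := Real.log_le_log (by norm_num) hq2
    have h2 : Real.log 4 = 2 * Real.log 2 := by
      rw [show (4 : ℝ) = 2 ^ 2 by norm_num, Real.log_pow]
      norm_num
    linarith
  have hb1 : 2 * Real.log B ≤ n * Real.log n + n * Real.log q := by
    have h1 : B ^ 2 ≤ (n : ℝ) ^ n * (q : ℝ) ^ n := by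
      refine hB2.trans (mul_le_mul_of_nonneg_right ?_ (by positivity))
      exact_mod_cast Nat.factorial_le_pow n
    have h2 := Real.log_le_log (by positivity) h1
    rw [Real.log_pow, Real.log_mul (by positivity) (by positivity), Real.log_pow,
      Real.log_pow] at h2
    exact_mod_cast h2
  have hb2 : Real.log B ≤ 2 * (j : ℝ) * Real.log n + 4 * (j : ℝ) ^ 2 * Real.log q := by
    have h2 := Real.log_le_log hB0 hB3
    rw [Real.log_mul (by positivity) (by positivity), Real.log_pow, Real.log_pow] at h2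
    push_cast at h2
    exact h2
  have hmain := fln_main ε (Real.log q) (Real.log n) n j (Real.log B) (Real.log 4) hε hL
    (Real.log_nonneg hn1) hj1 hn0.le hf hb1 hb2 (hr n hnr)
  have hlD : (n : ℝ) * j / 2 * Real.log q - Real.log 4 ≤ Real.log D := by
    have h1 := Real.log_le_log (by positivity) hD
    rw [Real.log_rpow hq0, Real.log_mul (by norm_num) hD0.ne'] at h1
    linarith
  have hfin : Real.log ((n : ℝ) ^ j * 4 * B) ≤ Real.log (D ^ ε) := by
    rw [Real.log_rpow hD0, Real.log_mul (by positivity) hB0.ne',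
      Real.log_mul (by positivity) (by norm_num), Real.log_pow]
    exact hmain.trans (mul_le_mul_of_nonneg_left hlD hε.le)
  exact (Real.log_le_log_iff (by positivity) (by positivity)).1 hfin

end FLC
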