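import Mathlib
import Pool.Agent.FLC.StA

/-!
# FRB: the formula of Frobenius
-/

set_option autoImplicit false

namespace FLC

open Pool.Agent.Lib_helper13 Representation

noncomputable section

open Classical in
/-- the indicator function of the class of `y` -/
def frb_in {G : Type} [Group G] (y x : G) : ℂ := if IsConj y x then 1 else 0

theorem frb_in_conj {G : Type} [Group G] (y g x : G) : frb_in y (g * x * g⁻¹) = frb_in y x := by
  unfold frb_in
  have h : IsConj y (g * x * g⁻¹) ↔ IsConj y x := by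
    have h1 : IsConj x (g * x * g⁻¹) := isConj_iff.2 ⟨g, rfl⟩
    exact ⟨fun h => h.trans h1.symm, fun h => h.trans h1⟩
  by_cases h' : IsConj y x
  · rw [if_pos h', if_pos (h.2 h')]
  · rw [if_neg h', if_neg fun h'' => h' (h.1 h'')]

theorem frb_in_inv_conj {G : Type} [Group G] (y g x : G) :
    frb_in y (g * x * g⁻¹)⁻¹ = frb_in y x⁻¹ := by
  have h1 : (g * x * g⁻¹)⁻¹ = g * x⁻¹ * g⁻¹ := by group
  rw [h1, frb_in_conj]

theorem frb_card {G : Type} [Group G] [Fintype G] (y : G) :
    (Nat.card {t : G // IsConj y t} : ℂ) = ∑ x, frb_in y x := by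
  classical
  rw [Nat.card_eq_fintype_card, Fintype.card_subtype, Finset.natCast_card_filter]
  refine Finset.sum_congr rfl fun x _ => ?_
  unfold frb_in
  by_cases h : IsConj y x
  · rw [if_pos h, if_pos h]
  · rw [if_neg h, if_neg h]

/-- The sum of an irreducible character over a translate of a class. -/
theorem frb_class {G : Type} [Group G] [Fintype G] {X : G → ℂ} (hX : IsIrr X) (y g : G) :
    ∑ x, frb_in y x * X (x * g) = (Nat.card {t : G // IsConj y t} : ℂ) * (X y / X 1) * X g := by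
  have h10 := hX.one_ne_zero
  obtain ⟨n, ρ, hρ, rfl⟩ := hX
  obtain ⟨c, hc⟩ := exists_scalar ρ hρ (opSum (fun x => frb_in y x⁻¹) ρ)
    (fun g x => opSum_comm _ (fun a b => frb_in_inv_conj y a b) ρ g x)
  have key : ∀ g, ∑ x, frb_in y x * ρ.character (x * g) = c * ρ.character g := by
    intro g
    have h1 := congrArg (fun T => LinearMap.trace ℂ (Fin n → ℂ) (T ∘ₗ ρ g)) hc
    have h2 : (c • (LinearMap.id : (Fin n → ℂ) →ₗ[ℂ] (Fin n → ℂ))) ∘ₗ ρ g = c • ρ g := by
      rw [LinearMap.smul_comp, LinearMap.id_comp]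
    rw [h2, map_smul] at h1
    have h3 : LinearMap.trace ℂ (Fin n → ℂ) (ρ g) = ρ.character g := rfl
    rw [h3, smul_eq_mul] at h1
    rw [← h1]
    have h4 : (opSum (fun x => frb_in y x⁻¹) ρ) ∘ₗ ρ g =
        ∑ x, frb_in y x⁻¹ • (ρ (x⁻¹ * g)) := by
      apply LinearMap.ext
      intro v
      rw [LinearMap.comp_apply, opSum_apply, LinearMap.sum_apply]
      refine Finset.sum_congr rfl fun x _ => ?_
      rw [LinearMap.smul_apply, map_mul, Module.End.mul_apply]
    rw [h4, map_sum]
    refine Fintype.sum_equiv (Equiv.inv G) _ _ fun x => ?_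
    simp only [Equiv.inv_apply, inv_inv, map_smul, smul_eq_mul]
    rfl
  have h1 := key 1
  have h2 : ∑ x, frb_in y x * ρ.character (x * 1) =
      (Nat.card {t : G // IsConj y t} : ℂ) * ρ.character y := by
    rw [frb_card, Finset.sum_mul]
    refine Finset.sum_congr rfl fun x _ => ?_
    rw [mul_one]
    unfold frb_in
    split_ifs with h
    · rw [one_mul, one_mul]
      exact (IsIrr.isConj ⟨n, ρ, hρ, rfl⟩ h).symm
    · rw [zero_mul, zero_mul]
  rw [h2] at h1
  rw [key g]
  have h3 : c = (Nat.card {t : G // IsConj y t} : ℂ) * (ρ.character y / ρ.character 1) := by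
    rw [← mul_div_assoc, h1, mul_div_assoc, div_self h10, mul_one]
  rw [h3]

/-- The second orthogonality relation for the class of `1`. -/
theorem frb_delta {G : Type} [Group G] [Fintype G] [DecidableEq G] (g : G) :
    (if g = 1 then (1 : ℂ) else 0) * Nat.card G = ∑ X ∈ irrF G, X g * X 1 := by
  have h := class_fn_expand (Y := G) (fun x => if x = 1 then 1 else 0) (by
    intro g x
    by_cases h : x = 1
    · subst h
      simp
    · rw [if_neg, if_neg h]
      intro h'
      apply h
      have : x = g⁻¹ * (g * x * g⁻¹) * g := by group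
      rw [this, h']
      group)
  have h1 := congrFun h g
  have h2 : ∀ χ : G → ℂ, ip (fun x : G => if x = 1 then (1 : ℂ) else 0) χ =
      χ 1 / Nat.card G := by
    intro χ
    rw [ip]
    congr 1
    rw [Finset.sum_eq_single (1 : G)]
    · simp
    · intro b _ hb
      rw [if_neg hb, zero_mul]
    · simp
  simp only [h2] at h1
  rw [h1, Finset.sum_mul]
  refine Finset.sum_congr rfl fun X _ => ?_
  have h3 : (Nat.card G : ℂ) ≠ 0 := natCard_ne_zero
  field_simp

open Classical in
/-- The number of the tuples as a sum. -/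
theorem frb_num {G : Type} [Group G] [Fintype G] (k : ℕ) (y : Fin k → G) (g : G) :
    (Nat.card {t : Fin k → G // (∀ j, IsConj (y j) (t j)) ∧ (List.ofFn t).prod = g} : ℂ) =
      ∑ t : Fin k → G, if (∀ j, IsConj (y j) (t j)) ∧ (List.ofFn t).prod = g then 1 else 0 := by
  rw [Nat.card_eq_fintype_card, Fintype.card_subtype, Finset.natCast_card_filter]

/-- The recursion. -/
theorem frb_rec {G : Type} [Group G] [Fintype G] (k : ℕ) (y : Fin (k + 1) → G) (g : G) :
    (Nat.card {t : Fin (k + 1) → G // (∀ j, IsConj (y j) (t j)) ∧ (List.ofFn t).prod = g} : ℂ) =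
      ∑ x, frb_in (y 0) x * (Nat.card {t : Fin k → G // (∀ j, IsConj (y j.succ) (t j)) ∧
        (List.ofFn t).prod = x⁻¹ * g} : ℂ) := by
  classical
  rw [frb_num, ← Fintype.sum_equiv (Fin.consEquiv (fun _ : Fin (k + 1) => G)) _ _ (fun _ => rfl),
    Fintype.sum_prod_type]
  refine Finset.sum_congr rfl fun x _ => ?_
  rw [frb_num, Finset.mul_sum]
  refine Finset.sum_congr rfl fun t _ => ?_
  have h1 : (Fin.consEquiv (fun _ : Fin (k + 1) => G)) (x, t) = Fin.cons x t := rfl
  rw [h1]
  have h2 : ((∀ j, IsConj (y j) ((Fin.cons x t : Fin (k + 1) → G) j)) ∧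
      (List.ofFn (Fin.cons x t : Fin (k + 1) → G)).prod = g) ↔
      IsConj (y 0) x ∧ ((∀ j : Fin k, IsConj (y j.succ) (t j)) ∧
        (List.ofFn t).prod = x⁻¹ * g) := by
    rw [Fin.forall_fin_succ, List.ofFn_succ, List.prod_cons]
    simp only [Fin.cons_zero, Fin.cons_succ]
    rw [eq_inv_mul_iff_mul_eq, and_assoc]
  unfold frb_in
  by_cases h3 : IsConj (y 0) x
  · rw [if_pos h3, one_mul]
    by_cases h4 : (∀ j : Fin k, IsConj (y j.succ) (t j)) ∧ (List.ofFn t).prod = x⁻¹ * g
    · rw [if_pos h4, if_pos (h2.2 ⟨h3, h4⟩)]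
    · rw [if_neg h4, if_neg fun h => h4 (h2.1 h).2]
  · rw [if_neg h3, zero_mul, if_neg fun h => h3 (h2.1 h).1]

theorem t_FRB : S_FRB := by
  classical
  intro G _ _ k
  induction k with
  | zero =>
    intro y g
    rw [frb_num]
    have h1 : ∀ t : Fin 0 → G, (if (∀ j, IsConj (y j) (t j)) ∧ (List.ofFn t).prod = g then (1 : ℂ)
        else 0) = if g⁻¹ = 1 then 1 else 0 := by
      intro t
      have h2 : ((∀ j, IsConj (y j) (t j)) ∧ (List.ofFn t).prod = g) ↔ g⁻¹ = 1 := by
        rw [List.ofFn_zero, List.prod_nil, inv_eq_one]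
        exact ⟨fun h => h.2.symm, fun h => ⟨fun j => j.elim0, h.symm⟩⟩
      by_cases h3 : g⁻¹ = 1
      · rw [if_pos h3, if_pos (h2.2 h3)]
      · rw [if_neg h3, if_neg fun h => h3 (h2.1 h)]
    rw [Finset.sum_congr rfl fun t _ => h1 t, Finset.sum_const, Finset.card_univ]
    have h4 : Fintype.card (Fin 0 → G) = 1 := by simp
    rw [h4, one_smul, frb_delta]
    simp
  | succ k ih =>
    intro y g
    rw [frb_rec, Finset.sum_mul]
    have h1 : ∀ x, frb_in (y 0) x * (Nat.card {t : Fin k → G // (∀ j, IsConj (y j.succ) (t j)) ∧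
        (List.ofFn t).prod = x⁻¹ * g} : ℂ) * (Nat.card G : ℂ) =
        (∏ j : Fin k, (Nat.card {t : G // IsConj (y j.succ) t} : ℂ)) *
          ∑ X ∈ irrF G, (∏ j : Fin k, X (y j.succ) / X 1) * X 1 *
            (frb_in (y 0) x * X (x * g⁻¹)) := by
      intro x
      rw [mul_assoc, ih (fun j => y j.succ) (x⁻¹ * g), mul_left_comm, Finset.mul_sum]
      congr 1
      refine Finset.sum_congr rfl fun X hX => ?_
      have h2 : X (x⁻¹ * g)⁻¹ = X (x * g⁻¹) := by
        rw [← (mem_irrF.1 hX).conj_eq x (x⁻¹ * g)⁻¹]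
        congr 1
        group
      rw [h2]
      ring
    rw [Finset.sum_congr rfl fun x _ => h1 x, ← Finset.mul_sum, Finset.sum_comm,
      Fin.prod_univ_succ (fun j => (Nat.card {t : G // IsConj (y j) t} : ℂ)), mul_comm
      (Nat.card {t : G // IsConj (y 0) t} : ℂ), mul_assoc]
    congr 1
    rw [Finset.mul_sum]
    refine Finset.sum_congr rfl fun X hX => ?_
    rw [← Finset.mul_sum, frb_class (mem_irrF.1 hX), Fin.prod_univ_succ (fun j => X (y j) / X 1)]
    ring

end

end FLC
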