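import Mathlib
import Pool.Agent.FLC.StA

/-!
# Characters of `GL_n(q)`: a vector of maximal level is an eigenvector of `HK`

Proof of `M_HV` (see `Pool/Agent/FLC/StA.lean`).
-/

set_option autoImplicit false

namespace FLC
open Matrix

/-- diagonal matrices -/
noncomputable def hv_dg (m : ℕ) (F : Type) [Field F] : (Fin m → Fˣ) →* GL (Fin m) F where
  toFun D := Matrix.GeneralLinearGroup.mkOfDetNeZero (Matrix.diagonal fun i => (D i : F)) (by
    rw [Matrix.det_diagonal]
    exact Finset.prod_ne_zero_iff.2 fun i _ => (D i).ne_zero)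
  map_one' := by
    ext i j
    by_cases h : i = j
    · subst h; simp [Matrix.GeneralLinearGroup.mkOfDetNeZero]
    · simp [Matrix.GeneralLinearGroup.mkOfDetNeZero]
  map_mul' D E := by
    apply Units.ext
    change Matrix.diagonal (fun i => (((D * E) i : Fˣ) : F)) = Matrix.diagonal (fun i => (D i : F)) * Matrix.diagonal (fun i => (E i : F))
    rw [Matrix.diagonal_mul_diagonal]
    simp

theorem hv_dg_coe (m : ℕ) (F : Type) [Field F] (D : Fin m → Fˣ) :
    ((hv_dg m F D : GL (Fin m) F) : Matrix (Fin m) (Fin m) F) = Matrix.diagonal fun i => (D i : F) := rfl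

theorem hv_det_dg (m : ℕ) (F : Type) [Field F] (D : Fin m → Fˣ) :
    Matrix.GeneralLinearGroup.det (hv_dg m F D) = ∏ i, D i := by
  apply Units.ext
  rw [Matrix.GeneralLinearGroup.val_det_apply, hv_dg_coe, Matrix.det_diagonal]
  simp

/-- permutation matrices -/
theorem hv_perm (m : ℕ) (F : Type) [Field F] (σ : Equiv.Perm (Fin m)) :
    ∃ s : GL (Fin m) F, ∀ (A : GL (Fin m) F), ((s * A * s⁻¹ : GL (Fin m) F) : Matrix (Fin m) (Fin m) F) =
      (A : Matrix (Fin m) (Fin m) F).submatrix σ σ := by
  have h1 : (σ.toPEquiv.toMatrix : Matrix (Fin m) (Fin m) F) * ((σ⁻¹).toPEquiv.toMatrix) = 1 := by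
    rw [← PEquiv.toMatrix_trans, ← Equiv.toPEquiv_trans]
    have : σ.trans σ⁻¹ = Equiv.refl _ := by ext; simp
    rw [this, Equiv.toPEquiv_refl, PEquiv.toMatrix_refl]
  have h2 : ((σ⁻¹).toPEquiv.toMatrix : Matrix (Fin m) (Fin m) F) * (σ.toPEquiv.toMatrix) = 1 := by
    rw [← PEquiv.toMatrix_trans, ← Equiv.toPEquiv_trans]
    have : (σ⁻¹).trans σ = Equiv.refl _ := by ext; simp
    rw [this, Equiv.toPEquiv_refl, PEquiv.toMatrix_refl]
  refine ⟨⟨σ.toPEquiv.toMatrix, (σ⁻¹).toPEquiv.toMatrix, h1, h2⟩, fun A => ?_⟩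
  change (σ.toPEquiv.toMatrix : Matrix (Fin m) (Fin m) F) * (A : Matrix (Fin m) (Fin m) F) *
    ((σ⁻¹).toPEquiv.toMatrix) = _
  ext i j
  rw [PEquiv.toMatrix_toPEquiv_mul, PEquiv.mul_toMatrix_toPEquiv]
  simp
  rfl


/-- a normal subgroup with the upper unitriangular matrices: the quotient is given by the determinant -/
theorem hv_normal (m : ℕ) (F : Type) [Field F] (N : Subgroup (GL (Fin m) F)) (hN : N.Normal)
    (hu : ∀ g : GL (Fin m) F, (∀ i, (g : Matrix (Fin m) (Fin m) F) i i = 1) →
      (∀ i j, j < i → (g : Matrix (Fin m) (Fin m) F) i j = 0) → g ∈ N) (i0 : Fin m) (g : GL (Fin m) F) :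
    (QuotientGroup.mk g : GL (Fin m) F ⧸ N) =
      QuotientGroup.mk (hv_dg m F (Pi.mulSingle i0 (Matrix.GeneralLinearGroup.det g))) := by
  classical
  set f : GL (Fin m) F →* GL (Fin m) F ⧸ N := QuotientGroup.mk' N with hf
  have hf1 : ∀ x ∈ N, f x = 1 := fun x hx => (QuotientGroup.eq_one_iff x).2 hx
  -- transvections
  have htr : ∀ (x : GL (Fin m) F) (i j : Fin m) (_ : i ≠ j) (c : F),
      (x : Matrix (Fin m) (Fin m) F) = Matrix.transvection i j c → f x = 1 := by
    intro x i j hij c hx
    rcases lt_or_gt_of_ne hij with h | h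
    · apply hf1
      apply hu
      · intro k
        rw [hx]
        simp only [Matrix.transvection, Matrix.add_apply, Matrix.one_apply_eq, Matrix.single_apply]
        rw [if_neg (by rintro ⟨h1, h2⟩; exact hij (h1.trans h2.symm)), add_zero]
      · intro k l hkl
        rw [hx]
        simp only [Matrix.transvection, Matrix.add_apply, Matrix.single_apply]
        rw [Matrix.one_apply_ne (ne_of_gt hkl), if_neg (by rintro ⟨h1, h2⟩; subst h1; subst h2; omega), add_zero]
    · obtain ⟨s, hs⟩ := hv_perm m F (Equiv.swap i j)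
      have h1 : f (s * x * s⁻¹) = 1 := by
        apply hf1
        apply hu
        · intro k
          rw [hs, hx]
          simp only [Matrix.submatrix_apply, Matrix.transvection, Matrix.add_apply, Matrix.one_apply_eq, Matrix.single_apply]
          rw [if_neg (by rintro ⟨h1, h2⟩; exact hij (h1.trans h2.symm)), add_zero]
        · intro k l hkl
          rw [hs, hx]
          simp only [Matrix.submatrix_apply, Matrix.transvection, Matrix.add_apply, Matrix.single_apply]
          rw [Matrix.one_apply_ne (fun h => (ne_of_gt hkl) ((Equiv.swap i j).injective h)), if_neg, add_zero]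
          rintro ⟨h1, h2⟩
          have h3 : k = j := by
            have := congrArg (Equiv.swap i j) h1
            rw [Equiv.swap_apply_self, Equiv.swap_apply_left] at this
            exact this.symm
          have h4 : l = i := by
            have := congrArg (Equiv.swap i j) h2
            rw [Equiv.swap_apply_self, Equiv.swap_apply_right] at this
            exact this.symm
          subst h3; subst h4
          exact absurd hkl (by omega)
      rw [map_mul, map_mul, map_inv] at h1
      have h2 := congrArg (fun z => (f s)⁻¹ * z * f s) h1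
      simpa [mul_assoc] using h2
  -- a lift of lists of transvections
  have hlist : ∀ L : List (Matrix.TransvectionStruct (Fin m) F), ∃ x : GL (Fin m) F,
      (x : Matrix (Fin m) (Fin m) F) = (L.map Matrix.TransvectionStruct.toMatrix).prod ∧ f x = 1 := by
    intro L
    induction L with
    | nil => exact ⟨1, by simp, map_one f⟩
    | cons t L ih =>
      obtain ⟨x, hx, hfx⟩ := ih
      refine ⟨Matrix.GeneralLinearGroup.mkOfDetNeZero t.toMatrix (by rw [t.det]; exact one_ne_zero) * x, ?_, ?_⟩
      · rw [Matrix.GeneralLinearGroup.coe_mul, hx, List.map_cons, List.prod_cons]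
        rfl
      · rw [map_mul, hfx, mul_one]
        exact htr _ t.i t.j t.hij t.c rfl
  -- reduction to diagonal matrices
  have hdiag : ∀ x : GL (Fin m) F, ∃ D : Fin m → Fˣ, f x = f (hv_dg m F D) ∧
      Matrix.GeneralLinearGroup.det x = ∏ i, D i := by
    intro x
    obtain ⟨L, L', D, hM⟩ := Matrix.Pivot.exists_list_transvec_mul_diagonal_mul_list_transvec
      (x : Matrix (Fin m) (Fin m) F)
    obtain ⟨y, hy, hfy⟩ := hlist L
    obtain ⟨z, hz, hfz⟩ := hlist L'
    have hdet : (Matrix.det (x : Matrix (Fin m) (Fin m) F)) = ∏ i, D i := by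
      rw [hM, Matrix.det_mul, Matrix.det_mul, Matrix.TransvectionStruct.det_toMatrix_prod,
        Matrix.TransvectionStruct.det_toMatrix_prod, Matrix.det_diagonal, one_mul, mul_one]
    have hD : ∀ i, D i ≠ 0 := by
      intro i hi
      have h1 : (Matrix.det (x : Matrix (Fin m) (Fin m) F)) = 0 := by
        rw [hdet]; exact Finset.prod_eq_zero (Finset.mem_univ i) hi
      exact (Matrix.GeneralLinearGroup.det x).ne_zero (by rw [Matrix.GeneralLinearGroup.val_det_apply]; exact h1)
    refine ⟨fun i => Units.mk0 (D i) (hD i), ?_, ?_⟩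
    · have hx : x = y * hv_dg m F (fun i => Units.mk0 (D i) (hD i)) * z := by
        apply Units.ext
        rw [Matrix.GeneralLinearGroup.coe_mul, Matrix.GeneralLinearGroup.coe_mul, hv_dg_coe, hy, hz, hM]
        rfl
      rw [hx, map_mul, map_mul, hfy, hfz, one_mul, mul_one]
    · apply Units.ext
      rw [Matrix.GeneralLinearGroup.val_det_apply, hdet]
      simp
  have hcomm : ∀ x y : GL (Fin m) F, f x * f y = f y * f x := by
    intro x y
    obtain ⟨D, hD, -⟩ := hdiag x
    obtain ⟨E, hE, -⟩ := hdiag y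
    rw [hD, hE, ← map_mul, ← map_mul, ← map_mul, ← map_mul, mul_comm D E]
  have hsw : ∀ (i : Fin m) (a : Fˣ), f (hv_dg m F (Pi.mulSingle i a)) = f (hv_dg m F (Pi.mulSingle i0 a)) := by
    intro i a
    obtain ⟨s, hs⟩ := hv_perm m F (Equiv.swap i i0)
    have h1 : s * hv_dg m F (Pi.mulSingle i a) * s⁻¹ = hv_dg m F (Pi.mulSingle i0 a) := by
      apply Units.ext
      rw [hs, hv_dg_coe, hv_dg_coe]
      ext k l
      rw [Matrix.submatrix_apply, Matrix.diagonal_apply, Matrix.diagonal_apply]
      by_cases h : k = l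
      · subst h
        rw [if_pos rfl, if_pos rfl]
        by_cases hk : k = i0
        · subst hk; simp
        · rw [Pi.mulSingle_eq_of_ne hk, Pi.mulSingle_eq_of_ne]
          intro h2
          apply hk
          have := congrArg (Equiv.swap i i0) h2
          rw [Equiv.swap_apply_self, Equiv.swap_apply_left] at this
          exact this
      · rw [if_neg h, if_neg (fun h2 => h ((Equiv.swap i i0).injective h2))]
    rw [← h1, map_mul, map_mul, hcomm (s), mul_assoc, ← map_mul, mul_inv_cancel, map_one, mul_one]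
  have hprod : ∀ (D : Fin m → Fˣ) (s : Finset (Fin m)),
      f (hv_dg m F (∏ i ∈ s, Pi.mulSingle i (D i))) = f (hv_dg m F (Pi.mulSingle i0 (∏ i ∈ s, D i))) := by
    intro D s
    induction s using Finset.induction_on with
    | empty => simp
    | insert i s hi ih =>
      rw [Finset.prod_insert hi, Finset.prod_insert hi, map_mul, map_mul, ih, hsw, Pi.mulSingle_mul, map_mul, map_mul]
  obtain ⟨D, hD, hdet⟩ := hdiag g
  change f g = f _
  rw [hD, hdet, ← hprod D Finset.univ]
  congr 2
  exact (Finset.univ_prod_mulSingle D).symm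


/-- an abstract lemma on representations of `GL_m` -/
theorem hv_abs (m : ℕ) (F : Type) [Field F] [Fintype F] (V : Type) [AddCommGroup V] [Module ℂ V]
    [FiniteDimensional ℂ V] (T : GL (Fin m) F →* (V →ₗ[ℂ] V)) (W : Submodule ℂ V) (hW : W ≠ ⊥)
    (hinv : ∀ g, ∀ v ∈ W, T g v ∈ W)
    (hu : ∀ g : GL (Fin m) F, (∀ i, (g : Matrix (Fin m) (Fin m) F) i i = 1) →
      (∀ i j, j < i → (g : Matrix (Fin m) (Fin m) F) i j = 0) → ∀ v ∈ W, T g v = v) :
    ∃ v ∈ W, v ≠ 0 ∧ ∃ l : Fˣ →* ℂˣ, ∀ g : GL (Fin m) F,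
      T g v = (l (Matrix.GeneralLinearGroup.det g) : ℂ) • v := by
  classical
  obtain ⟨w, hw, hw0⟩ := (Submodule.ne_bot_iff W).1 hW
  rcases Nat.eq_zero_or_pos m with hm | hm
  · subst hm
    refine ⟨w, hw, hw0, 1, fun g => ?_⟩
    have : g = 1 := by
      apply Units.ext
      ext i
      exact i.elim0
    rw [this]
    simp
  -- the kernel on W
  let N : Subgroup (GL (Fin m) F) :=
    { carrier := {g | ∀ v ∈ W, T g v = v}
      one_mem' := by intro v _; rw [map_one]; rfl
      mul_mem' := by
        intro a b ha hb v hv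
        rw [map_mul]
        change T a (T b v) = v
        rw [hb v hv, ha v hv]
      inv_mem' := by
        intro a ha v hv
        have h1 : T a⁻¹ (T a v) = v := by
          change (T a⁻¹ * T a) v = v
          rw [← map_mul, inv_mul_cancel, map_one]
          rfl
        rw [ha v hv] at h1
        exact h1 }
  have hNmem : ∀ g, g ∈ N ↔ ∀ v ∈ W, T g v = v := fun g => Iff.rfl
  have hN : N.Normal := by
    refine ⟨fun n hn g => ?_⟩
    rw [hNmem] at hn ⊢
    intro v hv
    rw [map_mul, map_mul]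
    change T g (T n (T g⁻¹ v)) = v
    rw [hn _ (hinv _ v hv)]
    change (T g * T g⁻¹) v = v
    rw [← map_mul, mul_inv_cancel, map_one]
    rfl
  let i0 : Fin m := ⟨0, hm⟩
  have hq := hv_normal m F N hN (fun g h1 h2 => (hNmem g).2 (hu g h1 h2)) i0
  -- δ
  let δ : Fˣ →* GL (Fin m) F := (hv_dg m F).comp (MonoidHom.mulSingle (fun _ => Fˣ) i0)
  have hact : ∀ (g : GL (Fin m) F), ∀ v ∈ W, T g v = T (δ (Matrix.GeneralLinearGroup.det g)) v := by
    intro g v hv
    have h1 : g⁻¹ * δ (Matrix.GeneralLinearGroup.det g) ∈ N := QuotientGroup.eq.1 (hq g)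
    have h2 := (hNmem _).1 h1 v hv
    have h3 : T g (T (g⁻¹ * δ (Matrix.GeneralLinearGroup.det g)) v) =
        T (δ (Matrix.GeneralLinearGroup.det g)) v := by
      change (T g * T (g⁻¹ * δ (Matrix.GeneralLinearGroup.det g))) v = _
      rw [← map_mul, mul_inv_cancel_left]
    rw [h2] at h3
    exact h3
  obtain ⟨a0, ha0⟩ := IsCyclic.exists_generator (α := Fˣ)
  -- eigenvector
  have hres : ∃ v ∈ W, v ≠ 0 ∧ ∃ μ : ℂ, T (δ a0) v = μ • v := by
    let R : Module.End ℂ W := (T (δ a0)).restrict (hinv (δ a0))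
    have : Nontrivial W := ⟨⟨⟨w, hw⟩, 0, fun h => hw0 (congrArg Subtype.val h)⟩⟩
    obtain ⟨μ, hμ⟩ := Module.End.exists_eigenvalue R
    obtain ⟨x, hx⟩ := hμ.exists_hasEigenvector
    refine ⟨x, x.2, fun h => hx.2 (Subtype.ext h), μ, ?_⟩
    have h1 := hx.apply_eq_smul
    have h2 := congrArg Subtype.val h1
    exact h2
  obtain ⟨v, hv, hv0, μ, hμ⟩ := hres
  have hpow : ∀ k : ℕ, T (δ (a0 ^ k)) v = μ ^ k • v := by
    intro k
    induction k with
    | zero => simp
    | succ k ih =>
      rw [pow_succ, map_mul, map_mul]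
      change T (δ (a0 ^ k)) (T (δ a0) v) = _
      rw [hμ, map_smul, ih, smul_smul, pow_succ, mul_comm]
  have hex : ∀ a : Fˣ, ∃ c : ℂ, T (δ a) v = c • v := by
    intro a
    have h1 := ha0 a
    rw [← mem_powers_iff_mem_zpowers] at h1
    obtain ⟨k, hk⟩ := h1
    exact ⟨μ ^ k, by rw [← hk]; exact hpow k⟩
  choose c hc using hex
  have hcan : ∀ x y : ℂ, x • v = y • v → x = y := fun x y h => smul_left_injective ℂ hv0 h
  let l0 : Fˣ →* ℂ :=
    { toFun := c
      map_one' := by
        apply hcan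
        rw [← hc, map_one, map_one, one_smul]
        rfl
      map_mul' := by
        intro a b
        apply hcan
        rw [← hc, map_mul, map_mul]
        change T (δ a) (T (δ b) v) = _
        rw [hc b, map_smul, hc a, smul_smul, mul_comm] }
  refine ⟨v, hv, hv0, MonoidHom.toHomUnits l0, fun g => ?_⟩
  rw [hact g v hv, hc]
  rfl

/-- the space of the `θ`-vectors -/
def hv_sp {G : Type} [Group G] {V : Type} [AddCommGroup V] [Module ℂ V] (ρ : G →* (V →ₗ[ℂ] V))
    (H : Subgroup G) (θ : G → ℂ) : Submodule ℂ V where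
  carrier := {v | ∀ g ∈ H, ρ g v = θ g • v}
  add_mem' := by
    intro a b ha hb g hg
    rw [map_add, ha g hg, hb g hg, smul_add]
  zero_mem' := by
    intro g _
    rw [map_zero, smul_zero]
  smul_mem' := by
    intro c x hx g hg
    rw [map_smul, hx g hg, smul_comm]

theorem hv_mem_sp {G : Type} [Group G] {V : Type} [AddCommGroup V] [Module ℂ V] (ρ : G →* (V →ₗ[ℂ] V))
    (H : Subgroup G) (θ : G → ℂ) (v : V) : v ∈ hv_sp ρ H θ ↔ ∀ g ∈ H, ρ g v = θ g • v := Iff.rfl

open Classical in
theorem hv_mlt {G : Type} [Group G] [Fintype G] {V : Type} [AddCommGroup V] [Module ℂ V]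
    [FiniteDimensional ℂ V] (ρ : Representation ℂ G V) (H : Subgroup G)
    (θ : G → ℂ) (hθ : LC H θ) :
    mlt H θ ρ.character = (Module.finrank ℂ (hv_sp (V := V) ρ H θ) : ℂ) := by
  have hne : ∀ g ∈ H, θ g ≠ 0 := by
    intro g hg h0
    have h1 := hθ.2 g hg g⁻¹ (H.inv_mem hg)
    rw [mul_inv_cancel, hθ.1, h0, zero_mul] at h1
    exact one_ne_zero h1
  have hcard : (Nat.card H : ℂ) ≠ 0 := by
    exact_mod_cast Nat.card_pos.ne'
  set e : V →ₗ[ℂ] V := ((Nat.card H : ℂ)⁻¹) • ∑ g : G, if g ∈ H then (θ g)⁻¹ • (ρ g : V →ₗ[ℂ] V) else 0 with he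
  have happ : ∀ v, e v = ((Nat.card H : ℂ)⁻¹) • ∑ g : G, if g ∈ H then (θ g)⁻¹ • (ρ g : V →ₗ[ℂ] V) v else 0 := by
    intro v
    rw [he, LinearMap.smul_apply, LinearMap.sum_apply]
    congr 1
    apply Finset.sum_congr rfl
    intro g _
    split_ifs <;> simp
  have htr : LinearMap.trace ℂ V e = mlt H θ ρ.character := by
    rw [he, map_smul, map_sum, mlt, smul_eq_mul, div_eq_inv_mul]
    congr 1
    apply Finset.sum_congr rfl
    intro g _
    split_ifs with h
    · rw [map_smul, smul_eq_mul, mul_comm]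
      rfl
    · simp
  have hproj : LinearMap.IsProj (hv_sp (V := V) ρ H θ) e := by
    constructor
    · intro v
      rw [hv_mem_sp]
      intro h hh
      rw [happ, map_smul, map_sum, smul_comm]
      congr 1
      rw [Finset.smul_sum, ← Fintype.sum_equiv (Equiv.mulLeft h⁻¹)
        (fun g => if g ∈ H then θ h • (θ g)⁻¹ • (ρ g : V →ₗ[ℂ] V) v else 0)]
      · apply Finset.sum_congr rfl
        intro g _
        split_ifs <;> simp
      · intro g
        have hmem : h⁻¹ * g ∈ H ↔ g ∈ H := Subgroup.mul_mem_cancel_left H (H.inv_mem hh)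
        rw [Equiv.coe_mulLeft]
        by_cases hg : g ∈ H
        · rw [if_pos hg, if_pos (hmem.2 hg), map_smul]
          have h1 : θ (h * (h⁻¹ * g)) = θ h * θ (h⁻¹ * g) := hθ.2 h hh _ (hmem.2 hg)
          rw [mul_inv_cancel_left] at h1
          have h2 : (ρ h : V →ₗ[ℂ] V) ((ρ (h⁻¹ * g) : V →ₗ[ℂ] V) v) = (ρ g : V →ₗ[ℂ] V) v := by
            change (ρ h * ρ (h⁻¹ * g)) v = _
            rw [← map_mul, mul_inv_cancel_left]
          rw [h2, h1, smul_smul, mul_inv, mul_inv_cancel_left₀ (hne h hh)]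
        · rw [if_neg hg, if_neg (fun h => hg (hmem.1 h)), map_zero]
    · intro v hv
      rw [happ]
      have h1 : (∑ g : G, if g ∈ H then (θ g)⁻¹ • (ρ g : V →ₗ[ℂ] V) v else 0) = (Nat.card H : ℂ) • v := by
        have h2 : ∀ g : G, (if g ∈ H then (θ g)⁻¹ • (ρ g : V →ₗ[ℂ] V) v else 0) = if g ∈ H then v else 0 := by
          intro g
          split_ifs with h
          · rw [hv g h, smul_smul, inv_mul_cancel₀ (hne g h), one_smul]
          · rfl
        rw [Finset.sum_congr rfl fun g _ => h2 g, ← Finset.sum_filter, Finset.sum_const,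
          ← Nat.cast_smul_eq_nsmul ℂ]
        congr 2
        rw [Nat.card_eq_fintype_card, Fintype.card_subtype]
      rw [h1, smul_smul, inv_mul_cancel₀ hcard, one_smul]
  rw [← htr]
  exact hproj.trace


/-! ## The embedding -/

/-- `diag(1, A)` -/
noncomputable def hv_em (K m : ℕ) (F : Type) [Field F] :
    Matrix (Fin m) (Fin m) F →* Matrix (Fin (K + m)) (Fin (K + m)) F where
  toFun A := (Matrix.fromBlocks (1 : Matrix (Fin K) (Fin K) F) 0 0 A).submatrix
    finSumFinEquiv.symm finSumFinEquiv.symm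
  map_one' := by
    rw [Matrix.fromBlocks_one, Matrix.submatrix_one_equiv]
  map_mul' A B := by
    rw [Matrix.submatrix_mul_equiv, Matrix.fromBlocks_multiply]
    simp

theorem hv_em_cc (K m : ℕ) (F : Type) [Field F] (A : Matrix (Fin m) (Fin m) F) (a b : Fin K) :
    hv_em K m F A (Fin.castAdd m a) (Fin.castAdd m b) = (1 : Matrix (Fin K) (Fin K) F) a b := by
  change (Matrix.fromBlocks (1 : Matrix (Fin K) (Fin K) F) 0 0 A) (finSumFinEquiv.symm _) (finSumFinEquiv.symm _) = _
  rw [finSumFinEquiv_symm_apply_castAdd, finSumFinEquiv_symm_apply_castAdd, Matrix.fromBlocks_apply₁₁]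

theorem hv_em_cn (K m : ℕ) (F : Type) [Field F] (A : Matrix (Fin m) (Fin m) F) (a : Fin K) (b : Fin m) :
    hv_em K m F A (Fin.castAdd m a) (Fin.natAdd K b) = 0 := by
  change (Matrix.fromBlocks (1 : Matrix (Fin K) (Fin K) F) 0 0 A) (finSumFinEquiv.symm _) (finSumFinEquiv.symm _) = _
  rw [finSumFinEquiv_symm_apply_castAdd, finSumFinEquiv_symm_apply_natAdd, Matrix.fromBlocks_apply₁₂]
  rfl

theorem hv_em_nc (K m : ℕ) (F : Type) [Field F] (A : Matrix (Fin m) (Fin m) F) (a : Fin m) (b : Fin K) :
    hv_em K m F A (Fin.natAdd K a) (Fin.castAdd m b) = 0 := by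
  change (Matrix.fromBlocks (1 : Matrix (Fin K) (Fin K) F) 0 0 A) (finSumFinEquiv.symm _) (finSumFinEquiv.symm _) = _
  rw [finSumFinEquiv_symm_apply_castAdd, finSumFinEquiv_symm_apply_natAdd, Matrix.fromBlocks_apply₂₁]
  rfl

theorem hv_em_nn (K m : ℕ) (F : Type) [Field F] (A : Matrix (Fin m) (Fin m) F) (a b : Fin m) :
    hv_em K m F A (Fin.natAdd K a) (Fin.natAdd K b) = A a b := by
  change (Matrix.fromBlocks (1 : Matrix (Fin K) (Fin K) F) 0 0 A) (finSumFinEquiv.symm _) (finSumFinEquiv.symm _) = _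
  rw [finSumFinEquiv_symm_apply_natAdd, finSumFinEquiv_symm_apply_natAdd, Matrix.fromBlocks_apply₂₂]

/-- the embedding of groups -/
noncomputable def hv_i (K m : ℕ) (F : Type) [Field F] : GL (Fin m) F →* GL (Fin (K + m)) F :=
  Units.map (hv_em K m F)

theorem hv_i_coe (K m : ℕ) (F : Type) [Field F] (g : GL (Fin m) F) :
    ((hv_i K m F g : GL (Fin (K + m)) F) : Matrix (Fin (K + m)) (Fin (K + m)) F) =
      hv_em K m F (g : Matrix (Fin m) (Fin m) F) := rfl

/-- the four blocks -/
theorem hv_blk (K m : ℕ) (F : Type) [Field F] (X : Matrix (Fin (K + m)) (Fin (K + m)) F) :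
    X = (Matrix.fromBlocks (X.submatrix (Fin.castAdd m) (Fin.castAdd m))
      (X.submatrix (Fin.castAdd m) (Fin.natAdd K)) (X.submatrix (Fin.natAdd K) (Fin.castAdd m))
      (X.submatrix (Fin.natAdd K) (Fin.natAdd K))).submatrix finSumFinEquiv.symm
        finSumFinEquiv.symm := by
  ext i j
  rw [Matrix.submatrix_apply]
  induction i using Fin.addCases with
  | left a =>
    rw [finSumFinEquiv_symm_apply_castAdd]
    induction j using Fin.addCases with
    | left b => rw [finSumFinEquiv_symm_apply_castAdd, Matrix.fromBlocks_apply₁₁, Matrix.submatrix_apply]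
    | right b => rw [finSumFinEquiv_symm_apply_natAdd, Matrix.fromBlocks_apply₁₂, Matrix.submatrix_apply]
  | right a =>
    rw [finSumFinEquiv_symm_apply_natAdd]
    induction j using Fin.addCases with
    | left b => rw [finSumFinEquiv_symm_apply_castAdd, Matrix.fromBlocks_apply₂₁, Matrix.submatrix_apply]
    | right b => rw [finSumFinEquiv_symm_apply_natAdd, Matrix.fromBlocks_apply₂₂, Matrix.submatrix_apply]

/-- products of block matrices -/
theorem hv_mul_blk (K m : ℕ) (F : Type) [Field F] (X : Matrix (Fin (K + m)) (Fin (K + m)) F)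
    (A B : Matrix (Fin m) (Fin m) F) (h0 : ∀ a b, X (Fin.natAdd K a) (Fin.castAdd m b) = 0) :
    (∀ a b, (hv_em K m F A * X * hv_em K m F B) (Fin.castAdd m a) (Fin.castAdd m b) =
      X (Fin.castAdd m a) (Fin.castAdd m b)) ∧
    (∀ a b, (hv_em K m F A * X * hv_em K m F B) (Fin.natAdd K a) (Fin.castAdd m b) = 0) ∧
    (∀ a b, (hv_em K m F A * X * hv_em K m F B) (Fin.natAdd K a) (Fin.natAdd K b) =
      (A * X.submatrix (Fin.natAdd K) (Fin.natAdd K) * B) a b) := by
  have key : hv_em K m F A * X * hv_em K m F B =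
      (Matrix.fromBlocks (X.submatrix (Fin.castAdd m) (Fin.castAdd m))
        (X.submatrix (Fin.castAdd m) (Fin.natAdd K) * B) 0
        (A * X.submatrix (Fin.natAdd K) (Fin.natAdd K) * B)).submatrix
          finSumFinEquiv.symm finSumFinEquiv.symm := by
    conv_lhs => rw [hv_blk K m F X]
    change (Matrix.fromBlocks (1 : Matrix (Fin K) (Fin K) F) 0 0 A).submatrix
      finSumFinEquiv.symm finSumFinEquiv.symm * _ * (Matrix.fromBlocks (1 : Matrix (Fin K) (Fin K) F) 0 0 B).submatrix
      finSumFinEquiv.symm finSumFinEquiv.symm = _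
    rw [Matrix.submatrix_mul_equiv, Matrix.submatrix_mul_equiv, Matrix.fromBlocks_multiply,
      Matrix.fromBlocks_multiply]
    have h1 : X.submatrix (Fin.natAdd K) (Fin.castAdd m) = (0 : Matrix (Fin m) (Fin K) F) := by
      ext a b; exact h0 a b
    rw [h1]
    simp
  rw [key]
  refine ⟨fun a b => ?_, fun a b => ?_, fun a b => ?_⟩
  · rw [Matrix.submatrix_apply, finSumFinEquiv_symm_apply_castAdd, finSumFinEquiv_symm_apply_castAdd,
      Matrix.fromBlocks_apply₁₁, Matrix.submatrix_apply]
  · rw [Matrix.submatrix_apply, finSumFinEquiv_symm_apply_natAdd, finSumFinEquiv_symm_apply_castAdd,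
      Matrix.fromBlocks_apply₂₁]
    rfl
  · rw [Matrix.submatrix_apply, finSumFinEquiv_symm_apply_natAdd, finSumFinEquiv_symm_apply_natAdd,
      Matrix.fromBlocks_apply₂₂]

theorem hv_US0 (n : ℕ) (F : Type) [Field F] [Fintype F] (d : ℕ → ℕ) (X : Matrix (Fin n) (Fin n) F) :
    X ∈ US n F d ↔ (∀ i, X i i = 1) ∧ (∀ i j, j < i → X i j = 0) ∧
      ∀ i j : Fin n, i < j → d i = d j → X i j = 0 := by
  unfold US
  simp only [Finset.mem_filter, Finset.mem_univ, true_and]

theorem hv_US (K m : ℕ) (F : Type) [Field F] [Fintype F] (X : Matrix (Fin (K + m)) (Fin (K + m)) F) :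
    X ∈ US (K + m) F (fun i => min i K) ↔
      (∀ a, X (Fin.castAdd m a) (Fin.castAdd m a) = 1) ∧
      (∀ a b, b < a → X (Fin.castAdd m a) (Fin.castAdd m b) = 0) ∧
      (∀ a b, X (Fin.natAdd K a) (Fin.castAdd m b) = 0) ∧
      (∀ a b, X (Fin.natAdd K a) (Fin.natAdd K b) = (1 : Matrix (Fin m) (Fin m) F) a b) := by
  rw [hv_US0]
  constructor
  · rintro ⟨h1, h2, h3⟩
    refine ⟨fun a => h1 _, fun a b hab => h2 _ _ ?_, fun a b => h2 _ _ ?_, fun a b => ?_⟩
    · rw [Fin.lt_def] at hab ⊢
      simpa using hab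
    · rw [Fin.lt_def]
      simp only [Fin.val_castAdd, Fin.val_natAdd]
      have := b.2
      omega
    · rcases lt_trichotomy a b with h | h | h
      · rw [Matrix.one_apply_ne (ne_of_lt h)]
        apply h3
        · rw [Fin.lt_def] at h ⊢
          simp only [Fin.val_natAdd]
          omega
        · simp only [Fin.val_natAdd]
          omega
      · subst h
        rw [Matrix.one_apply_eq]
        exact h1 _
      · rw [Matrix.one_apply_ne (ne_of_gt h)]
        apply h2
        rw [Fin.lt_def] at h ⊢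
        simp only [Fin.val_natAdd]
        omega
  · rintro ⟨h1, h2, h3, h4⟩
    refine ⟨fun i => ?_, fun i j => ?_, fun i j => ?_⟩
    · induction i using Fin.addCases with
      | left a => exact h1 a
      | right a => rw [h4, Matrix.one_apply_eq]
    · induction i using Fin.addCases with
      | left a =>
        induction j using Fin.addCases with
        | left b =>
          intro h
          apply h2
          rw [Fin.lt_def] at h ⊢
          simpa using h
        | right b =>
          intro h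
          rw [Fin.lt_def] at h
          simp only [Fin.val_castAdd, Fin.val_natAdd] at h
          have := a.2
          omega
      | right a =>
        induction j using Fin.addCases with
        | left b => intro _; exact h3 a b
        | right b =>
          intro h
          rw [Fin.lt_def] at h
          simp only [Fin.val_natAdd] at h
          rw [h4, Matrix.one_apply_ne]
          intro h5
          subst h5
          omega
    · induction i using Fin.addCases with
      | left a =>
        intro h h'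
        rw [Fin.lt_def] at h
        simp only [Fin.val_castAdd] at h h'
        have := a.2
        omega
      | right a =>
        induction j using Fin.addCases with
        | left b => intro _ _; exact h3 a b
        | right b =>
          intro h _
          rw [Fin.lt_def] at h
          simp only [Fin.val_natAdd] at h
          rw [h4, Matrix.one_apply_ne]
          intro h5
          subst h5
          omega

theorem hv_sd (K m : ℕ) (F : Type) [Field F] (S : Finset ℕ) (hS : S ⊆ Finset.Ioo 0 K)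
    (X Y : Matrix (Fin (K + m)) (Fin (K + m)) F)
    (h : ∀ a b, X (Fin.castAdd m a) (Fin.castAdd m b) = Y (Fin.castAdd m a) (Fin.castAdd m b)) :
    sd S X = sd S Y := by
  rw [sd, sd]
  apply Finset.sum_congr rfl
  intro i _
  apply Finset.sum_congr rfl
  intro j _
  split_ifs with hc
  · have h1 := Finset.mem_Ioo.1 (hS hc.2)
    have h2 := h ⟨i.val, by omega⟩ ⟨j.val, by omega⟩
    exact h2
  · rfl

theorem hv_sd_one (n : ℕ) (F : Type) [Field F] (S : Finset ℕ) :
    sd S (1 : Matrix (Fin n) (Fin n) F) = 0 := by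
  rw [sd]
  apply Finset.sum_eq_zero
  intro i _
  apply Finset.sum_eq_zero
  intro j _
  split_ifs with hc
  · apply Matrix.one_apply_ne
    intro h
    rw [h] at hc
    omega
  · rfl


/-- the matrices of `HK` -/
theorem hv_HK (K m : ℕ) (F : Type) [Field F] (h : GL (Fin (K + m)) F) :
    h ∈ HK (K + m) F K ↔ ∀ (i : Fin (K + m)) (b : Fin K),
      (h : Matrix (Fin (K + m)) (Fin (K + m)) F) i (Fin.castAdd m b) =
        (1 : Matrix (Fin (K + m)) (Fin (K + m)) F) i (Fin.castAdd m b) := by
  have h0 : ∀ (j i : Fin (K + m)), (h : Matrix (Fin (K + m)) (Fin (K + m)) F).mulVec (Pi.single j 1) i =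
      (h : Matrix (Fin (K + m)) (Fin (K + m)) F) i j := by
    intro j i
    rw [Matrix.mulVec_single_one, Matrix.col_apply]
  have h1 : ∀ (j i : Fin (K + m)), (Pi.single j 1 : Fin (K + m) → F) i =
      (1 : Matrix (Fin (K + m)) (Fin (K + m)) F) i j := by
    intro j i
    rw [Matrix.one_apply, Pi.single_apply]
  constructor
  · intro hh i b
    have h2 := congrFun (hh (Fin.castAdd m b) (by simp)) i
    rw [h0, h1] at h2
    exact h2
  · intro hh j hj
    funext i
    rw [h0, h1]
    exact hh i ⟨j.val, hj⟩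

/-- the decomposition of the elements of `HK` -/
theorem hv_dec (K m : ℕ) (F : Type) [Field F] [Fintype F] (h : GL (Fin (K + m)) F)
    (hh : h ∈ HK (K + m) F K) :
    ∃ (x : GL (Fin (K + m)) F) (g : GL (Fin m) F), h = x * hv_i K m F g ∧
      Matrix.GeneralLinearGroup.det h = Matrix.GeneralLinearGroup.det g ∧
      (x : Matrix (Fin (K + m)) (Fin (K + m)) F) ∈ US (K + m) F (fun i => min i K) ∧
      (∀ a b, (x : Matrix (Fin (K + m)) (Fin (K + m)) F) (Fin.castAdd m a) (Fin.castAdd m b) =
        (1 : Matrix (Fin (K + m)) (Fin (K + m)) F) (Fin.castAdd m a) (Fin.castAdd m b)) := by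
  rw [hv_HK] at hh
  set M : Matrix (Fin (K + m)) (Fin (K + m)) F := (h : Matrix (Fin (K + m)) (Fin (K + m)) F) with hM
  set A : Matrix (Fin m) (Fin m) F := M.submatrix (Fin.natAdd K) (Fin.natAdd K) with hA
  have hcc : M.submatrix (Fin.castAdd m) (Fin.castAdd m) = (1 : Matrix (Fin K) (Fin K) F) := by
    ext a b
    rw [Matrix.submatrix_apply, hh, Matrix.one_apply, Matrix.one_apply]
    simp
  have hnc : M.submatrix (Fin.natAdd K) (Fin.castAdd m) = (0 : Matrix (Fin m) (Fin K) F) := by
    ext a b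
    rw [Matrix.submatrix_apply, hh, Matrix.one_apply, if_neg]
    · rfl
    · intro h1
      have h2 := congrArg Fin.val h1
      simp only [Fin.val_natAdd, Fin.val_castAdd] at h2
      have := b.2
      omega
  have hdetM : M.det = A.det := by
    rw [hv_blk K m F M, Matrix.det_submatrix_equiv_self, hcc, hnc, Matrix.det_fromBlocks_zero₂₁,
      Matrix.det_one, one_mul]
  have hMne : M.det ≠ 0 := by
    have := (Matrix.GeneralLinearGroup.det h).ne_zero
    rwa [Matrix.GeneralLinearGroup.val_det_apply] at this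
  let g : GL (Fin m) F := Matrix.GeneralLinearGroup.mkOfDetNeZero A (by rw [← hdetM]; exact hMne)
  have hg : (g : Matrix (Fin m) (Fin m) F) = A := rfl
  have hb := hv_mul_blk K m F M 1 ((g⁻¹ : GL (Fin m) F) : Matrix (Fin m) (Fin m) F)
    (fun a b => congrFun (congrFun hnc a) b)
  have hx : ((h * (hv_i K m F g)⁻¹ : GL (Fin (K + m)) F) : Matrix (Fin (K + m)) (Fin (K + m)) F) =
      hv_em K m F 1 * M * hv_em K m F ((g⁻¹ : GL (Fin m) F) : Matrix (Fin m) (Fin m) F) := by
    rw [map_one, one_mul, Matrix.GeneralLinearGroup.coe_mul, ← map_inv, hv_i_coe]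
  have hcc' : ∀ a b : Fin K, M (Fin.castAdd m a) (Fin.castAdd m b) = (1 : Matrix (Fin K) (Fin K) F) a b :=
    fun a b => congrFun (congrFun hcc a) b
  have hAg : A * ((g⁻¹ : GL (Fin m) F) : Matrix (Fin m) (Fin m) F) = 1 := by
    rw [← hg, ← Matrix.GeneralLinearGroup.coe_mul, mul_inv_cancel]
    rfl
  refine ⟨h * (hv_i K m F g)⁻¹, g, by rw [inv_mul_cancel_right], ?_, ?_, ?_⟩
  · apply Units.ext
    rw [Matrix.GeneralLinearGroup.val_det_apply, Matrix.GeneralLinearGroup.val_det_apply, hg]
    exact hdetM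
  · rw [hx, hv_US]
    refine ⟨fun a => ?_, fun a b hab => ?_, fun a b => hb.2.1 a b, fun a b => ?_⟩
    · rw [hb.1, hcc', Matrix.one_apply_eq]
    · rw [hb.1, hcc', Matrix.one_apply_ne (ne_of_gt hab)]
    · rw [hb.2.2, one_mul, hAg]
  · intro a b
    rw [hx, hb.1]
    exact hh _ _

/-- main lemma -/
theorem hv_main (K m : ℕ) (F : Type) [Field F] [Fintype F] [DecidableEq F] (ψ : AddChar F ℂ)
    (S : Finset ℕ) (hS : S ⊆ Finset.Ioo 0 K) (hBRG : S_BRG) (V : Type) [AddCommGroup V] [Module ℂ V]
    [FiniteDimensional ℂ V] (ρ : Representation ℂ (GL (Fin (K + m)) F) V)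
    (h1 : av ψ (fun i => min i K) S (xm ρ.character) = mS ψ S (xm ρ.character))
    (h2 : mS ψ S (xm ρ.character) ≠ 0) :
    ∃ l : Fˣ →* ℂˣ, mlt (HK (K + m) F K) (ld l) ρ.character ≠ 0 := by
  classical
  obtain ⟨H1, hH1, hLC1, hav1⟩ := hBRG (K + m) F ψ (fun i => min i K) S
    (fun a b hab => min_le_min_right K hab)
  obtain ⟨H0, hH0, hLC0, hav0⟩ := hBRG (K + m) F ψ (fun i => i) S (fun a b hab => hab)
  set θ : GL (Fin (K + m)) F → ℂ := fun g => ψ (sd S (g : Matrix (Fin (K + m)) (Fin (K + m)) F)) with hθ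
  have hle : H1 ≤ H0 := by
    intro g hg
    rw [hH0, hv_US0]
    rw [hH1, hv_US0] at hg
    refine ⟨hg.1, hg.2.1, fun i j hij hij' => ?_⟩
    exact absurd hij' (ne_of_lt (Fin.lt_def.1 hij))
  have hsub : hv_sp (V := V) ρ H0 θ ≤ hv_sp (V := V) ρ H1 θ := fun v hv g hg => hv g (hle hg)
  have hfin : Module.finrank ℂ (hv_sp (V := V) ρ H0 θ) = Module.finrank ℂ (hv_sp (V := V) ρ H1 θ) := by
    have e1 := hav1 ρ.character
    have e0 := hav0 ρ.character
    rw [hv_mlt ρ H1 θ hLC1] at e1
    rw [hv_mlt ρ H0 θ hLC0] at e0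
    have e2 : mS ψ S (xm ρ.character) = av ψ (fun i => i) S (xm ρ.character) := rfl
    rw [e1, e2, e0] at h1
    exact_mod_cast h1.symm
  have heq : hv_sp (V := V) ρ H0 θ = hv_sp (V := V) ρ H1 θ := Submodule.eq_of_le_of_finrank_eq hsub hfin
  have hne : hv_sp (V := V) ρ H1 θ ≠ ⊥ := by
    intro hbot
    have e1 := hav1 ρ.character
    rw [hv_mlt ρ H1 θ hLC1, h1, hbot, finrank_bot] at e1
    apply h2
    rw [e1]
    simp
  -- invariance
  have hconj : ∀ (g : GL (Fin m) F) (x : GL (Fin (K + m)) F), x ∈ H1 →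
      (hv_i K m F g)⁻¹ * x * hv_i K m F g ∈ H1 ∧ θ ((hv_i K m F g)⁻¹ * x * hv_i K m F g) = θ x := by
    intro g x hx
    rw [hH1, hv_US] at hx
    have hb := hv_mul_blk K m F (x : Matrix (Fin (K + m)) (Fin (K + m)) F)
      ((g⁻¹ : GL (Fin m) F) : Matrix (Fin m) (Fin m) F) (g : Matrix (Fin m) (Fin m) F) hx.2.2.1
    have hc : (((hv_i K m F g)⁻¹ * x * hv_i K m F g : GL (Fin (K + m)) F) :
        Matrix (Fin (K + m)) (Fin (K + m)) F) =
        hv_em K m F ((g⁻¹ : GL (Fin m) F) : Matrix (Fin m) (Fin m) F) *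
          (x : Matrix (Fin (K + m)) (Fin (K + m)) F) * hv_em K m F (g : Matrix (Fin m) (Fin m) F) := by
      rw [Matrix.GeneralLinearGroup.coe_mul, Matrix.GeneralLinearGroup.coe_mul, ← map_inv, hv_i_coe, hv_i_coe]
    have hone : (x : Matrix (Fin (K + m)) (Fin (K + m)) F).submatrix (Fin.natAdd K) (Fin.natAdd K) =
        (1 : Matrix (Fin m) (Fin m) F) := by
      ext a b
      exact hx.2.2.2 a b
    constructor
    · rw [hH1, hv_US, hc]
      refine ⟨fun a => ?_, fun a b hab => ?_, fun a b => hb.2.1 a b, fun a b => ?_⟩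
      · rw [hb.1]; exact hx.1 a
      · rw [hb.1]; exact hx.2.1 a b hab
      · rw [hb.2.2, hone, mul_one, ← Matrix.GeneralLinearGroup.coe_mul, inv_mul_cancel]
        rfl
    · change ψ (sd S _) = ψ (sd S _)
      rw [hc, hv_sd K m F S hS _ _ hb.1]
  have hinv : ∀ g : GL (Fin m) F, ∀ v ∈ hv_sp (V := V) ρ H1 θ, ρ (hv_i K m F g) v ∈ hv_sp (V := V) ρ H1 θ := by
    intro g v hv x hx
    obtain ⟨hc1, hc2⟩ := hconj g x hx
    have h3 := hv _ hc1
    rw [hc2] at h3
    rw [← map_smul, ← h3]
    change (ρ x * ρ (hv_i K m F g)) v = (ρ (hv_i K m F g) * ρ ((hv_i K m F g)⁻¹ * x * hv_i K m F g)) v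
    rw [← map_mul, ← map_mul]
    congr 2
    rw [mul_assoc, mul_inv_cancel_left]
  have hu : ∀ g : GL (Fin m) F, (∀ i, (g : Matrix (Fin m) (Fin m) F) i i = 1) →
      (∀ i j, j < i → (g : Matrix (Fin m) (Fin m) F) i j = 0) →
      ∀ v ∈ hv_sp (V := V) ρ H1 θ, ρ (hv_i K m F g) v = v := by
    intro g hg1 hg2 v hv
    rw [← heq] at hv
    have hmem : hv_i K m F g ∈ H0 := by
      rw [hH0, hv_US0, hv_i_coe]
      refine ⟨fun i => ?_, fun i j => ?_, fun i j hij hij' => ?_⟩
      · induction i using Fin.addCases with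
        | left a => rw [hv_em_cc, Matrix.one_apply_eq]
        | right a => rw [hv_em_nn, hg1]
      · induction i using Fin.addCases with
        | left a =>
          induction j using Fin.addCases with
          | left b =>
            intro hab
            rw [hv_em_cc, Matrix.one_apply_ne]
            intro h; subst h
            exact lt_irrefl _ hab
          | right b => intro _; rw [hv_em_cn]
        | right a =>
          induction j using Fin.addCases with
          | left b => intro _; rw [hv_em_nc]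
          | right b =>
            intro hab
            rw [hv_em_nn]
            apply hg2
            rw [Fin.lt_def] at hab ⊢
            simpa using hab
      · exact absurd hij' (ne_of_lt (Fin.lt_def.1 hij))
    have h3 := hv _ hmem
    have h4 : θ (hv_i K m F g) = 1 := by
      change ψ (sd S _) = 1
      rw [hv_i_coe, hv_sd K m F S hS _ 1, hv_sd_one, AddChar.map_zero_eq_one]
      intro a b
      rw [hv_em_cc, Matrix.one_apply, Matrix.one_apply]
      simp
    rw [h4, one_smul] at h3
    exact h3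
  obtain ⟨v, hv, hv0, l, hl⟩ := hv_abs m F V (MonoidHom.comp ρ (hv_i K m F)) (hv_sp (V := V) ρ H1 θ) hne
    hinv hu
  refine ⟨l, ?_⟩
  have hLC : LC (HK (K + m) F K) (ld l) := by
    constructor
    · change ((l (Matrix.GeneralLinearGroup.det (1 : GL (Fin (K + m)) F)) : ℂˣ) : ℂ) = 1
      rw [map_one, map_one]
      rfl
    · intro g _ h _
      change ((l (Matrix.GeneralLinearGroup.det (g * h)) : ℂˣ) : ℂ) =
        ((l (Matrix.GeneralLinearGroup.det g) : ℂˣ) : ℂ) * ((l (Matrix.GeneralLinearGroup.det h) : ℂˣ) : ℂ)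
      rw [map_mul, map_mul]
      rfl
  rw [hv_mlt ρ (HK (K + m) F K) (ld l) hLC]
  intro h0
  have h0' : Module.finrank ℂ (hv_sp (V := V) ρ (HK (K + m) F K) (ld l)) = 0 := by exact_mod_cast h0
  rw [Submodule.finrank_eq_zero] at h0'
  have hmem : v ∈ hv_sp (V := V) ρ (HK (K + m) F K) (ld l) := by
    intro h hh
    obtain ⟨x, g, hxg, hdet, hxU, hx1⟩ := hv_dec K m F h hh
    have e1 : ρ (hv_i K m F g) v = (l (Matrix.GeneralLinearGroup.det g) : ℂ) • v := hl g
    have e2 : ρ x v = v := by
      have e3 := hv x ((hH1 x).2 hxU)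
      have e4 : θ x = 1 := by
        change ψ (sd S _) = 1
        rw [hv_sd K m F S hS _ 1 hx1, hv_sd_one, AddChar.map_zero_eq_one]
      rw [e4, one_smul] at e3
      exact e3
    rw [hxg, map_mul]
    change ρ x (ρ (hv_i K m F g) v) = _
    rw [e1, map_smul, e2, ← hxg]
    change _ = ((l (Matrix.GeneralLinearGroup.det h) : ℂˣ) : ℂ) • v
    rw [hdet]
  rw [h0', Submodule.mem_bot] at hmem
  exact hv0 hmem

theorem t_HV : M_HV := by
  intro hDIM hSRT hBRG hXMC n F _ _ _ ψ hψ X hX S hS hne hmax
  classical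
  obtain ⟨-, K, S', hKn, hK2, hS', hcard, hmS⟩ := hSRT F ψ n S hS
  obtain ⟨m, rfl⟩ := Nat.exists_eq_add_of_le hKn
  obtain ⟨hcls, hpinv, -⟩ := hXMC (K + m) F X hX
  have hm : mS ψ S' (xm X) = mS ψ S (xm X) := hmS _ hcls
  have hav : av ψ (fun i => min i K) S' (xm X) = mS ψ S' (xm X) := by
    rw [hDIM F ψ hψ (fun i => min i K) (fun a b hab => min_le_min_right K hab) (K + m) S' ?_ (xm X) hpinv]
    · rw [Finset.sum_eq_single ∅]
      · simp
      · intro S1 hS1 hS1ne
        have hS1' : ∀ i ∈ S1, K < i ∧ i < K + m := by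
          intro i hi
          have h1 := Finset.mem_powerset.1 hS1 hi
          rw [Finset.mem_filter, Finset.mem_range] at h1
          refine ⟨?_, h1.1⟩
          have h2 := h1.2
          rw [w, Finset.card_pos] at h2
          obtain ⟨r, hr⟩ := h2
          rw [Finset.mem_filter, Finset.mem_range] at hr
          obtain ⟨hr1, hr2⟩ := hr
          by_contra hcon
          have : min i K = i := by omega
          rw [this] at hr2
          omega
        have hdisj : Disjoint S' S1 := by
          rw [Finset.disjoint_left]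
          intro i hi hi'
          have h1 := Finset.mem_Ioo.1 (hS' hi)
          have h2 := hS1' i hi'
          omega
        rw [hmax (S' ∪ S1), mul_zero]
        · intro i hi
          rw [Finset.mem_union] at hi
          rw [Finset.mem_Ioo]
          rcases hi with hi | hi
          · have h1 := Finset.mem_Ioo.1 (hS' hi)
            omega
          · have h2 := hS1' i hi
            omega
        · rw [Finset.card_union_of_disjoint hdisj, hcard]
          have := Finset.card_pos.2 (Finset.nonempty_iff_ne_empty.2 hS1ne)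
          omega
      · intro h
        exact absurd (Finset.empty_mem_powerset _) h
    · intro i hi j hij
      have h1 := Finset.mem_Ioo.1 (hS' hi)
      show min j K ≠ min i K
      omega
  refine ⟨K, hKn, hK2, ?_⟩
  obtain ⟨k, ρ, hρ⟩ := hX
  subst hρ
  exact hv_main K m F ψ S' hS' hBRG (Fin k → ℂ) ρ hav (by rw [hm]; exact hne)

end FLC
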