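import Pool.Agent.FLC.StA

/-!
# FLC, INJ: combinatorics of heights and blocks (helper62)
-/

namespace FLC

namespace INJ

open Finset

theorem ht_le (S : Finset ℕ) : ∀ i, ht S i ≤ i
  | 0 => le_rfl
  | i + 1 => by
    have h := ht_le S i
    rw [ht]
    split_ifs <;> omega

theorem ht_back (S : Finset ℕ) : ∀ i j, j ≤ ht S i → ht S (i - j) = ht S i - j
  | 0, j, h => by
    have h0 : ht S 0 = 0 := rfl
    rw [h0] at h ⊢
    obtain rfl : j = 0 := by omega
    rfl
  | i + 1, 0, _ => rfl
  | i + 1, j + 1, h => by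
    rw [ht] at h ⊢
    split_ifs at h ⊢ with hi
    · have h1 := ht_back S i j (by omega)
      rw [Nat.add_sub_add_right, h1]
      omega
    · omega

theorem mem_back (S : Finset ℕ) : ∀ i j, j < ht S i → i - j ∈ S
  | 0, j, h => by
    have h0 : ht S 0 = 0 := rfl
    omega
  | i + 1, j, h => by
    rw [ht] at h
    split_ifs at h with hi
    · rcases j with _ | j
      · exact hi
      · have h1 := mem_back S i j (by omega)
        rwa [Nat.add_sub_add_right]
    · omega

theorem ht_zero_not_mem (S : Finset ℕ) {i : ℕ} (hi : 0 < i) (h : ht S i = 0) : i ∉ S := by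
  intro hm
  obtain ⟨j, rfl⟩ : ∃ j, i = j + 1 := ⟨i - 1, by omega⟩
  rw [ht, if_pos hm] at h
  omega

theorem card_sym (n : ℕ) (R : ℕ → ℕ → Prop) [∀ a b, Decidable (R a b)] (hr : ∀ i, R i i)
    (hs : ∀ i j, R i j → R j i) :
    ((range n ×ˢ range n).filter fun p => R p.1 p.2).card =
      n + 2 * ((range n ×ˢ range n).filter fun p => p.1 < p.2 ∧ R p.1 p.2).card := by
  have h1 : ((range n ×ˢ range n).filter fun p => R p.1 p.2) =
      (range n).image (fun i => (i, i)) ∪
        (((range n ×ˢ range n).filter fun p => p.1 < p.2 ∧ R p.1 p.2) ∪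
        ((range n ×ˢ range n).filter fun p => p.2 < p.1 ∧ R p.1 p.2)) := by
    ext ⟨a, b⟩
    simp only [mem_filter, mem_product, mem_range, mem_union, mem_image, Prod.mk.injEq]
    constructor
    · rintro ⟨⟨ha, hb⟩, h⟩
      rcases lt_trichotomy a b with h1 | h1 | h1
      · exact Or.inr (Or.inl ⟨⟨ha, hb⟩, h1, h⟩)
      · exact Or.inl ⟨a, ha, rfl, h1⟩
      · exact Or.inr (Or.inr ⟨⟨ha, hb⟩, h1, h⟩)
    · rintro (⟨i, hi, rfl, rfl⟩ | ⟨h, -, h2⟩ | ⟨h, -, h2⟩)
      · exact ⟨⟨hi, hi⟩, hr i⟩
      · exact ⟨h, h2⟩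
      · exact ⟨h, h2⟩
  have h2 : ((range n ×ˢ range n).filter fun p => p.2 < p.1 ∧ R p.1 p.2).card =
      ((range n ×ˢ range n).filter fun p => p.1 < p.2 ∧ R p.1 p.2).card := by
    refine card_nbij' Prod.swap Prod.swap ?_ ?_ (fun p _ => Prod.swap_swap p)
      (fun p _ => Prod.swap_swap p)
    · rintro ⟨a, b⟩ h
      simp only [coe_filter, mem_product, mem_range, Set.mem_ofPred_eq, Prod.swap_prod_mk] at h ⊢
      exact ⟨⟨h.1.2, h.1.1⟩, h.2.1, hs _ _ h.2.2⟩
    · rintro ⟨a, b⟩ h
      simp only [coe_filter, mem_product, mem_range, Set.mem_ofPred_eq, Prod.swap_prod_mk] at h ⊢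
      exact ⟨⟨h.1.2, h.1.1⟩, h.2.1, hs _ _ h.2.2⟩
  rw [h1, card_union_of_disjoint, card_union_of_disjoint, h2, card_image_of_injective, card_range]
  · ring
  · intro i j h
    exact (Prod.mk.inj h).1
  · rw [disjoint_filter]
    rintro ⟨a, b⟩ - h h'
    have := h.1
    have := h'.1
    simp only at *
    omega
  · rw [disjoint_union_right]
    refine ⟨?_, ?_⟩
    · rw [disjoint_left]
      rintro ⟨a, b⟩ h h'
      simp only [mem_filter, mem_image, Prod.mk.injEq] at h h'
      obtain ⟨i, -, rfl, rfl⟩ := h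
      exact lt_irrefl _ h'.2.1
    · rw [disjoint_left]
      rintro ⟨a, b⟩ h h'
      simp only [mem_filter, mem_image, Prod.mk.injEq] at h h'
      obtain ⟨i, -, rfl, rfl⟩ := h
      exact lt_irrefl _ h'.2.1

variable {n m : ℕ} {d : ℕ → ℕ} {S : Finset ℕ}

/-- The height does not leave the block. -/
theorem d_back (hd : Monotone d) (hS : S ⊆ (range n).filter fun i => 0 < w d i) (i : ℕ) :
    ∀ j ≤ ht S i, d (i - j) = d i
  | 0, _ => rfl
  | j + 1, h => by
    have h1 := d_back hd hS i j (by omega)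
    have h2 := mem_back S i j (by omega)
    have h3 := (mem_filter.1 (hS h2)).2
    unfold w at h3
    obtain ⟨r, hr⟩ := card_pos.1 h3
    rw [mem_filter, mem_range] at hr
    have h4 : d r ≤ d (i - (j + 1)) := hd (by omega)
    have h5 : d (i - (j + 1)) ≤ d (i - j) := hd (by omega)
    omega

/-- The pairs of the same block. -/
def PP (n : ℕ) (d : ℕ → ℕ) : Finset (ℕ × ℕ) :=
  (range n ×ˢ range n).filter fun p => p.1 < p.2 ∧ d p.1 = d p.2

theorem card_PS (hS : S ⊆ (range n).filter fun i => 0 < w d i) :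
    ((PP n d).filter fun p => p.2 ∈ S).card = ∑ i ∈ S, w d i := by
  rw [card_eq_sum_card_fiberwise (s := (PP n d).filter fun p => p.2 ∈ S) (f := Prod.snd) (t := S)
    (fun p hp => (mem_filter.1 hp).2)]
  refine sum_congr rfl fun b hb => ?_
  unfold w
  refine (card_nbij' (fun r => (r, b)) Prod.fst ?_ ?_ (fun _ _ => rfl) ?_).symm
  · intro r hr
    have hb' := (mem_filter.1 (hS hb)).1
    simp only [PP, coe_filter, mem_filter, mem_product, mem_range, Set.mem_ofPred_eq] at hr hb' ⊢
    exact ⟨⟨⟨⟨by omega, hb'⟩, hr.1, hr.2⟩, hb⟩, trivial⟩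
  · rintro ⟨r, b'⟩ hr
    simp only [PP, coe_filter, mem_filter, mem_product, mem_range, Set.mem_ofPred_eq] at hr ⊢
    obtain ⟨⟨⟨-, h1, h2⟩, -⟩, rfl⟩ := hr
    exact ⟨h1, h2⟩
  · rintro ⟨r, b'⟩ hr
    simp only [PP, coe_filter, mem_filter, mem_product, mem_range, Set.mem_ofPred_eq] at hr ⊢
    rw [hr.2]

theorem card_Ph (hd : Monotone d) (hS : S ⊆ (range n).filter fun i => 0 < w d i) :
    ((PP n d).filter fun p => ht S p.1 = ht S p.2).card ≤
      ((PP n d).filter fun p => p.2 ∉ S).card := by
  refine card_le_card_of_injOn (fun p => (p.1, p.2 - ht S p.2)) ?_ ?_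
  · rintro ⟨a, b⟩ h
    simp only [PP, coe_filter, mem_filter, mem_product, mem_range, Set.mem_ofPred_eq] at h ⊢
    obtain ⟨⟨⟨ha, hb⟩, h1, h2⟩, h3⟩ := h
    have h4 := ht_le S b
    have h5 : a < b - ht S b := by
      by_contra h6
      push Not at h6
      have h7 := ht_back S b (b - a) (by omega)
      rw [show b - (b - a) = a by omega] at h7
      omega
    have h6 := ht_back S b (ht S b) le_rfl
    rw [Nat.sub_self] at h6
    exact ⟨⟨⟨ha, by omega⟩, h5, by rw [d_back hd hS b _ le_rfl, h2]⟩,
      ht_zero_not_mem S (by omega) h6⟩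
  · rintro ⟨a, b⟩ h ⟨a', b'⟩ h' e
    simp only [PP, coe_filter, mem_filter, mem_product, mem_range, Set.mem_ofPred_eq,
      Prod.mk.injEq] at h h' e ⊢
    obtain ⟨rfl, e2⟩ := e
    have h1 := ht_le S b
    have h2 := ht_le S b'
    exact ⟨rfl, by omega⟩

theorem cc_sq (hm : ((range n).image d).card ≤ m) (t : ℕ) :
    cc S n t ^ 2 ≤ m * ∑ s ∈ (range n).image d,
      ((range n).filter fun i => ht S i = t ∧ d i = s).card ^ 2 := by
  have h1 : cc S n t = ∑ s ∈ (range n).image d,
      ((range n).filter fun i => ht S i = t ∧ d i = s).card := by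
    unfold cc
    rw [card_eq_sum_card_fiberwise (f := d) (t := (range n).image d)
      (fun p hp => mem_image_of_mem _ (mem_filter.1 hp).1)]
    refine sum_congr rfl fun s _ => ?_
    rw [filter_filter]
  rw [h1]
  refine le_trans (sq_sum_le_card_mul_sum_sq) ?_
  exact Nat.mul_le_mul_right _ hm

theorem card_A :
    ((range n ×ˢ range n).filter fun p => d p.1 = d p.2 ∧ ht S p.1 = ht S p.2).card =
      ∑ t ∈ range n, ∑ s ∈ (range n).image d,
        ((range n).filter fun i => ht S i = t ∧ d i = s).card ^ 2 := by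
  rw [← sum_product', card_eq_sum_card_fiberwise (f := fun p => (ht S p.1, d p.1))
    (t := range n ×ˢ (range n).image d)]
  · refine sum_congr rfl fun x _ => ?_
    rw [pow_two, ← card_product]
    congr 1
    ext ⟨a, b⟩
    obtain ⟨t, s⟩ := x
    simp only [mem_filter, mem_product, mem_range, Prod.mk.injEq]
    constructor
    · rintro ⟨⟨⟨ha, hb⟩, h1, h2⟩, h3, h4⟩
      exact ⟨⟨ha, h3, h4⟩, hb, by omega, by omega⟩
    · rintro ⟨⟨ha, h3, h4⟩, hb, h5, h6⟩
      exact ⟨⟨⟨ha, hb⟩, by omega, by omega⟩, h3, h4⟩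
  · rintro ⟨a, b⟩ h
    simp only [coe_filter, mem_product, mem_range, Set.mem_ofPred_eq, coe_product, coe_range,
      Set.mem_prod, Set.mem_Iio, coe_image, Set.mem_image] at h ⊢
    have := ht_le S a
    exact ⟨by omega, a, h.1.1, rfl⟩

end INJ

open INJ Finset in
theorem t_INJ : S_INJ := by
  refine ⟨fun n m d S hd hm hS => ?_, fun n S hS => ?_⟩
  · have h1 : bb d n = n + 2 * (PP n d).card :=
      card_sym n (fun a b => d a = d b) (fun _ => rfl) fun _ _ h => h.symm
    have h2 : ((range n ×ˢ range n).filter fun p => d p.1 = d p.2 ∧ ht S p.1 = ht S p.2).card =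
        n + 2 * ((PP n d).filter fun p => ht S p.1 = ht S p.2).card := by
      rw [card_sym n (fun a b => d a = d b ∧ ht S a = ht S b) (fun _ => ⟨rfl, rfl⟩)
        fun _ _ h => ⟨h.1.symm, h.2.symm⟩]
      unfold PP
      rw [filter_filter]
      simp only [and_assoc]
    have h3 : Q S n ≤ m * ((range n ×ˢ range n).filter
        fun p => d p.1 = d p.2 ∧ ht S p.1 = ht S p.2).card := by
      rw [card_A, mul_sum]
      exact sum_le_sum fun t _ => cc_sq hm t
    have h4 := card_Ph hd hS
    have h5 := card_PS hS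
    have h6 : ((PP n d).filter fun p => p.2 ∈ S).card + ((PP n d).filter fun p => p.2 ∉ S).card =
        (PP n d).card := card_filter_add_card_filter_not _
    rw [h2] at h3
    rw [h1, ← h6, ← h5]
    calc m * (2 * ((PP n d).filter fun p => p.2 ∈ S).card) + Q S n
        ≤ m * (2 * ((PP n d).filter fun p => p.2 ∈ S).card) +
          m * (n + 2 * ((PP n d).filter fun p => ht S p.1 = ht S p.2).card) :=
        Nat.add_le_add_left h3 _
      _ ≤ m * (2 * ((PP n d).filter fun p => p.2 ∈ S).card) +
          m * (n + 2 * ((PP n d).filter fun p => p.2 ∉ S).card) := by gcongr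
      _ = _ := by ring
  · have h1 : ∀ t, cc S n t ≤ n - S.card := by
      intro t
      have h2 : cc S n t ≤ (range n \ S).card := by
        unfold cc
        refine card_le_card_of_injOn (fun i => i - t) ?_ ?_
        · intro i hi
          simp only [coe_filter, mem_range, Set.mem_ofPred_eq, coe_sdiff, coe_range, Set.mem_sdiff,
            Set.mem_Iio, mem_coe] at hi ⊢
          refine ⟨by omega, ?_⟩
          have h3 := ht_back S i t hi.2.ge
          rw [hi.2, Nat.sub_self] at h3
          rcases Nat.eq_zero_or_pos (i - t) with h4 | h4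
          · rw [h4]
            intro h5
            have := mem_Ioo.1 (hS h5)
            omega
          · exact ht_zero_not_mem S h4 h3
        · intro i hi j hj e
          simp only [coe_filter, mem_range, Set.mem_ofPred_eq] at hi hj e
          have := ht_le S i
          have := ht_le S j
          omega
      have h3 : S ⊆ range n := fun i hi => mem_range.2 (mem_Ioo.1 (hS hi)).2
      rwa [card_sdiff_of_subset h3, card_range] at h2
    have h2 : ∑ t ∈ range n, cc S n t = n := by
      conv_rhs => rw [← card_range n]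
      unfold cc
      exact (card_eq_sum_card_fiberwise fun i hi => by
        have := ht_le S i
        simp only [coe_range, Set.mem_Iio] at hi ⊢
        omega).symm
    have h3 : S.card ≤ n := by
      have h3 : S ⊆ range n := fun i hi => mem_range.2 (mem_Ioo.1 (hS hi)).2
      simpa using card_le_card h3
    have h4 : Q S n ≤ (n - S.card) * n := by
      conv_rhs => rw [← h2]
      unfold Q
      rw [mul_sum]
      refine sum_le_sum fun t _ => ?_
      rw [pow_two]
      rw [h2]
      exact Nat.mul_le_mul_right _ (h1 t)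
    calc Q S n + n * S.card ≤ (n - S.card) * n + n * S.card := Nat.add_le_add_right h4 _
      _ = n ^ 2 := by
        rw [mul_comm (n - S.card) n, ← mul_add, Nat.sub_add_cancel h3, pow_two]

end FLC
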