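import Mathlib
import Pool.Agent.FLC.StA

/-!
# IRC: at most as many irreducible characters as conjugacy classes
-/

set_option autoImplicit false

namespace FLC

open Pool.Agent.Lib_helper13

theorem irc_conj {G : Type} [Group G] [Fintype G] {χ : G → ℂ} (h : IsIrr χ) (a b : G)
    (hab : IsConj a b) : χ a = χ b := by
  obtain ⟨n, ρ, -, rfl⟩ := h
  obtain ⟨c, rfl⟩ := isConj_iff.1 hab
  exact (Representation.char_conj ρ a c).symm

theorem irc_zero {G : Type} [Group G] [Fintype G] (χ : G → ℂ) : ip (fun _ => 0) χ = 0 := by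
  simp [ip]

theorem t_IRC : S_IRC := by
  intro G _ _
  classical
  have : Fintype (ConjClasses G) := Fintype.ofFinite _
  rw [Nat.card_eq_fintype_card, ← Fintype.card_coe,
    ← Module.finrank_fintype_fun_eq_card ℂ (η := ConjClasses G)]
  let v : {χ // χ ∈ irrF G} → ConjClasses G → ℂ := fun χ =>
    Quotient.lift χ.1 fun a b hab => irc_conj (mem_irrF.1 χ.2) a b hab
  have hv : ∀ χ x, v χ (ConjClasses.mk x) = χ.1 x := fun χ x => rfl
  refine LinearIndependent.fintype_card_le_finrank (b := v) ?_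
  rw [Fintype.linearIndependent_iff]
  intro c hc χ
  have h1 : (fun x : G => ∑ ψ : {χ // χ ∈ irrF G}, c ψ * ψ.1 x) = fun _ => 0 := by
    funext x
    have h2 := congrFun hc (ConjClasses.mk x)
    rw [Finset.sum_apply] at h2
    simpa [hv] using h2
  have h3 : ip (fun x : G => ∑ ψ : {χ // χ ∈ irrF G}, c ψ * ψ.1 x) χ.1 = c χ := by
    rw [ip_sum, Finset.sum_eq_single χ]
    · rw [ip_self (mem_irrF.1 χ.2), mul_one]
    · intro ψ _ hψ
      rw [ip_ne (mem_irrF.1 ψ.2) (mem_irrF.1 χ.2) (fun h => hψ (Subtype.ext h)), mul_zero]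
    · intro h
      exact absurd (Finset.mem_univ χ) h
  rw [← h3, h1, irc_zero]

end FLC
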