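import Mathlib
import Pool.Agent.FLC.StA

/-!
# LOW: the lower bound of the degree
-/

set_option autoImplicit false

namespace FLC

open Pool.Agent.Lib_helper13 RSF

noncomputable section

theorem low_US (n : ℕ) (F : Type) [Field F] [Fintype F] : US n F (fun _ => 0) = {1} := by
  classical
  ext u
  unfold US
  rw [Finset.mem_filter, Finset.mem_singleton]
  constructor
  · rintro ⟨-, h1, h2, h3⟩
    ext i j
    rcases lt_trichotomy i j with h | h | h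
    · rw [h3 i j h rfl, Matrix.one_apply_ne h.ne]
    · subst h
      rw [h1, Matrix.one_apply_eq]
    · rw [h2 i j h, Matrix.one_apply_ne h.ne']
  · rintro rfl
    refine ⟨Finset.mem_univ _, fun i => Matrix.one_apply_eq i, fun i j h =>
      Matrix.one_apply_ne h.ne', fun i j h _ => Matrix.one_apply_ne h.ne⟩

theorem low_sd {n : ℕ} {F : Type} [Field F] (u : Matrix (Fin n) (Fin n) F) : sd ∅ u = 0 := by
  unfold sd
  refine Finset.sum_eq_zero fun i _ => Finset.sum_eq_zero fun j _ => ?_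
  rw [if_neg]
  rintro ⟨-, h⟩
  exact absurd h (Finset.notMem_empty _)

theorem low_av {n : ℕ} {F : Type} [Field F] [Fintype F] (ψ : AddChar F ℂ)
    (Y : Matrix (Fin n) (Fin n) F → ℂ) : av ψ (fun _ => 0) ∅ Y = Y 1 := by
  unfold av
  rw [low_US, Finset.sum_singleton, low_sd, neg_zero, AddChar.map_zero_eq_one, mul_one,
    Finset.card_singleton, Nat.cast_one, div_one]

theorem low_w (i : ℕ) : w (fun _ => 0) i = i := by
  unfold w
  rw [Finset.filter_true_of_mem (fun _ _ => rfl), Finset.card_range]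

theorem low_prod (hPI : RSF.S_PI) (q : ℕ) (hq : 2 ≤ q) (n : ℕ) (S : Finset ℕ)
    (hS : S ⊆ Finset.Ioo 0 n) :
    (q : ℝ) ^ (∑ i ∈ S, i) ≤ 4 * ∏ i ∈ S, ((q : ℝ) ^ i - 1) := by
  have hq' : (2 : ℝ) ≤ q := by exact_mod_cast hq
  have hq0 : (0 : ℝ) < q := by linarith
  have hinv0 : (0 : ℝ) < (q : ℝ)⁻¹ := inv_pos.2 hq0
  have hinv1 : (q : ℝ)⁻¹ ≤ 1 := inv_le_one_of_one_le₀ (by linarith)
  have h1 : ∏ i ∈ S, ((q : ℝ) ^ i - 1) =
      (q : ℝ) ^ (∑ i ∈ S, i) * ∏ i ∈ S, (1 - ((q : ℝ)⁻¹) ^ i) := by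
    rw [← Finset.prod_pow_eq_pow_sum, ← Finset.prod_mul_distrib]
    refine Finset.prod_congr rfl fun i _ => ?_
    rw [mul_sub, mul_one, ← mul_pow, mul_inv_cancel₀ hq0.ne', one_pow]
  have h2 : ∏ i ∈ Finset.range n, (1 - ((q : ℝ)⁻¹) ^ (i + 1)) =
      ∏ i ∈ Finset.Ioo 0 (n + 1), (1 - ((q : ℝ)⁻¹) ^ i) := by
    have h3 : Finset.Ioo 0 (n + 1) = (Finset.range n).image fun i => i + 1 := by
      ext i
      simp only [Finset.mem_Ioo, Finset.mem_image, Finset.mem_range]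
      constructor
      · intro h
        exact ⟨i - 1, by omega, by omega⟩
      · rintro ⟨j, h, rfl⟩
        omega
    rw [h3, Finset.prod_image (fun x _ y _ h => by
      have h5 : x + 1 = y + 1 := h
      omega)]
  have h4 : ∏ i ∈ Finset.Ioo 0 (n + 1), (1 - ((q : ℝ)⁻¹) ^ i) ≤ ∏ i ∈ S, (1 - ((q : ℝ)⁻¹) ^ i) := by
    have hsub : S ⊆ Finset.Ioo 0 (n + 1) := by
      intro i hi
      have h5 := Finset.mem_Ioo.1 (hS hi)
      rw [Finset.mem_Ioo]
      omega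
    rw [← Finset.prod_sdiff hsub]
    have h6 : ∀ i : ℕ, (0 : ℝ) ≤ 1 - ((q : ℝ)⁻¹) ^ i := fun i => by
      have h5 : ((q : ℝ)⁻¹) ^ i ≤ 1 := pow_le_one₀ hinv0.le hinv1
      linarith
    refine mul_le_of_le_one_left (Finset.prod_nonneg fun i _ => h6 i) ?_
    refine Finset.prod_le_one (fun i _ => h6 i) fun i _ => ?_
    have h5 : 0 ≤ ((q : ℝ)⁻¹) ^ i := pow_nonneg hinv0.le i
    linarith
  have h5 := hPI q hq' n
  have h6 : (0 : ℝ) ≤ (q : ℝ) ^ (∑ i ∈ S, i) := by positivity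
  rw [h1]
  rw [h2] at h5
  nlinarith [mul_le_mul_of_nonneg_left (h5.trans h4) h6]

theorem t_LOW : M_LOW := by
  intro hDIM hSRT hXMC hPI n F _ _ _ ψ hψ X hX S hS
  obtain ⟨⟨S', hS', hQ, hY⟩, -⟩ := hSRT F ψ n S hS
  obtain ⟨hC, hP, h1, -, hk⟩ := hXMC n F X hX
  have hq : 2 ≤ Nat.card F := Finite.one_lt_card (α := F)
  have hq' : (2 : ℝ) ≤ (Nat.card F : ℝ) := by exact_mod_cast hq
  have hq0 : (0 : ℝ) < (Nat.card F : ℝ) := by linarith
  have hD := hDIM F ψ hψ (fun _ => 0) (fun _ _ _ => le_refl 0) n ∅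
    (fun i hi => absurd hi (Finset.notMem_empty i)) (xm X) hP
  rw [low_av, h1] at hD
  have hk' : ∀ T : Finset ℕ, ∃ k : ℕ, mS ψ T (xm X) = k := fun T =>
    hk ψ (fun i => i) T (fun a b h => h)
  choose k hk' using hk'
  have hre : (X 1).re = ∑ T ∈ ((Finset.range n).filter fun i => 0 < w (fun _ => 0) i).powerset,
      (∏ i ∈ T, ((Nat.card F : ℝ) ^ i - 1)) * k T := by
    rw [hD, Complex.re_sum]
    refine Finset.sum_congr rfl fun T _ => ?_
    rw [Finset.empty_union, hk' T]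
    have h2 : ((∏ i ∈ T, ((Nat.card F : ℂ) ^ w (fun _ => 0) i - 1)) * (k T : ℂ)) =
        (((∏ i ∈ T, ((Nat.card F : ℝ) ^ i - 1)) * (k T : ℝ) : ℝ) : ℂ) := by
      push_cast
      congr 1
      refine Finset.prod_congr rfl fun i _ => ?_
      rw [low_w]
    rw [h2, Complex.ofReal_re]
  have hmem : S' ∈ ((Finset.range n).filter fun i => 0 < w (fun _ => 0) i).powerset := by
    rw [Finset.mem_powerset]
    intro i hi
    have h3 := Finset.mem_Ioo.1 (hS' hi)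
    rw [Finset.mem_filter, Finset.mem_range, low_w]
    exact ⟨h3.2, h3.1⟩
  have hfac : ∀ T : Finset ℕ, 0 ≤ ∏ i ∈ T, ((Nat.card F : ℝ) ^ i - 1) := fun T =>
    Finset.prod_nonneg fun i _ => by
      have h3 : (1 : ℝ) ≤ (Nat.card F : ℝ) ^ i := one_le_pow₀ (by linarith)
      linarith
  have hle : (∏ i ∈ S', ((Nat.card F : ℝ) ^ i - 1)) * k S' ≤ (X 1).re := by
    rw [hre]
    exact Finset.single_le_sum (f := fun T => (∏ i ∈ T, ((Nat.card F : ℝ) ^ i - 1)) * (k T : ℝ))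
      (fun T _ => mul_nonneg (hfac T) (Nat.cast_nonneg _)) hmem
  have hmS : (mS ψ S (xm X)).re = k S' := by
    rw [← hY (xm X) hC, hk' S', Complex.natCast_re]
  have hpow : (Nat.card F : ℝ) ^ (((n : ℝ) ^ 2 - Q S n) / 2) =
      (Nat.card F : ℝ) ^ (∑ i ∈ S', i) := by
    have h3 : 2 * ((∑ i ∈ S', i : ℕ) : ℝ) + (Q S n : ℝ) = (n : ℝ) ^ 2 := by exact_mod_cast hQ
    have h4 : ((n : ℝ) ^ 2 - Q S n) / 2 = ((∑ i ∈ S', i : ℕ) : ℝ) := by
      rw [← h3]
      ring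
    rw [h4, Real.rpow_natCast]
  rw [hmS, hpow]
  have h4 := low_prod hPI (Nat.card F) hq n S' hS'
  have h5 : (0 : ℝ) ≤ k S' := Nat.cast_nonneg _
  nlinarith [mul_le_mul_of_nonneg_left h4 h5]

end

end FLC
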