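import Mathlib
import Pool.Agent.FLC.StA

/-!
# LST: combinatorics of compositions
-/

set_option autoImplicit false

namespace FLC

theorem lst_zero (l : List ℕ) : 0 ∉ sS l := by
  induction l with
  | nil => simp [sS]
  | cons a l ih =>
    simp only [sS, Finset.mem_union, Finset.mem_Ioo, Finset.mem_image, not_or, not_exists,
      not_and]
    refine ⟨fun h => absurd h (lt_irrefl 0), fun x hx h => ?_⟩
    have h1 : x = 0 := by omega
    rw [h1] at hx
    exact ih hx

theorem lst_mem_add (a : ℕ) (l : List ℕ) (i : ℕ) : a + i ∈ sS (a :: l) ↔ i ∈ sS l := by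
  simp only [sS, Finset.mem_union, Finset.mem_Ioo, Finset.mem_image]
  constructor
  · rintro (h | ⟨x, hx, h⟩)
    · omega
    · have h1 : x = i := by omega
      rw [← h1]
      exact hx
  · intro h
    exact Or.inr ⟨i, h, rfl⟩

theorem lst_mem_lt (a : ℕ) (l : List ℕ) (i : ℕ) (h0 : 0 < i) (h : i < a) : i ∈ sS (a :: l) := by
  simp only [sS, Finset.mem_union, Finset.mem_Ioo]
  exact Or.inl ⟨h0, h⟩

theorem lst_ht_lt (a : ℕ) (l : List ℕ) (i : ℕ) (h : i < a) : ht (sS (a :: l)) i = i := by
  induction i with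
  | zero => rfl
  | succ i ih =>
    rw [ht, if_pos (lst_mem_lt a l (i + 1) (Nat.succ_pos i) h), ih (by omega)]

theorem lst_ht_add (a : ℕ) (l : List ℕ) (ha : 1 ≤ a) (i : ℕ) :
    ht (sS (a :: l)) (a + i) = ht (sS l) i := by
  induction i with
  | zero =>
    obtain ⟨b, rfl⟩ : ∃ b, a = b + 1 := ⟨a - 1, by omega⟩
    have h1 : b + 1 ∉ sS ((b + 1) :: l) := by
      intro h
      exact lst_zero l ((lst_mem_add (b + 1) l 0).1 h)
    change ht (sS ((b + 1) :: l)) (b + 1) = 0
    rw [ht, if_neg h1]
  | succ i ih =>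
    change ht (sS (a :: l)) ((a + i) + 1) = ht (sS l) (i + 1)
    rw [ht, ht, ih]
    have h1 : a + i + 1 ∈ sS (a :: l) ↔ i + 1 ∈ sS l := lst_mem_add a l (i + 1)
    by_cases h : i + 1 ∈ sS l
    · rw [if_pos (h1.2 h), if_pos h]
    · rw [if_neg (fun h2 => h (h1.1 h2)), if_neg h]

theorem lst_cc_cons (a : ℕ) (l : List ℕ) (ha : 1 ≤ a) (n t : ℕ) :
    cc (sS (a :: l)) (a + n) t = (if t < a then 1 else 0) + cc (sS l) n t := by
  have h1 : ((Finset.range (a + n)).filter fun i => ht (sS (a :: l)) i = t) =
      ((Finset.range a).filter fun i => i = t) ∪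
        (((Finset.range n).filter fun i => ht (sS l) i = t).image fun i => a + i) := by
    ext i
    simp only [Finset.mem_filter, Finset.mem_range, Finset.mem_union, Finset.mem_image]
    constructor
    · rintro ⟨h2, h3⟩
      by_cases h : i < a
      · rw [lst_ht_lt a l i h] at h3
        exact Or.inl ⟨h, h3⟩
      · have h4 : i = a + (i - a) := by omega
        rw [h4, lst_ht_add a l ha] at h3
        exact Or.inr ⟨i - a, ⟨by omega, h3⟩, h4.symm⟩
    · rintro (⟨h2, h3⟩ | ⟨j, ⟨h2, h3⟩, rfl⟩)
      · exact ⟨by omega, by rw [lst_ht_lt a l i h2]; exact h3⟩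
      · exact ⟨by omega, by rw [lst_ht_add a l ha]; exact h3⟩
  have h2 : Disjoint ((Finset.range a).filter fun i => i = t)
      (((Finset.range n).filter fun i => ht (sS l) i = t).image fun i => a + i) := by
    rw [Finset.disjoint_left]
    intro i h3 h4
    simp only [Finset.mem_filter, Finset.mem_range, Finset.mem_image] at h3 h4
    obtain ⟨j, -, h5⟩ := h4
    omega
  have h3 : ((Finset.range a).filter fun i => i = t).card = if t < a then 1 else 0 := by
    rw [Finset.filter_eq']
    by_cases h : t < a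
    · rw [if_pos (Finset.mem_range.2 h), if_pos h, Finset.card_singleton]
    · rw [if_neg (fun h4 => h (Finset.mem_range.1 h4)), if_neg h, Finset.card_empty]
  unfold cc
  rw [h1, Finset.card_union_of_disjoint h2, h3,
    Finset.card_image_of_injective _ (fun x y h => by
      have h5 : a + x = a + y := h
      omega)]

theorem lst_cc (l : List ℕ) (hl : ∀ a ∈ l, 1 ≤ a) (t : ℕ) :
    cc (sS l) l.sum t = (l.filter (fun a => t < a)).length := by
  induction l with
  | nil => rfl
  | cons a l ih =>
    rw [List.sum_cons, lst_cc_cons a l (hl a List.mem_cons_self),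
      ih (fun b hb => hl b (List.mem_cons_of_mem _ hb)), List.filter_cons]
    by_cases h : t < a
    · rw [if_pos h, if_pos (decide_eq_true h), List.length_cons]
      omega
    · rw [if_neg h, if_neg (by simpa using h)]
      omega

theorem lst_disj (a : ℕ) (l : List ℕ) :
    Disjoint (Finset.Ioo 0 a) ((sS l).image fun i => a + i) := by
  rw [Finset.disjoint_left]
  intro i h3 h4
  simp only [Finset.mem_Ioo, Finset.mem_image] at h3 h4
  obtain ⟨j, -, h5⟩ := h4
  omega

theorem lst_inj (a : ℕ) : Function.Injective fun i : ℕ => a + i := fun x y h => by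
  have h5 : a + x = a + y := h
  omega

theorem lst_card (l : List ℕ) (hl : ∀ a ∈ l, 1 ≤ a) : (sS l).card + l.length = l.sum := by
  induction l with
  | nil => simp [sS]
  | cons a l ih =>
    have h1 := ih (fun b hb => hl b (List.mem_cons_of_mem _ hb))
    have h2 : 1 ≤ a := hl a List.mem_cons_self
    rw [sS, Finset.card_union_of_disjoint (lst_disj a l),
      Finset.card_image_of_injective _ (lst_inj a), Nat.card_Ioo, List.length_cons, List.sum_cons]
    omega

theorem lst_sub (l : List ℕ) : sS l ⊆ Finset.Ioo 0 l.sum := by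
  induction l with
  | nil => simp [sS]
  | cons a l ih =>
    intro i hi
    rw [sS, Finset.mem_union, Finset.mem_image, Finset.mem_Ioo] at hi
    rw [Finset.mem_Ioo, List.sum_cons]
    rcases hi with h | ⟨j, hj, rfl⟩
    · omega
    · have h1 := Finset.mem_Ioo.1 (ih hj)
      omega

theorem lst_le_sum (l : List ℕ) (b : ℕ) (hb : b ∈ l) : b ≤ l.sum :=
  List.single_le_sum (fun x _ => Nat.zero_le x) b hb

theorem lst_Q (l : List ℕ) (hl : ∀ a ∈ l, 1 ≤ a) (N : ℕ) (hN : l.sum ≤ N) :
    Q (sS l) l.sum = ∑ t ∈ Finset.range N, cc (sS l) l.sum t ^ 2 := by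
  unfold Q
  refine Finset.sum_subset (fun x hx => Finset.mem_range.2
    (lt_of_lt_of_le (Finset.mem_range.1 hx) hN)) fun t _ h2 => ?_
  rw [Finset.mem_range, not_lt] at h2
  rw [lst_cc l hl t]
  have h3 : l.filter (fun a => t < a) = [] := by
    rw [List.filter_eq_nil_iff]
    intro b hb
    have h4 := lst_le_sum l b hb
    simp only [decide_eq_true_eq, not_lt]
    omega
  rw [h3]
  rfl

theorem lst_Q_cons (a : ℕ) (l : List ℕ) (hl : ∀ b ∈ a :: l, 1 ≤ b) (h : ∀ b ∈ l, a ≤ b) :
    Q (sS (a :: l)) (a + l.sum) = Q (sS l) l.sum + a * (2 * l.length + 1) := by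
  have ha : 1 ≤ a := hl a List.mem_cons_self
  have hl' : ∀ b ∈ l, 1 ≤ b := fun b hb => hl b (List.mem_cons_of_mem _ hb)
  rw [lst_Q l hl' (a + l.sum) (by omega)]
  unfold Q
  have h1 : ∀ t ∈ Finset.range (a + l.sum), cc (sS (a :: l)) (a + l.sum) t ^ 2 =
      cc (sS l) l.sum t ^ 2 + if t < a then (2 * l.length + 1) else 0 := by
    intro t _
    rw [lst_cc_cons a l ha]
    by_cases h2 : t < a
    · rw [if_pos h2, if_pos h2]
      have h3 : cc (sS l) l.sum t = l.length := by
        rw [lst_cc l hl' t]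
        rw [List.filter_eq_self.2]
        intro b hb
        have h4 := h b hb
        simp only [decide_eq_true_eq]
        omega
      rw [h3]
      ring
    · rw [if_neg h2, if_neg h2, zero_add, add_zero]
  rw [Finset.sum_congr rfl h1, Finset.sum_add_distrib]
  congr 1
  rw [← Finset.sum_filter]
  have h2 : (Finset.range (a + l.sum)).filter (fun t => t < a) = Finset.range a := by
    ext t
    simp only [Finset.mem_filter, Finset.mem_range]
    omega
  rw [h2, Finset.sum_const, Finset.card_range, smul_eq_mul]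

theorem lst_sum_Ioo (a : ℕ) : 2 * ∑ i ∈ Finset.Ioo 0 a, i + a = a ^ 2 := by
  induction a with
  | zero => simp
  | succ a ih =>
    rcases Nat.eq_zero_or_pos a with h | h
    · subst h
      simp
    · have h1 : Finset.Ioo 0 (a + 1) = insert a (Finset.Ioo 0 a) := by
        ext i
        simp only [Finset.mem_insert, Finset.mem_Ioo]
        omega
      rw [h1, Finset.sum_insert (by simp)]
      have h2 : (a + 1) ^ 2 = a ^ 2 + 2 * a + 1 := by ring
      rw [h2, ← ih]
      ring

theorem lst_sort (l : List ℕ) (hl : ∀ a ∈ l, 1 ≤ a) (hp : l.Pairwise (· ≤ ·)) :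
    2 * ∑ i ∈ sS l, i + Q (sS l) l.sum = l.sum ^ 2 := by
  induction l with
  | nil => simp [sS, Q]
  | cons a l ih =>
    rw [List.pairwise_cons] at hp
    have hl' : ∀ b ∈ l, 1 ≤ b := fun b hb => hl b (List.mem_cons_of_mem _ hb)
    have h1 := ih hl' hp.2
    have h2 := lst_card l hl'
    have h3 := lst_sum_Ioo a
    have h4 : ∑ i ∈ sS (a :: l), i = ∑ i ∈ Finset.Ioo 0 a, i + ((sS l).card * a + ∑ i ∈ sS l, i) := by
      rw [sS, Finset.sum_union (lst_disj a l),
        Finset.sum_image (fun x _ y _ h => lst_inj a h), Finset.sum_add_distrib, Finset.sum_const,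
        smul_eq_mul]
    rw [List.sum_cons, lst_Q_cons a l hl hp.1, h4]
    have h5 : (a + l.sum) ^ 2 = a ^ 2 + 2 * a * l.sum + l.sum ^ 2 := by ring
    rw [h5, ← h1, ← h3, ← h2]
    ring

theorem lst_exists (n : ℕ) (S : Finset ℕ) (hS : S ⊆ Finset.Ioo 0 n) :
    ∃ μ : List ℕ, (∀ a ∈ μ, 1 ≤ a) ∧ μ.sum = n ∧ sS μ = S := by
  induction n using Nat.strong_induction_on generalizing S with
  | _ n ih =>
    rcases Nat.eq_zero_or_pos n with h0 | h0
    · subst h0
      refine ⟨[], by simp, rfl, ?_⟩
      have h1 : S = ∅ := by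
        rw [← Finset.subset_empty]
        exact hS
      rw [h1]
      rfl
    · classical
      have hex : ∃ a, 1 ≤ a ∧ a ∉ S := ⟨n, h0, fun h => by
        have := Finset.mem_Ioo.1 (hS h)
        omega⟩
      obtain ⟨h1, h2⟩ := Nat.find_spec hex
      have hmin : ∀ i, 1 ≤ i → i < Nat.find hex → i ∈ S := by
        intro i hi hlt
        by_contra hc
        exact Nat.find_min hex hlt ⟨hi, hc⟩
      have hle : Nat.find hex ≤ n := Nat.find_min' hex ⟨h0, fun h => by
        have := Finset.mem_Ioo.1 (hS h)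
        omega⟩
      generalize Nat.find hex = a at h1 h2 hmin hle
      obtain ⟨μ, h3, h4, h5⟩ := ih (n - a) (by omega)
        ((Finset.Ioo 0 (n - a)).filter fun i => a + i ∈ S) (Finset.filter_subset _ _)
      refine ⟨a :: μ, ?_, ?_, ?_⟩
      · intro b hb
        rcases List.mem_cons.1 hb with rfl | hb
        · exact h1
        · exact h3 b hb
      · rw [List.sum_cons, h4]
        omega
      · rw [sS, h5]
        ext i
        simp only [Finset.mem_union, Finset.mem_Ioo, Finset.mem_image, Finset.mem_filter]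
        constructor
        · rintro (h | ⟨j, ⟨-, h⟩, rfl⟩)
          · exact hmin i (by omega) h.2
          · exact h
        · intro h
          have h6 := Finset.mem_Ioo.1 (hS h)
          by_cases h7 : i < a
          · exact Or.inl ⟨h6.1, h7⟩
          · have h8 : i ≠ a := fun h9 => h2 (h9 ▸ h)
            refine Or.inr ⟨i - a, ⟨by omega, ?_⟩, by omega⟩
            have h9 : a + (i - a) = i := by omega
            rw [h9]
            exact h

theorem t_LST : S_LST :=
  ⟨lst_exists, lst_cc, lst_sort, fun μ h => ⟨lst_card μ h, lst_sub μ⟩⟩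

end FLC
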