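import Mathlib
import Pool.Agent.FLC.StA

/-!
# MB: bounds for multiplicities and for the number of characters
-/

set_option autoImplicit false

namespace FLC

open Pool.Agent.Lib_helper13

/-- the real part of a multiplicity of an irreducible character is nonnegative -/
theorem mb_nonneg (hMN : S_MN) {G : Type} [Group G] [Fintype G] (H : Subgroup G) (θ X : G → ℂ)
    (hθ : LC H θ) (hX : IsIrr X) : 0 ≤ (mlt H θ X).re := by
  obtain ⟨k, hk⟩ := (hMN G X hX.isChr).1 H θ hθ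
  rw [hk, Complex.natCast_re]
  exact Nat.cast_nonneg k

/-- a nonzero multiplicity is at least one -/
theorem mb_one_le (hMN : S_MN) {G : Type} [Group G] [Fintype G] (H : Subgroup G) (θ X : G → ℂ)
    (hθ : LC H θ) (hX : IsIrr X) (h0 : mlt H θ X ≠ 0) : 1 ≤ (mlt H θ X).re := by
  obtain ⟨k, hk⟩ := (hMN G X hX.isChr).1 H θ hθ
  rw [hk] at h0 ⊢
  rw [Complex.natCast_re]
  have h1 : k ≠ 0 := by
    rintro rfl
    exact h0 (by simp)
  exact_mod_cast Nat.one_le_iff_ne_zero.2 h1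

/-- one term of the double coset bound -/
theorem mb_term (hMN : S_MN) (hDC : S_DC) {G : Type} [Group G] [Fintype G] (H K : Subgroup G)
    (θ ψ : G → ℂ) (R : Finset G) (hθ : LC H θ) (hψ : LC K ψ)
    (hR : ∀ g : G, ∃ h ∈ H, ∃ k ∈ K, h * g * k ∈ R) (X : G → ℂ) (hX : IsIrr X) :
    (mlt H θ X).re * (mlt K ψ X).re ≤ R.card := by
  refine le_trans ?_ (hDC G H K θ ψ R hθ hψ hR)
  exact Finset.single_le_sum (f := fun X => (mlt H θ X).re * (mlt K ψ X).re)
    (fun Y hY => mul_nonneg (mb_nonneg hMN H θ Y hθ (mem_irrF.1 hY))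
      (mb_nonneg hMN K ψ Y hψ (mem_irrF.1 hY))) (mem_irrF.2 hX)

/-- `ld l` is a linear character -/
theorem mb_ld {n : ℕ} {F : Type} [Field F] (H : Subgroup (GL (Fin n) F)) (l : Fˣ →* ℂˣ) :
    LC H (ld l) := by
  refine ⟨?_, ?_⟩
  · simp [ld]
  · intro g _ h _
    simp [ld]

theorem t_MB : M_MB := by
  intro hMN hDC hBRG _ hBR1 hBR2 hBR3 n F _ _ _ ψ
  refine ⟨?_, ?_⟩
  · intro X hX S
    obtain ⟨H, hH, hLC, hav⟩ := hBRG n F ψ (fun i => i) S monotone_id
    have h1 : mS ψ S (xm X) =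
        mlt H (fun g => ψ (sd S (g : Matrix (Fin n) (Fin n) F))) X := hav X
    rw [h1]
    refine ⟨?_, ?_⟩
    · obtain ⟨R, hRc, hR⟩ := hBR1 n F
      have h2 := mb_term hMN hDC H H _ _ R hLC hLC (fun g => by
        obtain ⟨h, k, hh, hk, hhk⟩ := hR g
        exact ⟨h, (hH h).2 hh, k, (hH k).2 hk, hhk⟩) X hX
      rw [pow_two]
      refine h2.trans ?_
      have h3 : (R.card : ℝ) ≤ ((n.factorial * (Nat.card F) ^ n : ℕ) : ℝ) := by
        refine Nat.cast_le.2 (hRc.trans ?_)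
        exact Nat.mul_le_mul le_rfl (Nat.pow_le_pow_left (Nat.sub_le _ _) _)
      refine h3.trans (le_of_eq ?_)
      push_cast
      rfl
    · intro K l hK h0
      obtain ⟨R, hRc, hR⟩ := hBR2 n K F hK
      have h2 := mb_term hMN hDC H (HK n F K) _ (ld l) R hLC (mb_ld _ l) (fun g => by
        obtain ⟨h, k, hh, hk, hhk⟩ := hR g
        exact ⟨h, (hH h).2 hh, k, hk, hhk⟩) X hX
      have h3 := mb_one_le hMN (HK n F K) (ld l) X (mb_ld _ l) hX h0
      have h4 := mb_nonneg hMN H _ X hLC hX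
      have h5 : (R.card : ℝ) ≤ ((n ^ K * Nat.card F ^ (K ^ 2) : ℕ) : ℝ) := Nat.cast_le.2 hRc
      calc _ ≤ _ := le_mul_of_one_le_right h4 h3
        _ ≤ _ := h2
        _ ≤ _ := h5
        _ = _ := by push_cast; rfl
  · intro K l hK A hA
    obtain ⟨R, hRc, hR⟩ := hBR3 n K F hK
    have h1 := hDC (GL (Fin n) F) (HK n F K) (HK n F K) (ld l) (ld l) R (mb_ld _ l) (mb_ld _ l) hR
    have h2 : (A.card : ℝ) ≤ ∑ X ∈ irrF (GL (Fin n) F),
        (mlt (HK n F K) (ld l) X).re * (mlt (HK n F K) (ld l) X).re := by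
      have h3 : ∑ X ∈ A, (mlt (HK n F K) (ld l) X).re * (mlt (HK n F K) (ld l) X).re ≤
          ∑ X ∈ irrF (GL (Fin n) F),
            (mlt (HK n F K) (ld l) X).re * (mlt (HK n F K) (ld l) X).re := by
        refine Finset.sum_le_sum_of_subset_of_nonneg (fun X hX => mem_irrF.2 (hA X hX).1) ?_
        intro X _ _
        exact mul_self_nonneg _
      refine le_trans ?_ h3
      have h4 : (A.card : ℝ) = ∑ X ∈ A, (1 : ℝ) := by simp
      rw [h4]
      refine Finset.sum_le_sum fun X hX => ?_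
      have h5 := mb_one_le hMN (HK n F K) (ld l) X (mb_ld _ l) (hA X hX).1 (hA X hX).2
      nlinarith
    have h6 : (A.card : ℝ) ≤ R.card := h2.trans h1
    exact (Nat.cast_le.1 h6).trans hRc

end FLC
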