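import Mathlib
import Pool.Agent.FLC.StA

/-!
# Module NRU: a character value at an element of the normalizer
-/

set_option autoImplicit false

namespace FLC

open Pool.Agent.Lib_helper13 RSF Representation

/-- the average over a subgroup -/
noncomputable def nru_e {G : Type} [Group G] [Fintype G] {n : ℕ}
    (ρ : Representation ℂ G (Fin n → ℂ)) (U : Subgroup G) [Fintype U] :
    (Fin n → ℂ) →ₗ[ℂ] (Fin n → ℂ) :=
  (Nat.card U : ℂ)⁻¹ • ∑ u : U, ρ (u : G)

section

variable {G : Type} [Group G] [Fintype G] {n : ℕ} (ρ : Representation ℂ G (Fin n → ℂ))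
  (U : Subgroup G) [Fintype U]

theorem nru_apply (v : Fin n → ℂ) :
    nru_e ρ U v = (Nat.card U : ℂ)⁻¹ • ∑ u : U, ρ (u : G) v := by
  rw [nru_e, LinearMap.smul_apply, LinearMap.sum_apply]

omit [Fintype U] in
theorem nru_card : (Nat.card U : ℂ) ≠ 0 := by
  have : Nat.card U ≠ 0 := Nat.card_pos.ne'
  exact_mod_cast this

theorem nru_inv (u : U) (v : Fin n → ℂ) : ρ (u : G) (nru_e ρ U v) = nru_e ρ U v := by
  rw [nru_apply, map_smul, map_sum]
  congr 1
  refine Fintype.sum_equiv (Equiv.mulLeft u) _ _ fun w => ?_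
  rw [Equiv.coe_mulLeft, Subgroup.coe_mul, map_mul]
  rfl

theorem nru_id (v : Fin n → ℂ) (hv : ∀ u : U, ρ (u : G) v = v) : nru_e ρ U v = v := by
  rw [nru_apply, Finset.sum_congr rfl fun u _ => hv u, Finset.sum_const, Finset.card_univ,
    ← Nat.card_eq_fintype_card, ← Nat.cast_smul_eq_nsmul ℂ, smul_smul, inv_mul_cancel₀ (nru_card U),
    one_smul]

theorem nru_comm (g : G) (hg : ∀ u, u ∈ U ↔ g * u * g⁻¹ ∈ U) (v : Fin n → ℂ) :
    ρ g (nru_e ρ U v) = nru_e ρ U (ρ g v) := by
  rw [nru_apply, nru_apply, map_smul, map_sum]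
  congr 1
  let c : U ≃ U :=
    { toFun := fun u => ⟨g * u * g⁻¹, (hg _).mp u.2⟩
      invFun := fun u => ⟨g⁻¹ * u * g, (hg _).mpr (by
        have : g * (g⁻¹ * (u : G) * g) * g⁻¹ = u := by group
        rw [this]
        exact u.2)⟩
      left_inv := fun u => Subtype.ext (by
        show g⁻¹ * (g * (u : G) * g⁻¹) * g = u
        group)
      right_inv := fun u => Subtype.ext (by
        show g * (g⁻¹ * (u : G) * g) * g⁻¹ = u
        group) }
  refine Fintype.sum_equiv c _ _ fun u => ?_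
  have h1 : g * (u : G) = (c u : G) * g := by
    show g * (u : G) = g * u * g⁻¹ * g
    group
  have h2 := congrArg (fun a => ρ a v) h1
  simp only [map_mul] at h2
  exact h2

theorem nru_trace (g : G) : LinearMap.trace ℂ (Fin n → ℂ) (ρ g ∘ₗ nru_e ρ U) =
    (Nat.card U : ℂ)⁻¹ * ∑ u : U, ρ.character (g * u) := by
  have h1 : ρ g ∘ₗ nru_e ρ U = (Nat.card U : ℂ)⁻¹ • ∑ u : U, ρ (g * (u : G)) := by
    refine LinearMap.ext fun v => ?_
    simp only [LinearMap.comp_apply, nru_apply, map_smul, map_sum, LinearMap.smul_apply,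
      LinearMap.sum_apply, map_mul]
    rfl
  rw [h1, map_smul, map_sum, smul_eq_mul]
  rfl

end

theorem t_NRU : M_NRU := by
  classical
  intro hMN G _ _ X U x hX hU hXU
  obtain ⟨n, ρ, rfl⟩ := hX
  let N : Subgroup G := Subgroup.normalizer (U : Set G)
  have hN : ∀ g : N, ∀ u, u ∈ U ↔ (g : G) * u * (g : G)⁻¹ ∈ U := fun g =>
    Subgroup.mem_normalizer_iff.mp g.2
  have hxN : x ∈ N := Subgroup.mem_normalizer_fintype fun u hu => hU u hu
  let σ : Representation ℂ N (Fin n → ℂ) := ρ.comp N.subtype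
  have hW : ∀ v : Fin n → ℂ, v ∈ LinearMap.range (nru_e ρ U) ↔ nru_e ρ U v = v := fun v => by
    constructor
    · rintro ⟨w, rfl⟩
      exact nru_id ρ U _ fun u => nru_inv ρ U u w
    · intro h
      exact ⟨v, h⟩
  let S : Subrepresentation σ :=
    { toSubmodule := LinearMap.range (nru_e ρ U)
      apply_mem_toSubmodule := fun g v hv => by
        rw [hW] at hv ⊢
        have h1 := nru_comm ρ U (g : G) (hN g) v
        rw [hv] at h1
        exact h1.symm }
  have hchar : ∀ g : N, S.toRepresentation.character g =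
      (Nat.card U : ℂ)⁻¹ * ∑ u : U, ρ.character ((g : G) * u) := by
    intro g
    rw [← nru_trace]
    have h1 : ∀ v, (ρ (g : G) ∘ₗ nru_e ρ U) v ∈ S.toSubmodule := fun v =>
      S.apply_mem_toSubmodule g (v := nru_e ρ U v) ⟨v, rfl⟩
    have h2 := LinearMap.trace_restrict_eq_of_forall_mem S.toSubmodule (ρ (g : G) ∘ₗ nru_e ρ U) h1
    rw [← h2]
    show LinearMap.trace ℂ _ (S.toRepresentation g) = _
    congr 1
    ext1 v
    apply Subtype.ext
    show ρ (g : G) (v : Fin n → ℂ) = ρ (g : G) (nru_e ρ U v)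
    rw [(hW _).mp v.2]
  have hm : mlt U (fun _ => 1) ρ.character = S.toRepresentation.character 1 := by
    rw [hchar, mlt, div_eq_inv_mul]
    congr 1
    rw [← Finset.sum_filter, Finset.sum_subtype (Finset.univ.filter (· ∈ U)) (p := (· ∈ U))
      (by simp)]
    refine Finset.sum_congr rfl fun u _ => ?_
    simp
  have : Fintype N := Fintype.ofFinite N
  obtain ⟨-, ⟨k, hk⟩, hnorm, -⟩ := hMN N S.toRepresentation.character (isChr_of_rep _)
  have hx := hnorm ⟨x, hxN⟩
  have hx' : S.toRepresentation.character ⟨x, hxN⟩ = ρ.character x := by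
    rw [hchar]
    have : ∀ u : U, ρ.character (x * (u : G)) = ρ.character x := fun u => hXU u u.2
    rw [Finset.sum_congr rfl fun u _ => this u, Finset.sum_const, Finset.card_univ,
      ← Nat.card_eq_fintype_card, nsmul_eq_mul, ← mul_assoc, inv_mul_cancel₀ (nru_card U), one_mul]
  rw [hx'] at hx
  rw [hm, hk] at *
  rw [Complex.norm_natCast] at hx
  rw [Complex.natCast_re]
  exact hx

end FLC
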