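import Mathlib
import Pool.Agent.FLC.StA

/-!
# FLC, module PER: the order of the parts of a composition does not matter
-/

set_option autoImplicit false

namespace FLC

theorem per_append (l r : List ℕ) :
    sS (l ++ r) = sS l ∪ (sS r).image fun i => l.sum + i := by
  induction l with
  | nil =>
    simp [sS]
  | cons a l ih =>
    rw [List.cons_append]
    simp only [sS]
    rw [ih, Finset.image_union, Finset.image_image, Finset.union_assoc]
    congr 2
    refine Finset.image_congr fun i _ => ?_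
    simp only [Function.comp, List.sum_cons]
    omega

theorem per_lt (l : List ℕ) : ∀ i ∈ sS l, 0 < i ∧ i < l.sum := by
  induction l with
  | nil =>
    intro i hi
    simp [sS] at hi
  | cons a l ih =>
    intro i hi
    simp only [sS, Finset.mem_union, Finset.mem_Ioo, Finset.mem_image] at hi
    rw [List.sum_cons]
    rcases hi with hi | ⟨j, hj, rfl⟩
    · omega
    · have := ih j hj
      omega

theorem per_mem (l r : List ℕ) (a b i : ℕ) : i ∈ sS (l ++ a :: b :: r) ↔
    (i ∈ sS l ∨ (l.sum < i ∧ i < l.sum + a) ∨ (l.sum + a < i ∧ i < l.sum + a + b)) ∨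
      ∃ j ∈ sS r, l.sum + a + b + j = i := by
  rw [per_append]
  simp only [sS, Finset.mem_union, Finset.mem_Ioo, Finset.mem_image]
  constructor
  · rintro (h | ⟨k, hk | ⟨k', hk' | ⟨k'', hk'', rfl⟩, rfl⟩, rfl⟩)
    · exact Or.inl (Or.inl h)
    · exact Or.inl (Or.inr (Or.inl (by omega)))
    · exact Or.inl (Or.inr (Or.inr (by omega)))
    · exact Or.inr ⟨k'', hk'', by omega⟩
  · rintro ((h | h | h) | ⟨j, hj, rfl⟩)
    · exact Or.inl h
    · exact Or.inr ⟨i - l.sum, Or.inl (by omega), by omega⟩
    · exact Or.inr ⟨i - l.sum, Or.inr ⟨i - l.sum - a, Or.inl (by omega), by omega⟩, by omega⟩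
    · exact Or.inr ⟨a + (b + j), Or.inr ⟨b + j, Or.inr ⟨j, hj, rfl⟩, rfl⟩, by omega⟩

/-- Reflection exchanges two adjacent parts. -/
theorem per_rf (l r : List ℕ) (a b : ℕ) :
    rf l.sum (a + b) (sS (l ++ a :: b :: r)) = sS (l ++ b :: a :: r) := by
  ext i
  simp only [rf, Finset.mem_union, Finset.mem_filter, Finset.mem_image]
  rw [per_mem l r b a i, per_mem l r a b i]
  constructor
  · rintro (⟨(h | h | h) | ⟨j, hj, rfl⟩, h'⟩ | ⟨k, ⟨hk, h1, h2⟩, rfl⟩)
    · exact Or.inl (Or.inl h)
    · omega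
    · omega
    · exact Or.inr ⟨j, hj, by omega⟩
    · rw [per_mem] at hk
      rcases hk with (h | h | h) | ⟨j, hj, rfl⟩
      · have := per_lt l k h
        omega
      · exact Or.inl (Or.inr (Or.inr (by omega)))
      · exact Or.inl (Or.inr (Or.inl (by omega)))
      · omega
  · rintro ((h | h | h) | ⟨j, hj, rfl⟩)
    · have := per_lt l i h
      exact Or.inl ⟨Or.inl (Or.inl h), Or.inl (by omega)⟩
    · refine Or.inr ⟨2 * l.sum + (a + b) - i, ⟨?_, by omega, by omega⟩, by omega⟩
      rw [per_mem]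
      exact Or.inl (Or.inr (Or.inr (by omega)))
    · refine Or.inr ⟨2 * l.sum + (a + b) - i, ⟨?_, by omega, by omega⟩, by omega⟩
      rw [per_mem]
      exact Or.inl (Or.inr (Or.inl (by omega)))
    · exact Or.inl ⟨Or.inr ⟨j, hj, by omega⟩, Or.inr (by omega)⟩

theorem per_notMem (l r : List ℕ) (a b : ℕ) (ha : 1 ≤ a) (hb : 1 ≤ b) :
    l.sum ∉ sS (l ++ a :: b :: r) ∧ l.sum + (a + b) ∉ sS (l ++ a :: b :: r) := by
  constructor
  · intro h
    rw [per_mem] at h
    rcases h with (h | h | h) | ⟨j, hj, h⟩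
    · have := per_lt l _ h
      omega
    · omega
    · omega
    · omega
  · intro h
    rw [per_mem] at h
    rcases h with (h | h | h) | ⟨j, hj, h⟩
    · have := per_lt l _ h
      omega
    · omega
    · omega
    · have := per_lt r _ hj
      omega

theorem t_PER : M_PER := by
  intro hREF F _ _ ψ n μ ν hp
  have key : ∀ l : List ℕ, (∀ a ∈ μ, 1 ≤ a) → l.sum + μ.sum = n →
      ∀ Y : Matrix (Fin n) (Fin n) F → ℂ, Cls Y →
      mS ψ (sS (l ++ μ)) Y = mS ψ (sS (l ++ ν)) Y := by
    induction hp with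
    | nil =>
      intro l _ _ Y _
      rfl
    | cons x h ih =>
      rename_i l₁ l₂
      intro l hpos hs Y hY
      have h1 := ih (l ++ [x]) (fun a ha => hpos a (List.mem_cons_of_mem _ ha)) (by
        rw [List.sum_append, List.sum_singleton, add_assoc, ← List.sum_cons]
        exact hs) Y hY
      rw [List.append_assoc, List.append_assoc] at h1
      exact h1
    | swap x y r =>
      intro l hpos hs Y hY
      rw [List.sum_cons, List.sum_cons] at hs
      have hy : 1 ≤ y := hpos y (by simp)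
      have hx : 1 ≤ x := hpos x (by simp)
      obtain ⟨h1, h2⟩ := per_notMem l r y x hy hx
      rw [hREF F ψ n l.sum (y + x) _ (by omega) h1 h2 Y hY, per_rf]
    | trans h₁ h₂ ih₁ ih₂ =>
      intro l hpos hs Y hY
      rw [ih₁ l hpos hs Y hY]
      exact ih₂ l (fun a ha => hpos a (h₁.mem_iff.mpr ha)) (by rw [← h₁.sum_eq]; exact hs) Y hY
  intro hpos hs Y hY
  exact key [] hpos (by simpa using hs) Y hY

end FLC
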