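import Mathlib
import Pool.Agent.FLC.StA
import Pool.Agent.GTD.TRSP

/-!
# Module REF: reflection of a part
-/

set_option autoImplicit false

open Matrix

namespace FLC

noncomputable section

/-- the number of the block -/
def ref_b (p c : ℕ) {n : ℕ} (i : Fin n) : ℕ :=
  if i.val < p then 0 else if i.val < p + c then 1 else 2

lemma ref_b_mono (p c : ℕ) {n : ℕ} {i j : Fin n} (h : i ≤ j) : ref_b p c i ≤ ref_b p c j := by
  have h' : i.val ≤ j.val := h
  unfold ref_b
  split_ifs <;> omega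

lemma ref_b_one (p c : ℕ) {n : ℕ} (i : Fin n) :
    ref_b p c i = 1 ↔ p ≤ i.val ∧ i.val < p + c := by
  unfold ref_b
  constructor
  · intro h
    split_ifs at h <;> omega
  · rintro ⟨h1, h2⟩
    rw [if_neg (by omega), if_pos h2]

/-- every matrix is similar to its transpose -/
lemma ref_trsp {F ι : Type} [Field F] [Fintype ι] [DecidableEq ι] (M : Matrix ι ι F) :
    ∃ P P' : Matrix ι ι F, P * P' = 1 ∧ P' * P = 1 ∧ P * M = Mᵀ * P := by
  obtain ⟨P, hP⟩ := Pool.Agent.GTD.thm_TRSP F (Fintype.card ι)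
    (M.submatrix (Fintype.equivFin ι).symm (Fintype.equivFin ι).symm)
  refine ⟨P.1.submatrix (Fintype.equivFin ι) (Fintype.equivFin ι),
    P⁻¹.1.submatrix (Fintype.equivFin ι) (Fintype.equivFin ι), ?_, ?_, ?_⟩
  · rw [Matrix.submatrix_mul_equiv]
    have h : P.1 * P⁻¹.1 = 1 := by
      rw [← Units.val_mul, mul_inv_cancel]
      rfl
    rw [h, Matrix.submatrix_one_equiv]
  · rw [Matrix.submatrix_mul_equiv]
    have h : P⁻¹.1 * P.1 = 1 := by
      rw [← Units.val_mul, inv_mul_cancel]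
      rfl
    rw [h, Matrix.submatrix_one_equiv]
  · have hM : M = (M.submatrix (Fintype.equivFin ι).symm (Fintype.equivFin ι).symm).submatrix
        (Fintype.equivFin ι) (Fintype.equivFin ι) := by
      ext i j
      simp
    have hT : Mᵀ = ((M.submatrix (Fintype.equivFin ι).symm (Fintype.equivFin ι).symm)ᵀ).submatrix
        (Fintype.equivFin ι) (Fintype.equivFin ι) := by
      ext i j
      simp
    conv_lhs => rw [hM]
    rw [Matrix.submatrix_mul_equiv, hP]
    conv_rhs => rw [hT]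
    rw [Matrix.submatrix_mul_equiv]

section

variable {F : Type} [Field F] [Fintype F] {n : ℕ} (p c : ℕ)

open Classical in
/-- the strictly block triangular matrices -/
def ref_N (F : Type) [Field F] [Fintype F] (n p c : ℕ) : Finset (Matrix (Fin n) (Fin n) F) :=
  Finset.univ.filter fun X => ∀ i j, ¬ ref_b p c i < ref_b p c j → X i j = 0

lemma ref_mem_N {X : Matrix (Fin n) (Fin n) F} :
    X ∈ ref_N F n p c ↔ ∀ i j, ¬ ref_b p c i < ref_b p c j → X i j = 0 := by
  classical
  simp [ref_N]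

lemma ref_mem_U {u : Matrix (Fin n) (Fin n) F} :
    u ∈ US n F (fun i => i) ↔ (∀ i, u i i = 1) ∧ ∀ i j, j < i → u i j = 0 := by
  classical
  simp only [US, Finset.mem_filter, Finset.mem_univ, true_and]
  constructor
  · rintro ⟨h1, h2, -⟩
    exact ⟨h1, h2⟩
  · rintro ⟨h1, h2⟩
    refine ⟨h1, h2, fun i j hij h => ?_⟩
    have h' : i.val < j.val := hij
    omega

/-- the sum over the strictly block triangular matrices -/
def ref_W (Y : Matrix (Fin n) (Fin n) F → ℂ) (A : Matrix (Fin n) (Fin n) F) : ℂ :=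
  ∑ X ∈ ref_N F n p c, Y (A + X)

lemma ref_N_add {X Z : Matrix (Fin n) (Fin n) F} (hX : X ∈ ref_N F n p c)
    (hZ : Z ∈ ref_N F n p c) : X + Z ∈ ref_N F n p c := by
  rw [ref_mem_N] at *
  intro i j hij
  rw [Matrix.add_apply, hX i j hij, hZ i j hij, add_zero]

lemma ref_N_neg {X : Matrix (Fin n) (Fin n) F} (hX : X ∈ ref_N F n p c) :
    -X ∈ ref_N F n p c := by
  rw [ref_mem_N] at *
  intro i j hij
  rw [Matrix.neg_apply, hX i j hij, neg_zero]

lemma ref_W_add (Y : Matrix (Fin n) (Fin n) F → ℂ) (A : Matrix (Fin n) (Fin n) F)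
    {Z : Matrix (Fin n) (Fin n) F} (hZ : Z ∈ ref_N F n p c) :
    ref_W p c Y (A + Z) = ref_W p c Y A := by
  unfold ref_W
  refine Finset.sum_nbij' (fun X => Z + X) (fun X => -Z + X)
    (fun X hX => ref_N_add p c hZ hX) (fun X hX => ref_N_add p c (ref_N_neg p c hZ) hX)
    (fun X _ => by abel) (fun X _ => by abel) (fun X _ => by rw [add_assoc])

lemma ref_N_conj {H H' X : Matrix (Fin n) (Fin n) F}
    (hH : ∀ i j, ref_b p c i ≠ ref_b p c j → H i j = 0)
    (hH' : ∀ i j, ref_b p c i ≠ ref_b p c j → H' i j = 0) (hX : X ∈ ref_N F n p c) :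
    H' * X * H ∈ ref_N F n p c := by
  rw [ref_mem_N] at *
  intro i j hij
  rw [Matrix.mul_apply]
  refine Finset.sum_eq_zero fun l _ => ?_
  by_cases hl : ref_b p c l = ref_b p c j
  · rw [Matrix.mul_apply, Finset.sum_eq_zero, zero_mul]
    intro k _
    by_cases hk : ref_b p c i = ref_b p c k
    · rw [hX k l (by rw [hl, ← hk]; exact hij), mul_zero]
    · rw [hH' i k hk, zero_mul]
  · rw [hH l j hl, mul_zero]

lemma ref_W_conj (Y : Matrix (Fin n) (Fin n) F → ℂ) (hY : Cls Y) (A : Matrix (Fin n) (Fin n) F)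
    {H H' : Matrix (Fin n) (Fin n) F} (h1 : H * H' = 1) (h2 : H' * H = 1)
    (hH : ∀ i j, ref_b p c i ≠ ref_b p c j → H i j = 0)
    (hH' : ∀ i j, ref_b p c i ≠ ref_b p c j → H' i j = 0) :
    ref_W p c Y (H * A * H') = ref_W p c Y A := by
  unfold ref_W
  refine Finset.sum_nbij' (fun X => H' * X * H) (fun X => H * X * H')
    (fun X hX => ref_N_conj p c hH hH' hX) (fun X hX => ref_N_conj p c hH' hH hX)
    (fun X _ => ?_) (fun X _ => ?_) (fun X _ => ?_)
  · calc H * (H' * X * H) * H' = (H * H') * X * (H * H') := by simp only [Matrix.mul_assoc]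
      _ = X := by rw [h1, Matrix.one_mul, Matrix.mul_one]
  · calc H' * (H * X * H') * H = (H' * H) * X * (H' * H) := by simp only [Matrix.mul_assoc]
      _ = X := by rw [h2, Matrix.one_mul, Matrix.mul_one]
  · have h3 := hY ⟨H, H', h1, h2⟩ (A + H' * X * H)
    rw [← h3]
    congr 1
    change H * A * H' + X = H * (A + H' * X * H) * H'
    rw [Matrix.mul_add, Matrix.add_mul]
    congr 1
    calc X = (H * H') * X * (H * H') := by rw [h1, Matrix.one_mul, Matrix.mul_one]
      _ = H * (H' * X * H) * H' := by simp only [Matrix.mul_assoc]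

/-- the reflection of the middle block -/
def ref_s (p c : ℕ) {n : ℕ} (i : Fin n) : Fin n :=
  if h : p ≤ i.val ∧ i.val < p + c ∧ p + c ≤ n then ⟨2 * p + c - 1 - i.val, by omega⟩ else i

lemma ref_s_val {i : Fin n} (hn : p + c ≤ n) (h : ref_b p c i = 1) :
    (ref_s p c i).val = 2 * p + c - 1 - i.val := by
  rw [ref_b_one] at h
  unfold ref_s
  rw [dif_pos ⟨h.1, h.2, hn⟩]

lemma ref_s_b {i : Fin n} (hn : p + c ≤ n) (h : ref_b p c i = 1) :
    ref_b p c (ref_s p c i) = 1 := by
  rw [ref_b_one, ref_s_val p c hn h]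
  rw [ref_b_one] at h
  omega

lemma ref_s_s {i : Fin n} (hn : p + c ≤ n) (h : ref_b p c i = 1) :
    ref_s p c (ref_s p c i) = i := by
  apply Fin.ext
  rw [ref_s_val p c hn (ref_s_b p c hn h), ref_s_val p c hn h]
  rw [ref_b_one] at h
  omega

/-- the reflection of a matrix -/
def ref_T (u : Matrix (Fin n) (Fin n) F) : Matrix (Fin n) (Fin n) F :=
  fun i j => if ref_b p c i = 1 ∧ ref_b p c j = 1 then u (ref_s p c j) (ref_s p c i) else u i j

lemma ref_T_T (hn : p + c ≤ n) (u : Matrix (Fin n) (Fin n) F) :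
    ref_T p c (ref_T p c u) = u := by
  ext i j
  unfold ref_T
  by_cases h : ref_b p c i = 1 ∧ ref_b p c j = 1
  · rw [if_pos h, if_pos ⟨ref_s_b p c hn h.2, ref_s_b p c hn h.1⟩, ref_s_s p c hn h.1,
      ref_s_s p c hn h.2]
  · rw [if_neg h, if_neg h]

lemma ref_T_U (hn : p + c ≤ n) {u : Matrix (Fin n) (Fin n) F} (hu : u ∈ US n F (fun i => i)) :
    ref_T p c u ∈ US n F (fun i => i) := by
  rw [ref_mem_U] at *
  obtain ⟨h1, h2⟩ := hu
  constructor
  · intro i
    unfold ref_T
    split_ifs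
    · exact h1 _
    · exact h1 _
  · intro i j hij
    unfold ref_T
    split_ifs with h
    · apply h2
      have h3 := ref_s_val p c hn h.1
      have h4 := ref_s_val p c hn h.2
      have h5 := (ref_b_one p c i).1 h.1
      have h6 := (ref_b_one p c j).1 h.2
      have h7 : j.val < i.val := hij
      change (ref_s p c i).val < (ref_s p c j).val
      omega
    · exact h2 i j hij

/-- the reflected block is conjugate to the block -/
lemma ref_conj (hn : p + c ≤ n) (D : Matrix (Fin n) (Fin n) F)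
    (hD : ∀ i j, ref_b p c i ≠ ref_b p c j → D i j = 0) :
    ∃ H H' : Matrix (Fin n) (Fin n) F, H * H' = 1 ∧ H' * H = 1 ∧
      (∀ i j, ref_b p c i ≠ ref_b p c j → H i j = 0) ∧
      (∀ i j, ref_b p c i ≠ ref_b p c j → H' i j = 0) ∧ ref_T p c D = H * D * H' := by
  classical
  let m : Fin n → Prop := fun i => ref_b p c i = 1
  let s : {i // m i} ⊕ {i // ¬ m i} ≃ Fin n := Equiv.sumCompl m
  let σ : {i // m i} → {i // m i} := fun i => ⟨ref_s p c i.1, ref_s_b p c hn i.2⟩
  have hσ : Function.Involutive σ := fun i => Subtype.ext (ref_s_s p c hn i.2)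
  let τ : {i // m i} ≃ {i // m i} := hσ.toPerm
  let M : Matrix {i // m i} {i // m i} F := fun i j => D i.1 j.1
  let D' : Matrix {i // ¬ m i} {i // ¬ m i} F := fun i j => D i.1 j.1
  obtain ⟨P, P', hP1, hP2, hP3⟩ := ref_trsp M
  have hs1 : ∀ i : {i // m i}, s (Sum.inl i) = i.1 := fun i => rfl
  have hs2 : ∀ i : {i // ¬ m i}, s (Sum.inr i) = i.1 := fun i => rfl
  have hblk : ∀ G : Matrix {i // m i} {i // m i} F, ∀ i j, ref_b p c i ≠ ref_b p c j →
      ((fromBlocks G 0 0 1 : Matrix _ _ F).submatrix s.symm s.symm) i j = 0 := by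
    intro G i j hij
    obtain ⟨i', rfl⟩ := s.surjective i
    obtain ⟨j', rfl⟩ := s.surjective j
    rw [Matrix.submatrix_apply, Equiv.symm_apply_apply, Equiv.symm_apply_apply]
    rcases i' with i' | i' <;> rcases j' with j' | j'
    · exact absurd (i'.2.trans j'.2.symm) hij
    · rfl
    · rfl
    · rw [fromBlocks_apply₂₂, Matrix.one_apply_ne]
      rintro rfl
      exact hij rfl
  have hD1 : D = (fromBlocks M 0 0 D').submatrix s.symm s.symm := by
    ext i j
    obtain ⟨i', rfl⟩ := s.surjective i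
    obtain ⟨j', rfl⟩ := s.surjective j
    rw [Matrix.submatrix_apply, Equiv.symm_apply_apply, Equiv.symm_apply_apply]
    rcases i' with i' | i' <;> rcases j' with j' | j'
    · rfl
    · rw [fromBlocks_apply₁₂, hs1, hs2]
      exact hD _ _ fun h => j'.2 (h.symm.trans i'.2)
    · rw [fromBlocks_apply₂₁, hs1, hs2]
      exact hD _ _ fun h => i'.2 (h.trans j'.2)
    · rfl
  have hD2 : ref_T p c D = (fromBlocks (Mᵀ.submatrix τ τ) 0 0 D').submatrix s.symm s.symm := by
    ext i j
    obtain ⟨i', rfl⟩ := s.surjective i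
    obtain ⟨j', rfl⟩ := s.surjective j
    rw [Matrix.submatrix_apply, Equiv.symm_apply_apply, Equiv.symm_apply_apply]
    unfold ref_T
    rcases i' with i' | i' <;> rcases j' with j' | j'
    · rw [hs1, hs1, if_pos ⟨i'.2, j'.2⟩]
      rfl
    · rw [fromBlocks_apply₁₂, hs1, hs2, if_neg fun h => j'.2 h.2]
      exact hD _ _ fun h => j'.2 (h.symm.trans i'.2)
    · rw [fromBlocks_apply₂₁, hs1, hs2, if_neg fun h => i'.2 h.1]
      exact hD _ _ fun h => i'.2 (h.trans j'.2)
    · rw [hs2, hs2, if_neg fun h => i'.2 h.1]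
      rfl
  have hg1 : P.submatrix τ id * P'.submatrix id τ = 1 := by
    have h := Matrix.submatrix_mul_equiv P P' τ (Equiv.refl _) τ
    rw [hP1, Matrix.submatrix_one_equiv] at h
    exact h
  have hg2 : P'.submatrix id τ * P.submatrix τ id = 1 := by
    have h := Matrix.submatrix_mul_equiv P' P (Equiv.refl _) τ (Equiv.refl _)
    rw [hP2, Matrix.submatrix_one_equiv] at h
    exact h
  have hg3 : P.submatrix τ id * M = Mᵀ.submatrix τ τ * P.submatrix τ id := by
    have h := Matrix.submatrix_mul_equiv P M τ (Equiv.refl _) id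
    have h' := Matrix.submatrix_mul_equiv Mᵀ P τ τ id
    rw [h', ← hP3, ← h]
    rfl
  refine ⟨(fromBlocks (P.submatrix τ id) 0 0 1).submatrix s.symm s.symm,
    (fromBlocks (P'.submatrix id τ) 0 0 1).submatrix s.symm s.symm, ?_, ?_, hblk _, hblk _, ?_⟩
  · rw [Matrix.submatrix_mul_equiv, fromBlocks_multiply, hg1]
    simp
  · rw [Matrix.submatrix_mul_equiv, fromBlocks_multiply, hg2]
    simp
  · have e1 : (fromBlocks (P.submatrix τ id) 0 0 1).submatrix s.symm s.symm * D =
        ref_T p c D * (fromBlocks (P.submatrix τ id) 0 0 1).submatrix s.symm s.symm := by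
      rw [hD2]
      conv_lhs => rw [hD1]
      rw [Matrix.submatrix_mul_equiv, Matrix.submatrix_mul_equiv, fromBlocks_multiply,
        fromBlocks_multiply]
      simp [hg3]
    rw [e1, Matrix.mul_assoc, Matrix.submatrix_mul_equiv, fromBlocks_multiply, hg1]
    simp

/-- the sum does not change under the reflection -/
lemma ref_W_T (hn : p + c ≤ n) (Y : Matrix (Fin n) (Fin n) F → ℂ) (hY : Cls Y)
    {u : Matrix (Fin n) (Fin n) F} (hu : u ∈ US n F (fun i => i)) :
    ref_W p c Y (ref_T p c u) = ref_W p c Y u := by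
  rw [ref_mem_U] at hu
  obtain ⟨D, hDdef⟩ : ∃ D : Matrix (Fin n) (Fin n) F,
      D = fun i j => if ref_b p c i = ref_b p c j then u i j else 0 := ⟨_, rfl⟩
  have hD : ∀ i j, ref_b p c i ≠ ref_b p c j → D i j = 0 := by
    intro i j hij
    rw [hDdef]
    exact if_neg hij
  have hD' : ∀ i j, ref_b p c i = ref_b p c j → D i j = u i j := by
    intro i j hij
    rw [hDdef]
    exact if_pos hij
  obtain ⟨X, hXdef⟩ : ∃ X : Matrix (Fin n) (Fin n) F, X = u - D := ⟨_, rfl⟩
  have hX : X ∈ ref_N F n p c := by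
    rw [ref_mem_N]
    intro i j hij
    rw [hXdef, Matrix.sub_apply]
    by_cases h : ref_b p c i = ref_b p c j
    · rw [hD' i j h, sub_self]
    · rw [hD i j h, sub_zero]
      apply hu.2
      by_contra h3
      have h4 := ref_b_mono p c (not_lt.1 h3)
      omega
  have hX0 := (ref_mem_N p c).1 hX
  have hu1 : u = D + X := by
    rw [hXdef]
    abel
  have hu2 : ref_T p c u = ref_T p c D + X := by
    ext i j
    rw [Matrix.add_apply]
    unfold ref_T
    split_ifs with h
    · rw [hX0 i j (by rw [h.1, h.2]; exact lt_irrefl _), add_zero, hD']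
      rw [ref_s_b p c hn h.1, ref_s_b p c hn h.2]
    · conv_lhs => rw [hu1]
      rfl
  obtain ⟨H, H', h1, h2, h3, h4, h5⟩ := ref_conj p c hn D hD
  rw [hu2, ref_W_add p c Y _ hX, h5, ref_W_conj p c Y hY D h1 h2 h3 h4]
  conv_rhs => rw [hu1, ref_W_add p c Y _ hX]

lemma ref_sd_add (S : Finset ℕ) (hp : p ∉ S) (hpc : p + c ∉ S) (u : Matrix (Fin n) (Fin n) F)
    {X : Matrix (Fin n) (Fin n) F} (hX : X ∈ ref_N F n p c) : sd S (u + X) = sd S u := by
  rw [ref_mem_N] at hX
  unfold sd
  refine Finset.sum_congr rfl fun i _ => Finset.sum_congr rfl fun j _ => ?_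
  split_ifs with h
  · rw [Matrix.add_apply, hX i j, add_zero]
    intro hlt
    obtain ⟨h1, h2⟩ := h
    unfold ref_b at hlt
    have h3 : j.val ≠ p := fun h => hp (h ▸ h2)
    have h4 : j.val ≠ p + c := fun h => hpc (h ▸ h2)
    split_ifs at hlt <;> omega
  · rfl

lemma ref_mem_rf (S : Finset ℕ) (j : ℕ) : j ∈ rf p c S ↔
    (j ∈ S ∧ (j ≤ p ∨ p + c ≤ j)) ∨ (p < j ∧ j < p + c ∧ 2 * p + c - j ∈ S) := by
  unfold rf
  rw [Finset.mem_union, Finset.mem_filter, Finset.mem_image]
  refine or_congr Iff.rfl ?_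
  constructor
  · rintro ⟨i, hi, rfl⟩
    rw [Finset.mem_filter] at hi
    refine ⟨by omega, by omega, ?_⟩
    have h : 2 * p + c - (2 * p + c - i) = i := by omega
    rw [h]
    exact hi.1
  · rintro ⟨h1, h2, h3⟩
    exact ⟨2 * p + c - j, Finset.mem_filter.2 ⟨h3, by omega, by omega⟩, by omega⟩

/-- the sum of the entries of the reflected matrix -/
lemma ref_sd_T (hn : p + c ≤ n) (S : Finset ℕ) (hp : p ∉ S) (hpc : p + c ∉ S)
    (u : Matrix (Fin n) (Fin n) F) : sd (rf p c S) (ref_T p c u) = sd S u := by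
  classical
  unfold sd
  rw [← Finset.sum_product', ← Finset.sum_product']
  let τ : Fin n × Fin n → Fin n × Fin n := fun x =>
    if ref_b p c x.1 = 1 ∧ ref_b p c x.2 = 1 then (ref_s p c x.2, ref_s p c x.1) else x
  have hτ : ∀ x, τ (τ x) = x := by
    intro x
    simp only [τ]
    by_cases h : ref_b p c x.1 = 1 ∧ ref_b p c x.2 = 1
    · rw [if_pos h, if_pos ⟨ref_s_b p c hn h.2, ref_s_b p c hn h.1⟩]
      rw [ref_s_s p c hn h.1, ref_s_s p c hn h.2]
    · rw [if_neg h, if_neg h]
  refine Finset.sum_nbij' τ τ (fun x _ => by simp) (fun x _ => by simp) (fun x _ => hτ x)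
    (fun x _ => hτ x) (fun x _ => ?_)
  by_cases h : ref_b p c x.1 = 1 ∧ ref_b p c x.2 = 1
  · have e : τ x = (ref_s p c x.2, ref_s p c x.1) := if_pos h
    have e2 : ref_T p c u x.1 x.2 = u (ref_s p c x.2) (ref_s p c x.1) := if_pos h
    rw [e, e2]
    have h1 := ref_s_val p c hn h.1
    have h2 := ref_s_val p c hn h.2
    have h3 := (ref_b_one p c x.1).1 h.1
    have h4 := (ref_b_one p c x.2).1 h.2
    have hiff : (x.1.val + 1 = x.2.val ∧ x.2.val ∈ rf p c S) ↔
        ((ref_s p c x.2).val + 1 = (ref_s p c x.1).val ∧ (ref_s p c x.1).val ∈ S) := by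
      rw [h1, h2, ref_mem_rf]
      constructor
      · rintro ⟨h5, h6⟩
        refine ⟨by omega, ?_⟩
        rcases h6 with ⟨-, h6⟩ | ⟨-, -, h6⟩
        · omega
        · have h7 : 2 * p + c - 1 - x.1.val = 2 * p + c - x.2.val := by omega
          rw [h7]
          exact h6
      · rintro ⟨h5, h6⟩
        refine ⟨by omega, Or.inr ⟨by omega, by omega, ?_⟩⟩
        have h7 : 2 * p + c - 1 - x.1.val = 2 * p + c - x.2.val := by omega
        rw [← h7]
        exact h6
    exact if_congr hiff rfl rfl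
  · have e : τ x = x := if_neg h
    have e2 : ref_T p c u x.1 x.2 = u x.1 x.2 := if_neg h
    rw [e, e2]
    have hiff : (x.1.val + 1 = x.2.val ∧ x.2.val ∈ rf p c S) ↔
        (x.1.val + 1 = x.2.val ∧ x.2.val ∈ S) := by
      rw [ref_b_one, ref_b_one] at h
      rw [ref_mem_rf]
      constructor
      · rintro ⟨h5, h6⟩
        refine ⟨h5, ?_⟩
        rcases h6 with ⟨h6, -⟩ | ⟨h6, h7, -⟩
        · exact h6
        · exfalso
          apply h
          omega
      · rintro ⟨h5, h6⟩
        refine ⟨h5, Or.inl ⟨h6, ?_⟩⟩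
        by_contra h8
        apply h
        omega
    exact if_congr hiff rfl rfl

lemma ref_U_add {u X : Matrix (Fin n) (Fin n) F} (hu : u ∈ US n F (fun i => i))
    (hX : X ∈ ref_N F n p c) : u + X ∈ US n F (fun i => i) := by
  rw [ref_mem_U] at *
  rw [ref_mem_N] at hX
  refine ⟨fun i => ?_, fun i j hij => ?_⟩
  · rw [Matrix.add_apply, hu.1, hX i i (lt_irrefl _), add_zero]
  · rw [Matrix.add_apply, hu.2 i j hij, hX i j, add_zero]
    have h := ref_b_mono p c hij.le
    omega

/-- averaging -/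
lemma ref_avg (ψ : AddChar F ℂ) (S : Finset ℕ) (hp : p ∉ S) (hpc : p + c ∉ S)
    (Y : Matrix (Fin n) (Fin n) F → ℂ) :
    ∑ u ∈ US n F (fun i => i), ref_W p c Y u * ψ (-(sd S u)) =
      (ref_N F n p c).card * ∑ u ∈ US n F (fun i => i), Y u * ψ (-(sd S u)) := by
  unfold ref_W
  simp only [Finset.sum_mul]
  rw [Finset.sum_comm, ← nsmul_eq_mul, ← Finset.sum_const]
  refine Finset.sum_congr rfl fun X hX => ?_
  refine Finset.sum_nbij' (fun u => u + X) (fun u => u + -X)
    (fun u hu => ref_U_add p c hu hX) (fun u hu => ref_U_add p c hu (ref_N_neg p c hX))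
    (fun u _ => by abel) (fun u _ => by abel) (fun u _ => ?_)
  rw [ref_sd_add p c S hp hpc u hX]

end

theorem t_REF : S_REF := by
  intro F _ _ ψ n p c S hn hp hpc Y hY
  unfold mS av
  congr 1
  have hp' : p ∉ rf p c S := by
    rw [ref_mem_rf]
    rintro (⟨h, -⟩ | ⟨h, -⟩)
    · exact hp h
    · exact lt_irrefl _ h
  have hpc' : p + c ∉ rf p c S := by
    rw [ref_mem_rf]
    rintro (⟨h, -⟩ | ⟨-, h, -⟩)
    · exact hpc h
    · exact lt_irrefl _ h
  have h1 := ref_avg p c ψ S hp hpc Y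
  have h2 := ref_avg p c ψ (rf p c S) hp' hpc' Y
  have h3 : ∑ u ∈ US n F (fun i => i), ref_W p c Y u * ψ (-(sd S u)) =
      ∑ u ∈ US n F (fun i => i), ref_W p c Y u * ψ (-(sd (rf p c S) u)) := by
    refine Finset.sum_nbij' (ref_T p c) (ref_T p c) (fun u hu => ref_T_U p c hn hu)
      (fun u hu => ref_T_U p c hn hu) (fun u _ => ref_T_T p c hn u) (fun u _ => ref_T_T p c hn u)
      (fun u hu => ?_)
    rw [ref_W_T p c hn Y hY hu, ref_sd_T p c hn S hp hpc u]
  rw [h1, h2] at h3
  have h4 : ((ref_N F n p c).card : ℂ) ≠ 0 := by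
    rw [Nat.cast_ne_zero, ← Nat.pos_iff_ne_zero, Finset.card_pos]
    exact ⟨0, (ref_mem_N p c).2 fun i j _ => rfl⟩
  exact mul_left_cancel₀ h4 h3

end

end FLC
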