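import Pool.Agent.FLC.StA
import Pool.Agent.FL0.DIA

/-!
# SEM: diagonalization of the elements of order dividing `q - 1`
-/

set_option autoImplicit false

namespace FLC

open Pool.Agent.Lib_helper13 RSF

/-- A sorted basis of eigenvectors. -/
theorem sem_basis (n m : ℕ) (F : Type) [Field F] [Finite F] (x : GL (Fin n) F)
    (hm : 1 ≤ m) (hmq : m ∣ Nat.card F - 1) (hx : x ^ m = 1) :
    ∃ (b : Module.Basis (Fin n) F (Fin n → F)) (l : Fin n → F),
      (∀ i, Matrix.toLin' (x : Matrix (Fin n) (Fin n) F) (b i) = l i • b i) ∧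
      (∀ i, l i ^ m = 1) ∧
      ∀ z : F, ev (x : Matrix (Fin n) (Fin n) F) z = Nat.card {i // l i = z} := by
  have hX : Matrix.toLin' (x : Matrix (Fin n) (Fin n) F) ^ m = 1 := by
    have h1 : ((x ^ m : GL (Fin n) F) : Matrix (Fin n) (Fin n) F) = 1 := by
      rw [hx]
      rfl
    rw [Units.val_pow_eq_pow_val] at h1
    rw [← Matrix.toLin'_pow, h1, Matrix.toLin'_one]
    rfl
  obtain ⟨b, l, h1, h2, h3⟩ := FL0.t_DIA F (Fin n → F) m hm hmq _ hX
  have hn : Module.finrank F (Fin n → F) = n := Module.finrank_fin_fun F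
  refine ⟨b.reindex (finCongr hn), fun i => l ((finCongr hn).symm i), fun i => ?_, fun i => h2 _,
    fun z => ?_⟩
  · rw [Module.Basis.reindex_apply]
    exact h1 _
  · refine (h3 z).trans ?_
    exact Nat.card_congr ((finCongr hn).subtypeEquiv fun i => by simp)

/-- The matrix of a basis of eigenvectors conjugates `x` to a diagonal matrix. -/
theorem sem_conj {n : ℕ} {F : Type} [Field F] (x : GL (Fin n) F)
    (b : Module.Basis (Fin n) F (Fin n → F)) (l : Fin n → F)
    (h : ∀ i, Matrix.toLin' (x : Matrix (Fin n) (Fin n) F) (b i) = l i • b i) :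
    ∃ y : GL (Fin n) F, IsConj x y ∧
      (y : Matrix (Fin n) (Fin n) F) = Matrix.diagonal l := by
  let f : (Fin n → F) ≃ₗ[F] (Fin n → F) := b.equivFun.symm
  let P : GL (Fin n) F := ⟨LinearMap.toMatrix' (f : (Fin n → F) →ₗ[F] (Fin n → F)),
    LinearMap.toMatrix' (f.symm : (Fin n → F) →ₗ[F] (Fin n → F)),
    by rw [← LinearMap.toMatrix'_comp, LinearEquiv.comp_symm, LinearMap.toMatrix'_id],
    by rw [← LinearMap.toMatrix'_comp, LinearEquiv.symm_comp, LinearMap.toMatrix'_id]⟩
  have hP : (P : Matrix (Fin n) (Fin n) F) =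
      LinearMap.toMatrix' (f : (Fin n → F) →ₗ[F] (Fin n → F)) := rfl
  have key : (x : Matrix (Fin n) (Fin n) F) * P = P * Matrix.diagonal l := by
    apply Matrix.toLin'.injective
    rw [Matrix.toLin'_mul, Matrix.toLin'_mul, hP, Matrix.toLin'_toMatrix']
    apply LinearMap.pi_ext'
    intro j
    apply LinearMap.ext_ring
    simp only [LinearMap.coe_comp, Function.comp_apply, LinearMap.coe_single, LinearEquiv.coe_coe]
    have e1 : f (Pi.single j 1) = b j := by
      simp only [f]
      rw [Module.Basis.equivFun_symm_apply]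
      rw [Finset.sum_eq_single j]
      · rw [Pi.single_eq_same, one_smul]
      · intro i _ hi
        rw [Pi.single_eq_of_ne hi, zero_smul]
      · intro hj
        exact absurd (Finset.mem_univ j) hj
    have e2 : Matrix.toLin' (Matrix.diagonal l) (Pi.single j 1) = l j • Pi.single j (1 : F) := by
      rw [Matrix.toLin'_apply]
      ext i
      rw [Matrix.mulVec_diagonal]
      by_cases hi : i = j
      · subst hi
        simp
      · simp [hi]
    rw [e1, e2, map_smul, e1, h]
  refine ⟨P⁻¹ * x * P, ?_, ?_⟩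
  · rw [isConj_iff]
    exact ⟨P⁻¹, by rw [inv_inv]⟩
  · rw [mul_assoc, Units.val_mul, Units.val_mul, key, ← mul_assoc, ← Units.val_mul, inv_mul_cancel,
      Units.val_one, one_mul]

/-- Pairs in the same block. -/
theorem sem_pairs {n : ℕ} {F : Type} [Fintype F] [DecidableEq F] (L : Fin n → F) (d : ℕ → ℕ)
    (hd : ∀ i j : Fin n, d i = d j ↔ L i = L j) :
    bb d n = ∑ z : F, (Nat.card {i // L i = z}) ^ 2 := by
  unfold bb
  rw [Finset.card_filter, Finset.sum_product, Finset.sum_range]
  have e1 : ∀ i : Fin n, ∑ j ∈ Finset.range n, (if d i = d j then 1 else 0) =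
      ∑ j : Fin n, if L i = L j then 1 else 0 := by
    intro i
    rw [Finset.sum_range]
    refine Finset.sum_congr rfl fun j _ => ?_
    simp only [hd]
  rw [Finset.sum_congr rfl fun i _ => e1 i]
  have e2 : ∀ z : F, Nat.card {i // L i = z} = ∑ i : Fin n, if L i = z then 1 else 0 := by
    intro z
    rw [Nat.card_eq_fintype_card, Fintype.card_subtype, Finset.card_filter]
  have e3 : ∀ z : F, (Nat.card {i // L i = z}) ^ 2 =
      ∑ i : Fin n, ∑ j : Fin n, if L i = z then (if L j = z then 1 else 0) else 0 := by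
    intro z
    rw [e2, pow_two, Finset.sum_mul_sum]
    refine Finset.sum_congr rfl fun i _ => Finset.sum_congr rfl fun j _ => ?_
    split_ifs <;> rfl
  rw [Finset.sum_congr rfl fun z _ => e3 z]
  symm
  rw [Finset.sum_comm]
  refine Finset.sum_congr rfl fun i _ => ?_
  rw [Finset.sum_comm]
  refine Finset.sum_congr rfl fun j _ => ?_
  rw [Finset.sum_ite_eq]
  simp only [Finset.mem_univ, if_true]
  simp only [eq_comm]

theorem t_SEM : S_SEM := by
  classical
  intro n m F _ _ _ x hm hmq hx
  obtain ⟨b, l, hb, hl, hev⟩ := sem_basis n m F x hm hmq hx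
  let E : F ≃ Fin (Fintype.card F) := Fintype.equivFin F
  have hq : 0 < Fintype.card F := Fintype.card_pos
  let c : Fin n → ℕ := fun i => (E (l i)).val
  let σ : Equiv.Perm (Fin n) := Tuple.sort c
  have hσ : Monotone (c ∘ σ) := Tuple.monotone_sort c
  let L : Fin n → F := fun i => l (σ i)
  let d : ℕ → ℕ := fun i => if h : i < n then c (σ ⟨i, h⟩) else Fintype.card F - 1
  let ζ : ℕ → F := fun k => if h : k < Fintype.card F then E.symm ⟨k, h⟩ else 0
  have hdi : ∀ i : Fin n, d i = (E (L i)).val := by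
    intro i
    simp only [d]
    rw [dif_pos i.2]
  have hdq : ∀ i, d i < Fintype.card F := by
    intro i
    simp only [d]
    split_ifs with h
    · exact (E (l (σ ⟨i, h⟩))).2
    · omega
  have hζ : ∀ k (h : k < Fintype.card F), ζ k = E.symm ⟨k, h⟩ := by
    intro k h
    simp only [ζ]
    rw [dif_pos h]
  have hζL : ∀ i : Fin n, ζ (d i) = L i := by
    intro i
    rw [hζ _ (hdq i)]
    have h1 : (⟨d i, hdq i⟩ : Fin (Fintype.card F)) = E (L i) := Fin.ext (hdi i)
    rw [h1, Equiv.symm_apply_apply]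
  obtain ⟨y, hy1, hy2⟩ := sem_conj x (b.reindex σ.symm) L (fun i => by
    rw [Module.Basis.reindex_apply, Equiv.symm_symm]
    exact hb _)
  refine ⟨d, ζ, y, ?_, ?_, ?_, ?_, hy1, ?_⟩
  · intro i j hij
    by_cases hj : j < n
    · have hi : i < n := lt_of_le_of_lt hij hj
      have h1 := hσ (show (⟨i, hi⟩ : Fin n) ≤ ⟨j, hj⟩ from hij)
      simp only [d]
      rw [dif_pos hi, dif_pos hj]
      exact h1
    · have h1 : d j = Fintype.card F - 1 := by
        simp only [d]
        rw [dif_neg hj]
      rw [h1]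
      have := hdq i
      omega
  · intro i j hij h
    rw [hζ _ (hdq i), hζ _ (hdq j)] at h
    exact hij (congrArg Fin.val (E.symm.injective h))
  · have h1 : (Finset.range n).image d ⊆
        (Polynomial.nthRoots m (1 : F)).toFinset.image fun z => (E z).val := by
      intro k hk
      obtain ⟨i, hi, rfl⟩ := Finset.mem_image.1 hk
      have hi' := Finset.mem_range.1 hi
      refine Finset.mem_image.2 ⟨L ⟨i, hi'⟩, ?_, (hdi ⟨i, hi'⟩).symm⟩
      rw [Multiset.mem_toFinset, Polynomial.mem_nthRoots (by omega)]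
      exact hl _
    exact (Finset.card_le_card h1).trans (Finset.card_image_le.trans
      ((Multiset.toFinset_card_le _).trans (Polynomial.card_nthRoots m 1)))
  · rw [sem_pairs L d (fun i j => by
      rw [hdi, hdi, ← Fin.ext_iff, E.apply_eq_iff_eq])]
    unfold sq
    refine Finset.sum_congr rfl fun z _ => ?_
    rw [hev z]
    congr 1
    exact Nat.card_congr (σ.subtypeEquiv fun i => Iff.rfl)
  · rw [hy2]
    congr 1
    funext i
    exact (hζL i).symm

end FLC
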