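import Mathlib
import Pool.Agent.FLC.StA

/-!
# FLC, module SRT (helper44): sorting a composition
-/

set_option autoImplicit false

namespace FLC

lemma srt_ones (B : List ℕ) (h : ∀ b ∈ B, b ≤ 1) : sS B = ∅ := by
  induction B with
  | nil => rfl
  | cons b l ih =>
    rw [sS, ih fun x hx => h x (List.mem_cons_of_mem _ hx), Finset.image_empty, Finset.union_empty]
    have hb : b ≤ 1 := h b List.mem_cons_self
    ext i
    simp only [Finset.mem_Ioo, Finset.notMem_empty, iff_false]
    omega

lemma srt_app (A B : List ℕ) (h : ∀ b ∈ B, b ≤ 1) : sS (A ++ B) = sS A := by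
  induction A with
  | nil => rw [List.nil_append, srt_ones B h]; rfl
  | cons a l ih => rw [List.cons_append, sS, ih, sS]

lemma srt_sum_ones (B : List ℕ) (h : ∀ b ∈ B, b = 1) : B.sum = B.length := by
  induction B with
  | nil => rfl
  | cons b l ih =>
    rw [List.sum_cons, List.length_cons, ih fun x hx => h x (List.mem_cons_of_mem _ hx),
      h b List.mem_cons_self, Nat.add_comm]

lemma srt_sum_two (A : List ℕ) (h : ∀ a ∈ A, 2 ≤ a) : 2 * A.length ≤ A.sum := by
  induction A with
  | nil => simp
  | cons a l ih =>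
    have h1 := ih fun x hx => h x (List.mem_cons_of_mem _ hx)
    have h2 : 2 ≤ a := h a List.mem_cons_self
    rw [List.sum_cons, List.length_cons]
    omega

lemma srt_Q (hL : S_LST) (μ ν : List ℕ) (hp : μ.Perm ν) (h1 : ∀ a ∈ μ, 1 ≤ a) :
    Q (sS μ) μ.sum = Q (sS ν) ν.sum := by
  have h2 : ∀ a ∈ ν, 1 ≤ a := fun a ha => h1 a (hp.mem_iff.mpr ha)
  have hs : μ.sum = ν.sum := hp.sum_eq
  unfold Q
  rw [hs]
  refine Finset.sum_congr rfl fun t _ => ?_
  have e1 := hL.2.1 μ h1 t
  have e2 := hL.2.1 ν h2 t
  rw [hs] at e1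
  rw [e1, e2, (hp.filter _).length_eq]

theorem t_SRT : M_SRT := by
  intro hP hL F _ _ ψ n S hS
  obtain ⟨μ, h1, h2, h3⟩ := hL.1 n S hS
  constructor
  · have hp : (μ.mergeSort (fun a b => decide (a ≤ b))).Perm μ := List.mergeSort_perm _ _
    set ν := μ.mergeSort (fun a b => decide (a ≤ b)) with hν
    have hs : ν.sum = n := by rw [hp.sum_eq, h2]
    have h1' : ∀ a ∈ ν, 1 ≤ a := fun a ha => h1 a (hp.mem_iff.mp ha)
    have hsort : ν.Pairwise (· ≤ ·) := by
      have := List.pairwise_mergeSort (le := fun a b : ℕ => decide (a ≤ b))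
        (fun a b c hab hbc => by
          simp only [decide_eq_true_eq] at *
          omega)
        (fun a b => by
          simp only [Bool.or_eq_true, decide_eq_true_eq]
          omega) μ
      rw [hν]
      exact this.imp fun h => by simpa using h
    refine ⟨sS ν, ?_, ?_, ?_⟩
    · have := (hL.2.2.2 ν h1').2
      rwa [hs] at this
    · have e := hL.2.2.1 ν h1' hsort
      have e2 := srt_Q hL ν μ hp h1'
      rw [e2, hs, h2, h3] at e
      exact e
    · intro Y hY
      have := hP F ψ n ν μ hp h1' hs Y hY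
      rw [this, h3]
  · have hp : (μ.filter (fun a => 1 < a) ++ μ.filter (fun a => !(1 < a))).Perm μ :=
      List.filter_append_perm _ _
    set A := μ.filter (fun a => 1 < a) with hA
    set B := μ.filter (fun a => !(1 < a)) with hB
    have hA2 : ∀ a ∈ A, 2 ≤ a := fun a ha => by
      rw [hA, List.mem_filter] at ha
      have := ha.2
      simp only [decide_eq_true_eq] at this
      omega
    have hB1 : ∀ b ∈ B, b = 1 := fun b hb => by
      rw [hB, List.mem_filter] at hb
      have e1 := h1 b hb.1
      have e2 := hb.2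
      simp only [Bool.not_eq_true', decide_eq_false_iff_not, not_lt] at e2
      omega
    have hs : A.sum + B.sum = n := by rw [← List.sum_append, hp.sum_eq, h2]
    have hl : A.length + B.length = μ.length := by rw [← List.length_append, hp.length_eq]
    have hBs := srt_sum_ones B hB1
    have hAs := srt_sum_two A hA2
    have happ : sS (A ++ B) = sS A := srt_app A B fun b hb => (hB1 b hb).le
    have hA1 : ∀ a ∈ A, 1 ≤ a := fun a ha => by have := hA2 a ha; omega
    have hAB1 : ∀ a ∈ A ++ B, 1 ≤ a := fun a ha => h1 a (hp.mem_iff.mp ha)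
    have c1 := hL.2.2.2 A hA1
    have c2 := (hL.2.2.2 μ h1).1
    rw [h3, h2] at c2
    refine ⟨A.sum, sS A, by omega, by omega, c1.2, by omega, ?_⟩
    intro Y hY
    have := hP F ψ n (A ++ B) μ hp hAB1 (by rw [List.sum_append, hs]) Y hY
    rw [happ, h3] at this
    exact this

end FLC
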