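import Pool.Agent.FLC.StA

/-!
# FLC, STR: the level of a character (helper62)
-/

set_option linter.unusedSectionVars false

namespace FLC

open Pool.Agent.Lib_helper13 RSF

noncomputable section

namespace STR

variable {n : ℕ} {F : Type} [Field F] [Fintype F] [DecidableEq F]

open Classical in
/-- The level. -/
def lev (ψ : AddChar F ℂ) (X : GL (Fin n) F → ℂ) : ℕ :=
  ((Finset.Ioo 0 n).powerset.filter fun S => mS ψ S (xm X) ≠ 0).sup Finset.card

theorem le_lev {ψ : AddChar F ℂ} {X : GL (Fin n) F → ℂ} {S : Finset ℕ}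
    (hS : S ⊆ Finset.Ioo 0 n) (h : mS ψ S (xm X) ≠ 0) : S.card ≤ lev ψ X := by
  classical
  exact Finset.le_sup (f := Finset.card) (Finset.mem_filter.2 ⟨Finset.mem_powerset.2 hS, h⟩)

theorem US_zero : US n F (fun _ => 0) = {1} := by
  classical
  ext u
  simp only [US, Finset.mem_filter, Finset.mem_univ, true_and, Finset.mem_singleton]
  constructor
  · rintro ⟨h1, h2, h3⟩
    ext i j
    rcases lt_trichotomy i j with h | h | h
    · rw [h3 i j h trivial, Matrix.one_apply_ne h.ne]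
    · subst h
      rw [h1, Matrix.one_apply_eq]
    · rw [h2 i j h, Matrix.one_apply_ne h.ne']
  · rintro rfl
    exact ⟨fun i => Matrix.one_apply_eq i,
      fun i j h => Matrix.one_apply_ne h.ne', fun i j h _ => Matrix.one_apply_ne h.ne⟩

theorem w_zero (i : ℕ) : w (fun _ => 0) i = i := by
  unfold w
  rw [Finset.filter_true_of_mem fun _ _ => rfl, Finset.card_range]

theorem av_zero (ψ : AddChar F ℂ) (Y : Matrix (Fin n) (Fin n) F → ℂ) :
    av ψ (fun _ => 0) ∅ Y = Y 1 := by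
  unfold av
  rw [US_zero, Finset.sum_singleton, Finset.card_singleton]
  have h : sd ∅ (1 : Matrix (Fin n) (Fin n) F) = 0 := by
    unfold sd
    refine Finset.sum_eq_zero fun i _ => Finset.sum_eq_zero fun j _ => if_neg ?_
    rintro ⟨-, h⟩
    exact absurd h (Finset.notMem_empty _)
  rw [h, neg_zero, AddChar.map_zero_eq_one, mul_one, Nat.cast_one, div_one]

theorem exists_S (hD : S_DIM) (hX : S_XMC) {ψ : AddChar F ℂ} (hψ : ψ ≠ 1)
    {X : GL (Fin n) F → ℂ} (h : IsIrr X) :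
    ∃ S : Finset ℕ, S ⊆ Finset.Ioo 0 n ∧ mS ψ S (xm X) ≠ 0 := by
  by_contra hc
  push Not at hc
  obtain ⟨-, h2, h3, -, -⟩ := hX n F X h.isChr
  have h1 := hD F ψ hψ (fun _ => 0) monotone_const n ∅
    (fun i hi => absurd hi (Finset.notMem_empty i)) (xm X) h2
  rw [av_zero, h3] at h1
  refine h.one_ne_zero (h1.trans (Finset.sum_eq_zero fun S hS => ?_))
  rw [Finset.empty_union, hc S, mul_zero]
  intro i hi
  have h4 := Finset.mem_powerset.1 hS hi
  rw [Finset.mem_filter, w_zero, Finset.mem_range] at h4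
  exact Finset.mem_Ioo.2 ⟨h4.2, h4.1⟩

theorem exists_max (hD : S_DIM) (hX : S_XMC) {ψ : AddChar F ℂ} (hψ : ψ ≠ 1)
    {X : GL (Fin n) F → ℂ} (h : IsIrr X) :
    ∃ S : Finset ℕ, S ⊆ Finset.Ioo 0 n ∧ mS ψ S (xm X) ≠ 0 ∧ S.card = lev ψ X := by
  classical
  obtain ⟨S, hS, h1⟩ := exists_S hD hX hψ h
  have hne : ((Finset.Ioo 0 n).powerset.filter fun S => mS ψ S (xm X) ≠ 0).Nonempty :=
    ⟨S, Finset.mem_filter.2 ⟨Finset.mem_powerset.2 hS, h1⟩⟩
  obtain ⟨T, hT, h2⟩ := Finset.exists_mem_eq_sup _ hne Finset.card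
  rw [Finset.mem_filter, Finset.mem_powerset] at hT
  refine ⟨T, hT.1, hT.2, ?_⟩
  rw [← h2]
  unfold lev
  congr

/-- The representation of dimension one. -/
def rp (l : Fˣ →* ℂˣ) : Representation ℂ (GL (Fin n) F) (Fin 1 → ℂ) where
  toFun g := ((l (Matrix.GeneralLinearGroup.det g) : ℂˣ) : ℂ) • LinearMap.id
  map_one' := by
    rw [map_one, map_one, Units.val_one, one_smul]
    rfl
  map_mul' a b := by
    rw [map_mul, map_mul, Units.val_mul]
    refine LinearMap.ext fun v => ?_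
    simp only [LinearMap.smul_apply, LinearMap.id_apply, Module.End.mul_apply, mul_smul, map_smul]
    rw [smul_comm]

theorem isChr_ld (l : Fˣ →* ℂˣ) : IsChr (ld l : GL (Fin n) F → ℂ) := by
  refine ⟨1, rp l, ?_⟩
  funext g
  change LinearMap.trace ℂ (Fin 1 → ℂ)
    (((l (Matrix.GeneralLinearGroup.det g) : ℂˣ) : ℂ) • LinearMap.id) = _
  rw [map_smul, LinearMap.trace_id]
  simp [ld]

theorem ld_inv (l : Fˣ →* ℂˣ) (g : GL (Fin n) F) : ld l g⁻¹ = (ld l g)⁻¹ := by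
  unfold ld
  rw [map_inv, map_inv, Units.val_inv_eq_inv_val]

theorem ld_ne_zero (l : Fˣ →* ℂˣ) (g : GL (Fin n) F) : ld l g ≠ 0 :=
  Units.ne_zero _

theorem isIrr_ld (l : Fˣ →* ℂˣ) : IsIrr (ld l : GL (Fin n) F → ℂ) := by
  refine (isChr_ld l).isIrr ?_
  have h : ∀ g : GL (Fin n) F, ld l g * ld l g⁻¹ = 1 := fun g => by
    rw [ld_inv, mul_inv_cancel₀ (ld_ne_zero l g)]
  simp [h]

theorem eq_ld {X : GL (Fin n) F → ℂ} (h : IsIrr X) (l : Fˣ →* ℂˣ)
    (hm : mlt (HK n F 0) (ld l) X ≠ 0) : X = ld l := by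
  classical
  by_contra hne
  refine hm ?_
  unfold mlt
  have h1 : ∀ g : GL (Fin n) F, (if g ∈ HK n F 0 then X g * (ld l g)⁻¹ else 0) =
      X g * ld l g⁻¹ := fun g => by
    rw [if_pos, ld_inv]
    intro j hj
    exact absurd hj (Nat.not_lt_zero _)
  rw [div_eq_zero_iff]
  left
  refine Eq.trans ?_ (h.sum_ne (isIrr_ld l) hne)
  refine Finset.sum_congr rfl fun g _ => ?_
  rw [← h1 g]

end STR

open STR in
theorem t_STR : M_STR := by
  intro hD hX hL hI hV hM n F _ _ _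
  obtain ⟨ψ, hψ⟩ : ∃ ψ : AddChar F ℂ, ψ ≠ 1 := by
    obtain ⟨ψ, h⟩ := (AddChar.exists_apply_ne_zero (a := (1 : F))).2 one_ne_zero
    refine ⟨ψ, fun h1 => h ?_⟩
    rw [h1]
    rfl
  refine ⟨ψ, lev ψ, hψ, fun X h => ?_⟩
  have hq : (1 : ℝ) ≤ (Nat.card F : ℝ) := by
    have : 0 < Nat.card F := Nat.card_pos
    exact_mod_cast this
  obtain ⟨S, hS, hS1, hS2⟩ := exists_max hD hX hψ h
  have hlev : lev ψ X ≤ n - 1 := by
    rw [← hS2]
    have := Finset.card_le_card hS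
    rwa [Nat.card_Ioo, Nat.sub_zero] at this
  have hmax : ∀ T : Finset ℕ, T ⊆ Finset.Ioo 0 n → S.card < T.card → mS ψ T (xm X) = 0 := by
    intro T hT h1
    by_contra h2
    have := le_lev hT h2
    omega
  obtain ⟨K, hK, hK2, l, hl⟩ := hV n F ψ hψ X h.isChr S hS hS1 hmax
  rw [hS2] at hK2
  refine ⟨?_, ⟨K, hK, hK2, l, hl⟩, fun T hT hT1 => le_lev hT hT1, fun T hT => ?_, fun h0 => ?_⟩
  · obtain ⟨k, hk⟩ := (hX n F X h.isChr).2.2.2.2 ψ (fun i => i) S monotone_id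
    have hk' : mS ψ S (xm X) = k := hk
    have h1 := hL n F ψ hψ X h.isChr S hS
    have h2 := hI.2 n S hS
    rw [hk', Complex.natCast_re] at h1
    have hk1 : (1 : ℝ) ≤ k := by
      rcases Nat.eq_zero_or_pos k with h3 | h3
      · rw [hk', h3, Nat.cast_zero] at hS1
        exact absurd rfl hS1
      · exact_mod_cast h3
    have h3 : ((n : ℝ) * lev ψ X / 2) ≤ ((n : ℝ) ^ 2 - Q S n) / 2 := by
      rw [← hS2]
      have h4 : ((Q S n : ℝ) + n * S.card) ≤ (n : ℝ) ^ 2 := by exact_mod_cast h2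
      linarith
    have h4 := Real.rpow_le_rpow_of_exponent_le hq h3
    have h5 : (0 : ℝ) ≤ (Nat.card F : ℝ) ^ (((n : ℝ) ^ 2 - Q S n) / 2) := by positivity
    nlinarith
  · have h1 := (hM n F ψ).1 X h T
    refine ⟨h1.1, (h1.2 K l hK hl).trans ?_⟩
    have h2 : K ^ 2 ≤ 4 * lev ψ X ^ 2 := by
      calc K ^ 2 ≤ (2 * lev ψ X) ^ 2 := Nat.pow_le_pow_left hK2 2
        _ = _ := by ring
    have h3 : (n : ℝ) ^ K ≤ (n : ℝ) ^ (2 * lev ψ X) := by
      rcases Nat.eq_zero_or_pos n with h4 | h4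
      · have h5 : K = 0 := by omega
        have h6 : lev ψ X = 0 := by omega
        rw [h5, h6]
      · exact pow_le_pow_right₀ (by exact_mod_cast h4) hK2
    have h4 : (Nat.card F : ℝ) ^ (K ^ 2) ≤ (Nat.card F : ℝ) ^ (4 * lev ψ X ^ 2) :=
      pow_le_pow_right₀ hq h2
    exact mul_le_mul h3 h4 (by positivity) (by positivity)
  · obtain rfl : K = 0 := by omega
    exact ⟨l, eq_ld h l hl⟩

end

end FLC
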