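import Mathlib
import Pool.Agent.FLC.StA

/-!
# FLC: the extension by zero of a character of `GL_n(q)` to all matrices

MP_5b5212_al, module XMC.
-/

set_option autoImplicit false

namespace FLC

open Pool.Agent.Lib_helper13

theorem xmc_coe {n : ℕ} {F : Type} [Field F] (X : GL (Fin n) F → ℂ) (g : GL (Fin n) F) :
    xm X (g : Matrix (Fin n) (Fin n) F) = X g := by
  have h : IsUnit (g : Matrix (Fin n) (Fin n) F) := g.isUnit
  have h2 : h.unit = g := Units.ext h.unit_spec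
  unfold xm
  rw [dif_pos h, h2]

theorem xmc_cls {n : ℕ} {F : Type} [Field F] (X : GL (Fin n) F → ℂ)
    (hX : ∀ g x : GL (Fin n) F, X (g * x * g⁻¹) = X x) : Cls (xm X) := by
  intro h A
  by_cases hA : IsUnit A
  · obtain ⟨a, rfl⟩ := hA
    have e1 : (h : Matrix (Fin n) (Fin n) F) * (a : Matrix (Fin n) (Fin n) F) *
        ((h⁻¹ : GL (Fin n) F) : Matrix (Fin n) (Fin n) F) =
        ((h * a * h⁻¹ : GL (Fin n) F) : Matrix (Fin n) (Fin n) F) := rfl
    rw [e1, xmc_coe, xmc_coe, hX]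
  · have hB : ¬ IsUnit ((h : Matrix (Fin n) (Fin n) F) * A *
        ((h⁻¹ : GL (Fin n) F) : Matrix (Fin n) (Fin n) F)) := by
      rw [Units.isUnit_mul_units, Units.isUnit_units_mul]
      exact hA
    unfold xm
    rw [dif_neg hA, dif_neg hB]

theorem t_XMC : M_XMC := by
  intro hMN hBRG n F _ _ _ X hX
  have hc := xmc_cls X hX.conj_eq
  refine ⟨hc, fun h _ A => hc h A, ?_, xmc_coe X, ?_⟩
  · exact xmc_coe X 1
  · intro ψ d S hd
    obtain ⟨H, _, hLC, hav⟩ := hBRG n F ψ d S hd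
    obtain ⟨k, hk⟩ := (hMN (GL (Fin n) F) X hX).1 H _ hLC
    exact ⟨k, by rw [hav X, hk]⟩

end FLC
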