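import Mathlib
import Pool.Agent.FLC.StA

/-!
# FLC: the numerical part of the bound for the zeta sum

MP_5b5212_al, module ZEN.
-/

set_option autoImplicit false

namespace FLC

theorem zen_mono {q : ℕ} (hq : 2 ≤ q) {a b : ℝ} (h : a ≤ b) : (q : ℝ) ^ a ≤ (q : ℝ) ^ b :=
  Real.rpow_le_rpow_of_exponent_le (by exact_mod_cast (by omega : 1 ≤ q)) h

theorem zen_four {q : ℕ} (hq : 2 ≤ q) : (4 : ℝ) ≤ (q : ℝ) ^ (2 : ℝ) := by
  have h : (2 : ℝ) ≤ q := by exact_mod_cast hq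
  have h2 : (q : ℝ) ^ (2 : ℝ) = (q : ℝ) ^ (2 : ℕ) := by
    rw [← Real.rpow_natCast]
    norm_num
  rw [h2]
  nlinarith

theorem zen_div {q : ℕ} (hq : 2 ≤ q) {s : ℝ} (hs : 0 < s) (a : ℝ) :
    ((q : ℝ) ^ a / 4) ^ (-s) ≤ (q : ℝ) ^ (2 * s - s * a) := by
  have hq0 : (0 : ℝ) < q := by exact_mod_cast (by omega : 0 < q)
  have h1 : (q : ℝ) ^ (a - 2) ≤ (q : ℝ) ^ a / 4 := by
    rw [Real.rpow_sub hq0]
    exact div_le_div_of_nonneg_left (Real.rpow_nonneg hq0.le _) (by norm_num) (zen_four hq)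
  have h2 : ((q : ℝ) ^ a / 4) ^ (-s) ≤ ((q : ℝ) ^ (a - 2)) ^ (-s) :=
    Real.rpow_le_rpow_of_nonpos (Real.rpow_pos_of_pos hq0 _) h1 (by linarith)
  rw [← Real.rpow_mul hq0.le] at h2
  have h3 : (a - 2) * -s = 2 * s - s * a := by ring
  rwa [h3] at h2

theorem zen_lin {q : ℕ} (hq : 2 ≤ q) (j : ℕ) : 2 * (j : ℝ) + 1 ≤ (q : ℝ) ^ (2 * (j : ℝ)) := by
  have hq0 : (0 : ℝ) < q := by exact_mod_cast (by omega : 0 < q)
  have h1 : (1 : ℝ) + j * 3 ≤ (1 + 3) ^ j := one_add_mul_le_pow (by norm_num) j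
  have h2 : ((1 : ℝ) + 3) ^ j ≤ ((q : ℝ) ^ (2 : ℝ)) ^ j :=
    pow_le_pow_left₀ (by norm_num) (by have := zen_four hq; linarith) j
  have h3 : ((q : ℝ) ^ (2 : ℝ)) ^ j = (q : ℝ) ^ (2 * (j : ℝ)) := by
    rw [Real.rpow_mul hq0.le, Real.rpow_natCast ((q : ℝ) ^ (2 : ℝ)) j]
  have h4 : (0 : ℝ) ≤ j := Nat.cast_nonneg j
  rw [← h3]
  linarith

theorem zen_term {q : ℕ} (hq : 2 ≤ q) {s : ℝ} (hs : 0 < s) {n j : ℕ} (hj : 1 ≤ j)
    (hjn : (j : ℝ) ≤ s / 64 * n) (hn : 2 + 2 * s ≤ s * n / 8) :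
    ((q : ℝ) - 1) * (2 * j + 1) * (q : ℝ) ^ (8 * j ^ 2) *
        ((q : ℝ) ^ ((n : ℝ) * j / 2) / 4) ^ (-s) ≤
      ((q : ℝ) - 1) * (q : ℝ) ^ (-(s * n / 4)) := by
  have hq0 : (0 : ℝ) < q := by exact_mod_cast (by omega : 0 < q)
  have hq1 : (0 : ℝ) ≤ (q : ℝ) - 1 := by
    have : (2 : ℝ) ≤ q := by exact_mod_cast hq
    linarith
  have hj1 : (1 : ℝ) ≤ j := by exact_mod_cast hj
  have e8 : (q : ℝ) ^ (8 * j ^ 2) = (q : ℝ) ^ (8 * (j : ℝ) ^ 2) := by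
    rw [← Real.rpow_natCast]
    push_cast
    rfl
  have h1 : (2 * (j : ℝ) + 1) * (q : ℝ) ^ (8 * j ^ 2) *
        ((q : ℝ) ^ ((n : ℝ) * j / 2) / 4) ^ (-s) ≤ (q : ℝ) ^ (-(s * n / 4)) := by
    calc (2 * (j : ℝ) + 1) * (q : ℝ) ^ (8 * j ^ 2) *
        ((q : ℝ) ^ ((n : ℝ) * j / 2) / 4) ^ (-s)
        ≤ (q : ℝ) ^ (2 * (j : ℝ)) * (q : ℝ) ^ (8 * (j : ℝ) ^ 2) *
          (q : ℝ) ^ (2 * s - s * ((n : ℝ) * j / 2)) := by
          rw [e8]
          refine mul_le_mul ?_ (zen_div hq hs _) (by positivity) (by positivity)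
          exact mul_le_mul_of_nonneg_right (zen_lin hq j) (by positivity)
      _ = (q : ℝ) ^ (2 * (j : ℝ) + 8 * (j : ℝ) ^ 2 + (2 * s - s * ((n : ℝ) * j / 2))) := by
          rw [← Real.rpow_add hq0, ← Real.rpow_add hq0]
      _ ≤ (q : ℝ) ^ (-(s * n / 4)) := by
          apply zen_mono hq
          have a1 : (j : ℝ) * j ≤ j * (s / 64 * n) := mul_le_mul_of_nonneg_left hjn (by linarith)
          have a2 : (2 + 2 * s) * j ≤ s * n / 8 * j := mul_le_mul_of_nonneg_right hn (by linarith)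
          have a3 : 0 ≤ s * n * (j - 1) := by
            have : 0 ≤ s * (n : ℝ) := by positivity
            exact mul_nonneg this (by linarith)
          nlinarith
  calc ((q : ℝ) - 1) * (2 * j + 1) * (q : ℝ) ^ (8 * j ^ 2) *
        ((q : ℝ) ^ ((n : ℝ) * j / 2) / 4) ^ (-s)
      = ((q : ℝ) - 1) * ((2 * (j : ℝ) + 1) * (q : ℝ) ^ (8 * j ^ 2) *
        ((q : ℝ) ^ ((n : ℝ) * j / 2) / 4) ^ (-s)) := by ring
    _ ≤ _ := mul_le_mul_of_nonneg_left h1 hq1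

theorem zen_exp {s : ℝ} (hs : 0 < s) {n : ℕ} (hn : 128 / (s * Real.log 2) ^ 2 ≤ n) :
    (n : ℝ) + 1 ≤ (2 : ℝ) ^ (s * n / 8) := by
  have hl : 0 < Real.log 2 := Real.log_pos (by norm_num)
  have hsl : 0 < s * Real.log 2 := mul_pos hs hl
  have hn0 : (0 : ℝ) ≤ n := Nat.cast_nonneg n
  have h1 : (2 : ℝ) ^ (s * n / 8) = Real.exp (Real.log 2 * (s * n / 8)) := by
    rw [Real.rpow_def_of_pos (by norm_num)]
  have h2 : 0 ≤ Real.log 2 * (s * n / 8) := by positivity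
  have h3 := Real.quadratic_le_exp_of_nonneg h2
  rw [h1]
  have h4 : 128 ≤ n * (s * Real.log 2) ^ 2 := by
    rwa [div_le_iff₀ (by positivity)] at hn
  have h5 : (n : ℝ) ≤ (Real.log 2 * (s * n / 8)) ^ 2 / 2 := by
    have e : (Real.log 2 * (s * n / 8)) ^ 2 / 2 = n * (n * (s * Real.log 2) ^ 2) / 128 := by ring
    rw [e]
    have := mul_le_mul_of_nonneg_left h4 hn0
    linarith
  linarith

theorem t_ZEN : S_ZEN := by
  intro s hs
  obtain ⟨r, hr⟩ := exists_nat_ge (max (max (8 * (2 + 2 * s) / s) (128 * (3 + 9 * s / 4) / s ^ 2))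
    (max 1 (128 / (s * Real.log 2) ^ 2)))
  refine ⟨s / 8, s / 64, r, by positivity, by positivity, fun n hn q hq => ?_⟩
  have hq2 : (2 : ℝ) ≤ q := by exact_mod_cast hq
  have hq0 : (0 : ℝ) < q := by linarith
  have hq1 : (0 : ℝ) ≤ (q : ℝ) - 1 := by linarith
  have hrn : (r : ℝ) ≤ n := by exact_mod_cast hn
  have hmax := hr.trans hrn
  have g1 : 8 * (2 + 2 * s) / s ≤ n := ((le_max_left _ _).trans (le_max_left _ _)).trans hmax
  have g2 : 128 * (3 + 9 * s / 4) / s ^ 2 ≤ n :=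
    ((le_max_right _ _).trans (le_max_left _ _)).trans hmax
  have g3 : (1 : ℝ) ≤ n := ((le_max_left _ _).trans (le_max_right _ _)).trans hmax
  have g4 : 128 / (s * Real.log 2) ^ 2 ≤ n :=
    ((le_max_right _ _).trans (le_max_right _ _)).trans hmax
  rw [div_le_iff₀ hs] at g1
  rw [div_le_iff₀ (by positivity)] at g2
  have hA : ∑ j ∈ (Finset.Icc 1 n).filter (fun j : ℕ => (j : ℝ) ≤ s / 64 * n),
      ((q : ℝ) - 1) * (2 * j + 1) * (q : ℝ) ^ (8 * j ^ 2) *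
        ((q : ℝ) ^ ((n : ℝ) * j / 2) / 4) ^ (-s) ≤
      n * (((q : ℝ) - 1) * (q : ℝ) ^ (-(s * n / 4))) := by
    refine (Finset.sum_le_card_nsmul _ _ (((q : ℝ) - 1) * (q : ℝ) ^ (-(s * n / 4))) ?_).trans ?_
    · intro j hj
      rw [Finset.mem_filter, Finset.mem_Icc] at hj
      exact zen_term hq hs hj.1.1 hj.2 (by linarith)
    · rw [nsmul_eq_mul]
      refine mul_le_mul_of_nonneg_right ?_ (mul_nonneg hq1 (Real.rpow_nonneg hq0.le _))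
      have hc : ((Finset.Icc 1 n).filter (fun j : ℕ => (j : ℝ) ≤ s / 64 * n)).card ≤ n := by
        refine (Finset.card_filter_le _ _).trans ?_
        rw [Nat.card_Icc]
        omega
      exact_mod_cast hc
  have hB : 4 * (q : ℝ) ^ n * ((q : ℝ) ^ (s / 64 * (n : ℝ) ^ 2 / 2) / 4) ^ (-s) ≤
      ((q : ℝ) - 1) * (q : ℝ) ^ (-(s * n / 4)) := by
    calc 4 * (q : ℝ) ^ n * ((q : ℝ) ^ (s / 64 * (n : ℝ) ^ 2 / 2) / 4) ^ (-s)
        ≤ (q : ℝ) ^ (2 : ℝ) * (q : ℝ) ^ (n : ℝ) *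
          (q : ℝ) ^ (2 * s - s * (s / 64 * (n : ℝ) ^ 2 / 2)) := by
          rw [Real.rpow_natCast (q : ℝ) n]
          refine mul_le_mul ?_ (zen_div hq hs _) (by positivity) (by positivity)
          exact mul_le_mul_of_nonneg_right (zen_four hq) (by positivity)
      _ = (q : ℝ) ^ (2 + (n : ℝ) + (2 * s - s * (s / 64 * (n : ℝ) ^ 2 / 2))) := by
          rw [← Real.rpow_add hq0, ← Real.rpow_add hq0]
      _ ≤ (q : ℝ) ^ (-(s * n / 4)) := by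
          apply zen_mono hq
          have a1 : 128 * (3 + 9 * s / 4) * n ≤ n * s ^ 2 * n :=
            mul_le_mul_of_nonneg_right g2 (by linarith)
          have a2 : s ≤ s * n := by nlinarith
          nlinarith
      _ ≤ ((q : ℝ) - 1) * (q : ℝ) ^ (-(s * n / 4)) := by
          have : 0 ≤ (q : ℝ) ^ (-(s * n / 4)) := Real.rpow_nonneg hq0.le _
          nlinarith
  have hC : ((n : ℝ) + 1) * (q : ℝ) ^ (-(s * n / 4)) ≤ (q : ℝ) ^ (-(s / 8 * n)) := by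
    have h1 : (n : ℝ) + 1 ≤ (q : ℝ) ^ (s * n / 8) := by
      refine (zen_exp hs g4).trans ?_
      exact Real.rpow_le_rpow (by norm_num) hq2 (by positivity)
    calc ((n : ℝ) + 1) * (q : ℝ) ^ (-(s * n / 4))
        ≤ (q : ℝ) ^ (s * n / 8) * (q : ℝ) ^ (-(s * n / 4)) :=
          mul_le_mul_of_nonneg_right h1 (Real.rpow_nonneg hq0.le _)
      _ = (q : ℝ) ^ (-(s / 8 * n)) := by
          rw [← Real.rpow_add hq0]
          congr 1
          ring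
  have hD := mul_le_mul_of_nonneg_left hC hq1
  have hE : ((q : ℝ) - 1) * (((n : ℝ) + 1) * (q : ℝ) ^ (-(s * n / 4))) =
      n * (((q : ℝ) - 1) * (q : ℝ) ^ (-(s * n / 4))) +
        ((q : ℝ) - 1) * (q : ℝ) ^ (-(s * n / 4)) := by ring
  rw [hE] at hD
  linarith

end FLC
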