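import Mathlib
import Pool.Agent.FLC.StA

/-!
# FLC: the zeta sum of `GL_n(q)` over the nonlinear characters

MP_5b5212_al, module ZET.
-/

set_option autoImplicit false

namespace FLC

open Pool.Agent.Lib_helper13 RSF

/-- The number of linear characters of the multiplicative group. -/
lemma zet_card_hom (F : Type) [Field F] [Fintype F] :
    Finite (Fˣ →* ℂˣ) ∧ Nat.card (Fˣ →* ℂˣ) = Nat.card F - 1 := by
  have h1 : NeZero ((Monoid.exponent Fˣ : ℕ) : ℂ) :=
    ⟨Nat.cast_ne_zero.2 Monoid.exponent_ne_zero_of_finite⟩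
  have h2 : Nat.card (Fˣ →* ℂˣ) = Nat.card Fˣ :=
    CommGroup.card_monoidHom_of_hasEnoughRootsOfUnity Fˣ ℂ
  refine ⟨Nat.finite_of_card_ne_zero ?_, ?_⟩
  · rw [h2]
    exact Nat.card_pos.ne'
  · rw [h2, Nat.card_units]

open Classical in
/-- The number of characters of a given level. -/
lemma zet_card_level (n : ℕ) (F : Type) [Field F] [Fintype F] [DecidableEq F] (ψ : AddChar F ℂ)
    (hMB : S_MB) (A : Finset (GL (Fin n) F → ℂ)) (j : ℕ)
    (hA : ∀ X ∈ A, IsIrr X ∧ ∃ K : ℕ, K ≤ n ∧ K ≤ 2 * j ∧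
      ∃ l : Fˣ →* ℂˣ, mlt (HK n F K) (ld l) X ≠ 0) :
    (A.card : ℝ) ≤ ((Nat.card F : ℝ) - 1) * (2 * j + 1) * (Nat.card F : ℝ) ^ (8 * j ^ 2) := by
  obtain ⟨hfin, hcard⟩ := zet_card_hom F
  have hfint : Fintype (Fˣ →* ℂˣ) := Fintype.ofFinite _
  have h1 : ∀ X : GL (Fin n) F → ℂ, ∃ p : ℕ × (Fˣ →* ℂˣ), X ∈ A →
      p.1 ≤ n ∧ p.1 ≤ 2 * j ∧ mlt (HK n F p.1) (ld p.2) X ≠ 0 := by
    intro X
    by_cases hX : X ∈ A
    · obtain ⟨K, hK, hK2, l, hl⟩ := (hA X hX).2
      exact ⟨(K, l), fun _ => ⟨hK, hK2, hl⟩⟩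
    · exact ⟨(0, 1), fun h => absurd h hX⟩
  choose g hg using h1
  have h2 : A.card ≤ Nat.card F ^ (8 * j ^ 2) * (A.image g).card := by
    refine Finset.card_le_mul_card_image A _ ?_
    intro a ha
    obtain ⟨X0, hX0, rfl⟩ := Finset.mem_image.1 ha
    have h3 := hg X0 hX0
    have h4 := (hMB n F ψ).2 (g X0).1 (g X0).2 h3.1 (A.filter fun X => g X = g X0) (by
      intro X hX
      rw [Finset.mem_filter] at hX
      refine ⟨(hA X hX.1).1, ?_⟩
      have h5 := (hg X hX.1).2.2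
      rw [hX.2] at h5
      exact h5)
    refine h4.trans (Nat.pow_le_pow_right Nat.card_pos ?_)
    have h6 : (g X0).1 ^ 2 ≤ (2 * j) ^ 2 := Nat.pow_le_pow_left h3.2.1 2
    calc 2 * (g X0).1 ^ 2 ≤ 2 * (2 * j) ^ 2 := Nat.mul_le_mul_left _ h6
      _ = 8 * j ^ 2 := by ring
  have h3 : (A.image g).card ≤ (2 * j + 1) * (Nat.card F - 1) := by
    have h4 : A.image g ⊆ (Finset.range (2 * j + 1)) ×ˢ (Finset.univ : Finset (Fˣ →* ℂˣ)) := by
      intro p hp
      obtain ⟨X, hX, rfl⟩ := Finset.mem_image.1 hp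
      rw [Finset.mem_product, Finset.mem_range]
      exact ⟨Nat.lt_succ_of_le (hg X hX).2.1, Finset.mem_univ _⟩
    refine (Finset.card_le_card h4).trans ?_
    rw [Finset.card_product, Finset.card_range, ← hcard, Nat.card_eq_fintype_card]
    exact le_rfl
  have h4 : A.card ≤ Nat.card F ^ (8 * j ^ 2) * ((2 * j + 1) * (Nat.card F - 1)) :=
    h2.trans (Nat.mul_le_mul_left _ h3)
  have h5 : ((Nat.card F - 1 : ℕ) : ℝ) = (Nat.card F : ℝ) - 1 := by
    rw [Nat.cast_sub Nat.card_pos, Nat.cast_one]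
  have h6 : (A.card : ℝ) ≤ (Nat.card F : ℝ) ^ (8 * j ^ 2) * ((2 * j + 1) * ((Nat.card F : ℝ) - 1)) := by
    rw [← h5]
    exact_mod_cast h4
  refine h6.trans (le_of_eq ?_)
  ring

open Classical in
/-- The splitting of the sum. -/
lemma zet_split {ι : Type} (T : Finset ι) (f : ι → ℝ) (j : ι → ℕ) (n : ℕ) (η : ℝ)
    (hj : ∀ X ∈ T, 1 ≤ j X ∧ j X ≤ n) (N B : ℕ → ℝ) (M C : ℝ) (hC : 0 ≤ C)
    (hN : ∀ i, 1 ≤ i → ((T.filter fun X => j X = i).card : ℝ) ≤ N i)
    (hB : ∀ i, 0 ≤ B i) (hfB : ∀ X ∈ T, f X ≤ B (j X))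
    (hM : (T.card : ℝ) ≤ M) (hfC : ∀ X ∈ T, η * n < j X → f X ≤ C) :
    ∑ X ∈ T, f X ≤ (∑ i ∈ (Finset.Icc 1 n).filter (fun i : ℕ => (i : ℝ) ≤ η * n), N i * B i) +
      M * C := by
  rw [← Finset.sum_filter_add_sum_filter_not T (fun X => (j X : ℝ) ≤ η * n)]
  refine add_le_add ?_ ?_
  · rw [← Finset.sum_fiberwise_of_maps_to
      (t := (Finset.Icc 1 n).filter (fun i : ℕ => (i : ℝ) ≤ η * n)) (g := j) ?_]
    · refine Finset.sum_le_sum fun i hi => ?_
      rw [Finset.mem_filter, Finset.mem_Icc] at hi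
      calc ∑ X ∈ (T.filter fun X => (j X : ℝ) ≤ η * n).filter (fun X => j X = i), f X
          ≤ ∑ X ∈ (T.filter fun X => (j X : ℝ) ≤ η * n).filter (fun X => j X = i), B i := by
            refine Finset.sum_le_sum fun X hX => ?_
            rw [Finset.mem_filter, Finset.mem_filter] at hX
            have := hfB X hX.1.1
            rw [hX.2] at this
            exact this
        _ = (((T.filter fun X => (j X : ℝ) ≤ η * n).filter (fun X => j X = i)).card : ℝ) * B i := by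
            rw [Finset.sum_const, nsmul_eq_mul]
        _ ≤ N i * B i := by
            refine mul_le_mul_of_nonneg_right (le_trans ?_ (hN i hi.1.1)) (hB i)
            have h1 : (T.filter fun X => (j X : ℝ) ≤ η * n).filter (fun X => j X = i) ⊆
                T.filter fun X => j X = i := by
              intro X hX
              rw [Finset.mem_filter, Finset.mem_filter] at hX
              exact Finset.mem_filter.2 ⟨hX.1.1, hX.2⟩
            exact_mod_cast Finset.card_le_card h1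
    · intro X hX
      rw [Finset.mem_filter] at hX
      rw [Finset.mem_filter, Finset.mem_Icc]
      exact ⟨hj X hX.1, hX.2⟩
  · calc ∑ X ∈ T.filter (fun X => ¬ (j X : ℝ) ≤ η * n), f X
        ≤ ∑ X ∈ T.filter (fun X => ¬ (j X : ℝ) ≤ η * n), C := by
          refine Finset.sum_le_sum fun X hX => ?_
          rw [Finset.mem_filter] at hX
          exact hfC X hX.1 (not_le.1 hX.2)
      _ = ((T.filter (fun X => ¬ (j X : ℝ) ≤ η * n)).card : ℝ) * C := by
          rw [Finset.sum_const, nsmul_eq_mul]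
      _ ≤ M * C := by
          refine mul_le_mul_of_nonneg_right (le_trans ?_ hM) hC
          exact_mod_cast Finset.card_le_card (Finset.filter_subset _ _)

theorem t_ZET : M_ZET := by
  classical
  intro hSTR hMB hIRC hKB hKC hZEN s hs
  obtain ⟨c, η, r, hc, hη, hnum⟩ := hZEN s hs
  refine ⟨c, max r 1, hc, fun n hn F _ _ _ => ?_⟩
  have hn1 : 1 ≤ n := (le_max_right r 1).trans hn
  have hq : 2 ≤ Nat.card F := by
    have h1 : Nontrivial F := inferInstance
    have := Finite.one_lt_card (α := F)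
    omega
  have hq0 : (0 : ℝ) < Nat.card F := by
    have : (2 : ℝ) ≤ Nat.card F := by exact_mod_cast hq
    linarith
  have hq1 : (1 : ℝ) ≤ Nat.card F := by
    have : (2 : ℝ) ≤ Nat.card F := by exact_mod_cast hq
    linarith
  obtain ⟨ψ, j, hψ, hX⟩ := hSTR n F
  refine le_trans ?_ (hnum n ((le_max_left r 1).trans hn) (Nat.card F) hq)
  set T := (irrF (GL (Fin n) F)).filter (fun X => X 1 ≠ 1) with hT
  have hTirr : ∀ X ∈ T, IsIrr X ∧ X 1 ≠ 1 := by
    intro X h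
    rw [hT, Finset.mem_filter, mem_irrF] at h
    exact h
  -- the level
  have hlev : ∀ X ∈ T, 1 ≤ j X := by
    intro X h
    obtain ⟨h1, h2⟩ := hTirr X h
    by_contra h3
    obtain ⟨l, hl⟩ := (hX X h1).2.2.2.2 (by omega)
    apply h2
    rw [hl]
    change ((l (Matrix.GeneralLinearGroup.det 1) : ℂˣ) : ℂ) = 1
    rw [map_one, map_one, Units.val_one]
  have hdeg : ∀ X ∈ T, ∀ y : ℝ, y ≤ (n : ℝ) * j X / 2 → (Nat.card F : ℝ) ^ y / 4 ≤ (X 1).re := by
    intro X h y hy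
    have h1 := (hX X (hTirr X h).1).1
    have h2 : (Nat.card F : ℝ) ^ y ≤ (Nat.card F : ℝ) ^ ((n : ℝ) * j X / 2) :=
      Real.rpow_le_rpow_of_exponent_le hq1 hy
    linarith
  have hpow : ∀ X ∈ T, ∀ y : ℝ, y ≤ (n : ℝ) * j X / 2 →
      (X 1).re ^ (-s) ≤ ((Nat.card F : ℝ) ^ y / 4) ^ (-s) := by
    intro X h y hy
    refine Real.rpow_le_rpow_of_nonpos ?_ (hdeg X h y hy) (by linarith)
    have := Real.rpow_pos_of_pos hq0 y
    positivity
  refine zet_split T (fun X => (X 1).re ^ (-s)) (fun X => min (j X) n) n η ?_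
    (fun i => ((Nat.card F : ℝ) - 1) * (2 * i + 1) * (Nat.card F : ℝ) ^ (8 * i ^ 2))
    (fun i => ((Nat.card F : ℝ) ^ ((n : ℝ) * i / 2) / 4) ^ (-s))
    (4 * (Nat.card F : ℝ) ^ n) (((Nat.card F : ℝ) ^ (η * (n : ℝ) ^ 2 / 2) / 4) ^ (-s))
    ?_ ?_ ?_ ?_ ?_ ?_
  · intro X h
    exact ⟨le_min (hlev X h) hn1, min_le_right _ _⟩
  · have := Real.rpow_pos_of_pos hq0 (η * (n : ℝ) ^ 2 / 2)
    positivity
  · intro i hi
    refine zet_card_level n F ψ hMB _ i ?_
    intro X h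
    rw [Finset.mem_filter] at h
    obtain ⟨h1, h2⟩ := h
    have h3 := (hTirr X h1).1
    refine ⟨h3, ?_⟩
    obtain ⟨K, hK, hK2, l, hl⟩ := (hX X h3).2.1
    refine ⟨K, hK, ?_, l, hl⟩
    rw [← h2]
    rcases le_total (j X) n with h4 | h4
    · rw [min_eq_left h4]
      exact hK2
    · rw [min_eq_right h4]
      omega
  · intro i
    have := Real.rpow_pos_of_pos hq0 ((n : ℝ) * i / 2)
    positivity
  · intro X h
    refine hpow X h _ ?_
    have h1 : ((min (j X) n : ℕ) : ℝ) ≤ j X := by exact_mod_cast min_le_left (j X) n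
    have h2 : (n : ℝ) * (min (j X) n : ℕ) ≤ (n : ℝ) * j X :=
      mul_le_mul_of_nonneg_left h1 (Nat.cast_nonneg n)
    linarith
  · have h1 : T.card ≤ 4 * Nat.card F ^ n := by
      calc T.card ≤ (irrF (GL (Fin n) F)).card := Finset.card_le_card (Finset.filter_subset _ _)
        _ ≤ Nat.card (ConjClasses (GL (Fin n) F)) := hIRC _
        _ ≤ _ := hKB F n
        _ ≤ 4 * Nat.card F ^ n := hKC F n
    exact_mod_cast h1
  · intro X h h1
    refine hpow X h _ ?_
    have h2 : ((min (j X) n : ℕ) : ℝ) ≤ j X := by exact_mod_cast min_le_left (j X) n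
    have h3 : (n : ℝ) * (η * n) ≤ (n : ℝ) * j X :=
      mul_le_mul_of_nonneg_left (h1.le.trans h2) (Nat.cast_nonneg n)
    have h4 : η * (n : ℝ) ^ 2 / 2 = (n : ℝ) * (η * n) / 2 := by ring
    rw [h4]
    linarith

end FLC
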