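import Pool.Agent.FLC.BRG

/-!
# FLC, module BR1: Bruhat decomposition
-/

namespace FLC

open Pool.Agent.Lib_helper13 RSF

noncomputable section

namespace BR1

section

variable {n : ℕ} {F : Type} [Field F]

/-- The monomial matrices. -/
def mon (σ : Equiv.Perm (Fin n)) (t : Fin n → Fˣ) : Matrix (Fin n) (Fin n) F :=
  Matrix.of fun i j => if σ j = i then (t j : F) else 0

/-- The first `k` columns are reduced. -/
def Inv (k : ℕ) (B : Matrix (Fin n) (Fin n) F) : Prop :=
  ∃ σ : Fin n → Fin n, ∀ j : Fin n, j.val < k → B (σ j) j ≠ 0 ∧ (∀ i, i ≠ σ j → B i j = 0) ∧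
    ∀ j', j' ≠ j → B (σ j) j' = 0

theorem inv_mon {B : Matrix (Fin n) (Fin n) F} (h : Inv n B) :
    ∃ (σ : Equiv.Perm (Fin n)) (t : Fin n → Fˣ), B = mon σ t := by
  obtain ⟨σ, hσ⟩ := h
  have hinj : Function.Injective σ := by
    intro a b hab
    by_contra hne
    have h1 := (hσ a a.2).2.2 b (fun h => hne h.symm)
    rw [hab] at h1
    exact (hσ b b.2).1 h1
  refine ⟨Equiv.ofBijective σ (Finite.injective_iff_bijective.1 hinj),
    fun j => Units.mk0 (B (σ j) j) (hσ j j.2).1, ?_⟩
  ext i j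
  unfold mon
  rw [Matrix.of_apply]
  change B i j = if σ j = i then B (σ j) j else 0
  split_ifs with h
  · rw [h]
  · exact (hσ j j.2).2.1 i fun h' => h h'.symm

variable [Fintype F]

/-- The matrix of the row operations. -/
def rowm (c i0 : Fin n) (B : Matrix (Fin n) (Fin n) F) : Matrix (Fin n) (Fin n) F :=
  Matrix.of fun i j => if i = j then 1 else if j = i0 ∧ i < i0 then -(B i c / B i0 c) else 0

/-- The matrix of the column operations. -/
def colm (c i0 : Fin n) (B : Matrix (Fin n) (Fin n) F) : Matrix (Fin n) (Fin n) F :=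
  Matrix.of fun i j => if i = j then 1 else if i = c ∧ c < j then -(B i0 j / B i0 c) else 0

theorem rowm_mem (c i0 : Fin n) (B : Matrix (Fin n) (Fin n) F) :
    rowm c i0 B ∈ US n F (fun i => i) := by
  rw [BRG.mem_US]
  refine ⟨fun i => ?_, fun i j hij hP => ?_⟩
  · unfold rowm
    rw [Matrix.of_apply, if_pos rfl]
  · unfold rowm
    rw [Matrix.of_apply, if_neg hij, if_neg]
    rintro ⟨rfl, h⟩
    exact hP ⟨h, fun h' => hij (Fin.ext h')⟩

theorem colm_mem (c i0 : Fin n) (B : Matrix (Fin n) (Fin n) F) :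
    colm c i0 B ∈ US n F (fun i => i) := by
  rw [BRG.mem_US]
  refine ⟨fun i => ?_, fun i j hij hP => ?_⟩
  · unfold colm
    rw [Matrix.of_apply, if_pos rfl]
  · unfold colm
    rw [Matrix.of_apply, if_neg hij, if_neg]
    rintro ⟨rfl, h⟩
    exact hP ⟨h, fun h' => hij (Fin.ext h')⟩

omit [Fintype F] in
theorem rowm_mul (c i0 : Fin n) (B C : Matrix (Fin n) (Fin n) F) (i j : Fin n) :
    (rowm c i0 B * C) i j = C i j + if i < i0 then -(B i c / B i0 c) * C i0 j else 0 := by
  rw [Matrix.mul_apply]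
  by_cases h : i < i0
  · rw [if_pos h, Finset.sum_eq_add i i0 h.ne]
    · unfold rowm
      rw [Matrix.of_apply, Matrix.of_apply, if_pos rfl, if_neg h.ne, if_pos ⟨rfl, h⟩, one_mul]
    · rintro k - ⟨h1, h2⟩
      unfold rowm
      rw [Matrix.of_apply, if_neg h1.symm, if_neg fun h' => h2 h'.1, zero_mul]
    · intro h'
      exact absurd (Finset.mem_univ _) h'
    · intro h'
      exact absurd (Finset.mem_univ _) h'
  · rw [if_neg h, add_zero, Finset.sum_eq_single i]
    · unfold rowm
      rw [Matrix.of_apply, if_pos rfl, one_mul]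
    · intro k _ hk
      unfold rowm
      rw [Matrix.of_apply, if_neg hk.symm, if_neg fun h' => h h'.2, zero_mul]
    · intro h'
      exact absurd (Finset.mem_univ _) h'

omit [Fintype F] in
theorem mul_colm (c i0 : Fin n) (B C : Matrix (Fin n) (Fin n) F) (i j : Fin n) :
    (C * colm c i0 B) i j = C i j + if c < j then C i c * -(B i0 j / B i0 c) else 0 := by
  rw [Matrix.mul_apply]
  by_cases h : c < j
  · rw [if_pos h, Finset.sum_eq_add j c h.ne']
    · unfold colm
      rw [Matrix.of_apply, Matrix.of_apply, if_pos rfl, if_neg h.ne, if_pos ⟨rfl, h⟩, mul_one]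
    · rintro k - ⟨h1, h2⟩
      unfold colm
      rw [Matrix.of_apply, if_neg h1, if_neg fun h' => h2 h'.1, mul_zero]
    · intro h'
      exact absurd (Finset.mem_univ _) h'
    · intro h'
      exact absurd (Finset.mem_univ _) h'
  · rw [if_neg h, add_zero, Finset.sum_eq_single j]
    · unfold colm
      rw [Matrix.of_apply, if_pos rfl, mul_one]
    · intro k _ hk
      unfold colm
      rw [Matrix.of_apply, if_neg hk, if_neg fun h' => h h'.2, mul_zero]
    · intro h'
      exact absurd (Finset.mem_univ _) h'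

omit [Fintype F] in
/-- One step. -/
theorem step (k : ℕ) (hk : k < n) (B : Matrix (Fin n) (Fin n) F) (hdet : B.det ≠ 0)
    (hB : Inv k B) : ∃ c i0 : Fin n, Inv (k + 1) (rowm c i0 B * B * colm c i0 B) := by
  classical
  obtain ⟨σ, hσ⟩ := hB
  obtain ⟨c, hc⟩ : ∃ c : Fin n, c.val = k := ⟨⟨k, hk⟩, rfl⟩
  have hne : (Finset.univ.filter fun i => B i c ≠ 0).Nonempty := by
    by_contra h
    rw [Finset.not_nonempty_iff_eq_empty, Finset.filter_eq_empty_iff] at h
    exact hdet (Matrix.det_eq_zero_of_column_eq_zero c fun i => by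
      by_contra h'
      exact h (Finset.mem_univ i) h')
  obtain ⟨i0, hi0⟩ : ∃ i0, i0 = (Finset.univ.filter fun i => B i c ≠ 0).max' hne := ⟨_, rfl⟩
  have h1 : B i0 c ≠ 0 := by
    have := (Finset.univ.filter fun i => B i c ≠ 0).max'_mem hne
    rw [← hi0] at this
    exact (Finset.mem_filter.1 this).2
  have h2 : ∀ i, i0 < i → B i c = 0 := by
    intro i hi
    by_contra h
    have := (Finset.univ.filter fun i => B i c ≠ 0).le_max' i
      (Finset.mem_filter.2 ⟨Finset.mem_univ _, h⟩)
    rw [← hi0] at this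
    exact absurd this (not_le_of_gt hi)
  refine ⟨c, i0, ?_⟩
  -- the entries of the new matrix
  have hD : ∀ i j, (rowm c i0 B * B * colm c i0 B) i j =
      B i j + (if i < i0 then -(B i c / B i0 c) * B i0 j else 0) +
        (if c < j ∧ i = i0 then -B i0 j else 0) := by
    intro i j
    rw [mul_colm, rowm_mul]
    congr 1
    by_cases hcj : c < j
    · rw [if_pos hcj, rowm_mul]
      rcases lt_trichotomy i i0 with h | h | h
      · rw [if_pos h, if_neg fun h' => h.ne h'.2]
        field_simp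
        ring
      · rw [if_neg (h ▸ lt_irrefl _), if_pos ⟨hcj, h⟩, h]
        field_simp
        ring
      · rw [if_neg (not_lt_of_gt h), if_neg fun h' => h.ne' h'.2, h2 i h]
        ring
    · rw [if_neg hcj, if_neg fun h' => hcj h'.1]
  have hnc : ∀ j : Fin n, j.val < k → j ≠ c := by
    rintro j hj rfl
    omega
  have hsi : ∀ j : Fin n, j.val < k → σ j ≠ i0 := by
    intro j hj h
    have h3 := (hσ j hj).2.2 c (hnc j hj).symm
    rw [h] at h3
    exact h1 h3
  obtain ⟨σ', hσ1, hσ2⟩ : ∃ σ' : Fin n → Fin n, σ' c = i0 ∧ ∀ j, j ≠ c → σ' j = σ j :=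
    ⟨Function.update σ c i0, Function.update_self .., fun j h => Function.update_of_ne h ..⟩
  refine ⟨σ', fun j hj => ?_⟩
  by_cases hjc : j = c
  · subst hjc
    rw [hσ1]
    refine ⟨?_, fun i hi => ?_, fun j' hj' => ?_⟩
    · rw [hD, if_neg (lt_irrefl _), if_neg fun h' => lt_irrefl _ h'.1, add_zero, add_zero]
      exact h1
    · rw [hD, if_neg fun h' : j < j ∧ _ => lt_irrefl _ h'.1, add_zero]
      rcases lt_or_gt_of_ne hi with h | h
      · rw [if_pos h]
        field_simp
        ring
      · rw [if_neg (not_lt_of_gt h), h2 i h, add_zero]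
    · rw [hD, if_neg (lt_irrefl _), add_zero]
      rcases lt_or_gt_of_ne hj' with h | h
      · rw [if_neg fun h' => lt_asymm h h'.1, add_zero]
        have h3 : j'.val < k := by
          rw [← hc]
          exact h
        exact (hσ j' h3).2.1 i0 (hsi j' h3).symm
      · rw [if_pos ⟨h, rfl⟩]
        ring
  · have hjk : j.val < k := by
      have h3 : j.val ≠ c.val := fun h => hjc (Fin.ext h)
      omega
    rw [hσ2 j hjc]
    obtain ⟨e1, e2, e3⟩ := hσ j hjk
    have hcj : ¬ c < j := by
      rw [Fin.lt_def]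
      omega
    have h4 : B (σ j) c = 0 := e3 c (fun h => hjc h.symm)
    refine ⟨?_, fun i hi => ?_, fun j' hj' => ?_⟩
    · rw [hD, h4, if_neg fun h' : c < j ∧ σ j = i0 => hcj h'.1]
      simpa using e1
    · rw [hD, e2 i hi, e2 i0 (hsi j hjk).symm, if_neg fun h' : c < j ∧ i = i0 => hcj h'.1]
      simp
    · rw [hD, if_neg fun h' : c < j' ∧ σ j = i0 => hsi j hjk h'.2, e3 j' hj', h4]
      simp

/-- The reduction. -/
theorem reduce [DecidableEq F] (g : GL (Fin n) F) (k : ℕ) (hk : k ≤ n) :
    ∃ h v : GL (Fin n) F, (h : Matrix (Fin n) (Fin n) F) ∈ US n F (fun i => i) ∧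
      (v : Matrix (Fin n) (Fin n) F) ∈ US n F (fun i => i) ∧
      Inv k ((h * g * v : GL (Fin n) F) : Matrix (Fin n) (Fin n) F) := by
  induction k with
  | zero =>
    exact ⟨1, 1, BRG.one_mem, BRG.one_mem, id, fun j hj => absurd hj (Nat.not_lt_zero _)⟩
  | succ k ih =>
    obtain ⟨h, v, hh, hv, hI⟩ := ih (Nat.le_of_succ_le hk)
    have hdet : ((h * g * v : GL (Fin n) F) : Matrix (Fin n) (Fin n) F).det ≠ 0 := by
      have := (Matrix.isUnit_iff_isUnit_det _).1 (h * g * v : GL (Fin n) F).isUnit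
      exact this.ne_zero
    obtain ⟨c, i0, hI'⟩ := step k hk _ hdet hI
    have hr := rowm_mem c i0 ((h * g * v : GL (Fin n) F) : Matrix (Fin n) (Fin n) F)
    have hcm := colm_mem c i0 ((h * g * v : GL (Fin n) F) : Matrix (Fin n) (Fin n) F)
    have hd : Monotone fun i : ℕ => i := monotone_id
    refine ⟨(BRG.isUnit hr).unit * h, v * (BRG.isUnit hcm).unit, BRG.mul_mem hd hr hh,
      BRG.mul_mem hd hv hcm, ?_⟩
    have e : ((((BRG.isUnit hr).unit * h * g * (v * (BRG.isUnit hcm).unit)) : GL (Fin n) F) :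
        Matrix (Fin n) (Fin n) F) =
        rowm c i0 ((h * g * v : GL (Fin n) F) : Matrix (Fin n) (Fin n) F) *
          ((h * g * v : GL (Fin n) F) : Matrix (Fin n) (Fin n) F) *
          colm c i0 ((h * g * v : GL (Fin n) F) : Matrix (Fin n) (Fin n) F) := by
      simp only [Units.val_mul, IsUnit.unit_spec, Matrix.mul_assoc]
    rw [e]
    exact hI'

end

end BR1

open Classical in
/-- BR1. -/
theorem t_BR1 : S_BR1 := by
  intro n F _ _ _
  let f : Equiv.Perm (Fin n) × (Fin n → Fˣ) → GL (Fin n) F := fun p =>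
    if h : IsUnit (BR1.mon p.1 p.2) then h.unit else 1
  refine ⟨Finset.univ.image f, ?_, fun g => ?_⟩
  · refine Finset.card_image_le.trans (le_of_eq ?_)
    rw [Finset.card_univ, Fintype.card_prod, Fintype.card_perm, Fintype.card_fun,
      Fintype.card_fin, Fintype.card_units, Nat.card_eq_fintype_card]
  · obtain ⟨h, v, hh, hv, hI⟩ := BR1.reduce g n le_rfl
    obtain ⟨σ, t, he⟩ := BR1.inv_mon hI
    refine ⟨h, v, hh, hv, Finset.mem_image.2 ⟨(σ, t), Finset.mem_univ _, ?_⟩⟩
    have h1 : IsUnit (BR1.mon σ t) := by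
      rw [← he]
      exact (h * g * v : GL (Fin n) F).isUnit
    change (if h : IsUnit (BR1.mon σ t) then h.unit else 1) = h * g * v
    rw [dif_pos h1]
    apply Units.ext
    exact he.symm

end

end FLC
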