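import Pool.Agent.FLC.StA

/-!
# FLC_MN: multiplicities are natural numbers, norms of character values
-/

set_option autoImplicit false

namespace FLC

open Pool.Agent.Lib_helper13 RSF Representation

noncomputable section

variable {Y : Type} [Group Y]

/-- a linear character as a representation -/
def mn_rep (θ : Y → ℂ) (h1 : θ 1 = 1) (h2 : ∀ g h, θ (g * h) = θ g * θ h) :
    Y →* ((Fin 1 → ℂ) →ₗ[ℂ] (Fin 1 → ℂ)) where
  toFun g := θ g • LinearMap.id
  map_one' := by
    rw [h1, one_smul]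
    rfl
  map_mul' g h := by
    rw [h2]
    ext x
    simp
    ring

theorem mn_isChr_lin (θ : Y → ℂ) (h1 : θ 1 = 1) (h2 : ∀ g h, θ (g * h) = θ g * θ h) :
    IsChr θ := by
  refine ⟨1, mn_rep θ h1 h2, ?_⟩
  funext g
  change LinearMap.trace ℂ (Fin 1 → ℂ) (θ g • LinearMap.id) = θ g
  rw [map_smul, LinearMap.trace_id, Module.finrank_fin_fun]
  simp

theorem mn_one {X : Y → ℂ} (h : IsChr X) : ∃ k : ℕ, X 1 = k := by
  obtain ⟨n, ρ, rfl⟩ := h
  refine ⟨n, ?_⟩
  rw [char_one, Module.finrank_fin_fun]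

theorem mn_norm_root [Fintype Y] {n : ℕ} (ρ : Representation ℂ Y (Fin n → ℂ)) (x : Y) (μ : ℂ)
    (hμ : μ ∈ (ρ x).charpoly.roots) : ‖μ‖ = 1 := by
  have h2 : (ρ x).charpoly.IsRoot μ := (Polynomial.mem_roots'.mp hμ).2
  rw [← Module.End.hasEigenvalue_iff_isRoot_charpoly] at h2
  obtain ⟨v, hv⟩ := h2.exists_hasEigenvector
  have h3 : (ρ x ^ Nat.card Y) v = μ ^ Nat.card Y • v := by
    rw [hv.pow_apply]
  rw [← map_pow, pow_card_eq_one', map_one, Module.End.one_apply] at h3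
  have h4 : μ ^ Nat.card Y = 1 := by
    have h5 : (μ ^ Nat.card Y - 1) • v = 0 := by
      rw [sub_smul, one_smul, ← h3, sub_self]
    rcases smul_eq_zero.mp h5 with h6 | h6
    · exact sub_eq_zero.mp h6
    · exact absurd h6 hv.2
  exact Complex.norm_eq_one_of_pow_eq_one h4 Nat.card_pos.ne'

theorem mn_norm [Fintype Y] {X : Y → ℂ} (h : IsChr X) (x : Y) : ‖X x‖ ≤ ‖X 1‖ := by
  obtain ⟨n, ρ, rfl⟩ := h
  rw [char_one, Module.finrank_fin_fun]
  have h1 : ρ.character x = LinearMap.trace ℂ _ (ρ x) := rfl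
  rw [h1, Module.End.trace_eq_sum_roots_charpoly_of_splits (IsAlgClosed.splits _)]
  have h2 : ((ρ x).charpoly.roots.map fun z => ‖z‖).sum ≤ (n : ℝ) := by
    have h3 : (ρ x).charpoly.roots.map (fun z => ‖z‖) =
        (ρ x).charpoly.roots.map (fun _ => (1 : ℝ)) :=
      Multiset.map_congr rfl fun μ hμ => mn_norm_root ρ x μ hμ
    rw [h3, Multiset.map_const', Multiset.sum_replicate, nsmul_eq_mul, mul_one]
    have h4 := Polynomial.card_roots' (ρ x).charpoly
    rw [LinearMap.charpoly_natDegree, Module.finrank_fin_fun] at h4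
    exact_mod_cast h4
  refine (norm_multiset_sum_le _).trans (h2.trans ?_)
  rw [Complex.norm_natCast]

theorem mn_central [Fintype Y] {X : Y → ℂ} (h : IsIrr X) (z : Y) (hz : ∀ g, z * g = g * z) :
    ‖X z‖ = ‖X 1‖ := by
  have h10 := h.one_ne_zero
  obtain ⟨n, ρ, hρ, rfl⟩ := h
  obtain ⟨c, hc⟩ := exists_scalar ρ hρ (ρ z) (fun g x => by
    have h1 : ρ z * ρ g = ρ g * ρ z := by
      rw [← map_mul, hz, map_mul]
    exact congrArg (fun f : Module.End ℂ (Fin n → ℂ) => f x) h1)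
  have h1 : ρ.character z = c * n := by
    change LinearMap.trace ℂ _ (ρ z) = _
    rw [hc, map_smul, LinearMap.trace_id, Module.finrank_fin_fun, smul_eq_mul]
  have h2 : ρ.character 1 = n := by
    rw [char_one, Module.finrank_fin_fun]
  rw [h2] at h10
  have h3 : c ^ Nat.card Y = 1 := by
    have h4 : ρ z ^ Nat.card Y = 1 := by
      rw [← map_pow, pow_card_eq_one', map_one]
    rw [hc] at h4
    have h5 : (c • (LinearMap.id : (Fin n → ℂ) →ₗ[ℂ] (Fin n → ℂ))) ^ Nat.card Y =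
        c ^ Nat.card Y • (1 : Module.End ℂ (Fin n → ℂ)) := by
      change (c • (1 : Module.End ℂ (Fin n → ℂ))) ^ Nat.card Y = _
      rw [smul_pow, one_pow]
    rw [h5] at h4
    have h6 := congrArg (LinearMap.trace ℂ (Fin n → ℂ)) h4
    rw [map_smul, LinearMap.trace_one, Module.finrank_fin_fun, smul_eq_mul] at h6
    exact mul_right_cancel₀ h10 (h6.trans (one_mul _).symm)
  rw [h1, h2, norm_mul, Complex.norm_eq_one_of_pow_eq_one h3 Nat.card_pos.ne', one_mul]

theorem t_MN : S_MN := by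
  classical
  intro G _ _ X hX
  refine ⟨fun H θ hθ => ?_, mn_one hX, mn_norm hX, fun h z hz => mn_central h z hz⟩
  have h1 : IsChr (fun x : H => X (H.subtype x)) := hX.comp H.subtype
  have h2 : IsChr (fun x : H => θ (x : G)) :=
    mn_isChr_lin _ hθ.1 fun g h => hθ.2 g g.2 h h.2
  obtain ⟨k, hk⟩ := h1.exists_ip h2
  refine ⟨k, ?_⟩
  rw [← hk]
  unfold mlt ip
  congr 1
  rw [← Finset.sum_filter, Finset.sum_subtype (Finset.univ.filter (fun g => g ∈ H))
    (p := fun g => g ∈ H) (fun x => by simp)]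
  refine Finset.sum_congr rfl fun g _ => ?_
  have h3 : θ (g : G) * θ ((g⁻¹ : H) : G) = 1 := by
    rw [← hθ.2 g g.2 _ (g⁻¹ : H).2, ← Subgroup.coe_mul, mul_inv_cancel]
    exact hθ.1
  change X g * (θ g)⁻¹ = X g * θ ((g⁻¹ : H) : G)
  rw [eq_inv_of_mul_eq_one_right h3]

end

end FLC
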